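import Pool.Agent.P.MP_12d50c_ag.Z.IfaceA

/-!
Proofs of the steps BER, BG, C0, C1, CA, CA0.
-/

section

/-! Step BER. -/

open MvPolynomial Function WithZero IsLocalRing
open Pool.Agent.P.MP_6f117a_ag (Place FF Model Reg)
open scoped IntermediateField Polynomial

namespace Pool.Agent.P.MP_12d50c_ag

theorem z_BER (hLIN : S_LIN) (hUG : S_UG) (hBG : Z_BG) :
    Z_BER := by
  intro k _ _ N D I J hI hD hIJ hJ
  obtain ⟨H, hH, hHJ⟩ := hJ.hom.exists_gen
  choose! dg hdg using hH
  obtain ⟨n, hn⟩ : ∃ n, ∀ h ∈ H, dg h < n :=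
    ⟨H.sup dg + 1, fun h hh => Nat.lt_succ_of_le (Finset.le_sup hh)⟩
  obtain ⟨W, hW⟩ : ∃ W : Submodule k (PP k N),
      W = J.restrictScalars k ⊓ homogeneousSubmodule (Fin (N + 1)) k n := ⟨_, rfl⟩
  obtain ⟨r, e, he⟩ : ∃ (r : ℕ) (e : Fin r → PP k N), Submodule.span k (Set.range e) = W := by
    have h1 : Module.Finite k (homogeneousSubmodule (Fin (N + 1)) k n) :=
      Module.Finite.iff_fg.2 (homogeneousSubmodule_fg _ _ _)
    exact Submodule.fg_iff_exists_fin_generating_family.1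
      (Module.Finite.iff_fg.1 (Submodule.finiteDimensional_of_le (hW ▸ inf_le_right)))
  obtain ⟨g, f, hf⟩ : ∃ (g : ℕ) (f : Fin g → PP k N), Ideal.span (Set.range f) = I :=
    Submodule.fg_iff_exists_fin_generating_family.1 (IsNoetherian.noetherian I)
  have h0 : ∀ h ∈ (H : Set (PP k N)), ∃ d < n, h.IsHomogeneous d ∧ ∀ r : PP k N,
      r.IsHomogeneous (n - d) → h * r ∈ Submodule.span k (Set.range e) := by
    intro h hh
    have a1 : h.IsHomogeneous (dg h) := hdg h hh
    refine ⟨dg h, hn h hh, a1, fun s hs => ?_⟩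
    rw [he, hW]
    refine ⟨J.mul_mem_right s (hHJ ▸ Ideal.subset_span hh), ?_⟩
    have a2 := a1.mul hs
    have a3 := hn h hh
    rwa [show dg h + (n - dg h) = n by omega] at a2
  have h1 : ∀ i : Fin (N + 1), ∃ Φ : MvPolynomial (Fin r) k, Φ ≠ 0 ∧
      ∀ w y l m, BERT.Sys f e 1 i w y l m → eval w Φ = 0 := by
    intro i
    obtain ⟨S, hS⟩ := BERT.exists_eqs f e 1 i
    obtain ⟨D', hD'⟩ := hUG k Empty (Fin r) (Fin (N + 1) ⊕ Fin g ⊕ Unit) S
    obtain ⟨Φ, a0, -, a2⟩ := hD' Empty.elim fun Ω _ _ w u hw h3 =>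
      hBG k N D n I J (Fin g) (Fin r) f e H i hI hD hIJ hJ hf hHJ h0 Ω w _ _ _ hw
        ((hS Ω _ w u).1 h3)
    exact ⟨Φ, a0, fun w y l m h3 =>
      a2 w (Sum.elim y (Sum.elim l fun _ => m)) ((hS k _ w _).2 h3)⟩
  choose Φ hΦ hΦ' using h1
  obtain ⟨w, hw⟩ := BERT.exists_eval_ne Φ hΦ
  have hs : ∑ j, w j • e j ∈ W := he ▸ Submodule.sum_mem _ fun j _ =>
    Submodule.smul_mem _ _ (Submodule.subset_span ⟨j, rfl⟩)
  rw [hW] at hs
  refine ⟨∑ j, w j • e j, hs.1, n, hs.2, fun y hy hs' => ?_⟩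
  subst hf
  obtain ⟨l, hl⟩ := BERT.sys_of_sing (h := 1) hLIN hy (by simp) hs'
  exact hw y.piv (hΦ' y.piv w _ _ _ hl)

end Pool.Agent.P.MP_12d50c_ag

end

section

/-! Step BG. -/

open MvPolynomial Function WithZero IsLocalRing
open Pool.Agent.P.MP_6f117a_ag (Place FF Model Reg)
open scoped IntermediateField Polynomial

namespace Pool.Agent.P.MP_12d50c_ag

namespace ZBG

theorem exists_mod {K V : Type} [Field K] [AddCommGroup V] [Module K V] [Module.Finite K V]
    (T S : Submodule K V) {r : ℕ} (h : Module.finrank K S + r ≤ Module.finrank K T) :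
    ∃ δ : Fin r → V, (∀ a, δ a ∈ T) ∧ ∀ c : Fin r → K, ∑ a, c a • δ a ∈ S → ∀ a, c a = 0 := by
  obtain ⟨C, hC⟩ := Submodule.exists_isCompl (S.comap T.subtype)
  have h1 := Submodule.finrank_add_eq_of_isCompl hC
  have h2 : Module.finrank K (S.comap T.subtype) ≤ Module.finrank K S := by
    rw [← Submodule.finrank_map_subtype_eq]
    exact Submodule.finrank_mono (Submodule.map_comap_le _ _)
  obtain ⟨d, hd⟩ := exists_linearIndependent_of_le_finrank (R := K) (M := C) (n := r) (by omega)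
  refine ⟨fun a => ((d a : T) : V), fun a => (d a : T).2, fun c hc => ?_⟩
  refine Fintype.linearIndependent_iff.1 hd c (Subtype.ext ?_)
  refine (Submodule.disjoint_def.1 hC.disjoint) _ ?_ (∑ a, c a • d a).2
  simpa using hc

theorem finrank_ker {K V : Type} [Field K] [AddCommGroup V] [Module K V] [Module.Finite K V]
    (T : Submodule K V) (φ : V →ₗ[K] K) :
    Module.finrank K T ≤ Module.finrank K (T ⊓ LinearMap.ker φ : Submodule K V) + 1 := by
  have a1 := LinearMap.finrank_range_add_finrank_ker φ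
  have a2 := Submodule.finrank_le (LinearMap.range φ)
  have a3 := Submodule.finrank_sup_add_finrank_inf_eq T (LinearMap.ker φ)
  have a4 := Submodule.finrank_le (T ⊔ LinearMap.ker φ)
  rw [Module.finrank_self] at a2
  omega

variable {k : Type} [Field k] {N : ℕ} {K : Type} [Field K] [Algebra k K]

theorem grad_comb (y : Fin (N + 1) → K) (p : PP k N) {r : ℕ} (c : Fin r → K)
    (δ : Fin r → Fin (N + 1) → K) : grad y p (∑ a, c a • δ a) = ∑ a, c a * grad y p (δ a) := by
  simp only [grad, Finset.sum_apply, Pi.smul_apply, smul_eq_mul, Finset.mul_sum]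
  rw [Finset.sum_comm]
  exact Finset.sum_congr rfl fun _ _ => Finset.sum_congr rfl fun _ _ => by ring

theorem lin {ι : Type} {e : ι → PP k N} {y η : Fin (N + 1) → K} {c : K}
    (h : ∀ j, c * aeval y (e j) + grad y (e j) η = 0) :
    ∀ t ∈ Submodule.span k (Set.range e), c * aeval y t + grad y t η = 0 := by
  intro t ht
  induction ht using Submodule.span_induction with
  | mem t ht =>
    obtain ⟨j, rfl⟩ := ht
    exact h j
  | zero => simp [grad]
  | add t t' _ _ c1 c2 =>
    rw [map_add, grad_add]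
    linear_combination c1 + c2
  | smul c t _ c1 =>
    rw [smul_eq_C_mul, map_mul, grad_mul, grad_C]
    linear_combination (aeval y (C c : PP k N)) * c1

theorem caseA {ι : Type} {e : ι → PP k N} {h : PP k N} {i : Fin (N + 1)} {n : ℕ}
    (he : ∀ r, h * (X r * X i ^ n) ∈ Submodule.span k (Set.range e)) {y η : Fin (N + 1) → K}
    (hone : y i = 1) (hh : aeval y h ≠ 0) (hηi : η i = 0) {c : K}
    (hc : ∀ j, c * aeval y (e j) + grad y (e j) η = 0) : c = 0 ∧ η = 0 := by
  have b2 : ∀ r, c * (aeval y h * y r) + (aeval y h * η r + y r * grad y h η) = 0 := by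
    intro r
    have := lin hc _ (he r)
    simpa only [grad_mul, grad_X, BERT.grad_X_pow y η hηi, hone, map_mul, map_pow, aeval_X,
      one_pow, mul_one, one_mul, mul_zero, zero_add] using this
  have b3 := b2 i
  rw [hηi, hone] at b3
  have b4 : η = 0 := funext fun r => (mul_eq_zero.1 (by
    linear_combination b2 r - y r * b3 : aeval y h * η r = 0)).resolve_left hh
  rw [b4] at b3
  exact ⟨by simpa [grad, hh] using b3, b4⟩

theorem core [IsAlgClosed k] (hGEQ : Z_GEQ) (hGT : Z_GT) {D n : ℕ} {I J : Ideal (PP k N)}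
    {G ι : Type} [Fintype G] [Fintype ι] {f : G → PP k N} {e : ι → PP k N} {H : Set (PP k N)}
    {i : Fin (N + 1)} (hI : IsSm D I) (hD : 3 ≤ D) (hJ : Gd J)
    (hf : Ideal.span (Set.range f) = I) (hH : Ideal.span H = J)
    (he : ∀ h ∈ H, ∃ d < n, h.IsHomogeneous d ∧ ∀ r : PP k N,
      r.IsHomogeneous (n - d) → h * r ∈ Submodule.span k (Set.range e))
    {Ω : Type} [Field Ω] [Algebra k Ω] (φ : K →ₐ[k] Ω) {y : Fin (N + 1) → K} {w : ι → Ω}
    {l : G → Ω} {m : Ω} (hs : BERT.Sys f e 1 i w (fun r => φ (y r)) l m)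
    (hd : Algebra.trdeg k (IntermediateField.adjoin k (Set.range fun r => φ (y r))) ≤ D) :
    ∃ (ρ : ℕ) (O : Type) (_ : Fintype O) (M : O → ι → K), ρ < Fintype.card O ∧
      Algebra.trdeg k (IntermediateField.adjoin k (Set.range fun r => φ (y r))) ≤ ρ ∧
      (∀ b : O → K, ∃ c : ι → K, ∀ o, ∑ j, M o j * c j = b o) ∧
      ∀ o, ∑ j, φ (M o j) * w j = 0 := by
  have hφ : Injective φ := φ.toRingHom.injective
  have hone : y i = 1 := hφ (hs.one.trans (map_one φ).symm)
  have hon : On I y := hf ▸ (on_span y).2 (Set.forall_mem_range.2 fun a =>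
    hφ (by rw [map_aeval', hs.on, map_zero]))
  have hT := (hGEQ k N D I hI.prime hI.hom hI.dim).1 K y (fun h0 => by simp [h0] at hone) hon
  have hv : ∀ δ ∈ Tan I y, ∑ j, φ (grad y (e j) δ) * w j = 0 := fun δ hδ =>
    BERT.vanish φ hs (δ := fun _ => δ) (fun _ b => hδ _ (hf ▸ Ideal.subset_span ⟨b, rfl⟩)) (some 0)
  have hv0 : ∑ j, φ (aeval y (e j)) * w j = 0 :=
    BERT.vanish φ hs (δ := fun _ => 0) (fun _ b => by simp [grad]) none
  by_cases hA : ∃ h ∈ H, aeval y h ≠ 0
  · obtain ⟨h, h1, h2⟩ := hA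
    obtain ⟨d, h3, -, h4⟩ := he h h1
    have h5 := finrank_ker (Tan I y) (LinearMap.proj i : (Fin (N + 1) → K) →ₗ[K] K)
    obtain ⟨δ, h6, h7⟩ := exists_mod (r := D)
      (Tan I y ⊓ LinearMap.ker (LinearMap.proj i : (Fin (N + 1) → K) →ₗ[K] K)) ⊥
      (by rw [finrank_bot]; omega)
    refine ⟨D, Option (Fin D), inferInstance,
      fun o j => o.elim (aeval y (e j)) fun a => grad y (e j) (δ a), by simp, hd,
      BERT.surj_of_rows _ fun a ha => ?_, fun o => ?_⟩
    · obtain ⟨b1, b2⟩ := caseA (h := h) (i := i) (n := n - d - 1) (c := a none)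
        (η := ∑ o, a (some o) • δ o) (fun r => h4 _ (by
          have := (isHomogeneous_X k r).mul ((isHomogeneous_X k i).pow (n - d - 1))
          rwa [show 1 + 1 * (n - d - 1) = n - d by omega] at this)) hone h2
        (by
          have : ∀ o, δ o i = 0 := fun o => (h6 o).2
          simp [this])
        fun j => by
          have := ha j
          rw [Fintype.sum_option] at this
          rw [grad_comb]
          exact this
      rintro (_ | o)
      · exact b1
      · exact h7 _ ((Submodule.mem_bot K).2 b2) o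
    · rcases o with _ | o
      · exact hv0
      · exact hv _ (h6 o).1
  · push Not at hA
    have hJy : On J y := hH ▸ (on_span y).2 hA
    obtain ⟨ρ, h1, h2⟩ := hGT k N J K Ω φ y i hJ hone hJy
    obtain ⟨δ, h6, h7⟩ := exists_mod (r := ρ + 1) (Tan I y) (Tan J y) (by omega)
    refine ⟨ρ, Fin (ρ + 1), inferInstance, fun o j => grad y (e j) (δ o), by simp, h1,
      BERT.surj_of_rows _ fun a ha => h7 a ?_, fun o => hv _ (h6 o)⟩
    subst hH
    refine (mem_Tan_span hJy).2 fun h hh => ?_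
    obtain ⟨d, -, -, h4⟩ := he h hh
    have h5 := lin (c := 0) (y := y) (η := ∑ o, a o • δ o)
      (fun j => by rw [zero_mul, zero_add, grad_comb]; exact ha j) _
      (h4 (X i ^ (n - d)) (by simpa using (isHomogeneous_X k i).pow (n - d)))
    simpa [grad_mul, hA h hh, hone] using h5

end ZBG

theorem z_BG (hTR : S_TR) (hGEQ : Z_GEQ) (hGT : Z_GT) :
    Z_BG := by
  intro k _ _ N D n I J G ι _ _ f e H i hI hD _ hJ hf hH he Ω _ _ w y l m hw hs
  have hon : On I y := hf ▸ (on_span y).2 (Set.forall_mem_range.2 hs.on)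
  obtain ⟨ρ, O, _, M, h1, h2, h3, h4⟩ := ZBG.core hGEQ hGT hI hD hJ hf hH he
    (IntermediateField.adjoin k (Set.range y)).val
    (y := fun r => ⟨y r, IntermediateField.subset_adjoin k _ ⟨r, rfl⟩⟩) hs
    (hTR.2.2 k Ω N D I y i hI.hom hI.dim.le hon hs.one)
  exact absurd (hTR.1 k Ω _ ρ ι O w M h2 hw h3 h4) h1.not_ge

end Pool.Agent.P.MP_12d50c_ag

end

section

/-! Step C0. -/

open MvPolynomial Function WithZero IsLocalRing
open Pool.Agent.P.MP_6f117a_ag (Place FF Model Reg)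
open scoped IntermediateField Polynomial

namespace Pool.Agent.P.MP_12d50c_ag

theorem z_C0 (hSUB : Z_SUB) (hPT : Z_PT) (hC1 : Z_C1) :
    Z_C0 := by
  intro F _ _ N
  have key : ∀ J : Ideal (PP F N), Hom J → ∃ T : Set (PrimeSpectrum (RR F N 0)), T.Finite ∧
      ∀ χ, Fac J 0 χ → (∀ z ∈ T, χ z = 0) → ∀ z ∈ Cv J 0, χ z = 0 := by
    intro J
    induction J using WellFoundedGT.induction with
    | ind J ih =>
    intro hJ
    by_cases hp : J.IsPrime
    · by_cases hX : ∃ i, X i ∉ J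
      · obtain ⟨i, hi⟩ := hX
        obtain ⟨T, hT, h⟩ := ih (J ⊔ Ideal.span {X i})
          (left_lt_sup.2 fun c => hi (c (Ideal.subset_span rfl)))
          (hJ.sup (wHom_span (by rintro _ rfl; exact ⟨_, isWeightedHomogeneous_X F _ i⟩)))
        refine ⟨T ∪ {z | z.asIdeal = cyl J 0}, hT.union (Set.Subsingleton.finite fun a ha b hb =>
          PrimeSpectrum.ext (ha.trans hb.symm)), fun χ h1 h2 z hz => ?_⟩
        by_cases c : z.asIdeal = cyl J 0
        · exact h2 z (.inr c)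
        · exact hC1 F N i J χ hp hJ h1 (h χ (((hSUB F N J _).2 le_sup_left).2.2.2 0 χ h1)
            fun y hy => h2 y (.inl hy)) z hz c hi
      · refine ⟨∅, Set.finite_empty, fun χ _ _ z hz => ?_⟩
        obtain ⟨i, hi⟩ := ((hPT F N).2.2 J).1 z hz |>.2.2.1
        exact absurd ⟨i, fun c => hi ((((hPT F N).2.2 J).1 z hz).2.2.2.1 c)⟩ hX
    · choose! T hT h using fun P (hP : P ∈ J.minimalPrimes) =>
        ih P (lt_of_le_of_ne hP.1.2 fun c => hp (c ▸ hP.1.1)) (hJ.minimalPrimes hP)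
      refine ⟨⋃ P ∈ J.minimalPrimes, T P,
        (Ideal.finite_minimalPrimes_of_isNoetherianRing _ J).biUnion hT, fun χ h1 h2 z hz => ?_⟩
      obtain ⟨P, hP, hle⟩ := Ideal.exists_minimalPrimes_le (((hPT F N).2.2 J).1 z hz).2.2.2.1
      exact h P hP χ (((hSUB F N J P).2 hP.1.2).2.2.2 0 χ h1)
        (fun y hy => h2 y (Set.mem_biUnion hP hy)) z
        ⟨⟨hz.1.prime, hz.1.hom, sup_le (Ideal.map_le_iff_le_comap.2 hle)
          (le_sup_right.trans hz.1.le), hz.1.rel⟩, hz.2⟩
  intro J hJ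
  obtain ⟨T, hT, h⟩ := key J hJ
  exact ⟨hT.toFinset, fun χ h1 h2 => h χ h1 fun z hz => h2 z (hT.mem_toFinset.2 hz)⟩

end Pool.Agent.P.MP_12d50c_ag

end

section

/-! Step C1. -/

open MvPolynomial Function WithZero IsLocalRing
open Pool.Agent.P.MP_6f117a_ag (Place FF Model Reg)
open scoped IntermediateField Polynomial

namespace Pool.Agent.P.MP_12d50c_ag

namespace ZC1

theorem le_one {a : WithBot ℕ∞} (h : a + 1 = 2) : a ≤ (1 : ℕ) := by
  rw [← ENat.WithBot.add_le_add_one_right_iff, h, Nat.cast_one, one_add_one_eq_two]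

theorem mem_Cv {k : Type} [Field k] {N : ℕ} {I J : Ideal (PP k N)} {z : PrimeSpectrum (RR k N 0)}
    (hz : z ∈ Cv I 0) (h : J ≤ z.asIdeal.comap (inc 0)) : z ∈ Cv J 0 :=
  ⟨⟨hz.1.prime, hz.1.hom, sup_le (Ideal.map_le_iff_le_comap.2 h) (le_sup_right.trans hz.1.le),
    hz.1.rel⟩, hz.2⟩

end ZC1

theorem z_C1 (hSUB : Z_SUB) (hPT : Z_PT) (hDV : Z_DV) (hCG : Z_CG) (hCUR : Z_CUR) :
    Z_C1 := by
  classical
  intro F _ _ N i P χ hP hH hF h0 z hz hne _
  obtain ⟨-, -, hpt⟩ := hPT F N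
  obtain ⟨z1, z2, -, z4, z5⟩ := (hpt P).1 z hz
  by_cases hX : X i ∈ z.asIdeal.comap (inc 0)
  · exact h0 z (ZC1.mem_Cv hz (sup_le z4 ((Ideal.span_singleton_le_iff_mem _).2 hX)))
  have hlt : P < z.asIdeal.comap (inc 0) := lt_of_le_of_ne z4 fun h => hne (by rw [h, z1])
  obtain ⟨p, hp, hpy⟩ := hCUR F N P _ hP hH inferInstance z2 hlt z5
  have hp0 : p ∈ Cu (⊥ : Ideal (PP F N)) := ⟨hp.1, bot_le, hp.2.2⟩
  have hFp : Fac p.asIdeal 0 χ := ((hSUB F N P p.asIdeal).2 hp.2.1).2.2.2 _ _ hF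
  obtain ⟨g, e, g1, g2, g3, g4⟩ := hCG F N i _ p hp0 inferInstance z2 hpy hX
  have hg' : (X i : PP F N) ^ e ∉ z.asIdeal.comap (inc 0) := fun h =>
    hX (Ideal.IsPrime.mem_of_pow_mem inferInstance _ h)
  have hd := hDV F N χ g (X i ^ e) e p hp0 hFp g1 (isHomogeneous_X_pow i e) g2
    (fun h => hg' (hpy.le h)) fun h => hg' (by simpa using Ideal.sub_mem _ g3 (hpy.le h))
  have hz0 : z ∈ Cv (⊥ : Ideal (PP F N)) 0 := ZC1.mem_Cv hz bot_le
  have hlen : ∀ (y : Ideal (PP F N)) [y.IsPrime] (f : PP F N), f ∉ y →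
      len (p.asIdeal ⊔ Ideal.span {f}) y = 0 := fun y _ f hf =>
    len_eq_zero_iff.2 fun h => hf (h (Ideal.mem_sup_right (Ideal.mem_span_singleton_self f)))
  rw [finsum_eq_single _ z, finsum_eq_if, if_pos hz0, hlen _ _ hg'] at hd
  · have hdom := isDomain_LQ hpy.le
    have hdim := dim_LQ F hpy.le
    rw [z5, hp.2.2] at hdim
    have : Ring.KrullDimLE 1 (LQ p.asIdeal (z.asIdeal.comap (inc 0))) :=
      Ring.krullDimLE_iff.2 (ZC1.le_one hdim)
    have h1 : len (p.asIdeal ⊔ Ideal.span {g}) (z.asIdeal.comap (inc 0)) ≠ ⊤ := by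
      rw [len_sup_span]
      exact Ring.ord_ne_top (mem_nonZeroDivisors_of_ne_zero fun h =>
        g2 ((toL_eq_zero_iff hpy.le).1 h))
    have h2 : len (p.asIdeal ⊔ Ideal.span {g}) (z.asIdeal.comap (inc 0)) ≠ 0 := fun h =>
      len_eq_zero_iff.1 h (sup_le hpy.le ((Ideal.span_singleton_le_iff_mem _).2 g3))
    refine (mul_eq_zero.1 hd).resolve_right ?_
    simp [h1, h2]
  · intro z' hz'
    rw [finsum_eq_if]
    split_ifs with hc
    swap
    · rfl
    obtain ⟨w1, w2, -, -, -⟩ := (hpt ⊥).1 z' hc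
    by_cases h1 : p.asIdeal ≤ z'.asIdeal.comap (inc 0)
    · by_cases h2 : X i ∈ z'.asIdeal.comap (inc 0)
      · rw [h0 z' (ZC1.mem_Cv hc (sup_le (hp.2.1.trans h1)
          ((Ideal.span_singleton_le_iff_mem _).2 h2))), zero_mul]
      · rw [hlen _ g fun h => hz' ?_, hlen _ (X i ^ e) fun h =>
          h2 (Ideal.IsPrime.mem_of_pow_mem inferInstance _ h), sub_self, mul_zero]
        apply PrimeSpectrum.ext
        rw [← w1, ← z1, g4 _ inferInstance w2 h1 h2 h]
    · rw [len_eq_zero_iff.2 fun h => h1 (le_sup_left.trans h),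
        len_eq_zero_iff.2 fun h => h1 (le_sup_left.trans h), sub_self, mul_zero]

end Pool.Agent.P.MP_12d50c_ag

end

section

/-! Step CA. -/

open MvPolynomial Function WithZero IsLocalRing
open Pool.Agent.P.MP_6f117a_ag (Place FF Model Reg)
open scoped IntermediateField Polynomial

namespace Pool.Agent.P.MP_12d50c_ag

namespace ZCA

variable {F A : Type} [Field F] [CommRing A] [Algebra F A]

theorem crt {I J K : Ideal A} (hI : K ≤ I) (hJ : K ≤ J) {e : A} (he : e ∈ I) (he' : e - 1 ∈ J)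
    [Module.Finite F (A ⧸ K)] :
    Module.finrank F (A ⧸ I) + Module.finrank F (A ⧸ J) ≤ Module.finrank F (A ⧸ K) := by
  have h1 : Module.Finite F (A ⧸ I) := Module.Finite.of_surjective
    (Ideal.Quotient.factorₐ F hI).toLinearMap (Ideal.Quotient.factor_surjective hI)
  have h2 : Module.Finite F (A ⧸ J) := Module.Finite.of_surjective
    (Ideal.Quotient.factorₐ F hJ).toLinearMap (Ideal.Quotient.factor_surjective hJ)
  rw [← Module.finrank_prod]
  refine LinearMap.finrank_le_finrank_of_surjective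
    (f := (Ideal.Quotient.factorₐ F hI).toLinearMap.prod (Ideal.Quotient.factorₐ F hJ).toLinearMap)
    ?_
  rintro ⟨x, y⟩
  obtain ⟨x, rfl⟩ := Ideal.Quotient.mk_surjective x
  obtain ⟨y, rfl⟩ := Ideal.Quotient.mk_surjective y
  refine ⟨Ideal.Quotient.mk K (x * (1 - e) + y * e), Prod.ext ?_ ?_⟩
  · show Ideal.Quotient.mk I (x * (1 - e) + y * e) = Ideal.Quotient.mk I x
    rw [Ideal.Quotient.eq, show x * (1 - e) + y * e - x = (y - x) * e by ring]
    exact I.mul_mem_left _ he
  · show Ideal.Quotient.mk J (x * (1 - e) + y * e) = Ideal.Quotient.mk J y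
    rw [Ideal.Quotient.eq, show x * (1 - e) + y * e - y = (y - x) * (e - 1) by ring]
    exact J.mul_mem_left _ he'

theorem stab [IsNoetherianRing A] (K m : Ideal A) [Module.Finite F (A ⧸ K)] (j : ℕ) :
    ∃ r, j ≤ r ∧ ∃ e : A, e - 1 ∈ m ^ r ∧ ∀ y ∈ m ^ r, e * y ∈ K := by
  have hA : IsArtinianRing (A ⧸ K) := IsArtinianRing.of_finite F (A ⧸ K)
  obtain ⟨n, hn⟩ := IsArtinian.monotone_stabilizes (R := A ⧸ K) (M := A ⧸ K)
    ⟨fun r => OrderDual.toDual ((m ^ r).map (Ideal.Quotient.mk K)),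
      fun r s h => Ideal.map_mono (Ideal.pow_le_pow_right h)⟩
  have h1 : (m ^ (n + j)).map (Ideal.Quotient.mk K) =
      (m ^ (n + j + (n + j))).map (Ideal.Quotient.mk K) :=
    (hn (n + j) (by omega)).symm.trans (hn (n + j + (n + j)) (by omega))
  have h2 : m ^ (n + j) ≤ K ⊔ (m ^ (n + j)) • (m ^ (n + j)) := by
    refine (Ideal.le_comap_map (f := Ideal.Quotient.mk K)).trans ?_
    rw [h1, Ideal.comap_map_of_surjective _ Ideal.Quotient.mk_surjective, ← RingHom.ker_eq_comap_bot,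
      Ideal.mk_ker, sup_comm, pow_add m (n + j) (n + j)]
    rfl
  obtain ⟨e, h3, h4⟩ := Submodule.exists_sub_one_mem_and_smul_le_of_fg_of_le_sup
    (IsNoetherian.noetherian (m ^ (n + j))) le_rfl h2
  exact ⟨n + j, by omega, e, h3, fun y hy => h4 (Submodule.smul_mem_pointwise_smul y e _ hy)⟩

/-- the elements that multiply `P` into `K` -/
def col (K P : Ideal A) : Ideal A where
  carrier := {x | ∀ y ∈ P, x * y ∈ K}
  add_mem' := fun ha hb y hy => by rw [add_mul]; exact K.add_mem (ha y hy) (hb y hy)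
  zero_mem' := fun y _ => by rw [zero_mul]; exact K.zero_mem
  smul_mem' := fun c x hx y hy => by
    rw [smul_eq_mul, mul_assoc]; exact K.mul_mem_left _ (hx y hy)

end ZCA

open ZCA in
theorem z_CA (hCA0 : Z_CA0) (hCA1 : Z_CA1) :
    Z_CA := by
  intro F A _ _ _ _ _ _ m hd hm
  have hN : IsNoetherianRing A := Algebra.FiniteType.isNoetherianRing F A
  have hm0 : m ≠ ⊥ := by
    rintro rfl
    have := ringKrullDim_eq_zero_of_isField (Ring.isField_iff_maximal_bot.2 hm)
    rw [hd] at this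
    exact one_ne_zero this
  obtain ⟨hfin, C, hC⟩ := hCA0 F A hd
  have key : ∀ j : ℕ, ∃ (a : A) (r : ℕ) (B : Ideal A), a ∈ m ^ j ∧ a ≠ 0 ∧ a ∈ B ∧
      (∀ x ∈ B, ∀ y ∈ m ^ r, x * y ∈ Ideal.span {a}) ∧
      (∀ x ∈ B, x ∈ m ^ r → x ∈ Ideal.span {a}) ∧
      Module.Finite F (A ⧸ B) ∧ Module.finrank F (A ⧸ B) ≤ C := by
    intro j
    obtain ⟨a, h1, h2, h3⟩ := hC (m ^ j) (pow_ne_zero j hm0)
    have h4 : Module.Finite F (A ⧸ Ideal.span {a}) :=
      hfin _ (by rwa [Ne, Ideal.span_singleton_eq_bot])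
    obtain ⟨r, h5, e, h6, h7⟩ := stab (F := F) (Ideal.span {a}) m j
    have h8 : Ideal.span {a} ≤ col (Ideal.span {a}) (m ^ r) := fun x hx y _ =>
      Ideal.mul_mem_right _ _ hx
    have h9 := crt (F := F) h8 ((Ideal.span_singleton_le_iff_mem _).2 h1) (e := e) h7
      (Ideal.pow_le_pow_right h5 h6)
    refine ⟨a, r, col (Ideal.span {a}) (m ^ r), h1, h2, h8 (Ideal.mem_span_singleton_self a),
      fun x hx => hx, fun x hx hx' => ?_, Module.Finite.of_surjective
        (Ideal.Quotient.factorₐ F h8).toLinearMap (Ideal.Quotient.factor_surjective h8), by omega⟩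
    rw [show x = e * x - x * (e - 1) by ring]
    exact Ideal.sub_mem _ (h7 x hx') (hx _ h6)
  choose a r B h1 h2 h3 h4 h5 h6 using key
  obtain ⟨B₀, hB⟩ : ∃ B₀, {j | B j = B₀}.Infinite := by
    by_contra h
    push Not at h
    refine Set.infinite_univ (α := ℕ) (((hCA1 F A C).biUnion fun J _ => h J).subset fun j _ => ?_)
    exact Set.mem_biUnion (h6 j) rfl
  obtain ⟨j, hj⟩ := hB.nonempty
  obtain ⟨k, hk⟩ : ∃ k, a j ∉ m ^ k := by
    by_contra h
    push Not at h
    have := Ideal.iInf_pow_eq_bot_of_isDomain m hm.ne_top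
    exact h2 j ((Submodule.mem_bot A).1 (this ▸ (Submodule.mem_iInf _).2 h))
  obtain ⟨j', hj', hlt⟩ := hB.exists_gt (r j + k)
  have hBB : B j' = B j := hj'.trans hj.symm
  obtain ⟨b, hb⟩ := Ideal.mem_span_singleton'.1
    (h5 j _ (hBB ▸ h3 j') (Ideal.pow_le_pow_right (by omega) (h1 j')))
  refine ⟨b, ?_, ?_, fun n hn hbn => ?_⟩
  · refine (Ideal.IsMaximal.mul_mem_pow m (n := k) (b := a j) ?_).resolve_right hk
    rw [hb]
    exact Ideal.pow_le_pow_right (by omega) (h1 j')
  · rintro rfl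
    exact h2 j' (by rw [← hb, zero_mul])
  · refine (hm.eq_of_le hn.ne_top (hn.isPrime.le_of_pow_le (n := r j') fun y hy => ?_)).symm
    obtain ⟨c, hc⟩ := Ideal.mem_span_singleton'.1 (h4 j' _ (hBB ▸ h3 j) y hy)
    rw [← hb, ← mul_assoc, mul_comm (a j)] at hc
    rw [← mul_right_cancel₀ (h2 j) hc]
    exact n.mul_mem_left _ hbn

end Pool.Agent.P.MP_12d50c_ag

end

section

/-! Step CA0. -/

open MvPolynomial Function WithZero IsLocalRing
open Pool.Agent.P.MP_6f117a_ag (Place FF Model Reg)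
open scoped IntermediateField Polynomial

namespace Pool.Agent.P.MP_12d50c_ag

namespace ZCA0

/-- An injective integral extension preserves the Krull dimension. -/
theorem dim_eq {R S : Type*} [CommRing R] [CommRing S] [Algebra R S]
    [Algebra.IsIntegral R S] (h : Function.Injective (algebraMap R S)) :
    ringKrullDim S = ringKrullDim R := by
  refine le_antisymm (Order.krullDim_le_of_strictMono (PrimeSpectrum.comap (algebraMap R S))
    fun I J hIJ => ?_) ?_
  · exact Ideal.IsIntegral.comap_lt_comap (R := R) (I := I.asIdeal) (J := J.asIdeal) hIJ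
  · refine iSup_le fun l => ?_
    obtain ⟨P, -, hP, h1⟩ := Ideal.exists_ideal_over_prime_of_isIntegral (S := S)
      (RelSeries.head l).asIdeal ⊥ (by
        rw [← RingHom.ker_eq_comap_bot, (RingHom.injective_iff_ker_eq_bot _).1 h]
        exact bot_le)
    have : P.LiesOver (RelSeries.head l).asIdeal := ⟨h1.symm⟩
    obtain ⟨L, hL, -⟩ := Ideal.exists_ltSeries_of_hasGoingUp l P
    rw [← hL]
    exact Order.LTSeries.length_le_krullDim L

section core

variable {F A : Type} [Field F] [CommRing A] [IsDomain A] [Algebra F A] [Algebra F[X] A]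
  [IsScalarTower F F[X] A]

theorem fin_quot {e : ℕ} (b : Module.Basis (Fin e) F[X] A) (J : Ideal A) (hJ : J ≠ ⊥) :
    Module.Finite F (A ⧸ J) := by
  have := Module.Finite.of_basis b
  exact Module.Finite.equiv (Ideal.quotientEquivDirectSum F b hJ).symm

omit [IsDomain A] [Algebra F A] [IsScalarTower F F[X] A] in
theorem norm_deg {e : ℕ} (b : Module.Basis (Fin e) F[X] A) :
    ∃ C1 : ℕ, ∀ (D : ℕ) (c : Fin e → F[X]), (∀ l, (c l).natDegree ≤ D) →
      (Algebra.norm F[X] (∑ l, c l • b l)).natDegree ≤ e * (D + C1) := by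
  classical
  obtain ⟨C1, hC1⟩ := (Set.finite_range fun t : Fin e × Fin e × Fin e =>
    (b.repr (b t.1 * b t.2.1) t.2.2).natDegree).bddAbove
  refine ⟨C1, fun D c hc => ?_⟩
  have hent : ∀ i j, (Algebra.leftMulMatrix b (∑ l, c l • b l) i j).natDegree ≤ D + C1 := by
    intro i j
    rw [Algebra.leftMulMatrix_eq_repr_mul, Finset.sum_mul, map_sum, Finsupp.finsetSum_apply]
    refine Polynomial.natDegree_sum_le_of_forall_le _ _ fun l _ => ?_
    rw [smul_mul_assoc, map_smul, Finsupp.smul_apply, smul_eq_mul]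
    refine Polynomial.natDegree_mul_le.trans (add_le_add (hc l) ?_)
    exact hC1 ⟨(l, j, i), rfl⟩
  rw [Algebra.norm_eq_matrix_det b, Matrix.det_apply]
  refine Polynomial.natDegree_sum_le_of_forall_le _ _ fun σ _ => ?_
  refine (Polynomial.natDegree_smul_le _ _).trans ?_
  refine (Polynomial.natDegree_prod_le _ _).trans ?_
  refine (Finset.sum_le_sum fun i _ => hent (σ i) i).trans ?_
  simp

theorem core {e : ℕ} (b : Module.Basis (Fin e) F[X] A) :
    ∃ C : ℕ, ∀ J : Ideal A, J ≠ ⊥ →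
      ∃ a ∈ J, a ≠ 0 ∧ Module.finrank F (A ⧸ Ideal.span {a}) ≤ Module.finrank F (A ⧸ J) + C := by
  classical
  obtain ⟨C1, hC1⟩ := norm_deg b
  refine ⟨e * C1, fun J hJ => ?_⟩
  have hfin := fin_quot b J hJ
  have he : 0 < e := by
    rcases Nat.eq_zero_or_pos e with rfl | h
    · exfalso
      have : Subsingleton A := b.repr.toEquiv.subsingleton
      exact not_subsingleton A this
    · exact h
  set r := Module.finrank F (A ⧸ J) with hr
  set D := r / e with hD
  let ψ : (Fin e → Polynomial.degreeLT F (D + 1)) →ₗ[F] A :=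
    { toFun := fun c => ∑ l, (c l : F[X]) • b l
      map_add' := fun c c' => by
        simp only [Pi.add_apply, Submodule.coe_add, add_smul, Finset.sum_add_distrib]
      map_smul' := fun t c => by
        simp only [Pi.smul_apply, Submodule.coe_smul, smul_assoc, RingHom.id_apply,
          Finset.smul_sum] }
  let φ : (Fin e → Polynomial.degreeLT F (D + 1)) →ₗ[F] (A ⧸ J) :=
    (Ideal.Quotient.mkₐ F J).toLinearMap ∘ₗ ψ
  have hb := Polynomial.degreeLT.basis F (D + 1)
  have hfd : Module.Finite F (Polynomial.degreeLT F (D + 1)) := Module.Finite.of_basis hb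
  have hdim : Module.finrank F (Fin e → Polynomial.degreeLT F (D + 1)) = e * (D + 1) := by
    rw [Module.finrank_pi_fintype, Finset.sum_const, Module.finrank_eq_card_basis hb]
    simp
  have hlt : r < Module.finrank F (Fin e → Polynomial.degreeLT F (D + 1)) := by
    rw [hdim, hD]
    exact Nat.lt_mul_div_succ r he
  have hker : LinearMap.ker φ ≠ ⊥ := LinearMap.ker_ne_bot_of_finrank_lt hlt
  obtain ⟨c, hc, hc0⟩ := Submodule.exists_mem_ne_zero_of_ne_bot hker
  have hmem : ψ c ∈ J := Ideal.Quotient.eq_zero_iff_mem.1 hc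
  have hne : ψ c ≠ 0 := by
    intro h0
    apply hc0
    have := Fintype.linearIndependent_iff.1 b.linearIndependent (fun l => (c l : F[X])) h0
    funext l
    exact Subtype.ext (this l)
  refine ⟨ψ c, hmem, hne, ?_⟩
  rw [finrank_quotient_span_eq_natDegree_norm b hne]
  have hdeg : ∀ l, (c l : F[X]).natDegree ≤ D := fun l => by
    have h1 := Polynomial.mem_degreeLT.1 (c l).2
    by_cases h0 : (c l : F[X]) = 0
    · rw [h0]; simp
    · rw [Polynomial.degree_eq_natDegree h0] at h1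
      have : (c l : F[X]).natDegree < D + 1 := by exact_mod_cast h1
      omega
  have h2 := hC1 D (fun l => (c l : F[X])) hdeg
  have h3 : e * D ≤ r := Nat.mul_div_le r e
  refine le_trans h2 ?_
  rw [mul_add]
  omega

end core

end ZCA0

theorem z_CA0 :
    Z_CA0 := by
  intro F A _ _ _ _ _ _ hdim
  obtain ⟨s, g, hg, hfin⟩ := exists_finite_inj_algHom_of_fg F A
  have hs : s = 1 := by
    let _ : Algebra (MvPolynomial (Fin s) F) A := g.toRingHom.toAlgebra
    have : Module.Finite (MvPolynomial (Fin s) F) A := hfin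
    rw [ZCA0.dim_eq (R := MvPolynomial (Fin s) F) hg,
      MvPolynomial.ringKrullDim_of_isNoetherianRing, ringKrullDim_eq_zero_of_field] at hdim
    simp only [Nat.card_eq_fintype_card, Fintype.card_fin, zero_add] at hdim
    exact_mod_cast hdim
  subst hs
  let ε : F[X] ≃ₐ[F] MvPolynomial (Fin 1) F := (MvPolynomial.uniqueAlgEquiv F (Fin 1)).symm
  let g' : F[X] →ₐ[F] A := g.comp ε.toAlgHom
  have hg' : Function.Injective g' := hg.comp ε.injective
  have hfin' : g'.Finite := AlgHom.Finite.comp hfin (AlgHom.Finite.of_surjective _ ε.surjective)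
  let _ : Algebra F[X] A := g'.toRingHom.toAlgebra
  have : IsScalarTower F F[X] A := IsScalarTower.of_algebraMap_eq fun x => (g'.commutes x).symm
  have : Module.Finite F[X] A := hfin'
  have : FaithfulSMul F[X] A := (faithfulSMul_iff_algebraMap_injective _ _).2 hg'
  have : Module.Free F[X] A := Module.free_of_finite_type_torsion_free'
  let b := Module.finBasis F[X] A
  exact ⟨fun J hJ => ZCA0.fin_quot b J hJ, ZCA0.core b⟩

end Pool.Agent.P.MP_12d50c_ag

end
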