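import Pool.Agent.P.MP_12d50c_ag.Z.IfaceA
import Pool.Agent.P.MP_e7d440_ag.Reg
import Pool.Agent.P.MP_12d50c_ag.TM3

/-!
Proofs of the steps CA1, CG, COMP, CUR, DV, FACT.
-/

section

/-! Step CA1. -/

open MvPolynomial Function WithZero IsLocalRing
open Pool.Agent.P.MP_6f117a_ag (Place FF Model Reg)
open scoped IntermediateField Polynomial

namespace Pool.Agent.P.MP_12d50c_ag

namespace ZCA1

theorem finite_hom (F A B : Type) [Field F] [CommRing A] [Algebra F A] [Algebra.FiniteType F A]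
    [Ring B] [Algebra F B] [Finite B] : Finite (A →ₐ[F] B) := by
  obtain ⟨S, hS⟩ := Algebra.FiniteType.out (R := F) (A := A)
  exact Finite.of_injective (fun φ (s : S) => φ s) fun φ ψ h =>
    AlgHom.ext_of_adjoin_eq_top hS fun s hs => congrFun h ⟨s, hs⟩

end ZCA1

theorem z_CA1 :
    Z_CA1 := by
  intro F A _ _ _ _ _ C
  have := fun d : ℕ => ZCA1.finite_hom F A (Matrix (Fin d) (Fin d) F)
  refine ((Set.finite_Iic C).biUnion fun d _ => Set.finite_range
    fun φ : A →ₐ[F] Matrix (Fin d) (Fin d) F => RingHom.ker φ).subset ?_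
  rintro J ⟨h1, h2⟩
  refine Set.mem_biUnion h2 ⟨(Algebra.leftMulMatrix (Module.finBasis F (A ⧸ J))).comp
    (Ideal.Quotient.mkₐ F J), Ideal.ext fun a => ?_⟩
  rw [RingHom.mem_ker, AlgHom.comp_apply,
    map_eq_zero_iff _ (Algebra.leftMulMatrix_injective _), Ideal.Quotient.mkₐ_eq_mk,
    Ideal.Quotient.eq_zero_iff_mem]

end Pool.Agent.P.MP_12d50c_ag

end

section

/-! Step CG. -/

open MvPolynomial Function WithZero IsLocalRing
open Pool.Agent.P.MP_6f117a_ag (Place FF Model Reg)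
open scoped IntermediateField Polynomial

namespace Pool.Agent.P.MP_12d50c_ag

namespace ZCG

theorem aff (hEX : S_EX) {F : Type} [Field F] {N : ℕ} {i : Fin (N + 1)} {L : Type} [Field L]
    [Algebra F L] {ξ : Fin (N + 1) → L} (h1 : ξ i = 1) {y : Ideal (PP F N)} (hy : y.IsPrime)
    (hh : Hom y) (hle : van F ξ ≤ y) (hi : X i ∉ y) :
    ∃ m : Ideal (PP F N ⧸ RingHom.ker (aeval ξ : PP F N →ₐ[F] L)), m.IsPrime ∧
      (∀ f d, f.IsHomogeneous d → (f ∈ y ↔ Ideal.Quotient.mk _ f ∈ m)) := by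
  obtain ⟨E, _, _, η, e1, e2, -⟩ := hEX F _ 1 y i hh rfl hi
  have hk : ∀ f ∈ RingHom.ker (aeval ξ : PP F N →ₐ[F] L), (aeval η : PP F N →ₐ[F] E) f = 0 := by
    intro f hf
    obtain ⟨d, f', a1, a2⟩ := exists_homog (w := 1) (i := i) rfl f
    rw [← a2 E η e2, ← mem_vanw_of_hom a1, e1]
    exact hle ((mem_vanw_of_hom a1).2 ((a2 L ξ h1).trans hf))
  refine ⟨RingHom.ker (Ideal.Quotient.liftₐ _ (aeval η) hk), RingHom.ker_isPrime _,
    fun f d hf => ?_⟩
  rw [← e1, mem_vanw_of_hom hf]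
  rfl

end ZCG

theorem z_CG (hEX : S_EX) (hDM : S_DM) (hCA : Z_CA) :
    Z_CG := by
  intro F _ _ N i y p hp hy hh hlt hi
  obtain ⟨L, _, _, ξ, e1, e2, e3⟩ := hEX F _ 1 p.asIdeal i hp.1 rfl fun c => hi (hlt.le c)
  obtain ⟨n, n1, n2⟩ := hDM F _ 1 L ξ i e3 rfl (e2 ▸ one_ne_zero)
  obtain ⟨n', d1, d2⟩ := Pool.Agent.P.MP_638e8a_ag.Cyc.Dim0.dim_ker (aeval ξ : PP F N →ₐ[F] L)
    (fun c => by
      obtain ⟨d, g, g', -, -, a, b⟩ := e3 c
      exact ⟨g, g', a, b.symm⟩) (RingHom.ker (aeval ξ : PP F N →ₐ[F] L)) fun _ => Iff.rfl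
  have hn : n' = 1 := by
    rw [e1, hp.2.2] at n2
    have a : 2 = n + 1 := by exact_mod_cast n2
    have b : n = n' := by exact_mod_cast n1.symm.trans d2
    omega
  rw [hn, Nat.cast_one] at d1
  have := RingHom.ker_isPrime (aeval ξ : PP F N →ₐ[F] L)
  have := Ring.krullDimLE_iff.2 (d1.le.trans_eq Nat.cast_one.symm)
  have h0 : ∀ (f : PP F N) d, f.IsHomogeneous d → (f ∈ p.asIdeal ↔
      Ideal.Quotient.mk (RingHom.ker (aeval ξ : PP F N →ₐ[F] L)) f = 0) := fun f d hf => by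
    rw [Ideal.Quotient.eq_zero_iff_mem, ← e1, mem_vanw_of_hom hf]
    rfl
  obtain ⟨m, m1, m2⟩ := ZCG.aff hEX e2 hy hh (e1.le.trans hlt.le) hi
  have hm : m ≠ ⊥ := fun c => hlt.not_ge (hh.le_of_hom fun f d hf h =>
    (h0 f d hf).2 (by simpa [c] using (m2 f d hf).1 h))
  obtain ⟨b, b1, b2, b3⟩ := hCA F _ m d1 (m1.isMaximal_of_ne_bot hm)
  obtain ⟨f, rfl⟩ := Ideal.Quotient.mk_surjective b
  obtain ⟨d, g, a1, a2⟩ := exists_homog (w := 1) (i := i) rfl f
  rw [← show Ideal.Quotient.mk (RingHom.ker (aeval ξ : PP F N →ₐ[F] L)) g = Ideal.Quotient.mk _ f from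
    Ideal.Quotient.eq.2 (by rw [RingHom.mem_ker, map_sub, a2 L ξ e2, sub_self])] at b1 b2 b3
  refine ⟨g, d, a1, fun c => b2 ((h0 g d a1).1 c), (m2 g d a1).2 b1, fun y' hy' hh' hle hi' hg => ?_⟩
  obtain ⟨m', k1, k2⟩ := ZCG.aff hEX e2 hy' hh' (e1.le.trans hle) hi'
  have hb := (k2 g d a1).1 hg
  obtain rfl := b3 m' (k1.isMaximal_of_ne_bot fun c => b2 (by simpa [c] using hb)) hb
  exact le_antisymm (hh'.le_of_hom fun f d hf h => (m2 f d hf).2 ((k2 f d hf).1 h))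
    (hh.le_of_hom fun f d hf h => (k2 f d hf).2 ((m2 f d hf).1 h))

end Pool.Agent.P.MP_12d50c_ag

end

section

/-! Step COMP. -/

open MvPolynomial Function WithZero IsLocalRing
open Pool.Agent.P.MP_6f117a_ag (Place FF Model Reg)
open scoped IntermediateField Polynomial

namespace Pool.Agent.P.MP_12d50c_ag

namespace ZCOMP

open Pool.Agent.P.MP_e7d440_ag

variable {R : Type} [CommRing R]

theorem dim_bot (A : Type) [CommRing A] : ringKrullDim (A ⧸ (⊥ : Ideal A)) = ringKrullDim A :=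
  ringKrullDim_eq_of_ringEquiv (RingEquiv.quotientBot A)

theorem dim_le_one [IsNoetherianRing R] {I T : Ideal R} [T.IsPrime] {a : R}
    (hT : T ∈ (I ⊔ Ideal.span {a}).minimalPrimes) : ringKrullDim (LQ I T) ≤ 1 := by
  have hI : I ≤ T := le_sup_left.trans hT.1.2
  have ha : a ∈ T := hT.1.2 (Ideal.mem_sup_right (Ideal.subset_span rfl))
  have := isLocalRing_LQ hI
  have hm : toL I T a ∈ maximalIdeal (LQ I T) := by
    rw [maximalIdeal_LQ]; exact (toL_mem_mQ hI).2 ha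
  have h1 := RegA.dim_le_succ (⊥ : Ideal (LQ I T)) hm
  have h2 : ringKrullDim (LQ I T ⧸ (⊥ ⊔ Ideal.span {toL I T a})) ≤ 0 := by
    refine RegA.dim_nonpos fun q hq hle => ?_
    have h3 : q ≤ maximalIdeal _ := le_maximalIdeal hq.ne_top
    refine le_antisymm h3 ?_
    rw [maximalIdeal_LQ] at h3 ⊢
    rw [mQ, Ideal.map_le_iff_le_comap]
    refine hT.2 ⟨inferInstance, sup_le (fun f hf => ?_) ?_⟩ fun f hf => ?_
    · rw [Ideal.mem_comap, toL_eq_zero hf]
      exact zero_mem _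
    · rw [Ideal.span_singleton_le_iff_mem]
      exact hle (Ideal.mem_sup_right (Ideal.subset_span rfl))
    · exact (toL_mem_mQ hI).1 (h3 hf)
  rw [dim_bot] at h1
  refine h1.trans ?_
  simpa using add_le_add_left h2 1

theorem eq_comap {J T q : Ideal R} [q.IsPrime] (hT : T ∈ J.minimalPrimes) (h : T ≤ q)
    (hb : (⊥ : Ideal (LQ J q)).IsPrime) : T = (⊥ : Ideal (LQ J q)).comap (toL J q) := by
  have h1 : (⊥ : Ideal (LQ J q)).comap (toL J q) ≤ T := fun f hf => by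
    have h2 : toL J q f ∈ (⊥ : Ideal R).map (toL J q) := by
      rw [Ideal.map_bot]; exact hf
    obtain ⟨s, h3, h4⟩ := toL_mem_map.1 h2
    rw [sup_bot_eq] at h4
    exact (hT.1.1.mem_or_mem (hT.1.2 h4)).resolve_left fun h5 => h3 (h h5)
  exact le_antisymm (hT.2 ⟨inferInstance, fun f hf => toL_eq_zero hf⟩ h1) h1

end ZCOMP

open ZCOMP Pool.Agent.P.MP_e7d440_ag in
theorem z_COMP (hNS0 : S_NS0) (hNSP : S_NSP) (hRG : Z_RG) (hGEQ : Z_GEQ) :
    Z_COMP := by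
  classical
  intro k _ _ N D I a e hI ha hG
  have hIp := hI.prime
  set I' := I ⊔ Ideal.span {a} with hI'
  have hh : Hom I' := hI.hom.sup (wHom_span (by rintro _ rfl; exact ⟨e, ha⟩))
  have haI' : a ∈ I' := Ideal.mem_sup_right (Ideal.subset_span rfl)
  have haI : a ∉ I := fun h => by
    obtain ⟨y, hy⟩ := ((hNSP k N).2 I hIp hI.hom hI.rel).2.1
    exact hG y hy (sing_of_mem hy h)
  have hdim : ∀ T ∈ I'.minimalPrimes, ringKrullDim (PP k N ⧸ T) = (D + 1 : ℕ) := by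
    intro T hT
    have := hT.1.1
    have hle : I ≤ T := le_sup_left.trans hT.1.2
    have h1 := M3.dim_lt (lt_of_le_of_ne hle fun h => haI (h ▸ hT.1.2 haI'))
    have h2 := dim_LQ k hle
    rw [hI.dim, Nat.cast_add (D + 1), Nat.cast_one] at h1 h2
    refine le_antisymm (ENat.WithBot.add_le_add_one_right_iff.1 h1)
      (ENat.WithBot.add_le_add_one_right_iff.1 ?_)
    rw [← h2, add_comm]
    exact add_le_add_right (dim_le_one hT) _
  have htan : ∀ y : NP k N, On I' y.1 → Module.finrank k (Tan I' y.1) ≤ D + 1 := by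
    intro y hy
    have hy1 : On I y.1 := fun f hf => hy f (Ideal.mem_sup_left hf)
    have h1 : Tan I' y.1 < Tan I y.1 := by
      refine lt_of_le_of_ne (Tan_anti le_sup_left) fun h => hG y hy1 ⟨hy a haI', fun δ hδ => ?_⟩
      rw [← h] at hδ
      exact hδ a haI'
    have h2 := Submodule.finrank_lt_finrank_of_lt h1
    have h3 := hI.le k y.1 y.ne_zero hy1
    omega
  have hfin : (PrimeSpectrum.asIdeal ⁻¹' I'.minimalPrimes).Finite :=
    (Ideal.finite_minimalPrimes_of_isNoetherianRing _ I').preimage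
      fun _ _ _ _ h => PrimeSpectrum.ext h
  have hmem : ∀ T, T ∈ hfin.toFinset ↔ T.asIdeal ∈ I'.minimalPrimes := fun T =>
    hfin.mem_toFinset
  refine ⟨hfin.toFinset, fun T hT => ?_, fun P hP h1 h2 => ?_, fun T hT T' hT' y hy hy' => ?_⟩
  · rw [hmem] at hT
    refine ⟨(hGEQ k N D _ T.isPrime (hh.minimalPrimes hT) (hdim _ hT)).2 fun y hy => ?_,
      le_sup_left.trans hT.1.2⟩
    exact (Submodule.finrank_mono (Tan_anti hT.1.2)).trans (htan y fun f hf => hy f (hT.1.2 hf))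
  · obtain ⟨T, hT, h3⟩ := Ideal.exists_minimalPrimes_le (I := I') (J := P)
      (sup_le h1 ((Ideal.span_singleton_le_iff_mem _).2 h2))
    exact ⟨⟨T, hT.1.1⟩, (hmem _).2 hT, h3⟩
  · rw [hmem] at hT hT'
    have h1 : T.asIdeal ≤ van k y.1 := (Hom.on_iff (hh.minimalPrimes hT)).1 hy
    have h1' : T'.asIdeal ≤ van k y.1 := (Hom.on_iff (hh.minimalPrimes hT')).1 hy'
    have hy0 : On I' y.1 := fun f hf => hy f (hT.1.2 hf)
    obtain ⟨l, hl, hl'⟩ := hRG k N D I' y hh hy0 (htan y hy0)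
    have := isLocalRing_LQ (hT.1.2.trans h1)
    have h2 := dim_LQ k h1
    rw [hNS0.1 k N y, hdim _ hT, Nat.cast_add, Nat.cast_one, ENat.WithBot.add_one_cancel] at h2
    have hb : (⊥ : Ideal (LQ I' (van k y.1))).IsPrime := by
      refine RegA.isPrime_of D ⊥ l hl (by rw [bot_sup_eq, hl', maximalIdeal_LQ]) ?_
      rw [dim_bot, ← h2]
      exact ringKrullDim_le_of_surjective (Ideal.Quotient.factor (Ideal.map_mono hT.1.2))
        (Ideal.Quotient.factor_surjective _)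
    exact PrimeSpectrum.ext ((eq_comap hT h1 hb).trans (eq_comap hT' h1' hb).symm)

end Pool.Agent.P.MP_12d50c_ag

end

section

/-! Step CUR. -/

open MvPolynomial Function WithZero IsLocalRing
open Pool.Agent.P.MP_6f117a_ag (Place FF Model Reg)
open scoped IntermediateField Polynomial

namespace Pool.Agent.P.MP_12d50c_ag

namespace ZCUR

theorem dim_le {R : Type} [CommRing R] [IsNoetherianRing R] {p y : Ideal R} [y.IsPrime]
    (h : p ≤ y) {f : R} (hf : f ∈ y)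
    (hm : ∀ q : Ideal R, q.IsPrime → p ≤ q → f ∈ q → q ≤ y → y ≤ q) :
    ringKrullDim (LQ p y) ≤ 1 := by
  have := isLocalRing_LQ h
  have h1 := Ideal.height_le_one_of_isPrincipal_of_mem_minimalPrimes (Ideal.span {toL p y f})
    (maximalIdeal (LQ p y)) ⟨⟨inferInstance, (Ideal.span_singleton_le_iff_mem _).2
      (by rw [maximalIdeal_LQ]; exact (toL_mem_mQ h).2 hf)⟩, fun q hq _ => by
      have hq1 := hq.1
      rw [maximalIdeal_LQ, mQ, Ideal.map_le_iff_le_comap]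
      refine hm _ inferInstance (fun a ha => ?_)
        (Ideal.mem_comap.2 ((Ideal.span_singleton_le_iff_mem q).1 hq.2)) fun a ha => ?_
      · rw [Ideal.mem_comap, toL_eq_zero ha]
        exact q.zero_mem
      · by_contra hc
        exact hq1.ne_top (Ideal.eq_top_of_isUnit_mem _ ha (isUnit_toL hc))⟩
  rw [← IsLocalRing.maximalIdeal_height_eq_ringKrullDim]
  exact WithBot.coe_le_coe.2 h1

end ZCUR

theorem z_CUR :
    Z_CUR := by
  intro k _ N P y hP hPh hy hyh hlt hd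
  obtain ⟨p, ⟨hp1, hp2, hp3, hp4⟩, hmax⟩ := set_has_maximal_iff_noetherian.2
    (inferInstance : IsNoetherianRing (PP k N))
    {p : Ideal (PP k N) | p.IsPrime ∧ Hom p ∧ P ≤ p ∧ p < y} ⟨P, hP, hPh, le_rfl, hlt⟩
  obtain ⟨f, d, hf, hfy, hfp⟩ : ∃ (f : PP k N) (d : ℕ), IsWeightedHomogeneous 1 f d ∧ f ∈ y ∧
      f ∉ p := by
    by_contra hc
    push Not at hc
    exact hp4.not_ge (WHom.le_of_hom hyh hc)
  refine ⟨⟨p, hp1⟩, ⟨hp2, hp3, M3.two_of _ ?_ ?_⟩, hp4⟩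
  · have h1 := M3.dim_lt hp4
    rwa [hd] at h1
  · have h1 := dim_LQ k hp4.le
    have h2 : ringKrullDim (LQ p y) ≤ 1 := by
      refine ZCUR.dim_le hp4.le hfy fun q hq h3 h4 h5 => ?_
      obtain ⟨q', h6, h7⟩ := Ideal.exists_minimalPrimes_le
        (I := p ⊔ Ideal.span {f}) (J := q)
        (sup_le h3 ((Ideal.span_singleton_le_iff_mem _).2 h4))
      have h8 : WHom 1 (p ⊔ Ideal.span {f}) :=
        WHom.sup hp2 (wHom_span fun g hg => ⟨d, by rw [Set.mem_singleton_iff.1 hg]; exact hf⟩)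
      have h9 : p < q' := lt_of_le_of_ne (le_sup_left.trans h6.1.2) fun e =>
        hfp (e ▸ h6.1.2 (Ideal.mem_sup_right (Ideal.mem_span_singleton_self f)))
      by_contra hc
      exact hmax q' ⟨h6.1.1, h8.minimalPrimes h6, hp3.trans h9.le,
        lt_of_le_of_ne (h7.trans h5) fun e => hc (e ▸ h7)⟩ h9
    show ringKrullDim (PP k N ⧸ p) + 1 ≤ 2 + 1
    rw [← h1, hd]
    have h3 : ringKrullDim (LQ p y) + 1 ≤ 1 + 1 := add_le_add h2 le_rfl
    exact add_le_add (h3.trans (le_of_eq one_add_one_eq_two)) le_rfl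

end Pool.Agent.P.MP_12d50c_ag

end

section

/-! Step DV. -/

open MvPolynomial Function WithZero IsLocalRing
open Pool.Agent.P.MP_6f117a_ag (Place FF Model Reg)
open scoped IntermediateField Polynomial

namespace Pool.Agent.P.MP_12d50c_ag

theorem z_DV (hG12 : S_G12) (hMF : Z_MF) :
    Z_DV := by
  intro k _ N χ g g' e p hp hχ h1 h2 h3 h4 h5
  obtain ⟨Q, hQ⟩ := (hG12 k N ⊥ p hp).2 (g - g') (-g') e (h1.sub h2) h2.neg h5
  have ev : ∀ (v : Fin 2) (f : PP k N), vtx v (inc 1 f) = f := fun v f => by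
    rw [vtx, aeval_rename]
    exact aeval_X_left_apply f
  have e0 : vtx 0 (grEq (g - g') (-g')) = g' := by
    rw [grEq, map_sub, map_mul, ev, ev]
    simp [vtx]
  have e1 : vtx 1 (grEq (g - g') (-g')) = g := by
    rw [grEq, map_sub, map_mul, ev, ev]
    simp [vtx]
  obtain ⟨h6, h7⟩ := hMF k N Q _ p hp hQ (e0.symm ▸ h4) (e1.symm ▸ h3)
  refine Eq.trans (finsum_mem_congr rfl fun z hz => ?_) (hχ Q hQ.cv h6).symm
  rw [h7 z hz, e0, e1]
  push_cast
  rfl

end Pool.Agent.P.MP_12d50c_ag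

end

section

/-! Step FACT. -/

open MvPolynomial Function WithZero IsLocalRing
open Pool.Agent.P.MP_6f117a_ag (Place FF Model Reg)
open scoped IntermediateField Polynomial

namespace Pool.Agent.P.MP_12d50c_ag

namespace ZFACT

variable {α β : Type} {G : α → Prop} {Z : Set β} {b : α → β → ℚ}

theorem exists_d (h : ∀ Q, G Q → {z ∈ Z | b Q z ≠ 0}.Finite) : ∃ d : α → β →₀ ℚ, ∀ Q, G Q →
    (∀ z ∈ Z, d Q z = b Q z) ∧ (∀ z ∉ Z, d Q z = 0) ∧
      ∀ χ : β → ℚ, ∑ᶠ z ∈ Z, χ z * b Q z = Finsupp.linearCombination ℚ χ (d Q) := by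
  classical
  have h1 : ∀ Q, ∃ d : β →₀ ℚ, G Q → (∀ z ∈ Z, d z = b Q z) ∧ ∀ z ∉ Z, d z = 0 := fun Q => by
    by_cases hQ : G Q
    · refine ⟨Finsupp.ofSupportFinite (fun z => if z ∈ Z then b Q z else 0)
        ((h Q hQ).subset fun z hz => by simpa using hz), fun _ => ⟨fun z hz => ?_, fun z hz => ?_⟩⟩
      · exact if_pos hz
      · exact if_neg hz
    · exact ⟨0, fun h => absurd h hQ⟩
  choose d hd using h1
  refine ⟨d, fun Q hQ => ⟨(hd Q hQ).1, (hd Q hQ).2, fun χ => ?_⟩⟩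
  have hs : ∀ z ∈ (d Q).support, z ∈ Z := fun z hz => by
    by_contra h0
    exact Finsupp.mem_support_iff.1 hz ((hd Q hQ).2 z h0)
  rw [finsum_cond_eq_sum_of_cond_iff (t := (d Q).support), Finsupp.linearCombination_apply,
    Finsupp.sum]
  · exact Finset.sum_congr rfl fun z hz => by rw [(hd Q hQ).1 z (hs z hz), smul_eq_mul, mul_comm]
  · refine fun {z} hz => ⟨fun h0 => ?_, hs z⟩
    rw [Finsupp.mem_support_iff, (hd Q hQ).1 z h0]
    exact right_ne_zero_of_mul hz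

theorem comb (d : α → β →₀ ℚ) (c : α →₀ ℚ) (z : β) :
    Finsupp.linearCombination ℚ d c z = c.sum fun Q r => r * d Q z := by
  rw [Finsupp.linearCombination_apply, Finsupp.sum, Finsupp.sum, Finsupp.finsetSum_apply]
  rfl

theorem one (h : ∀ Q, G Q → {z ∈ Z | b Q z ≠ 0}.Finite) (φ : α → ℚ)
    (H : ∀ c : α →₀ ℚ, (∀ Q ∈ c.support, G Q) → (∀ z ∈ Z, (c.sum fun Q r => r * b Q z) = 0) →
      (c.sum fun Q r => r * φ Q) = 0) :
    ∃ χ : β → ℚ, ∀ Q, G Q → φ Q = ∑ᶠ z ∈ Z, χ z * b Q z := by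
  obtain ⟨d, hd⟩ := exists_d h
  let V := Finsupp.supported ℚ ℚ {Q | G Q}
  have h1 : Finsupp.linearCombination ℚ φ ∘ₗ V.subtype ∈
      LinearMap.range (Finsupp.linearCombination ℚ d ∘ₗ V.subtype).dualMap := by
    rw [LinearMap.range_dualMap_eq_dualAnnihilator_ker, Submodule.mem_dualAnnihilator]
    intro c hc
    have hG : ∀ Q ∈ c.1.support, G Q := fun Q hQ => c.2 hQ
    refine H c.1 hG fun z hz => ?_
    have h2 : Finsupp.linearCombination ℚ d c.1 z = 0 := DFunLike.congr_fun hc z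
    rw [← h2, comb]
    exact Finsupp.sum_congr fun Q hQ => by rw [(hd Q (hG Q hQ)).1 z hz]
  obtain ⟨l, hl⟩ := h1
  refine ⟨fun z => l (Finsupp.single z 1), fun Q hQ => ?_⟩
  have h2 := LinearMap.congr_fun hl ⟨Finsupp.single Q 1, Finsupp.single_mem_supported _ _ hQ⟩
  have h3 : Finsupp.linearCombination ℚ (fun z => l (Finsupp.single z 1)) = l := by
    ext z
    simp
  rw [(hd Q hQ).2.2, h3]
  simpa using h2.symm

theorem two (h : ∀ Q, G Q → {z ∈ Z | b Q z ≠ 0}.Finite) (φ : α → ℚ) (c : α →₀ ℚ) (χ : β → ℚ)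
    (hG : ∀ Q ∈ c.support, G Q) (H : ∀ Q ∈ c.support, φ Q = ∑ᶠ z ∈ Z, χ z * b Q z)
    (h0 : ∀ z ∈ Z, (c.sum fun Q r => r * b Q z) = 0) : (c.sum fun Q r => r * φ Q) = 0 := by
  obtain ⟨d, hd⟩ := exists_d h
  have h1 : Finsupp.linearCombination ℚ d c = 0 := by
    ext z
    rw [comb, Finsupp.zero_apply]
    by_cases hz : z ∈ Z
    · rw [← h0 z hz]
      exact Finsupp.sum_congr fun Q hQ => by rw [(hd Q (hG Q hQ)).1 z hz]
    · exact Finset.sum_eq_zero fun Q hQ => by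
        beta_reduce
        rw [(hd Q (hG Q hQ)).2.1 z hz, mul_zero]
  have h2 := congrArg (Finsupp.linearCombination ℚ χ) h1
  rw [map_zero, Finsupp.linearCombination_apply ℚ c, Finsupp.sum, map_sum] at h2
  rw [← h2]
  exact Finset.sum_congr rfl fun Q hQ => by
    beta_reduce
    rw [map_smul, smul_eq_mul, H Q hQ, (hd Q (hG Q hQ)).2.2]

end ZFACT

theorem z_FACT (hFINB : S_FINB) (hSUB : Z_SUB) :
    Z_FACT := by
  intro k _ N I
  have h : ∀ Q : PrimeSpectrum (RR k N 1), Q ∈ Cv I 1 ∧ Prp I Q.asIdeal →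
      {z ∈ Cv I 0 | (bdA Q.asIdeal z : ℚ) ≠ 0}.Finite := fun Q hQ =>
    (hFINB k N 0 I Q hQ.1 hQ.2).2.subset fun z hz => ⟨hz.1, by exact_mod_cast hz.2⟩
  refine ⟨fun hT φ hφ => ?_, fun H φ hφ c hc h0 => ?_⟩
  · obtain ⟨χ, hχ⟩ := ZFACT.one (G := fun Q => Q ∈ Cv I 1 ∧ Prp I Q.asIdeal) (Z := Cv I 0)
      (b := fun Q z => (bdA Q.asIdeal z : ℚ)) h
      (fun Q => φ Q.asIdeal) (hT φ hφ)
    refine ⟨χ, fun Q hQ hQ' => (hχ Q ⟨hQ, hQ'⟩).trans ?_⟩
    refine finsum_mem_inter_support_eq' _ _ _ fun z hz =>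
      ⟨fun h1 => ((hSUB k N ⊥ I).2 bot_le).1 0 h1, fun h1 => ?_⟩
    exact ((hSUB k N ⊥ I).1 0 Q.asIdeal z (by exact_mod_cast right_ne_zero_of_mul hz)).2
      hQ.1.le h1
  · obtain ⟨ψ, hψ⟩ := H φ hφ c.support hc
    exact ZFACT.two (G := fun Q => Q ∈ Cv I 1 ∧ Prp I Q.asIdeal) (Z := Cv I 0)
      (b := fun Q z => (bdA Q.asIdeal z : ℚ)) h (fun Q => φ Q.asIdeal) c
      (fun z => ψ z.asIdeal) hc hψ h0

end Pool.Agent.P.MP_12d50c_ag

end
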