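import Pool.Agent.P.MP_12d50c_ag.Z.IfaceA
import Pool.Agent.P.MP_12d50c_ag.TM3
import Pool.Agent.P.MP_e7d440_ag.Reg

/-!
Proofs of the steps FC, GEQ, GT, IND, LINE, MF.
-/

section

/-! Step FC. -/

open MvPolynomial Function WithZero IsLocalRing
open Pool.Agent.P.MP_6f117a_ag (Place FF Model Reg)
open scoped IntermediateField Polynomial

namespace Pool.Agent.P.MP_12d50c_ag

theorem z_FC (hVP0 : S_VP0) (hLS : S_LS) :
    Z_FC := by
  intro k _ N
  refine ⟨fun m n g hg => ?_, fun n j W Q _ => ?_⟩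
  · obtain ⟨hcyl, -, hhom, -, -, hsk⟩ := (hVP0 k N n).1 m g
    obtain ⟨hsurj, hker⟩ := hsk hg
    have hX : ∀ j ∉ Set.range g, X (.inr j) ∈ RingHom.ker (smap g : RR k N n →ₐ[k] RR k N m) :=
      fun j hj => hker ▸ Ideal.subset_span ⟨j, hj, rfl⟩
    refine ⟨fun Q => ⟨fun j hj => ?_, ?_, fun Q' h => ?_⟩, fun I P hP hj => ?_⟩
    · rw [Ideal.mem_comap, RingHom.mem_ker.1 (hX j hj)]
      exact Q.zero_mem
    · exact M3.dim_comap ((smap g : RR k N n →ₐ[k] RR k N m) : RR k N n →+* RR k N m) hsurj Q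
    · intro a ha
      obtain ⟨b, rfl⟩ := hsurj a
      exact h ha
    · have hk : RingHom.ker (smap g : RR k N n →ₐ[k] RR k N m) ≤ P := by
        rw [hker, Ideal.span_le]
        rintro _ ⟨j, hj', rfl⟩
        exact hj j hj'
      have hc : (P.map (smap g)).comap (smap g : RR k N n →ₐ[k] RR k N m) = P := by
        rw [Ideal.comap_map_of_surjective _ hsurj]
        exact sup_eq_left.2 hk
      have := hP.prime
      refine ⟨P.map (smap g), ⟨Ideal.map_isPrime_of_surjective hsurj hk, hhom P hP.hom,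
        hcyl I ▸ Ideal.map_mono hP.le, ?_⟩, hc⟩
      obtain ⟨i, hi⟩ := hP.rel
      refine ⟨i, fun h => hi ?_⟩
      rw [← hc, Ideal.mem_comap]
      have e : (smap g : RR k N n →ₐ[k] RR k N m) (X (.inl i)) = X (.inl i) := aeval_X _ _
      rwa [e]
  · obtain ⟨-, -, -, -, -, hsk⟩ := (hVP0 k N (n + 1)).1 n j.succAbove
    obtain ⟨hsurj, hker⟩ := hsk Fin.succAbove_right_injective
    refine (hLS _ _ ((smap j.succAbove : RR k N (n + 1) →ₐ[k] RR k N n) :
      RR k N (n + 1) →+* RR k N n) W Q hsurj).trans (M3.len_eq ?_ rfl)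
    congr 1
    refine hker.trans ?_
    rw [Fin.range_succAbove, compl_compl, Set.image_singleton]

end Pool.Agent.P.MP_12d50c_ag

end

section

/-! Step GEQ. -/

open MvPolynomial Function WithZero IsLocalRing
open Pool.Agent.P.MP_6f117a_ag (Place FF Model Reg)
open scoped IntermediateField Polynomial

namespace Pool.Agent.P.MP_12d50c_ag

namespace ZGEQ

theorem dim_le {R : Type} [CommRing R] [IsNoetherianRing R] [IsLocalRing R] (l : List R)
    (h : Ideal.ofList l = maximalIdeal R) : ringKrullDim R ≤ l.length := by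
  have h1 := MP_e7d440_ag.RegA.dim_le_length (⊥ : Ideal R) l (by rw [bot_sup_eq, h])
  rwa [ringKrullDim_eq_of_ringEquiv (RingEquiv.quotientBot R)] at h1

theorem rat (hNS0 : S_NS0) (hRG : Z_RG) {k : Type} [Field k] {N d : ℕ} {I : Ideal (PP k N)}
    (hp : I.IsPrime) (hI : Hom I) (hd : ringKrullDim (PP k N ⧸ I) = (d + 1 : ℕ)) (y : NP k N)
    (hy : On I y.1) : d + 1 ≤ Module.finrank k (Tan I y.1) := by
  have h0 : 0 < Module.finrank k (Tan I y.1) :=
    Module.finrank_pos_iff_exists_ne_zero.2 ⟨⟨y.1, self_mem_Tan hI hy⟩,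
      fun c => y.ne_zero (congrArg Subtype.val c)⟩
  obtain ⟨r, hr⟩ : ∃ r, Module.finrank k (Tan I y.1) = r + 1 := ⟨_, (Nat.succ_pred_eq_of_pos h0).symm⟩
  obtain ⟨l, h1, h2⟩ := hRG k N r I y hI hy hr.le
  have hle := hI.on_iff.1 hy
  have := isLocalRing_LQ hle
  have h3 := dim_le l (h2.trans maximalIdeal_LQ.symm)
  have h4 := dim_LQ k hle
  rw [hNS0.1 k N y, hd] at h4
  have h5 : ((d + 1 : ℕ) : WithBot ℕ∞) ≤ ((r + 1 : ℕ) : WithBot ℕ∞) := by
    rw [← h4, ← h1]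
    push_cast
    gcongr
  rw [hr]
  exact_mod_cast h5

theorem rel {k : Type} [Field k] {N : ℕ} {Ω : Type} [Field Ω] [Algebra k Ω]
    {y : Fin (N + 1) → Ω} (hy : y ≠ 0) : Rel (van k y) := by
  obtain ⟨i, hi⟩ := Function.ne_iff.1 hy
  refine ⟨i, ?_⟩
  rw [mem_van_of_hom (isHomogeneous_X k _), aeval_X]
  exact hi

theorem onm {k : Type} [Field k] {N : ℕ} {J J' : Ideal (PP k N)} (h : J ≤ J') {y : NP k N}
    (hy : On J' y.1) : On J y.1 := fun f hf => hy f (h hf)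

end ZGEQ

theorem z_GEQ (hNS0 : S_NS0) (hNSP : S_NSP) (hSEMI : Z_SEMI) (hRG : Z_RG) :
    Z_GEQ := by
  intro k _ _ N d I hp hI hd
  refine ⟨fun Ω _ _ y hy0 hy => ?_, fun h => ⟨hp, hI, hd, fun Ω _ _ y hy0 hy => ?_⟩⟩
  · obtain ⟨M, e, h1, h2, h3⟩ := hSEMI k N I Ω y hI hy
    have h4 := ((hNSP k N).2 (van k y) inferInstance (wHom_vanw y) (ZGEQ.rel hy0)).1 M e h1
    obtain ⟨y', h5, h6⟩ : ∃ y' : NP k N, On (van k y) y'.1 ∧ aeval y'.1 M ≠ 0 := by
      by_contra c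
      push Not at c
      exact h2 ((mem_van_of_hom h1).1 (h4 c))
    have h7 := ZGEQ.onm (hI.on_iff.1 hy) h5
    exact (ZGEQ.rat hNS0 hRG hp hI hd y' h7).trans (h3 k y'.1 h7 h6)
  · obtain ⟨y', h5⟩ := ((hNSP k N).2 (van k y) inferInstance (wHom_vanw y) (ZGEQ.rel hy0)).2.1
    have h7 := ZGEQ.onm (hI.on_iff.1 hy) h5
    obtain ⟨M, e, h1, h2, h3⟩ := hSEMI k N I k y'.1 hI h7
    exact (h3 Ω y hy fun c => h2 (h5 M ((mem_van_of_hom h1).2 c))).trans (h y' h7)

end Pool.Agent.P.MP_12d50c_ag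

end

section

/-! Step GT. -/

open MvPolynomial Function WithZero IsLocalRing
open Pool.Agent.P.MP_6f117a_ag (Place FF Model Reg)
open scoped IntermediateField Polynomial

namespace Pool.Agent.P.MP_12d50c_ag

theorem z_GT (hNS0 : S_NS0) (hNSP : S_NSP) (hTR : S_TR) (hSEMI : Z_SEMI) :
    Z_GT := by
  intro k _ _ N J K Ω _ _ _ _ φ y i hJ hi hy
  have hp : Hom (van k y) := wHom_vanw y
  have hle : J ≤ van k y := hJ.hom.on_iff.1 hy
  have hrel : Rel (van k y) := ⟨i, by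
    rw [mem_van_of_hom (isHomogeneous_X k _), aeval_X, hi]; exact one_ne_zero⟩
  have h1 : ∀ y₀ : NP k N, On (van k y) y₀.1 →
      Module.finrank K (Tan J y) ≤ Module.finrank k (Tan J y₀.1) := fun y₀ h => by
    obtain ⟨M, e, h2, h3, h4⟩ := hSEMI k N J k y₀.1 hJ.hom fun f hf => h f (hle hf)
    exact h4 K y hy fun h5 => h3 (h M ((mem_van_of_hom h2).2 h5))
  have h2 : On (van k y) fun r => φ (y r) := hp.on_iff.2 (vanw_le_map φ y)
  have h3 : φ (y i) = 1 := by rw [hi, map_one]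
  by_cases hf : {y₀ : NP k N | On (van k y) y₀.1}.Finite
  · obtain ⟨y₀, h4⟩ := (hNSP k N).2 _ inferInstance hp hrel |>.2.2.1 hf
    have h5 : On (van k y) y₀.1 := hp.on_iff.2 h4.le
    refine ⟨0, hTR.2.2 k Ω N 0 _ _ i hp ?_ h2 h3,
      (h1 y₀ h5).trans (hJ.three y₀ fun f hf => h5 f (hle hf))⟩
    rw [h4, hNS0.1 k N y₀]; rfl
  · obtain ⟨y₀, h4, h5⟩ := (Set.Infinite.sdiff hf hJ.two).nonempty
    have h6 : Module.finrank k (Tan J y₀.1) ≤ 2 :=
      not_lt.1 fun h => h5 ⟨fun f hf => h4 f (hle hf), h⟩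
    exact ⟨1, hTR.2.2 k Ω N 1 _ _ i hp (hJ.dim _ inferInstance hle) h2 h3,
      Nat.succ_le_succ ((h1 y₀ h4).trans h6)⟩

end Pool.Agent.P.MP_12d50c_ag

end

section

/-! Step IND. -/

open MvPolynomial Function WithZero IsLocalRing
open Pool.Agent.P.MP_6f117a_ag (Place FF Model Reg)
open scoped IntermediateField Polynomial

namespace Pool.Agent.P.MP_12d50c_ag

theorem z_IND (hTK : S_TK) (hCL : S_CL) (hGEQ : Z_GEQ) (hBER : Z_BER) (hCOMP : Z_COMP)
    (hSUB : Z_SUB) (hFACT : Z_FACT) (hPT : Z_PT) :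
    Z_IND := by
  intro k _ _ p _ _ N d I J φ hk hd
  classical
  induction d, hd using Nat.le_induction generalizing I J with
  | base =>
    intro hI hle _ hφ
    obtain ⟨χ, h⟩ := (hFACT k N I).1
      (hTK k p N I hk ⟨hI, (hGEQ k N 2 I hI.prime hI.hom hI.dim).1⟩) φ hφ
    exact ⟨χ, ((hSUB k N I J).2 hle).2.2.2 φ χ h⟩
  | succ d hd ih =>
    intro hI hle hJ hφ
    obtain ⟨a, ha, n, h1, h2⟩ := hBER k N _ I J hI (by omega) hle hJ
    obtain ⟨S, h3, h4, h5⟩ := hCOMP k N d I a n hI h1 h2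
    have h6 : ∀ T : PrimeSpectrum (PP k N), ∃ χ, T ∈ S → Fac (J ⊔ T.asIdeal) φ χ := fun T => by
      by_cases hT : T ∈ S
      · obtain ⟨χ, h⟩ := ih T.asIdeal (J ⊔ T.asIdeal) (h3 T hT).1 le_sup_right
          (hJ.mono le_sup_left (hJ.hom.sup (h3 T hT).1.hom))
          (((hSUB k N I _).2 (h3 T hT).2).2.2.1 φ hφ)
        exact ⟨χ, fun _ => h⟩
      · exact ⟨0, fun h => (hT h).elim⟩
    choose χ hχ using h6
    refine ⟨fun z => if h : ∃ T ∈ S, z ∈ Cv T.asIdeal 0 then χ h.choose z else 0,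
      fun Q hQ hP => ?_⟩
    have h7 := ((hCL k N J).1 1 _ hQ.1).1
    obtain ⟨T, hT, h8⟩ := h4 (Q.asIdeal.comap (inc 1)) inferInstance (hle.trans h7) (h7 ha)
    have h9 : cyl (J ⊔ T.asIdeal) 1 ≤ Q.asIdeal :=
      sup_le (Ideal.map_le_iff_le_comap.2 (sup_le h7 h8)) (le_sup_right.trans hQ.1.le)
    rw [hχ T hT Q ⟨⟨hQ.1.prime, hQ.1.hom, h9, hQ.1.rel⟩, hQ.2⟩
      ((((hSUB k N J _).2 le_sup_left).2.1 1 _ h9).1 hP)]
    refine finsum_mem_congr rfl fun z hz => ?_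
    by_cases h0 : bdA Q.asIdeal z = 0
    · simp [h0]
    have h10 : z ∈ Cv T.asIdeal 0 := ((hSUB k N ⊥ T.asIdeal).1 0 _ z h0).2
      (sup_le (Ideal.map_le_iff_le_comap.2 h8) (le_sup_right.trans hQ.1.le)) hz
    have h11 : ∃ T ∈ S, z ∈ Cv T.asIdeal 0 := ⟨T, hT, h10⟩
    obtain ⟨y, h12, h13⟩ := ((hPT k N).2.2 _).2.2 inferInstance z h10
    obtain ⟨y', h14, h15⟩ := ((hPT k N).2.2 _).2.2 inferInstance z h11.choose_spec.2
    have h16 := congrArg (Ideal.comap (inc 0)) (h13.symm.trans h15)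
    simp only [(hPT k N).1] at h16
    obtain rfl := NP.eq_of_van_le h16.le
    simp only [dif_pos h11]
    rw [h5 _ h11.choose_spec.1 T hT y h14 h12]

end Pool.Agent.P.MP_12d50c_ag

end

section

/-! Step LINE. -/

open MvPolynomial Function WithZero IsLocalRing
open Pool.Agent.P.MP_6f117a_ag (Place FF Model Reg)
open scoped IntermediateField Polynomial

namespace Pool.Agent.P.MP_12d50c_ag

namespace ZLINE

theorem len_eq {R : Type} [CommRing R] (J : Ideal R) {q q' : Ideal R} [q.IsPrime] [q'.IsPrime]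
    (h' : q = q') : len J q = len J q' := by
  subst h'
  rfl

variable {k : Type} [Field k] [IsAlgClosed k] {N : ℕ}

open scoped Classical in
theorem single (hCURVE : S_CURVE) (hPT : Z_PT) {p : Ideal (PP k N)} (hp : IsSm 1 p) {y : NP k N}
    {g : PP k N} {z : PrimeSpectrum (RR k N 0)} (hg : g.IsHomogeneous 1) (hgp : g ∉ p)
    (hy : ∀ x : NP k N, On p x.1 → aeval x.1 g = 0 → x = y) (hz : z.asIdeal = cyl (van k y.1) 0) :
    1 ≤ degC p g ∧ aeval y.1 g = 0 ∧ On p y.1 ∧ ∀ w ∈ Cv (⊥ : Ideal (PP k N)) 0,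
      (len (p ⊔ Ideal.span {g}) (w.asIdeal.comap (inc 0))).toNat =
        if w = z then degC p g else 0 := by
  obtain ⟨-, c1, -, c2, -⟩ := hCURVE k N p hp
  have h0 : ∀ x, x ≠ y → ordI p x g = 0 := fun x hx =>
    (c1 g 1 x hg).2 fun h => hx (hy x h.1 h.2)
  have h1 : degC p g = (ordI p y g).toNat :=
    finsum_eq_single _ y fun x hx => by rw [h0 x hx]; rfl
  have h2 := (c2 g 1 hg hgp).2.2
  have h3 : On p y.1 ∧ aeval y.1 g = 0 := by
    by_contra h
    rw [h1, (c1 g 1 y hg).2 h] at h2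
    exact absurd h2 (by decide)
  refine ⟨h2, h3.2, h3.1, fun w hw => ?_⟩
  obtain ⟨x, -, hx⟩ := ((hPT k N).2.2 ⊥).2.2 inferInstance w hw
  have h4 : w.asIdeal.comap (inc 0) = van k x.1 := by rw [hx, (hPT k N).1]
  rw [len_eq _ h4]
  split_ifs with h
  · have h5 : van k x.1 = van k y.1 := by rw [← h4, h, hz, (hPT k N).1]
    rw [h1, ← NP.eq_of_van_le h5.le]
    rfl
  · have h5 : x ≠ y := fun e => h (PrimeSpectrum.ext (by rw [hx, hz, e]))
    exact congrArg ENat.toNat (h0 x h5)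

theorem mem_Cv (hNS0 : S_NS0) (hPT : Z_PT) {y : NP k N} {z : PrimeSpectrum (RR k N 0)}
    (hz : z.asIdeal = cyl (van k y.1) 0) : z ∈ Cv (⊥ : Ideal (PP k N)) 0 := by
  obtain ⟨z0, h1, h2⟩ := ((hPT k N).2.2 ⊥).2.1 (van k y.1) inferInstance (wHom_vanw _)
    ⟨_, y.X_piv_notMem⟩ bot_le (hNS0.1 k N y)
  rwa [show z = z0 from PrimeSpectrum.ext (hz.trans h2.symm)]

end ZLINE

theorem z_LINE (hNS0 : S_NS0) (hCURVE : S_CURVE) (hPT : Z_PT) (hDV : Z_DV) :
    Z_LINE := by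
  classical
  intro k _ _ N p χ y y' g g' z z' hp hF hg hg' hgp hgp' hy hy' hz hz'
  by_cases hzz : z = z'
  · rw [hzz]
  obtain ⟨a1, a2, a3, a4⟩ := ZLINE.single hCURVE hPT hp hg hgp hy hz
  obtain ⟨-, -, -, b4⟩ := ZLINE.single hCURVE hPT hp hg' hgp' hy' hz'
  have hd := ((hCURVE k N p hp).2.2.2.2.2 g g' 1 hg hg' hgp hgp').1
  have hne : g - g' ∉ p := fun h => by
    have h1 := a3 _ h
    rw [map_sub, a2, zero_sub, neg_eq_zero] at h1
    exact hzz (PrimeSpectrum.ext (by rw [hz, hz', hy' y a3 h1]))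
  have h := hDV k N χ g g' 1 ⟨p, hp.prime⟩ ⟨hp.hom, bot_le, hp.dim⟩ hF hg hg' hgp hgp' hne
  have m1 := ZLINE.mem_Cv hNS0 hPT hz
  have m2 := ZLINE.mem_Cv hNS0 hPT hz'
  rw [finsum_mem_congr rfl (g := fun w => χ w * (((if w = z then degC p g else 0 : ℕ) : ℚ) -
      ((if w = z' then degC p g' else 0 : ℕ) : ℚ))) fun w hw => by rw [← a4 w hw, ← b4 w hw],
    finsum_mem_eq_sum_of_inter_support_eq (t := {z, z'}), Finset.sum_pair hzz, if_pos rfl,
    if_pos rfl, if_neg hzz, if_neg (Ne.symm hzz), ← hd] at h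
  · have h1 : (degC p g : ℚ) ≠ 0 := Nat.cast_ne_zero.2 (by omega)
    refine mul_right_cancel₀ h1 ?_
    push_cast at h
    linear_combination h
  · ext w
    simp only [Set.mem_inter_iff, mem_support, Finset.coe_insert, Finset.coe_singleton,
      Set.mem_insert_iff, Set.mem_singleton_iff]
    refine ⟨fun h => ⟨?_, h.2⟩, fun h => ⟨?_, h.2⟩⟩
    · by_contra h1
      push Not at h1
      simp [h1.1, h1.2] at h
    · rcases h.1 with rfl | rfl
      exacts [m1, m2]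

end Pool.Agent.P.MP_12d50c_ag

end

section

/-! Step MF. -/

open MvPolynomial Function WithZero IsLocalRing
open Pool.Agent.P.MP_6f117a_ag (Place FF Model Reg)
open scoped IntermediateField Polynomial

namespace Pool.Agent.P.MP_12d50c_ag

namespace ZMF

open M3

variable {k : Type} [Field k] {N : ℕ}

theorem le_Q {Q : PrimeSpectrum (RR k N 1)} {G : RR k N 1} {p : Ideal (PP k N)}
    (hG : Gen1 p Q G) : cyl p 1 ⊔ Ideal.span {G} ≤ Q.asIdeal := by
  by_contra h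
  have h1 := hG.one
  rw [len_eq_zero_iff.2 h] at h1
  exact zero_ne_one h1

theorem notMem (hVP0 : S_VP0) {Q : PrimeSpectrum (RR k N 1)} {G : RR k N 1}
    {p : PrimeSpectrum (PP k N)} (hp : p ∈ Cu (⊥ : Ideal (PP k N))) (hG : Gen1 p.asIdeal Q G)
    (j : Fin 2) (hv : vtx (j.succAbove 0) G ∉ p.asIdeal) : X (Sum.inr j) ∉ Q.asIdeal := fun h => by
  obtain ⟨hinc, -, hcyl⟩ := (hVP0 k N 1).2.2.2.2 (j.succAbove 0)
  let f : RR k N 1 →+* PP k N := (vtx (j.succAbove 0) : RR k N 1 →ₐ[k] PP k N)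
  have hvs : Surjective f := fun a => ⟨_, hinc a⟩
  have hcm : p.asIdeal.comap f = cyl p.asIdeal 1 ⊔ Ideal.span {X (Sum.inr j)} := by
    have := (hcyl p.asIdeal).2
    rwa [compl_eq, Set.image_singleton] at this
  have hpp := p.isPrime
  have h1 : p.asIdeal.comap f ≤ Q.asIdeal :=
    hcm.le.trans (sup_le (le_sup_left.trans (le_Q hG)) ((Ideal.span_singleton_le_iff_mem _).2 h))
  have h2 := eq_of_dim h1 ((dim_comap f hvs _).trans hp.2.2) hG.cv.2
  exact hv (show G ∈ p.asIdeal.comap f from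
    h2 ▸ le_Q hG (Ideal.mem_sup_right (Ideal.mem_span_singleton_self G)))

theorem main (hLS : S_LS) (hAS : S_AS) (hVP0 : S_VP0) (hVP : S_VP) (hCL : S_CL)
    {Q : PrimeSpectrum (RR k N 1)} {G : RR k N 1} (y : Ideal (PP k N)) [y.IsPrime] (hy : Rel y)
    (hy1 : ringKrullDim (PP k N ⧸ y) = 1) {z : PrimeSpectrum (RR k N 0)}
    {p : PrimeSpectrum (PP k N)} (hp : p ∈ Cu (⊥ : Ideal (PP k N))) (hG : Gen1 p.asIdeal Q G)
    (hz : z.asIdeal = cyl y 0) (V : PrimeSpectrum (RR k N 1)) (hV : V.asIdeal = cyl y 1)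
    (j : Fin 2) (hv : vtx (j.succAbove 0) G ∉ p.asIdeal) :
    (len (p.asIdeal ⊔ Ideal.span {vtx (j.succAbove 0) G}) y).toNat =
      (len (Q.asIdeal.map (smap j.succAbove)) z.asIdeal).toNat +
        (len (cyl p.asIdeal 1 ⊔ Ideal.span {G}) V.asIdeal).toNat := by
  classical
  obtain ⟨hA, -, -, hC, hD⟩ := hVP0 k N 1
  obtain ⟨-, -, -, -, hsv, hsk⟩ := hA 0 j.succAbove
  obtain ⟨hsurj, hker⟩ := hsk Fin.succAbove_right_injective
  set v := j.succAbove 0 with hvdef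
  obtain ⟨hinc, -, hcyl⟩ := hD v
  set x : RR k N 1 := X (Sum.inr j) with hx
  set J := cyl p.asIdeal 1 ⊔ Ideal.span {G} with hJ
  have hcm : ∀ q : Ideal (PP k N), q.comap (vtx v) = cyl q 1 ⊔ Ideal.span {x} := fun q => by
    rw [(hcyl q).2, hvdef, compl_eq, Set.image_singleton]
  have hvs : Surjective (vtx v : RR k N 1 →ₐ[k] PP k N) := fun f => ⟨_, hinc f⟩
  let f : RR k N 1 →+* PP k N := (vtx v : RR k N 1 →ₐ[k] PP k N)
  let g : RR k N 1 →+* RR k N 0 := (smap j.succAbove : RR k N 1 →ₐ[k] RR k N 0)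
  let n : Ideal (RR k N 1) := y.comap f
  have hn : n = V.asIdeal ⊔ Ideal.span {x} := by rw [hV]; exact hcm _
  have hpp := p.isPrime
  have hcp := (hVP k N 1).1 p.asIdeal hpp
  have hcpp := hcp.1
  have hdc : ringKrullDim (RR k N 1 ⧸ cyl p.asIdeal 1) = 2 + 1 := by
    rw [hcp.2, hp.2.2]; rfl
  have hdn : ringKrullDim (RR k N 1 ⧸ n) = 1 := (dim_comap f hvs _).trans hy1
  have hdV : ringKrullDim (RR k N 1 ⧸ V.asIdeal) = 2 := by
    rw [hV, ((hVP k N 1).1 y inferInstance).2, hy1]; rfl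
  have hdQ : ringKrullDim (RR k N 1 ⧸ Q.asIdeal) = 2 := hG.cv.2
  -- step A
  have hAq : len (Q.asIdeal.map (smap j.succAbove)) z.asIdeal =
      len (Q.asIdeal ⊔ Ideal.span {x}) n := by
    refine (hLS _ _ g Q.asIdeal z.asIdeal hsurj).trans (len_eq ?_ ?_)
    · congr 1
      refine hker.trans ?_
      rw [Fin.range_succAbove, compl_compl, Set.image_singleton]
    · have h0 := (((hVP0 k N 0).2.2.2.2 0).2.2 y).2
      have h1 : ({0}ᶜ : Set (Fin (0 + 1))) = ∅ := by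
        ext i
        revert i
        decide
      rw [h1, Set.image_empty, Ideal.span_empty, sup_bot_eq] at h0
      rw [hz, ← h0]
      ext a
      exact iff_of_eq (congrArg (· ∈ y) (hsv 0 a))
  -- step B
  have hB : len (p.asIdeal ⊔ Ideal.span {vtx v G}) y = len (J ⊔ Ideal.span {x}) n := by
    refine Eq.trans (len_eq ?_ rfl) ((hLS _ _ f J y hvs).trans (len_eq ?_ rfl))
    · rw [hJ, Ideal.map_sup, Ideal.map_span, Set.image_singleton]
      exact congrArg (· ⊔ _) (hcyl _).1.symm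
    · have h1 : RingHom.ker f = cyl ⊥ 1 ⊔ Ideal.span {x} := hcm ⊥
      have h2 : cyl (⊥ : Ideal (PP k N)) 1 ≤ J :=
        le_sup_of_le_left (sup_le_sup_right (Ideal.map_mono bot_le) _)
      rw [h1, ← sup_assoc, sup_eq_left.2 h2]
  have hGc : G ∉ cyl p.asIdeal 1 := fun h =>
    hv (show G ∈ p.asIdeal.comap (vtx v) from (hcm _).ge (Ideal.mem_sup_left h))
  have hGJ : G ∈ J := Ideal.mem_sup_right (Ideal.mem_span_singleton_self G)
  have hdim : ∀ P : Ideal (RR k N 1), P.IsPrime → J ≤ P → P < n →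
      ringKrullDim (RR k N 1 ⧸ P) = 2 := fun P _ h1 h2 => by
    have h3 := dim_lt h2
    have h4 := dim_lt (P := cyl p.asIdeal 1) (P' := P)
      (lt_of_le_of_ne (le_sup_left.trans h1) fun h => hGc (h ▸ h1 hGJ))
    rw [hdn] at h3
    rw [hdc] at h4
    exact two_of _ h3 h4
  have hJh : WHom (wt N 1) J := (hC _ hp.1).sup (wHom_span fun a ha => by
    rw [Set.mem_singleton_iff.1 ha]; exact hG.hom)
  have hcl : ∀ P : PrimeSpectrum (RR k N 1), J ≤ P.asIdeal → P.asIdeal < n → P = Q ∨ P = V :=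
    fun P h1 h2 => by
      have hPp := P.isPrime
      obtain ⟨P₀, h3, h4⟩ := Ideal.exists_minimalPrimes_le h1
      have h5 := h3.1.1
      have h6 := hdim P.asIdeal hPp h1 h2
      have h7 : P₀ = P.asIdeal := eq_of_dim h4 (hdim P₀ h5 h3.1.2 (h4.trans_lt h2)) h6
      obtain ⟨i0, hi0⟩ := hy
      have h8 : P ∈ Cv p.asIdeal 1 :=
        ⟨⟨hPp, h7 ▸ hJh.minimalPrimes h3, le_sup_left.trans h1, i0, fun h => hi0
          (by rw [← vtx_inl v]; exact h2.le h)⟩, h6⟩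
      obtain ⟨h9, h10, -, -⟩ := (hCL k N p.asIdeal).1 1 P.asIdeal h8.1
      rcases h9.eq_or_lt with h11 | h11
      · exact Or.inl (hG.uniq P h8 h11.symm (h1 hGJ))
      · have h12 : P.asIdeal.comap (inc 1) ≤ y := fun a ha => by
          rw [← hinc a]
          exact h2.le ha
        have h13 : P.asIdeal.comap (inc 1) = y := by
          by_contra h14
          have h15 := dim_lt (lt_of_le_of_ne h12 h14)
          have h16 := dim_lt h11
          rw [hy1] at h15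
          rw [hp.2.2] at h16
          exact absurd ((add_le_add_left h15 1).trans h16) (by decide)
        rw [h13, ← hV] at h10
        have := V.isPrime
        exact Or.inr (PrimeSpectrum.ext (eq_of_dim h10 hdV h6).symm)
  have hJQ : J ≤ Q.asIdeal := le_Q hG
  have hxQ : x ∉ Q.asIdeal := notMem hVP0 hp hG j hv
  have hxV : x ∉ V.asIdeal := fun h => by
    have h1 : vtx j x ∈ y := by
      rw [← ((hD j).2.2 y).1, ← hV]
      exact Ideal.mem_map_of_mem _ h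
    rw [hx, vtx_inr, Pi.single_eq_same] at h1
    exact Ideal.IsPrime.ne_top inferInstance ((Ideal.eq_top_iff_one _).2 h1)
  have hQV : Q ≠ V := fun h => by
    have h1 : y ≤ p.asIdeal := by
      rw [← hG.under, h, hV]
      exact Ideal.map_le_iff_le_comap.1 le_sup_left
    have h2 := ringKrullDim_le_of_surjective _ (Ideal.Quotient.factor_surjective h1)
    rw [hp.2.2, hy1] at h2
    exact absurd h2 (by decide)
  have hreg : ∀ a, x * a ∈ J → ∃ s, s ∉ n ∧ s * a ∈ J := fun a ha => by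
    refine ⟨1, fun h => Ideal.IsPrime.ne_top inferInstance ((Ideal.eq_top_iff_one n).2 h), ?_⟩
    obtain ⟨c, hc, b, hb, h1⟩ := Submodule.mem_sup.1 ha
    obtain ⟨u, rfl⟩ := Ideal.mem_span_singleton'.1 hb
    have hx' : x ∈ p.asIdeal.comap f :=
      (hcm _).ge (Ideal.mem_sup_right (Ideal.mem_span_singleton_self x))
    have h2 : u * G ∈ p.asIdeal.comap f := by
      rw [← sub_eq_iff_eq_add'.2 h1.symm]
      exact sub_mem (Ideal.mul_mem_right _ _ hx') ((hcm _).ge (Ideal.mem_sup_left hc))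
    have h3 : u ∈ p.asIdeal.comap f :=
      ((Ideal.comap_isPrime f p.asIdeal).mem_or_mem h2).resolve_right hv
    obtain ⟨c', hc', b', hb', h4⟩ := Submodule.mem_sup.1 ((hcm _).le h3)
    obtain ⟨u', rfl⟩ := Ideal.mem_span_singleton'.1 hb'
    have h5 : x * (a - u' * G) ∈ cyl p.asIdeal 1 := by
      have h6 : x * (a - u' * G) = c + c' * G := by
        rw [mul_sub, ← h1, ← h4]; ring
      rw [h6]
      exact add_mem hc (Ideal.mul_mem_right _ _ hc')
    have h6 := (hcpp.mem_or_mem h5).resolve_left fun h => hxQ (hJQ (Ideal.mem_sup_left h))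
    rw [one_mul, ← sub_add_cancel a (u' * G)]
    exact add_mem (Ideal.mem_sup_left h6) (Ideal.mul_mem_left _ _ hGJ)
  rw [hAq, hB]
  by_cases hJV : J ≤ V.asIdeal
  · rw [hAS _ J n x {Q, V} (fun P h1 h2 => by simpa using hcl P h1 h2) ?_ ?_ hreg,
      Finset.sum_pair hQV, hG.one, len_eq hn.symm rfl, len_self]
    · simp
    · intro P hP
      rcases Finset.mem_insert.1 hP with rfl | hP
      · exact ⟨hJQ, hxQ⟩
      · rw [Finset.mem_singleton.1 hP]
        exact ⟨hJV, hxV⟩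
    · have h1 : ∀ P ∈ ({Q, V} : Finset _), ringKrullDim (RR k N 1 ⧸ P.asIdeal) = 2 := by
        intro P hP
        rcases Finset.mem_insert.1 hP with rfl | hP
        · exact hdQ
        · rw [Finset.mem_singleton.1 hP]
          exact hdV
      exact fun P hP P' hP' h => PrimeSpectrum.ext (eq_of_dim h (h1 P hP) (h1 P' hP'))
  · rw [hAS _ J n x {Q} (fun P h1 h2 => Finset.mem_singleton.2
      ((hcl P h1 h2).resolve_right fun h => hJV (h ▸ h1))) ?_ ?_ hreg,
      Finset.sum_singleton, hG.one, len_eq_zero_iff.2 hJV]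
    · simp
    · intro P hP
      rw [Finset.mem_singleton.1 hP]
      exact ⟨hJQ, hxQ⟩
    · intro P hP P' hP' _
      rw [Finset.mem_singleton.1 hP, Finset.mem_singleton.1 hP']

end ZMF

theorem z_MF (hLS : S_LS) (hAS : S_AS) (hVP0 : S_VP0) (hVP : S_VP) (hCL : S_CL)
    (hPRP : Z_PRP) (hPT : Z_PT) :
    Z_MF := by
  intro k _ N Q G p hp hG h0 h1
  refine ⟨(hPRP k N _).2 Q hG.cv (Fin.forall_fin_two.2
    ⟨ZMF.notMem hVP0 hp hG 0 h1, ZMF.notMem hVP0 hp hG 1 h0⟩), fun z hz => ?_⟩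
  obtain ⟨a1, -, a2, -, a3⟩ := ((hPT k N).2.2 ⊥).1 z hz
  let V : PrimeSpectrum (RR k N 1) :=
    ⟨_, ((hVP k N 1).1 (z.asIdeal.comap (inc 0)) inferInstance).1⟩
  have e0 := ZMF.main hLS hAS hVP0 hVP hCL _ a2 a3 hp hG a1.symm V rfl 0 h1
  have e1 := ZMF.main hLS hAS hVP0 hVP hCL _ a2 a3 hp hG a1.symm V rfl 1 h0
  have e2 : (0 : Fin 2).succAbove 0 = 1 := rfl
  have e3 : (1 : Fin 2).succAbove 0 = 0 := rfl
  rw [e2] at e0
  rw [e3] at e1
  rw [bdA, Fin.sum_univ_two, e0, e1]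
  simp [sub_eq_add_neg]

end Pool.Agent.P.MP_12d50c_ag

end
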