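import Pool.Agent.P.MP_12d50c_ag.Z.IfaceA
import Pool.Agent.P.MP_12d50c_ag.TM3
import Pool.Agent.P.MP_12d50c_ag.TREG

/-!
Proofs of the steps PRP, PT, RG, SEMI, SUB, TD, TU, UNI.
-/

section

/-! Step PRP. -/

open MvPolynomial Function WithZero IsLocalRing
open Pool.Agent.P.MP_6f117a_ag (Place FF Model Reg)
open scoped IntermediateField Polynomial

namespace Pool.Agent.P.MP_12d50c_ag

namespace ZPRP

theorem le_one_of (d : WithBot ℕ∞) (h : d + 1 ≤ (1 + 1 : ℕ)) : d ≤ (0 + 1 : ℕ) := by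
  induction d using WithBot.recBotCoe with
  | bot => exact bot_le
  | coe d =>
    induction d using ENat.recTopCoe with
    | top => exact absurd h (by decide)
    | coe d =>
      have h1 : d + 1 ≤ 1 + 1 := by
        have h5 : (((d + 1 : ℕ) : ℕ∞) : WithBot ℕ∞) ≤ (((1 + 1 : ℕ) : ℕ∞) : WithBot ℕ∞) := h
        exact ENat.natCast_le_natCast.1 (WithBot.coe_le_coe.1 h5)
      have h2 : d ≤ 0 + 1 := by omega
      exact WithBot.coe_le_coe.2 (ENat.natCast_le_natCast.2 h2)

end ZPRP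

theorem z_PRP (hVP0 : S_VP0) (hFC : Z_FC) :
    Z_PRP := by
  intro k _ N I
  constructor
  · intro n W hW hP j hj
    obtain ⟨h1, h2⟩ := (hFC k N).1 n (n + 1) j.succAbove Fin.succAbove_right_injective
    obtain ⟨Q, hQ, h3⟩ := h2 I W.asIdeal hW.1 fun i hi => by
      have : i = j := by
        by_contra h4
        exact hi (Fin.exists_succAbove_eq h4)
      rwa [this]
    have h4 := hP n (Fin.succAboveOrderEmb j) Q hQ (Ideal.map_le_iff_le_comap.2 h3.ge)
    have h5 := (h1 Q).2.1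
    rw [h3, hW.2] at h5
    rw [← h5] at h4
    have h6 : n + 1 + 1 ≤ n + 1 := by exact_mod_cast h4
    omega
  · intro Q hQ hX m g Q₀ h0 hle
    obtain ⟨h1, -⟩ := (hFC k N).1 m 1 g g.injective
    obtain ⟨h2, h3, -⟩ := h1 Q₀
    have h4 : Q.asIdeal ≤ Q₀.comap (smap g) := Ideal.map_le_iff_le_comap.1 hle
    rw [← h3]
    rcases Nat.eq_zero_or_pos m with rfl | hm
    · have h5 : ∃ j, j ∉ Set.range g := by
        by_contra h6
        push Not at h6
        have := Fintype.card_le_of_surjective g h6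
        simp at this
      obtain ⟨j, hj⟩ := h5
      have h6 := M3.dim_lt (lt_of_le_of_ne h4 fun h7 => hX j (h7 ▸ h2 j hj))
      rw [hQ.2] at h6
      exact ZPRP.le_one_of _ h6
    · have h5 := ringKrullDim_le_of_surjective (Ideal.Quotient.factor h4)
        (Ideal.Quotient.factor_surjective h4)
      rw [hQ.2] at h5
      refine h5.trans ?_
      have h6 : 1 + 1 ≤ m + 1 := by omega
      exact_mod_cast h6

end Pool.Agent.P.MP_12d50c_ag

end

section

/-! Step PT. -/

open MvPolynomial Function WithZero IsLocalRing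
open Pool.Agent.P.MP_6f117a_ag (Place FF Model Reg)
open scoped IntermediateField Polynomial

namespace Pool.Agent.P.MP_12d50c_ag

theorem z_PT (hNS0 : S_NS0) (hNSP : S_NSP) (hVP0 : S_VP0) (hVP : S_VP) (hCL : S_CL) :
    Z_PT := by
  intro k _ N
  obtain ⟨-, -, a2, a3, a4⟩ := hVP0 k N 0
  obtain ⟨b1, -, b2⟩ := a4 0
  have c : ∀ p : Ideal (PP k N), p.comap (vtx (0 : Fin 1)) = cyl p 0 := fun p => by
    have e : ({0}ᶜ : Set (Fin (0 + 1))) = ∅ := by
      ext j
      simp [Fin.fin_one_eq_zero j]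
    rw [(b2 p).2, e, Set.image_empty, Ideal.span_empty, sup_bot_eq]
  have h1 : ∀ p : Ideal (PP k N), (cyl p 0).comap (inc 0) = p := fun p => by
    ext f
    rw [← c, Ideal.mem_comap, Ideal.mem_comap, b1]
  have h2 : ∀ P : Ideal (RR k N 0), cyl ⊥ 0 ≤ P → cyl (P.comap (inc 0)) 0 = P := fun P hP => by
    ext f
    have e : f - inc 0 (vtx 0 f) ∈ P := hP (by
      rw [← c, Ideal.mem_comap, map_sub, b1, sub_self]
      exact Ideal.zero_mem _)
    rw [← c, Ideal.mem_comap, Ideal.mem_comap]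
    exact ⟨fun h => by simpa using P.add_mem e h, fun h => by simpa using P.sub_mem h e⟩
  have hX : ∀ i, inc 0 (X i : PP k N) = (X (Sum.inl i) : RR k N 0) := fun i => by simp [inc]
  refine ⟨h1, h2, fun I => ?_⟩
  have h3 : ∀ z ∈ Cv I 0, cyl (z.asIdeal.comap (inc 0)) 0 = z.asIdeal ∧
      Hom (z.asIdeal.comap (inc 0)) ∧ Rel (z.asIdeal.comap (inc 0)) ∧
      I ≤ z.asIdeal.comap (inc 0) ∧ ringKrullDim (PP k N ⧸ z.asIdeal.comap (inc 0)) = 1 := by
    rintro z ⟨hz, hd⟩
    have e := h2 z.asIdeal ((sup_le_sup_right (Ideal.map_mono bot_le) _).trans hz.le)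
    obtain ⟨i, hi⟩ := hz.rel
    refine ⟨e, a2 _ hz.hom, ⟨i, by rwa [Ideal.mem_comap, hX]⟩, ((hCL k N I).1 0 _ hz).1, ?_⟩
    have d := ((hVP k N 0).1 (z.asIdeal.comap (inc 0)) inferInstance).2
    rw [e, hd] at d
    simpa using d.symm
  refine ⟨h3, fun p hp hh ⟨i, hi⟩ hI hd => ?_, fun _ z hz => ?_⟩
  · obtain ⟨d1, d2⟩ := (hVP k N 0).1 p hp
    refine ⟨⟨cyl p 0, d1⟩, ⟨⟨d1, a3 p hh, sup_le_sup_right (Ideal.map_mono hI) _, i, ?_⟩, ?_⟩, rfl⟩
    · rwa [← hX, ← Ideal.mem_comap, h1]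
    · rw [d2, hd]
      simp
  · obtain ⟨e, d1, d2, d3, d4⟩ := h3 z hz
    obtain ⟨y, hy⟩ := ((hNSP k N).2 _ inferInstance d1 d2).2.2.2.1 d4.le
    rw [hy] at e d3
    exact ⟨y, fun f hf => aeval_eq_zero_of_mem_vanw (d3 hf), e.symm⟩

end Pool.Agent.P.MP_12d50c_ag

end

section

/-! Step RG. -/

open MvPolynomial Function WithZero IsLocalRing
open Pool.Agent.P.MP_6f117a_ag (Place FF Model Reg)
open scoped IntermediateField Polynomial

namespace Pool.Agent.P.MP_12d50c_ag

open REG in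
theorem z_RG (hLIN : S_LIN) :
    Z_RG := by
  intro k _ N d I y hI hy h5
  have hle := hI.on_iff.1 hy
  obtain ⟨h1, h2⟩ := hLIN.1 k (Fin (N + 1))
    {s | ∃ f ∈ I, (∃ d, f.IsHomogeneous d) ∧ s = fun j => aeval y.1 (pderiv j f)} (Tan I y.1)
    fun δ => ⟨fun h _ ⟨f, hf, _, e⟩ => e ▸ h f hf, fun h => by
      obtain ⟨S, h1, rfl⟩ := hI.exists_gen
      exact (mem_Tan_span hy).2 fun f hf => h _ ⟨f, Ideal.subset_span hf, h1 f hf, rfl⟩⟩
  have h3 := Submodule.span_le (p := W y I (mQ I (van k y.1) ^ 2)).2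
    (show {s | ∃ f ∈ I, (∃ d, f.IsHomogeneous d) ∧ s = fun j => aeval y.1 (pderiv j f)} ⊆ _ from
      fun _ ⟨f, hf, ⟨d, hd⟩, e⟩ => e ▸ (sq_iff y I hd (hy f hf)).1 (by
        rw [toL_eq_zero hf]
        exact zero_mem _))
  have h4 := Submodule.finrank_lt_finrank_of_lt (Submodule.lt_sup_iff_notMem.2
    fun h => one_ne_zero (α := k) (by
      simpa [Pi.single_apply, y.piv_eq] using (h1 (Pi.single y.piv 1)).1 h _ (self_mem_Tan hI hy)))
  rw [Fintype.card_fin] at h2
  obtain ⟨c, hc⟩ := exists_std d _ (le_trans (by omega) (Nat.add_le_add_right h4 d))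
  have := isLocalRing_LQ hle
  have h6 : mQ I (van k y.1) = Ideal.span (Set.range fun j => toL I (van k y.1) (l y j)) := by
    rw [mQ, Set.range_comp' (toL I (van k y.1)), ← Ideal.map_span, ← van_eq]
  refine ⟨List.ofFn fun j => toL I (van k y.1) (l y (c j)), List.length_ofFn, ?_⟩
  have h7 : Ideal.ofList (List.ofFn fun j => toL I (van k y.1) (l y (c j))) =
      Ideal.span (Set.range fun j => toL I (van k y.1) (l y (c j))) :=
    congrArg Ideal.span (Set.ext fun a => List.mem_ofFn' _ a)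
  rw [h7]
  refine le_antisymm ?_ (Submodule.le_of_le_smul_of_le_jacobson_bot
    (h6 ▸ Submodule.fg_span (Set.finite_range _)) (IsLocalRing.maximalIdeal_le_jacobson _) ?_)
  · rw [h6]
    exact Ideal.span_mono (Set.range_comp_subset_range c fun j => toL I (van k y.1) (l y j))
  · rw [maximalIdeal_LQ, smul_eq_mul, ← sq]
    refine h6.le.trans (Ideal.span_le.2 ?_)
    rintro _ ⟨j, rfl⟩
    refine (single_mem y I).1 ((hc (W y I _) (sup_le (h3.trans fun v hv => Ideal.mem_sup_right hv)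
      ((Submodule.span_singleton_le_iff_mem _ _).2 ((single_mem y I).2 ?_))) fun j =>
        (single_mem y I).2 (Ideal.mem_sup_left (Ideal.subset_span (Set.mem_range_self j)))).ge trivial)
    simp [l, y.piv_eq]

end Pool.Agent.P.MP_12d50c_ag

end

section

/-! Step SEMI. -/

open MvPolynomial Function WithZero IsLocalRing
open Pool.Agent.P.MP_6f117a_ag (Place FF Model Reg)
open scoped IntermediateField Polynomial

namespace Pool.Agent.P.MP_12d50c_ag

theorem z_SEMI (hLIN : S_LIN) :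
    Z_SEMI := by
  intro k _ N J Ω _ _ y hJ hy
  obtain ⟨S, hS, rfl⟩ := hJ.exists_gen
  have key : ∀ (Ω : Type) [Field Ω] [Algebra k Ω] (y : Fin (N + 1) → Ω), On (Ideal.span (S : Set (PP k N))) y →
      Module.finrank Ω (Submodule.span Ω (Set.range fun (f : S) j => aeval y (pderiv j f.1))) +
        Module.finrank Ω (Tan (Ideal.span (S : Set (PP k N))) y) = Fintype.card (Fin (N + 1)) :=
    fun Ω _ _ y hy => (hLIN.1 Ω _ _ _ fun δ => by
      rw [mem_Tan_span hy, Set.forall_mem_range, Subtype.forall]; rfl).2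
  obtain ⟨v, h1, -, h2⟩ := Submodule.exists_fun_fin_finrank_span_eq Ω
    (Set.range fun (f : S) j => aeval y (pderiv j f.1))
  choose f hf using h1
  obtain rfl := funext hf
  obtain ⟨c, hc⟩ := not_forall.1 ((hLIN.2.1 Ω _ _ _).not.1 (not_not.2 h2))
  choose d hd using fun i => hS _ (f i).2
  refine ⟨(Matrix.of fun i j => pderiv (c j) (f i).1).det, ∑ i, (d i - 1), ?_,
    by rwa [AlgHom.map_det], fun Ω' _ _ y' hy' h => ?_⟩
  · rw [Matrix.det_apply']
    refine IsHomogeneous.sum _ _ _ fun σ _ => ?_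
    rw [← Equiv.sum_comp σ, ← map_intCast (C : k →+* PP k N)]
    exact (IsHomogeneous.prod _ _ _ fun i _ => IsHomogeneous.pderiv (hd _)).C_mul _
  · rw [AlgHom.map_det] at h
    have h3 : LinearIndependent Ω' fun i j => aeval y' (pderiv j (f i).1) :=
      not_not.1 fun h4 => h ((hLIN.2.1 Ω' _ _ _).1 h4 c)
    have h4 := (finrank_span_eq_card h3).ge.trans (Submodule.finrank_mono (Submodule.span_mono
      (t := Set.range fun (f : S) j => aeval y' (pderiv j f.1))
      (Set.range_subset_iff.2 fun i => ⟨f i, rfl⟩)))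
    have h5 := key Ω y hy
    have h6 := key Ω' y' hy'
    rw [Fintype.card_fin] at h4
    omega

end Pool.Agent.P.MP_12d50c_ag

end

section

/-! Step SUB. -/

open MvPolynomial Function WithZero IsLocalRing
open Pool.Agent.P.MP_6f117a_ag (Place FF Model Reg)
open scoped IntermediateField Polynomial

namespace Pool.Agent.P.MP_12d50c_ag

namespace ZSUB

variable {k : Type} [Field k] {N : ℕ}

theorem ex_face {n : ℕ} {W : Ideal (RR k N (n + 1))} {Q : PrimeSpectrum (RR k N n)}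
    (h : bdA W Q ≠ 0) : ∃ j : Fin (n + 2), W.map (smap j.succAbove) ≤ Q.asIdeal := by
  by_contra h'
  refine h (Finset.sum_eq_zero fun j _ => ?_)
  rw [len_eq_zero_iff.2 fun h1 => h' ⟨j, h1⟩]
  simp

theorem cyl_le {I J : Ideal (PP k N)} (h : I ≤ J) (n : ℕ) : cyl I n ≤ cyl J n :=
  sup_le_sup_right (Ideal.map_mono h) _

theorem adm_of {I J : Ideal (PP k N)} {n : ℕ} {Q : Ideal (RR k N n)} (h : Adm I Q)
    (h' : cyl J n ≤ Q) : Adm J Q := ⟨h.prime, h.hom, h', h.rel⟩

end ZSUB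

open ZSUB in
theorem z_SUB (hVP0 : S_VP0) :
    Z_SUB := by
  intro k _ N I J
  have hc : ∀ (n m : ℕ) (g : Fin (m + 1) → Fin (n + 1)) (W : Ideal (RR k N n))
      (Q : Ideal (RR k N m)), cyl J n ≤ W → W.map (smap g) ≤ Q → cyl J m ≤ Q := by
    intro n m g W Q h1 h2
    rw [← ((hVP0 k N n).1 m g).1 J]
    exact (Ideal.map_mono h1).trans h2
  have hA : ∀ (n : ℕ) (W : Ideal (RR k N (n + 1))) (Q : PrimeSpectrum (RR k N n)), bdA W Q ≠ 0 →
      cyl J (n + 1) ≤ W → Q ∈ Cv I n → Q ∈ Cv J n := by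
    intro n W Q h h1 h2
    obtain ⟨j, hj⟩ := ex_face h
    exact ⟨adm_of h2.1 (hc _ _ _ _ _ h1 hj), h2.2⟩
  refine ⟨fun n W Q h => ⟨ex_face h, hA n W Q h⟩, fun hIJ => ?_⟩
  have hB : ∀ n, Cv J n ⊆ Cv I n := fun n P hP =>
    ⟨adm_of hP.1 ((cyl_le hIJ n).trans hP.1.le), hP.2⟩
  have hP : ∀ (n : ℕ) (W : Ideal (RR k N n)), cyl J n ≤ W → (Prp I W ↔ Prp J W) :=
    fun n W hW => ⟨fun h m g Q hQ h1 => h m g Q (adm_of hQ ((cyl_le hIJ m).trans hQ.le)) h1,
      fun h m g Q hQ h1 => h m g Q (adm_of hQ (hc _ _ _ _ _ hW h1)) h1⟩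
  refine ⟨hB, hP, fun φ hφ W hW hW' => ?_, fun φ χ h Q hQ hQ' =>
    h Q (hB 1 hQ) ((hP 1 _ hQ.1.le).2 hQ')⟩
  rw [← hφ W (hB 2 hW) ((hP 2 _ hW.1.le).2 hW')]
  refine finsum_mem_inter_support_eq _ _ _ (Set.ext fun Q => ⟨fun h => ⟨hB 1 h.1, h.2⟩,
    fun h => ⟨hA 1 _ Q (right_ne_zero_of_mul h.2 ∘ fun h0 => by rw [h0, Int.cast_zero])
      hW.1.le h.1, h.2⟩⟩)

end Pool.Agent.P.MP_12d50c_ag

end

section

/-! Step TD. -/

open MvPolynomial Function WithZero IsLocalRing
open Pool.Agent.P.MP_6f117a_ag (Place FF Model Reg)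
open scoped IntermediateField Polynomial

namespace Pool.Agent.P.MP_12d50c_ag

namespace ZTD

theorem key {R : Type} [CommRing R] {J q : Ideal R} [q.IsPrime] (h : len J q = 1) :
    J ≤ q ∧ ∀ a ∈ q, ∃ s, s ∉ q ∧ s * a ∈ J := by
  have h1 : J ≤ q := by
    by_contra h0
    rw [len_eq_zero_iff.2 h0] at h
    exact zero_ne_one h
  refine ⟨h1, fun a ha => ?_⟩
  rw [len, Module.length_eq_one_iff, isSimpleModule_iff_isCoatom] at h
  have h2 := Ideal.map_mono (f := algebraMap R (Localization.AtPrime q)) h1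
  have h3 : J.map (algebraMap R (Localization.AtPrime q)) =
      q.map (algebraMap R (Localization.AtPrime q)) := by
    refine (Ideal.isMaximal_def.2 h).eq_of_le ?_ h2
    rw [Localization.AtPrime.map_eq_maximalIdeal]
    exact (IsLocalRing.maximalIdeal.isMaximal _).ne_top
  have h4 := Ideal.mem_map_of_mem (algebraMap R (Localization.AtPrime q)) ha
  rw [← h3, IsLocalization.algebraMap_mem_map_algebraMap_iff q.primeCompl] at h4
  obtain ⟨s, hs, h5⟩ := h4
  exact ⟨s, hs, h5⟩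

end ZTD

theorem z_TD :
    Z_TD := by
  intro k _ N p y g e hp hg h
  obtain ⟨h1, h2⟩ := ZTD.key h
  have hJ : Hom (p ⊔ Ideal.span {g}) := hp.sup (wHom_span fun f hf => ⟨e, hf ▸ hg⟩)
  have hon : On (p ⊔ Ideal.span {g}) y.1 := hJ.on_iff.2 h1
  let L : Tan p y.1 →ₗ[k] k × k :=
    { toFun := fun δ => (δ.1 y.piv, grad y.1 g δ.1)
      map_add' := fun a b => by simp [grad_add_right]
      map_smul' := fun c a => by simp [grad_smul_right] }
  have hL : Injective L := by
    refine (injective_iff_map_eq_zero L).2 fun δ hδ => Subtype.ext (funext fun j => ?_)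
    obtain ⟨h3, h4⟩ := Prod.ext_iff.1 hδ
    change δ.1 y.piv = 0 at h3
    change grad y.1 g δ.1 = 0 at h4
    have hl : (REG.l y j).IsHomogeneous 1 := (isHomogeneous_X k j).sub (isHomogeneous_C_mul_X _ _)
    have h5 : REG.l y j ∈ van k y.1 := by
      rw [REG.van_eq]
      exact Ideal.subset_span ⟨j, rfl⟩
    obtain ⟨s, hs, h6⟩ := h2 _ h5
    obtain ⟨s', d, h7, h8, h9⟩ := exists_hom_mul hJ hl hs h6
    have h10 : p ⊔ Ideal.span {g} ≤ REG.dz k y.1 δ.1 := by
      refine sup_le (fun f hf => ⟨hon f (Ideal.mem_sup_left hf), δ.2 f hf⟩) ?_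
      rw [Ideal.span_singleton_le_iff_mem]
      exact ⟨hon g (Ideal.mem_sup_right (Ideal.mem_span_singleton_self g)), h4⟩
    have h11 := (h10 h9).2
    rw [grad_mul, (mem_van_of_hom hl).1 h5, zero_mul, add_zero] at h11
    have h12 := (mul_eq_zero.1 h11).resolve_left (mt (mem_van_of_hom h7).2 h8)
    have h13 := grad_add y.1 (REG.l y j) (C (y.1 j) * X y.piv) δ.1
    rw [h12, REG.l, sub_add_cancel, grad_mul, grad_X, grad_X, grad_C, h3] at h13
    simpa using h13
  simpa using LinearMap.finrank_le_finrank_of_injective hL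

end Pool.Agent.P.MP_12d50c_ag

end

section

/-! Step TU. -/

open MvPolynomial Function WithZero IsLocalRing
open Pool.Agent.P.MP_6f117a_ag (Place FF Model Reg)
open scoped IntermediateField Polynomial

namespace Pool.Agent.P.MP_12d50c_ag

namespace ZTU

theorem exists_dvd {α R : Type} [CommRing R] [IsDomain R] [ValuationRing R] (φ : α → R) (z : α)
    (S : Finset α) : ∃ f, (f ∈ S ∨ f = z) ∧ ∀ g ∈ S, φ f ∣ φ g := by
  classical
  induction S using Finset.induction_on with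
  | empty => exact ⟨z, .inr rfl, by simp⟩
  | insert a s _ ih =>
    obtain ⟨f, h1, h2⟩ := ih
    rcases ValuationRing.dvd_total (φ f) (φ a) with h | h
    · exact ⟨f, h1.imp_left Finset.mem_insert_of_mem,
        fun g hg => (Finset.mem_insert.1 hg).elim (fun e => e ▸ h) (h2 g)⟩
    · exact ⟨a, .inl (Finset.mem_insert_self _ _),
        fun g hg => (Finset.mem_insert.1 hg).elim (fun e => e ▸ dvd_rfl) fun e => h.trans (h2 g e)⟩

theorem finrank_le {K V : Type} [Field K] [AddCommGroup V] [Module K V] [Module.Finite K V]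
    (T : Submodule K V) (φ : V →ₗ[K] K) :
    Module.finrank K T ≤ Module.finrank K (T ⊓ LinearMap.ker φ : Submodule K V) + 1 := by
  have a1 := LinearMap.finrank_range_add_finrank_ker φ
  have a2 := Submodule.finrank_le (LinearMap.range φ)
  have a3 := Submodule.finrank_sup_add_finrank_inf_eq T (LinearMap.ker φ)
  have a4 := Submodule.finrank_le (T ⊔ LinearMap.ker φ)
  rw [Module.finrank_self] at a2
  omega

end ZTU

open ZTU in
theorem z_TU (hRG : Z_RG) :
    Z_TU := by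
  intro k _ N J J' y hJ
  refine ⟨fun h => le_antisymm (fun δ hδ f hf => ?_) (Tan_anti inf_le_left),
    fun h1 h2 h3 h4 h5 => ?_⟩
  · obtain ⟨g, hg, hg'⟩ : ∃ g ∈ J', aeval y.1 g ≠ 0 := by
      by_contra h0
      exact h fun g hg => by_contra fun h6 => h0 ⟨g, hg, h6⟩
    have := hδ (g * f) ⟨J.mul_mem_left g hf, J'.mul_mem_right f hg⟩
    rw [grad_mul, hJ f hf, zero_mul, add_zero] at this
    exact (mul_eq_zero.1 this).resolve_left hg'
  · have hle : J' ≤ van k y.1 := (Hom.on_iff h2).1 h4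
    have := isLocalRing_LQ hle
    have := isDomain_LQ hle
    obtain ⟨l, hl, hl'⟩ := hRG k N 1 J' y h2 h4 h5
    obtain ⟨x, rfl⟩ := List.length_eq_one_iff.1 hl
    have hp : (maximalIdeal (LQ J' (van k y.1))).IsPrincipal := by
      rw [maximalIdeal_LQ, ← hl', Ideal.ofList_singleton]
      exact ⟨x, rfl⟩
    have : ValuationRing (LQ J' (van k y.1)) :=
      ((tfae_of_isNoetherianRing_of_isLocalRing_of_isDomain (LQ J' (van k y.1))).out 4 1).1 hp
    obtain ⟨S, hS, rfl⟩ := h1.exists_gen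
    obtain ⟨f, hf, hd⟩ := exists_dvd (toL J' (van k y.1)) 0 S
    have hfJ : f ∈ Ideal.span (S : Set (PP k N)) :=
      hf.elim (fun e => Ideal.subset_span e) fun e => e ▸ zero_mem _
    have hfh : ∃ d, IsWeightedHomogeneous 1 f d :=
      hf.elim (hS f) fun e => ⟨0, e ▸ isWeightedHomogeneous_zero k 1 0⟩
    let φ : (Fin (N + 1) → k) →ₗ[k] k :=
      { toFun := grad y.1 f
        map_add' := grad_add_right y.1 f
        map_smul' := grad_smul_right y.1 f }
    refine (finrank_le _ φ).trans (Nat.succ_le_succ (Submodule.finrank_mono ?_))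
    rintro δ ⟨hδ, hδ'⟩
    refine (mem_Tan_span hJ).2 fun g hg => ?_
    obtain ⟨e, he⟩ := hS g hg
    have h6 : toL J' (van k y.1) g ∈ (Ideal.span {f}).map (toL J' (van k y.1)) := by
      rw [Ideal.map_span, Set.image_singleton]
      exact Ideal.mem_span_singleton.2 (hd g hg)
    obtain ⟨s, h7, h8⟩ := toL_mem_map.1 h6
    obtain ⟨s', d, h9, h10, h11⟩ :=
      exists_hom_mul (h2.sup (wHom_span (by rintro _ rfl; exact hfh))) he h7 h8
    obtain ⟨f', hf', _, hr, h12⟩ := Submodule.mem_sup.1 h11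
    obtain ⟨r, rfl⟩ := Ideal.mem_span_singleton'.1 hr
    have hgJ : g ∈ Ideal.span (S : Set (PP k N)) := Ideal.subset_span hg
    have h13 : grad y.1 f' δ = 0 := hδ f' ⟨by
      rw [eq_sub_of_add_eq h12]
      exact sub_mem (Ideal.mul_mem_left _ _ hgJ) (Ideal.mul_mem_left _ _ hfJ), hf'⟩
    have h14 : grad y.1 f δ = 0 := hδ'
    have h15 := congrArg (fun t => grad y.1 t δ) h12
    simp only [grad_add, grad_mul, h13, h14, hJ f hfJ, hJ g hgJ, mul_zero, zero_mul,
      add_zero] at h15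
    exact (mul_eq_zero.1 h15.symm).resolve_left fun h0 => h10 ((mem_vanw_of_hom h9).2 h0)

end Pool.Agent.P.MP_12d50c_ag

end

section

/-! Step UNI. -/

open MvPolynomial Function WithZero IsLocalRing
open Pool.Agent.P.MP_6f117a_ag (Place FF Model Reg)
open scoped IntermediateField Polynomial

namespace Pool.Agent.P.MP_12d50c_ag

theorem z_UNI (hNSP : S_NSP) (hFINC : S_FINC) (hTU : Z_TU) :
    Z_UNI := by
  classical
  intro k _ _ N S h1 h2
  have hon : ∀ (T : Finset (PrimeSpectrum (PP k N))) (y : NP k N),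
      On (T.inf fun p => p.asIdeal) y.1 → ∃ p ∈ T, On p.asIdeal y.1 := fun T y h =>
    (RingHom.ker_isPrime (aeval y.1 : PP k N →ₐ[k] k)).inf_le'.1 h
  have split : ∀ (T : Finset (PrimeSpectrum (PP k N))), ∀ p ∈ T, (T.inf fun p => p.asIdeal) =
      p.asIdeal ⊓ (T.erase p).inf fun p => p.asIdeal := fun T p h => by
    conv_lhs => rw [← Finset.insert_erase h, Finset.inf_insert]
  have key : ∀ y : NP k N, On (S.inf fun p => p.asIdeal) y.1 →
      Module.finrank k (Tan (S.inf fun p => p.asIdeal) y.1) ≤ 2 ∨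
      (Module.finrank k (Tan (S.inf fun p => p.asIdeal) y.1) ≤ 3 ∧
        ∃ p ∈ S, ∃ q ∈ S, q ≠ p ∧ On p.asIdeal y.1 ∧ On q.asIdeal y.1) := fun y h => by
    obtain ⟨p, hp, py⟩ := hon S y h
    by_cases c : On ((S.erase p).inf fun p => p.asIdeal) y.1
    · obtain ⟨q, hq, qy⟩ := hon _ y c
      obtain ⟨qp, qS⟩ := Finset.mem_erase.1 hq
      refine .inr ⟨?_, p, hp, q, qS, qp, py, qy⟩
      rw [split S p hp, split _ q hq, ← inf_assoc,
        (hTU k N (p.asIdeal ⊓ q.asIdeal) _ y fun f hf => py f hf.1).1 fun c' => ?_]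
      · have a1 := (hTU k N _ q.asIdeal y py).2 (h1 p hp).1.1 (h1 q qS).1.1 q.isPrime qy
          ((h1 q qS).2 y qy)
        have a2 := (h1 p hp).2 y py
        omega
      · obtain ⟨r, hr, ry⟩ := hon _ y c'
        obtain ⟨rq, hr⟩ := Finset.mem_erase.1 hr
        obtain ⟨rp, rS⟩ := Finset.mem_erase.1 hr
        rcases h2 y p hp q qS r rS py qy ry with e | e | e
        exacts [qp e.symm, rq e.symm, rp e.symm]
    · left
      rw [split S p hp, (hTU k N _ _ y py).1 c]
      exact (h1 p hp).2 y py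
  refine ⟨Finset.inf_induction (p := fun J => Hom J) (fun _ _ _ => Submodule.mem_top)
    (fun _ a _ b => WHom.inf a b) fun p hp => (h1 p hp).1.1, fun P hP h => ?_,
    fun y h => (key y h).elim (fun a => by omega) fun a => a.1, ?_⟩
  · obtain ⟨p, hp, le⟩ := hP.inf_le'.1 h
    rw [← (h1 p hp).1.2.2]
    exact ringKrullDim_le_of_surjective (Ideal.Quotient.factor le)
      (Ideal.Quotient.factor_surjective le)
  · refine (S.finite_toSet.biUnion fun p hp => S.finite_toSet.biUnion fun q hq =>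
      show {y : NP k N | q ≠ p ∧ On p.asIdeal y.1 ∧ On q.asIdeal y.1}.Finite from ?_).subset
      fun y hy => ?_
    · by_cases e : q = p
      · simp [e]
      obtain ⟨g, d, g1, g2, g3⟩ : ∃ g d, IsWeightedHomogeneous 1 g d ∧ g ∈ q.asIdeal ∧
          g ∉ p.asIdeal := by
        refine Classical.byContradiction fun c => ?_
        push Not at c
        exact e (((hFINC k N ⊥).1 q (h1 q hq).1).2.2.2.1 p (h1 p hp).1
          (WHom.le_of_hom (h1 q hq).1.1 c))
      exact (((hNSP k N).2 _ p.isPrime (h1 p hp).1.1 ((hFINC k N ⊥).1 p (h1 p hp).1).1).2.2.2.2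
        (h1 p hp).1.2.2.le g d g1 g3).subset fun y hy => ⟨hy.2.1, hy.2.2 g g2⟩
    · obtain ⟨-, p, hp, q, hq, a⟩ := (key y hy.1).resolve_left (not_le.2 hy.2)
      exact Set.mem_biUnion hp (Set.mem_biUnion hq a)

end Pool.Agent.P.MP_12d50c_ag

end
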