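import Pool.Agent.P.MP_12d50c_ag.Z.IfaceB
import Pool.Agent.P.MP_12d50c_ag.TDICT

/-!
Proofs of the steps CHA, CHB, CHI, CT2, CTR, CUF, DD.
-/

section

/-! Step CHA. -/

open MvPolynomial Function WithZero IsLocalRing
open Pool.Agent.P.MP_6f117a_ag (Place FF Model Reg)
open scoped IntermediateField Polynomial

namespace Pool.Agent.P.MP_12d50c_ag

theorem z_CHA (hEX : S_EX) (hDG0 : Z_DG0) (hDG : Z_DG) (hEXL : Z_EXL) :
    Z_CHA := by
  intro k _ _ N n I W q hI hW hq
  have := hq.prime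
  obtain ⟨i, hi⟩ := hq.rel
  obtain ⟨E, _, _, ξ, rfl, h1, hg⟩ := hEX k _ (wt N n) q (.inl i) hq.hom rfl hi
  have hLD : LD (vanw k (wt (N + 1 + N) n)
      (lf (fun a => algebraMap E (RatFunc E) (ξ a)) RatFunc.X 1)) ξ (RatFunc.X : RatFunc E) 1 :=
    ⟨hg, ⟨i, h1⟩, .inr one_ne_zero, by rw [div_one]; exact RatFunc.adjoin_X, rfl⟩
  by_cases hle : W ≤ vanw k (wt (N + 1 + N) n)
      (lf (fun a => algebraMap E (RatFunc E) (ξ a)) RatFunc.X 1)
  · refine .inl ⟨_, (hEXL k N n I _ hI).2 E _ ξ _ _ hLD hq, hle,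
      (hDG0 k N n _ E _ ξ _ _ hLD).1, ?_⟩
    rw [hDG k N n _ E _ ξ _ _ hLD]
    exact Module.finrank_of_not_finite fun h =>
      RatFunc.transcendental_X (Algebra.IsAlgebraic.isAlgebraic (R := E) _)
  · obtain ⟨G, d, hG, hGW, hGQ⟩ : ∃ G d, IsWeightedHomogeneous (wt (N + 1 + N) n) G d ∧ G ∈ W ∧
        G ∉ vanw k (wt (N + 1 + N) n)
          (lf (fun a => algebraMap E (RatFunc E) (ξ a)) RatFunc.X 1) := by
      by_contra h
      push Not at h
      exact hle (hW.hom.le_of_hom h)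
    rw [mem_vanw_of_hom hG] at hGQ
    have hP : aeval (lf (fun a => Polynomial.C (ξ a)) Polynomial.X 1) G ≠ 0 := fun h => hGQ (by
      have h2 := map_aeval' (IsScalarTower.toAlgHom k E[X] (RatFunc E))
        (lf (fun a => Polynomial.C (ξ a)) Polynomial.X 1) G
      rw [h, map_zero, map_lf, map_one] at h2
      simpa using h2.symm)
    have hfin := (Polynomial.finite_setOfPred_isRoot hP).preimage
      (f := fun c : k => algebraMap k E (-c))
      ((algebraMap k E).injective.comp neg_injective).injOn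
    obtain ⟨c, hc⟩ := hfin.exists_notMem
    refine .inr ⟨c, G, d, hG, hGW, fun h => hc ?_⟩
    rw [mem_vanw_of_hom (whom_sb _ _ hG), aeval_sb] at h
    have h2 := map_aeval' ((Polynomial.aeval (algebraMap k E (-c)) : E[X] →ₐ[E] E).restrictScalars k)
      (lf (fun a => Polynomial.C (ξ a)) Polynomial.X 1) G
    rw [map_lf] at h2
    simp only [AlgHom.restrictScalars_apply, Polynomial.aeval_C, Polynomial.aeval_X, map_one,
      Algebra.algebraMap_self, RingHom.id_apply] at h2 h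
    rw [h, Polynomial.coe_aeval_eq_eval] at h2
    exact h2

end Pool.Agent.P.MP_12d50c_ag

end

section

/-! Step CHB. -/

open MvPolynomial Function WithZero IsLocalRing
open Pool.Agent.P.MP_6f117a_ag (Place FF Model Reg)
open scoped IntermediateField Polynomial

namespace Pool.Agent.P.MP_12d50c_ag

namespace ZCHB

theorem exists_alg {k A L : Type} [Field k] [CommRing A] [Field L] [Algebra k A] [Algebra k L]
    [Algebra A L] [IsScalarTower k A L] {s : L} (hs : IsIntegral A s) :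
    ∃ (B : Type) (_ : CommRing B) (_ : Algebra k B) (_ : Algebra A B) (_ : IsScalarTower k A B)
      (β : B →ₐ[k] L) (t : B), Injective β ∧ (∀ a, β (algebraMap A B a) = algebraMap A L a) ∧
      β t = s ∧ Algebra.adjoin A {t} = ⊤ ∧ Module.Finite A B := by
  refine ⟨Algebra.adjoin A {s}, inferInstance, inferInstance, inferInstance, inferInstance,
    (Algebra.adjoin A {s}).val.restrictScalars k, ⟨s, Algebra.self_mem_adjoin_singleton A s⟩,
    Subtype.val_injective, fun a => rfl, rfl, ?_, Algebra.finite_adjoin_simple_of_isIntegral hs⟩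
  rw [← Algebra.adjoin_adjoin_coe_preimage (R := A) (s := ({s} : Set L))]
  congr 1
  ext t
  simp [Subtype.ext_iff]

theorem exists_alg' {k A E L : Type} [Field k] [CommRing A] [Field E] [Field L] [Algebra k A]
    [Algebra k E] [Algebra k L] [Algebra E L] [IsScalarTower k E L] (φ : A →ₐ[k] E) {s : L}
    (hs : ∀ [Algebra A L] [IsScalarTower k A L], (∀ a, algebraMap A L a = algebraMap E L (φ a)) →
      IsIntegral A s) :
    ∃ (B : Type) (_ : CommRing B) (_ : Algebra k B) (_ : Algebra A B) (_ : IsScalarTower k A B)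
      (β : B →ₐ[k] L) (t : B), Injective β ∧
      (∀ a, algebraMap E L (φ a) = β (algebraMap A B a)) ∧
      β t = s ∧ Algebra.adjoin A {t} = ⊤ ∧ Module.Finite A B := by
  letI : Algebra A L := ((algebraMap E L).comp φ.toRingHom).toAlgebra
  have e : ∀ a, algebraMap A L a = algebraMap E L (φ a) := fun _ => rfl
  haveI : IsScalarTower k A L := IsScalarTower.of_algebraMap_eq fun c => by
    rw [e, φ.commutes, ← IsScalarTower.algebraMap_apply]
  obtain ⟨B, _, _, _, _, β, t, h1, h2, h3⟩ := exists_alg (k := k) (hs e)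
  exact ⟨B, inferInstance, inferInstance, inferInstance, inferInstance, β, t, h1,
    fun a => (h2 a).symm, h3⟩

end ZCHB

theorem z_CHB (hLOC : S_LOC) (hFL : S_FL) (hDG0 : Z_DG0) (hEXL : Z_EXL) (hCHI : Z_CHI) :
    Z_CHB := by
  intro k _ N n I W q _ c G d hI hW hq hle hG hGW hsb
  obtain ⟨i, hi⟩ := hq.rel
  obtain ⟨E, L, _, _, _, _, _, _, ξ, u, v, hLD, h1⟩ :=
    ((hEXL k N n I W hI).1 hW).2 i fun h => hi (hle h)
  obtain ⟨c1, c2, c3⟩ := hCHI k N n d G c hG
  obtain ⟨d1, -, -, d2, -⟩ := hDG0 k N n W E L ξ u v hLD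
  have hne := c2 W E L ξ u v hLD hGW fun h => hsb (hle h)
  obtain ⟨s, hs⟩ : ∃ s, s = (u + algebraMap k L c * v)⁻¹ * v := ⟨_, rfl⟩
  have hLD' : LD W ξ (1 - algebraMap k L c * s) s := by
    have h2 := d2 _ (inv_ne_zero hne)
    rwa [← hs, show (u + algebraMap k L c * v)⁻¹ * u = 1 - algebraMap k L c * s by
      rw [hs]; field_simp; ring] at h2
  have h : Ch (wt N n) ξ q (.inl i) := ⟨d1 ▸ hle, rfl, hi⟩
  obtain ⟨hloc, hnoeth, hunit, hfrac, -⟩ := hLOC k _ _ E ξ q _ h
  obtain ⟨hdim, hlen⟩ := hFL k _ _ E ξ q _ h hq.hom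
  obtain ⟨x, hx⟩ : ∃ x : Ix N n → locw (wt N n) ξ q, x = fun a => germ h (X a) := ⟨_, rfl⟩
  have hax : ∀ f, aeval x f = germ h f := fun f => by
    rw [hx, ← map_aeval', aeval_X_left_apply]
  have hφ : (fun a => (locw (wt N n) ξ q).val (x a)) = ξ := funext fun a => by
    rw [hx]
    exact (coe_germ h _).trans (by simp [h1])
  obtain ⟨B, _, _, _, _, β, t, b1, b2, b3, b4, b5⟩ :=
    ZCHB.exists_alg' (locw (wt N n) ξ q).val (s := s) fun e => by
      refine c1 _ L x s ?_ ?_
      · rw [hax]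
        exact (hunit _ d (whom_sb _ _ hG)).2 hsb
      · have h2 : (fun a => algebraMap _ L (x a)) = fun a => algebraMap E L (ξ a) :=
          funext fun a => (e _).trans (congrArg _ (congrFun hφ a))
        rw [h2]
        exact (mem_vanw_of_hom hG).1 (hLD'.eq ▸ hGW)
  refine ⟨locw (wt N n) ξ q, B, E, L, inferInstance, inferInstance, inferInstance, inferInstance,
    inferInstance, inferInstance, inferInstance, inferInstance, inferInstance, inferInstance,
    inferInstance, inferInstance, (locw (wt N n) ξ q).val, β, x, i, t, hI, hq, hle, ?_, ?_,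
    Subtype.val_injective, b1, b2, hloc, hnoeth, fun f e hf => ?_, fun a => ?_, ?_, fun j => ?_,
    b4, b5, fun Q hQ hWQ hQq => c3 I Q i hI hQ (hWQ hGW) (hQq ▸ hsb) (hQq ▸ hi)⟩
  · rw [hφ, b3]
    exact hLD'
  · rw [hx]
    exact germ_X h
  · rw [hax]
    exact hunit f e hf
  · simpa only [hax] using hfrac a
  · rw [d1]
    exact hdim
  · have h2 := hlen (Ideal.span {X (.inr j)}) (wHom_span fun f hf =>
      ⟨_, Set.mem_singleton_iff.1 hf ▸ isWeightedHomogeneous_X k _ _⟩)
    rw [Ideal.map_span, Set.image_singleton] at h2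
    rw [d1, hx]
    exact h2

end Pool.Agent.P.MP_12d50c_ag

end

section

/-! Step CHI. -/

open MvPolynomial Function WithZero IsLocalRing
open Pool.Agent.P.MP_6f117a_ag (Place FF Model Reg)
open scoped IntermediateField Polynomial

namespace Pool.Agent.P.MP_12d50c_ag

namespace ZCHI

theorem integral_of {A L : Type} [CommRing A] [CommRing L] [Algebra A L] {P : A[X]} {d : ℕ}
    (h1 : P.natDegree ≤ d) (h2 : IsUnit (P.coeff d)) {s : L} (h3 : Polynomial.aeval s P = 0) :
    IsIntegral A s := by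
  obtain ⟨w, hw⟩ := h2
  refine ⟨Polynomial.C (↑w⁻¹ : A) * P, Polynomial.monic_of_natDegree_le_of_coeff_eq_one d
    ((Polynomial.natDegree_C_mul_le _ _).trans h1) ?_, ?_⟩
  · rw [Polynomial.coeff_C_mul, ← hw, Units.inv_mul]
  · rw [← Polynomial.aeval_def, map_mul, h3, mul_zero]

end ZCHI

theorem z_CHI (hDG0 : Z_DG0) (hEXL : Z_EXL) (hLC : Z_LC) :
    Z_CHI := by
  intro k _ N n d G c hG
  have part2 : ∀ (Q : Ideal (RR k (N + 1 + N) n)) (E L : Type) [Field E] [Field L] [Algebra k E]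
      [Algebra k L] [Algebra E L] [IsScalarTower k E L] (ξ : Ix N n → E) (u v : L), LD Q ξ u v →
      G ∈ Q → sb (-c) 1 G ∉ prj Q → u + algebraMap k L c * v ≠ 0 := by
    intro Q E L _ _ _ _ _ _ ξ u v hL hGQ hs h0
    have hu : u = v * algebraMap k L (-c) := by rw [map_neg]; linear_combination h0
    have hv : v ≠ 0 := fun hv => hL.ne.elim (fun h => h (by rw [hu, hv, zero_mul])) fun h => h hv
    apply hs
    rw [(hDG0 k N n Q E L ξ u v hL).1, mem_vanw_of_hom (whom_sb _ _ hG)]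
    rw [← hL.eq, mem_vanw_of_hom hG] at hGQ
    have e : lf (fun a => algebraMap E L (ξ a)) u v =
        lf (fun a => algebraMap E L (ξ a)) (v * algebraMap k L (-c)) (v * algebraMap k L 1) := by
      rw [← hu, map_one, mul_one]
    rw [e, lf_scale, aeval_scale hG, ← aeval_sb] at hGQ
    have h1 := (mul_eq_zero.1 hGQ).resolve_left (pow_ne_zero _ hv)
    apply (algebraMap E L).injective
    rw [map_zero, ← h1]
    exact map_aeval' (IsScalarTower.toAlgHom k E L) ξ _
  refine ⟨fun A L _ _ _ _ _ _ x s hu h0 => ?_, part2, fun I Q i hI hQ hGQ hs hX hr => ?_⟩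
  · obtain ⟨h1, h2⟩ := hLC k N n d A x (algebraMap k A (-c)) (algebraMap k A 1) G hG
    refine ZCHI.integral_of h1 (by rw [h2, ← aeval_sb]; exact hu) ?_
    have h3 := map_aeval' ((Polynomial.aeval s : A[X] →ₐ[A] L).restrictScalars k)
      (lf (fun c => Polynomial.C (x c)) (1 + Polynomial.C (algebraMap k A (-c)) * Polynomial.X)
        (Polynomial.C (algebraMap k A 1) * Polynomial.X)) G
    rw [map_lf] at h3
    refine h3.trans (Eq.trans ?_ h0)
    congr 3
    · funext a; simp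
    · simp [← IsScalarTower.algebraMap_apply, sub_eq_add_neg]
    · simp
  · obtain ⟨E, L, _, _, _, _, _, _, ξ, u, v, hL, h1⟩ := ((hEXL k N n I Q hI).1 hQ).2 i hX
    apply part2 Q E L ξ u v hL hGQ hs
    rw [← hL.eq] at hr
    have h2 := aeval_eq_zero_of_mem_vanw hr
    rw [aeval_rh, aeval_X] at h2
    simpa [wt, h1] using h2

end Pool.Agent.P.MP_12d50c_ag

end

section

/-! Step CT2. -/

open MvPolynomial Function WithZero IsLocalRing
open Pool.Agent.P.MP_6f117a_ag (Place FF Model Reg)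
open scoped IntermediateField Polynomial

namespace Pool.Agent.P.MP_12d50c_ag

namespace ZCT2

variable {k : Type} [Field k] {N : ℕ}

theorem piv (y : NP k N) (a : Fin (N + 1)) (h : y.1 a ≠ 0) (h0 : ∀ j < a, y.1 j = 0) :
    y.piv = a ∧ y.1 a = 1 := by
  have e : y.piv = a := by
    rcases lt_trichotomy y.piv a with h1 | h1 | h1
    · exact absurd ((h0 _ h1).symm.trans y.piv_eq) zero_ne_one
    · exact h1
    · exact absurd (y.eq_zero h1) h
  exact ⟨e, e ▸ y.piv_eq⟩

theorem cases {y' : NP k (N + 1 + N)} {y : NP k N} {u v : k} (h : y'.1 = sg y.1 u v) :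
    (u = 1 ∧ y'.piv = il y.piv) ∨ (u = 0 ∧ v = 1 ∧ y'.piv = ir y.piv) := by
  by_cases hu : u = 0
  · have hv : v ≠ 0 := fun hv => y'.ne_zero (by
      rw [h, hu, hv]
      exact sg_ext (fun i => by simp) fun i => by simp)
    obtain ⟨h1, h2⟩ := piv y' (ir y.piv) (by rw [h, sg_ir, y.piv_eq, mul_one]; exact hv)
      fun j hj => by
        rcases il_or_ir j with ⟨i, rfl⟩ | ⟨i, rfl⟩
        · rw [h, sg_il, hu, zero_mul]
        · rw [h, sg_ir, y.eq_zero (ir_lt_ir.1 hj), mul_zero]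
    rw [h, sg_ir, y.piv_eq, mul_one] at h2
    exact .inr ⟨hu, h2, h1⟩
  · obtain ⟨h1, h2⟩ := piv y' (il y.piv) (by rw [h, sg_il, y.piv_eq, mul_one]; exact hu)
      fun j hj => by
        rcases il_or_ir j with ⟨i, rfl⟩ | ⟨i, rfl⟩
        · rw [h, sg_il, y.eq_zero (il_lt_il.1 hj), mul_zero]
        · exact absurd hj (il_lt_ir _ _).not_gt
    rw [h, sg_il, y.piv_eq, mul_one] at h2
    exact .inl ⟨h2, h1⟩

variable {E : Type} [Field E] [Algebra k E]

theorem cvd (hDM : S_DM) {ξ : Fin (N + 1) → E} (t : E) (h : CvD k ξ) : CvD k (sg ξ 1 t) := by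
  obtain ⟨i, hi⟩ := h.one
  have h1 : sg ξ 1 t (il i) = 1 := by rw [sg_il, hi, mul_one]
  have hg : Gen k 1 (sg ξ 1 t) := by
    rw [gen_iff (i := il i) rfl h1]
    refine top_unique (((gen_iff (i := i) rfl hi).1 h.gen).ge.trans
      (IntermediateField.adjoin.mono _ _ _ ?_))
    rintro _ ⟨j, rfl⟩
    exact ⟨il j, by rw [sg_il, one_mul]⟩
  obtain ⟨n, a1, a2⟩ := hDM k _ 1 E ξ i h.gen rfl (by rw [hi]; exact one_ne_zero)
  obtain ⟨n', b1, b2⟩ := hDM k _ 1 E _ (il i) hg rfl (by rw [h1]; exact one_ne_zero)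
  have e : n' = n := by exact_mod_cast b1.symm.trans a1
  exact ⟨hg, ⟨_, h1⟩, by rw [b2, e, ← a2, h.dim]⟩

theorem quo {ξ : Fin (N + 1) → E} {g : PP k N} {e : ℕ} (hg : g.IsHomogeneous e) {c : E}
    (hc : c ≠ 0) (x : E) :
    aeval (fun i => c * ξ i) g / (c * x) ^ e = aeval ξ g / x ^ e := by
  rw [aeval_smul hg, mul_pow, mul_div_mul_left _ _ (pow_ne_zero _ hc)]

end ZCT2

theorem z_CT2 (hDM : S_DM) (hCTR : Z_CTR) :
    Z_CT2 := by
  intro k _ _ N E _ _ ξ t hξ
  have hc := ZCT2.cvd hDM t hξ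
  obtain ⟨-, c2, c3⟩ := hCTR k _ E _ hc
  refine ⟨hc, fun y' y u v h => ?_⟩
  have hcs := ZCT2.cases h
  have p1 : ∀ P : Place k E, Ctr P (sg ξ 1 t) y' → Ctr P ξ y ∧
      (P.v t ≤ 1 → u = 1 ∧ P.v (t - algebraMap k E v) < 1) := fun P hP => by
    have hne := (c2 P y' hP).1
    rcases hcs with ⟨h1, h2⟩ | ⟨h1, h2, h3⟩
    · rw [h2, sg_il, one_mul] at hne
      refine ⟨fun j => ?_, fun _ => ⟨h1, ?_⟩⟩
      · have := hP (il j)
        rwa [h2, h, h1, sg_il, sg_il, sg_il, one_mul, one_mul, one_mul] at this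
      · have := hP (ir y.piv)
        rwa [h2, h, sg_ir, sg_il, sg_ir, one_mul, y.piv_eq, mul_one,
          mul_div_cancel_right₀ _ hne] at this
    · rw [h3, sg_ir] at hne
      refine ⟨fun j => ?_, fun ht => ?_⟩
      · have := hP (ir j)
        rwa [h3, h, h2, sg_ir, sg_ir, sg_ir, one_mul,
          mul_div_mul_left _ _ (left_ne_zero_of_mul hne)] at this
      · have := hP (il y.piv)
        rw [h3, h, h1, sg_il, sg_ir, sg_il, zero_mul, map_zero, sub_zero,
          mul_div_mul_right _ _ (right_ne_zero_of_mul hne), map_div₀, map_one,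
          div_lt_one₀ (zero_lt_iff.2 ((map_ne_zero _).2 (left_ne_zero_of_mul hne)))] at this
        exact absurd ht this.not_ge
  refine ⟨p1, fun hon ⟨P, _, hu, g, e, hg, hv⟩ => ?_, fun P c hP hu hv => ?_⟩
  · obtain ⟨P0, h0⟩ := (c3 y' hon).1
    obtain rfl : P0 = P := hu _ (p1 _ h0).1
    have hne := (c2 P0 y' h0).1
    refine ⟨P0, h0, fun P' h' => hu _ (p1 _ h').1, ?_⟩
    rcases hcs with ⟨-, h2⟩ | ⟨-, -, h3⟩
    · refine ⟨rename il g, e, hg.rename_isHomogeneous, ?_⟩
      have e1 : sg ξ 1 t ∘ il = fun i => 1 * ξ i := funext fun i => sg_il _ _ _ _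
      rw [aeval_rename, e1, h2, sg_il, ZCT2.quo hg one_ne_zero, hv]
    · refine ⟨rename ir g, e, hg.rename_isHomogeneous, ?_⟩
      have e1 : sg ξ 1 t ∘ ir = fun i => t * ξ i := funext fun i => sg_ir _ _ _ _
      rw [h3, sg_ir] at hne
      rw [aeval_rename, e1, h3, sg_ir, ZCT2.quo hg (left_ne_zero_of_mul hne), hv]
  · have ht : P.v t ≤ 1 := by
      rw [← sub_add_cancel t (algebraMap k E c)]
      refine P.v.map_add_le ?_ (P.triv c)
      rw [hv, ← exp_zero, exp_le_exp]
      norm_num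
    have h1 := ((p1 P hP).2 ht).1
    have hne := (c2 P y' hP).1
    rcases hcs with ⟨-, h2⟩ | ⟨h2, -, -⟩
    · rw [h2, sg_il, one_mul] at hne
      refine ⟨P, hP, hu, X (ir y.piv) - C c * X (il y.piv), 1,
        (isHomogeneous_X k _).sub (isHomogeneous_C_mul_X _ _), ?_⟩
      rw [h2, map_sub, map_mul, aeval_X, aeval_X, aeval_C, sg_il, sg_ir, one_mul, pow_one,
        ← sub_mul, mul_div_cancel_right₀ _ hne, hv]
    · exact absurd (h2.symm.trans h1) zero_ne_one

end Pool.Agent.P.MP_12d50c_ag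

end

section

/-! Step CTR. -/

open MvPolynomial Function WithZero IsLocalRing
open Pool.Agent.P.MP_6f117a_ag (Place FF Model Reg)
open scoped IntermediateField Polynomial

namespace Pool.Agent.P.MP_12d50c_ag

namespace ZCTR

variable {k : Type} [Field k] {N : ℕ} {E : Type} [Field E] [Algebra k E] {ξ : Fin (N + 1) → E}

theorem cen {P : Place k E} {y : NP k N} (h : Ctr P ξ y) : DICT.Cen ξ y P := by
  refine ⟨fun h0 => ?_, h⟩
  have h1 := h y.piv
  rw [h0, y.piv_eq] at h1
  simp at h1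

theorem piv_ne {y : NP k N} (h : On (van k ξ) y.1) : ξ y.piv ≠ 0 := fun h0 => by
  have h1 := h (X y.piv) ((mem_van_of_hom (isHomogeneous_X k _)).2 (by rw [aeval_X, h0]))
  rw [aeval_X, y.piv_eq] at h1
  exact one_ne_zero h1

theorem ker_le {y : NP k N} (h : On (van k ξ) y.1) (f : PP k N)
    (hf : aeval (fun j => ξ j / ξ y.piv) f = 0) : aeval y.1 f = 0 := by
  obtain ⟨d, f', h1, h2⟩ := exists_homog (w := 1) (i := y.piv) rfl f
  have h3 : f'.IsHomogeneous d := h1
  rw [← h2 k y.1 y.piv_eq]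
  refine h f' ((mem_van_of_hom h3).2 ?_)
  rw [← h2 E _ (div_self (piv_ne h))] at hf
  simp only [div_eq_inv_mul] at hf
  rw [aeval_smul h3] at hf
  exact (mul_eq_zero.1 hf).resolve_left (pow_ne_zero _ (inv_ne_zero (piv_ne h)))

end ZCTR

theorem z_CTR (hPLACE : S_PLACE) (hCUF : Z_CUF) :
    Z_CTR := by
  intro k _ _ N E _ _ ξ hξ
  obtain ⟨hFF, htr⟩ := (hCUF k N).1 E ξ hξ
  obtain ⟨-, hfin, -, -, -, -, hres, hpl⟩ := hPLACE k E
  obtain ⟨i, hi⟩ := hξ.one
  refine ⟨fun P => (DICT.exists_cen P (hres P) (hi ▸ one_ne_zero : ξ i ≠ 0)).imp fun y hy => hy.2,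
    fun P y h => ?_, fun y hy => ?_⟩
  · have hc := ZCTR.cen h
    exact ⟨hc.1, (Hom.on_iff (wHom_vanw ξ)).2 hc.le, fun y' h' => (ZCTR.cen h').unique hc,
      fun j => DICT.le_of_cong P (h j), fun g e hg => hc.cong' hg⟩
  · obtain ⟨j, hj⟩ := htr _ (ZCTR.piv_ne hy)
    constructor
    · let ψ : PP k N →ₐ[k] E := aeval fun j => ξ j / ξ y.piv
      have hs : Surjective ψ.rangeRestrict := ψ.rangeRestrict_surjective
      let φ : ψ.range →ₐ[k] k := AlgHom.liftOfSurjective ψ.rangeRestrict hs (aeval y.1)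
        fun f hf => ZCTR.ker_le hy f (congrArg Subtype.val hf)
      have hφ : ∀ f, φ (ψ.rangeRestrict f) = aeval y.1 f := fun f =>
        AlgHom.liftOfSurjective_apply _ _ _ _ f
      obtain ⟨P, hP⟩ := hpl ψ.range φ _ ⟨X j, aeval_X _ _⟩ hj
      refine ⟨P, fun l => ?_⟩
      have h1 := hP (ψ.rangeRestrict (X l))
      rw [hφ, aeval_X] at h1
      have h2 : ((ψ.rangeRestrict (X l) : ψ.range) : E) = ξ l / ξ y.piv := aeval_X _ _
      rwa [h2] at h1
    · refine (hfin (ξ j / ξ y.piv - algebraMap k E (y.1 j)) fun h0 => hj ?_).subset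
        fun P hP => (hP j).ne
      rw [sub_eq_zero.1 h0]
      exact isAlgebraic_algebraMap _

end Pool.Agent.P.MP_12d50c_ag

end

section

/-! Step CUF. -/

open MvPolynomial Function WithZero IsLocalRing
open Pool.Agent.P.MP_6f117a_ag (Place FF Model Reg)
open scoped IntermediateField Polynomial

namespace Pool.Agent.P.MP_12d50c_ag

namespace ZCUF

theorem rel {k : Type} [Field k] {N : ℕ} {I : Ideal (PP k N)}
    (h : ringKrullDim (PP k N ⧸ I) = 2) : Rel I := by
  by_contra h1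
  simp only [Rel, not_exists, not_not] at h1
  have h2 : Function.Surjective (algebraMap k (PP k N ⧸ I)) := fun a => by
    obtain ⟨f, rfl⟩ := Ideal.Quotient.mk_surjective a
    induction f using MvPolynomial.induction_on with
    | C c => exact ⟨c, rfl⟩
    | add f g hf hg =>
      obtain ⟨a, ha⟩ := hf
      obtain ⟨b, hb⟩ := hg
      exact ⟨a + b, by rw [map_add, map_add, ha, hb]⟩
    | mul_X f i _ =>
      exact ⟨0, by rw [map_zero, map_mul, Ideal.Quotient.eq_zero_iff_mem.2 (h1 i), mul_zero]⟩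
  have h3 := ringKrullDim_le_of_surjective _ h2
  rw [h, ringKrullDim_eq_zero_of_field] at h3
  exact absurd h3 (by decide)

end ZCUF

theorem z_CUF (hEX : S_EX) (hDM : S_DM) :
    Z_CUF := by
  intro k _ N
  refine ⟨fun E _ _ ξ h => ?_, fun I p hp => ?_⟩
  · obtain ⟨i₀, h0⟩ := h.one
    obtain ⟨n, h1, h2⟩ := hDM k _ 1 E ξ i₀ h.gen rfl (h0 ▸ one_ne_zero)
    have hn : n = 1 := by
      have := h2.symm.trans h.dim
      norm_cast at this
      omega
    rw [hn, Nat.cast_one] at h1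
    refine ⟨FF.of_fg ?_ h1.le, fun i hi => ?_⟩
    · rw [← (gen_iff (w := 1) rfl h0).1 h.gen]
      exact IntermediateField.fg_adjoin_of_finite (Set.finite_range ξ)
    · by_contra hc
      simp only [not_exists, Transcendental, not_not] at hc
      have h3 := (gen_iff (w := 1) (i := i) rfl (by simp [hi])).1 (h.gen.scale (inv_ne_zero hi))
      have h4 : (⊤ : IntermediateField k E) ≤ algebraicClosure k E := by
        rw [← h3, IntermediateField.adjoin_le_iff]
        rintro _ ⟨j, rfl⟩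
        refine mem_algebraicClosure_iff.2 ?_
        simpa [div_eq_inv_mul] using hc j
      have : Algebra.IsAlgebraic k E :=
        ⟨fun x => mem_algebraicClosure_iff.1 (h4 IntermediateField.mem_top)⟩
      rw [trdeg_eq_zero] at h1
      exact zero_ne_one h1
  · obtain ⟨i, hi⟩ := ZCUF.rel hp.2.2
    obtain ⟨E, _, _, ξ, h1, h2, h3⟩ := hEX k _ 1 p.asIdeal i hp.1 rfl hi
    exact ⟨E, _, _, ξ, ⟨h3, ⟨i, h2⟩, by rw [van, h1]; exact hp.2.2⟩, h1⟩

end Pool.Agent.P.MP_12d50c_ag

end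

section

/-! Step DD. -/

open MvPolynomial Function WithZero IsLocalRing
open Pool.Agent.P.MP_6f117a_ag (Place FF Model Reg)
open scoped IntermediateField Polynomial

namespace Pool.Agent.P.MP_12d50c_ag

theorem ZDD.trdeg_one {E L : Type} [Field E] [Field L] [Algebra E L] {t : L} (h : E⟮t⟯ = ⊤)
    (h0 : Module.finrank E L = 0) : Algebra.trdeg E L = 1 := by
  have ht : Transcendental E t := fun ha => by
    have := IntermediateField.adjoin.finiteDimensional ha.isIntegral
    rw [h] at this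
    have := IntermediateField.topEquiv (F := E) (E := L) |>.toLinearEquiv.finiteDimensional
    exact Module.finrank_pos.ne' h0
  have h1 : IsTranscendenceBasis E fun _ : Unit => t := by
    rw [((algebraicIndependent_unique_type_iff (x := fun _ : Unit => t)).2
      ht).isTranscendenceBasis_iff_isAlgebraic, ← IntermediateField.isAlgebraic_adjoin_iff_top,
      Set.range_const]
    exact ⟨fun y => isAlgebraic_algebraMap (⟨y, h.ge IntermediateField.mem_top⟩ : E⟮t⟯)⟩
  rw [← h1.cardinalMk_eq_trdeg, Cardinal.mk_unit]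

theorem z_DD (hDM : S_DM) (hDG0 : Z_DG0) (hDG : Z_DG) (hEXL : Z_EXL) :
    Z_DD := by
  intro k _ N n I Q hI hQ
  obtain ⟨hA, hE⟩ := (hEXL k N n I Q hI).1 hQ
  obtain ⟨i, hi⟩ := hA.rel
  obtain ⟨E, L, _, _, _, _, _, _, ξ, u, v, H, h1⟩ := hE i hi
  obtain ⟨e1, e2, -⟩ := hDG0 k N n Q E L ξ u v H
  obtain ⟨r, r1, r2⟩ := hDM k _ (wt N n) E ξ (.inl i) H.gen rfl (h1 ▸ one_ne_zero)
  obtain ⟨j, hj⟩ : ∃ j, lf (fun a => algebraMap E L (ξ a)) u v (.inl j) ≠ 0 :=
    H.ne.elim (fun h => ⟨il i, by simpa [h1] using h⟩) fun h => ⟨ir i, by simpa [h1] using h⟩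
  obtain ⟨m, m1, m2⟩ := hDM k _ (wt (N + 1 + N) n) L _ (.inl j) e2 rfl hj
  have t := trdeg_add_eq k E (A := L)
  rw [H.eq] at m2
  rw [e1, hDG k N n Q E L ξ u v H, m2]
  rw [r1, m1] at t
  refine ⟨r, r2, fun h => ?_, fun h => ?_⟩
  · have := Module.finite_of_finrank_pos (Nat.pos_of_ne_zero h)
    rw [trdeg_eq_zero, add_zero, Nat.cast_inj] at t
    rw [t]
  · rw [ZDD.trdeg_one H.top h, ← Nat.cast_succ, Nat.cast_inj] at t
    rw [← t]

end Pool.Agent.P.MP_12d50c_ag

end
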