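import Pool.Agent.P.MP_12d50c_ag.Z.Base
import Pool.Agent.P.MP_12d50c_ag.TBERT

/-!
Statements, part A: tangent spaces, hypersurface sections, faces, zero-cycles.
-/

open MvPolynomial Function WithZero IsLocalRing
open Pool.Agent.P.MP_6f117a_ag (Place FF Model Reg)
open scoped IntermediateField Polynomial

namespace Pool.Agent.P.MP_12d50c_ag

-- deps: S_LIN
/-- Semicontinuity of the dimension of the tangent space. -/
def Z_SEMI : Prop := ∀ (k : Type) [Field k] (N : ℕ) (J : Ideal (PP k N)) (Ω : Type) [Field Ω]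
  [Algebra k Ω] (y : Fin (N + 1) → Ω), Hom J → On J y →
  ∃ (M : PP k N) (e : ℕ), M.IsHomogeneous e ∧ aeval y M ≠ 0 ∧
    ∀ (Ω' : Type) [Field Ω'] [Algebra k Ω'] (y' : Fin (N + 1) → Ω'), On J y' → aeval y' M ≠ 0 →
      Module.finrank Ω' (Tan J y') ≤ Module.finrank Ω (Tan J y)

-- deps: S_LIN
-- imports: Pool.Agent.P.MP_12d50c_ag.TREG
/-- Generators of the maximal ideal. -/
def Z_RG : Prop := ∀ (k : Type) [Field k] (N d : ℕ) (I : Ideal (PP k N)) (y : NP k N),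
  Hom I → On I y.1 → Module.finrank k (Tan I y.1) ≤ d + 1 →
  ∃ l : List (LQ I (van k y.1)), l.length = d ∧ Ideal.ofList l = mQ I (van k y.1)

-- deps: S_NS0 S_NSP Z_SEMI Z_RG
-- imports: Pool.Agent.P.MP_e7d440_ag.Reg
/-- Lower bound for tangent spaces; smoothness is checked at rational points. -/
def Z_GEQ : Prop := ∀ (k : Type) [Field k] [IsAlgClosed k] (N d : ℕ) (I : Ideal (PP k N)),
  I.IsPrime → Hom I → ringKrullDim (PP k N ⧸ I) = (d + 1 : ℕ) →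
  (∀ (Ω : Type) [Field Ω] [Algebra k Ω] (y : Fin (N + 1) → Ω), y ≠ 0 → On I y →
    d + 1 ≤ Module.finrank Ω (Tan I y)) ∧
  ((∀ y : NP k N, On I y.1 → Module.finrank k (Tan I y.1) ≤ d + 1) → IsSm d I)

-- deps:
-- imports: Pool.Agent.P.MP_12d50c_ag.TREG
/-- A form of order one gives a smooth point of a curve. -/
def Z_TD : Prop := ∀ (k : Type) [Field k] (N : ℕ) (p : Ideal (PP k N)) (y : NP k N) (g : PP k N)
  (e : ℕ), Hom p → g.IsHomogeneous e → ordI p y g = 1 → Module.finrank k (Tan p y.1) ≤ 2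

-- deps: Z_RG
/-- Tangent spaces of unions. -/
def Z_TU : Prop := ∀ (k : Type) [Field k] (N : ℕ) (J J' : Ideal (PP k N)) (y : NP k N),
  On J y.1 → (¬ On J' y.1 → Tan (J ⊓ J') y.1 = Tan J y.1) ∧
  (Hom J → Hom J' → J'.IsPrime → On J' y.1 → Module.finrank k (Tan J' y.1) ≤ 2 →
    Module.finrank k (Tan (J ⊓ J') y.1) ≤ Module.finrank k (Tan J y.1) + 1)

-- deps: S_NSP S_FINC Z_TU
/-- Unions of smooth curves without triple points. -/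
def Z_UNI : Prop := ∀ (k : Type) [Field k] [IsAlgClosed k] (N : ℕ)
  (S : Finset (PrimeSpectrum (PP k N))),
  (∀ p ∈ S, p ∈ Cu (⊥ : Ideal (PP k N)) ∧
    ∀ y : NP k N, On p.asIdeal y.1 → Module.finrank k (Tan p.asIdeal y.1) ≤ 2) →
  (∀ y : NP k N, ∀ p ∈ S, ∀ q ∈ S, ∀ r ∈ S, On p.asIdeal y.1 → On q.asIdeal y.1 →
    On r.asIdeal y.1 → p = q ∨ q = r ∨ p = r) → Gd (S.inf fun p => p.asIdeal)

-- deps: S_NS0 S_NSP S_TR Z_SEMI
/-- Tangent spaces of good ideals at arbitrary points. -/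
def Z_GT : Prop := ∀ (k : Type) [Field k] [IsAlgClosed k] (N : ℕ) (J : Ideal (PP k N))
  (K Ω : Type) [Field K] [Field Ω] [Algebra k K] [Algebra k Ω] (φ : K →ₐ[k] Ω)
  (y : Fin (N + 1) → K) (i : Fin (N + 1)), Gd J → y i = 1 → On J y →
  ∃ ρ : ℕ, Algebra.trdeg k (IntermediateField.adjoin k (Set.range fun r => φ (y r))) ≤ ρ ∧
    Module.finrank K (Tan J y) + ρ ≤ 3

-- deps: S_TR Z_GEQ Z_GT
/-- The generic hypersurface that contains `V(J)` has no singular point. -/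
def Z_BG : Prop := ∀ (k : Type) [Field k] [IsAlgClosed k] (N D n : ℕ) (I J : Ideal (PP k N))
  (G ι : Type) [Fintype G] [Fintype ι] (f : G → PP k N) (e : ι → PP k N) (H : Set (PP k N))
  (i : Fin (N + 1)), IsSm D I → 3 ≤ D → I ≤ J → Gd J → Ideal.span (Set.range f) = I →
  Ideal.span H = J → (∀ h ∈ H, ∃ d < n, h.IsHomogeneous d ∧ ∀ r : PP k N,
    r.IsHomogeneous (n - d) → h * r ∈ Submodule.span k (Set.range e)) →
  ∀ (Ω : Type) [Field Ω] [Algebra k Ω] (w : ι → Ω) (y : Fin (N + 1) → Ω) (l : G → Ω) (m : Ω),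
    AlgebraicIndependent k w → ¬ BERT.Sys f e 1 i w y l m

-- deps: S_LIN S_UG Z_BG
/-- Bertini's theorem for hypersurfaces that contain a curve. -/
def Z_BER : Prop := ∀ (k : Type) [Field k] [IsAlgClosed k] (N D : ℕ) (I J : Ideal (PP k N)),
  IsSm D I → 3 ≤ D → I ≤ J → Gd J → ∃ a ∈ J, ∃ n, a.IsHomogeneous n ∧ Good I a

-- deps: S_NS0 S_NSP Z_RG Z_GEQ
-- imports: Pool.Agent.P.MP_e7d440_ag.Reg Pool.Agent.P.MP_12d50c_ag.TM3
/-- The components of a smooth hypersurface section. -/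
def Z_COMP : Prop := ∀ (k : Type) [Field k] [IsAlgClosed k] (N D : ℕ) (I : Ideal (PP k N))
  (a : PP k N) (e : ℕ), IsSm (D + 1) I → a.IsHomogeneous e → Good I a →
  ∃ S : Finset (PrimeSpectrum (PP k N)), (∀ T ∈ S, IsSm D T.asIdeal ∧ I ≤ T.asIdeal) ∧
    (∀ P : Ideal (PP k N), P.IsPrime → I ≤ P → a ∈ P → ∃ T ∈ S, T.asIdeal ≤ P) ∧
    ∀ T ∈ S, ∀ T' ∈ S, ∀ y : NP k N, On T.asIdeal y.1 → On T'.asIdeal y.1 → T = T'

-- deps: S_VP0 S_LS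
-- imports: Pool.Agent.P.MP_12d50c_ag.TM3
/-- Primes on faces. -/
def Z_FC : Prop := ∀ (k : Type) [Field k] (N : ℕ),
  (∀ (m n : ℕ) (g : Fin (m + 1) → Fin (n + 1)), Injective g →
    (∀ Q : Ideal (RR k N m), (∀ j ∉ Set.range g, X (.inr j) ∈ Q.comap (smap g)) ∧
      ringKrullDim (RR k N n ⧸ Q.comap (smap g)) = ringKrullDim (RR k N m ⧸ Q) ∧
      ∀ Q', Q.comap (smap g) ≤ Q'.comap (smap g) → Q ≤ Q') ∧
    ∀ (I : Ideal (PP k N)) (P : Ideal (RR k N n)), Adm I P → (∀ j ∉ Set.range g, X (.inr j) ∈ P) →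
      ∃ Q : Ideal (RR k N m), Adm I Q ∧ Q.comap (smap g) = P) ∧
  ∀ (n : ℕ) (j : Fin (n + 2)) (W : Ideal (RR k N (n + 1))) (Q : Ideal (RR k N n)) [Q.IsPrime],
    len (W.map (smap j.succAbove)) Q =
      len (W ⊔ Ideal.span {X (.inr j)}) (Q.comap (smap j.succAbove))

-- deps: S_VP0
/-- Passing to a subvariety. -/
def Z_SUB : Prop := ∀ (k : Type) [Field k] (N : ℕ) (I J : Ideal (PP k N)),
  (∀ (n : ℕ) (W : Ideal (RR k N (n + 1))) (Q : PrimeSpectrum (RR k N n)), bdA W Q ≠ 0 →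
    (∃ j : Fin (n + 2), W.map (smap j.succAbove) ≤ Q.asIdeal) ∧
    (cyl J (n + 1) ≤ W → Q ∈ Cv I n → Q ∈ Cv J n)) ∧
  (I ≤ J → (∀ n, Cv J n ⊆ Cv I n) ∧
    (∀ (n : ℕ) (W : Ideal (RR k N n)), cyl J n ≤ W → (Prp I W ↔ Prp J W)) ∧
    (∀ φ, Kills I φ → Kills J φ) ∧ ∀ φ χ, Fac I φ χ → Fac J φ χ)

-- deps: S_VP0 Z_FC
-- imports: Pool.Agent.P.MP_12d50c_ag.TM3
/-- Proper intersection with the faces. -/
def Z_PRP : Prop := ∀ (k : Type) [Field k] (N : ℕ) (I : Ideal (PP k N)),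
  (∀ n, ∀ W ∈ Cv I (n + 1), Prp I W.asIdeal → ∀ j, X (.inr j) ∉ W.asIdeal) ∧
  ∀ Q ∈ Cv I 1, (∀ j, X (.inr j) ∉ Q.asIdeal) → Prp I Q.asIdeal

-- deps: S_FINB Z_SUB
/-- Functionals that vanish on cycles factor through the boundary, and conversely. -/
def Z_FACT : Prop := ∀ (k : Type) [Field k] (N : ℕ) (I : Ideal (PP k N)),
  (TA I → ∀ φ, Kills I φ → ∃ χ, Fac I φ χ) ∧
  ((∀ φ, Kills I φ → ∀ S : Finset (PrimeSpectrum (RR k N 1)),
    (∀ Q ∈ S, Q ∈ Cv I 1 ∧ Prp I Q.asIdeal) → ∃ ψ : Ideal (RR k N 0) → ℚ,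
      ∀ Q ∈ S, φ Q.asIdeal = ∑ᶠ z ∈ Cv I 0, ψ z.asIdeal * bdA Q.asIdeal z) → TA I)

-- deps: S_NS0 S_NSP S_VP0 S_VP S_CL
/-- Closed points. -/
def Z_PT : Prop := ∀ (k : Type) [Field k] (N : ℕ),
  (∀ p : Ideal (PP k N), (cyl p 0).comap (inc 0) = p) ∧
  (∀ P : Ideal (RR k N 0), cyl ⊥ 0 ≤ P → cyl (P.comap (inc 0)) 0 = P) ∧
  ∀ I : Ideal (PP k N),
  (∀ z ∈ Cv I 0, cyl (z.asIdeal.comap (inc 0)) 0 = z.asIdeal ∧ Hom (z.asIdeal.comap (inc 0)) ∧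
    Rel (z.asIdeal.comap (inc 0)) ∧ I ≤ z.asIdeal.comap (inc 0) ∧
    ringKrullDim (PP k N ⧸ z.asIdeal.comap (inc 0)) = 1) ∧
  (∀ p : Ideal (PP k N), p.IsPrime → Hom p → Rel p → I ≤ p → ringKrullDim (PP k N ⧸ p) = 1 →
    ∃ z ∈ Cv I 0, z.asIdeal = cyl p 0) ∧
  (IsAlgClosed k → ∀ z ∈ Cv I 0, ∃ y : NP k N, On I y.1 ∧ z.asIdeal = cyl (van k y.1) 0)

-- deps: S_TK S_CL Z_GEQ Z_BER Z_COMP Z_SUB Z_FACT Z_PT
/-- Induction on the dimension. -/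
def Z_IND : Prop := ∀ (k : Type) [Field k] [IsAlgClosed k] (p : ℕ) [Fact p.Prime] [CharP k p]
  (N d : ℕ) (I J : Ideal (PP k N)) (φ : Ideal (RR k N 1) → ℚ), LocFin k p → 2 ≤ d → IsSm d I →
  I ≤ J → Gd J → Kills I φ → ∃ χ, Fac J φ χ

-- deps: S_LS S_AS S_VP0 S_VP S_CL Z_PRP Z_PT
-- imports: Pool.Agent.P.MP_12d50c_ag.TM3
/-- The boundary of a curve is the divisor of a function, over any field. -/
def Z_MF : Prop := ∀ (k : Type) [Field k] (N : ℕ) (Q : PrimeSpectrum (RR k N 1)) (G : RR k N 1),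
  ∀ p ∈ Cu (⊥ : Ideal (PP k N)), Gen1 p.asIdeal Q G → vtx 0 G ∉ p.asIdeal → vtx 1 G ∉ p.asIdeal →
  Prp p.asIdeal Q.asIdeal ∧ ∀ z ∈ Cv (⊥ : Ideal (PP k N)) 0, bdA Q.asIdeal z =
    (len (p.asIdeal ⊔ Ideal.span {vtx 1 G}) (z.asIdeal.comap (inc 0))).toNat -
      (len (p.asIdeal ⊔ Ideal.span {vtx 0 G}) (z.asIdeal.comap (inc 0))).toNat

-- deps: S_G12 Z_MF
/-- Principal divisors are killed. -/
def Z_DV : Prop := ∀ (k : Type) [Field k] (N : ℕ) (χ : PrimeSpectrum (RR k N 0) → ℚ)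
  (g g' : PP k N) (e : ℕ), ∀ p ∈ Cu (⊥ : Ideal (PP k N)), Fac p.asIdeal 0 χ →
  g.IsHomogeneous e → g'.IsHomogeneous e → g ∉ p.asIdeal → g' ∉ p.asIdeal →
  g - g' ∉ p.asIdeal → ∑ᶠ z ∈ Cv (⊥ : Ideal (PP k N)) 0, χ z *
    ((len (p.asIdeal ⊔ Ideal.span {g}) (z.asIdeal.comap (inc 0))).toNat -
      (len (p.asIdeal ⊔ Ideal.span {g'}) (z.asIdeal.comap (inc 0))).toNat) = 0

-- deps: S_NS0 S_CURVE Z_PT Z_DV
/-- Two points that are linearly equivalent up to a multiple. -/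
def Z_LINE : Prop := ∀ (k : Type) [Field k] [IsAlgClosed k] (N : ℕ) (p : Ideal (PP k N))
  (χ : PrimeSpectrum (RR k N 0) → ℚ) (y y' : NP k N) (g g' : PP k N)
  (z z' : PrimeSpectrum (RR k N 0)), IsSm 1 p → Fac p 0 χ → g.IsHomogeneous 1 →
  g'.IsHomogeneous 1 → g ∉ p → g' ∉ p → (∀ x : NP k N, On p x.1 → aeval x.1 g = 0 → x = y) →
  (∀ x : NP k N, On p x.1 → aeval x.1 g' = 0 → x = y') → z.asIdeal = cyl (van k y.1) 0 →
  z'.asIdeal = cyl (van k y'.1) 0 → χ z = χ z'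

-- deps:
/-- Elements of small norm in ideals of a curve over a finite field. -/
def Z_CA0 : Prop := ∀ (F A : Type) [Field F] [Finite F] [CommRing A] [IsDomain A] [Algebra F A]
  [Algebra.FiniteType F A], ringKrullDim A = 1 →
  (∀ J : Ideal A, J ≠ ⊥ → Module.Finite F (A ⧸ J)) ∧ ∃ C : ℕ, ∀ J : Ideal A, J ≠ ⊥ →
    ∃ a ∈ J, a ≠ 0 ∧ Module.finrank F (A ⧸ Ideal.span {a}) ≤ Module.finrank F (A ⧸ J) + C

-- deps:
/-- There are finitely many ideals of bounded index. -/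
def Z_CA1 : Prop := ∀ (F A : Type) [Field F] [Finite F] [CommRing A] [Algebra F A]
  [Algebra.FiniteType F A] (C : ℕ),
  {J : Ideal A | Module.Finite F (A ⧸ J) ∧ Module.finrank F (A ⧸ J) ≤ C}.Finite

-- deps: Z_CA0 Z_CA1
/-- Points of affine curves over finite fields are cut out by one function. -/
def Z_CA : Prop := ∀ (F A : Type) [Field F] [Finite F] [CommRing A] [IsDomain A] [Algebra F A]
  [Algebra.FiniteType F A] (m : Ideal A), ringKrullDim A = 1 → m.IsMaximal →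
  ∃ b ∈ m, b ≠ 0 ∧ ∀ n : Ideal A, n.IsMaximal → b ∈ n → n = m

-- deps: S_EX S_DM Z_CA
/-- The same in homogeneous coordinates. -/
def Z_CG : Prop := ∀ (F : Type) [Field F] [Finite F] (N : ℕ) (i : Fin (N + 1))
  (y : Ideal (PP F N)), ∀ p ∈ Cu (⊥ : Ideal (PP F N)), y.IsPrime → Hom y → p.asIdeal < y →
  X i ∉ y → ∃ (g : PP F N) (e : ℕ), g.IsHomogeneous e ∧ g ∉ p.asIdeal ∧ g ∈ y ∧
    ∀ y' : Ideal (PP F N), y'.IsPrime → Hom y' → p.asIdeal ≤ y' → X i ∉ y' → g ∈ y' → y' = y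

-- deps:
-- imports: Pool.Agent.P.MP_12d50c_ag.TM3
/-- Curves through a point. -/
def Z_CUR : Prop := ∀ (k : Type) [Field k] (N : ℕ) (P y : Ideal (PP k N)), P.IsPrime → Hom P →
  y.IsPrime → Hom y → P < y → ringKrullDim (PP k N ⧸ y) = 1 → ∃ p ∈ Cu P, p.asIdeal < y

-- deps: Z_SUB Z_PT Z_DV Z_CG Z_CUR
/-- Points are equivalent to cycles at infinity. -/
def Z_C1 : Prop := ∀ (F : Type) [Field F] [Finite F] (N : ℕ) (i : Fin (N + 1))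
  (P : Ideal (PP F N)) (χ : PrimeSpectrum (RR F N 0) → ℚ), P.IsPrime → Hom P → Fac P 0 χ →
  (∀ z ∈ Cv (P ⊔ Ideal.span {X i}) 0, χ z = 0) →
  ∀ z ∈ Cv P 0, z.asIdeal ≠ cyl P 0 → X i ∉ P → χ z = 0

-- deps: Z_SUB Z_PT Z_C1
/-- The group of zero-cycles modulo rational equivalence has finite rank. -/
def Z_C0 : Prop := ∀ (F : Type) [Field F] [Finite F] (N : ℕ) (J : Ideal (PP F N)), Hom J →
  ∃ T : Finset (PrimeSpectrum (RR F N 0)), ∀ χ, Fac J 0 χ → (∀ z ∈ T, χ z = 0) →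
    ∀ z ∈ Cv J 0, χ z = 0

end Pool.Agent.P.MP_12d50c_ag
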