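import Pool.Agent.P.MP_12d50c_ag.Z.IfaceB
import Pool.Agent.P.MP_12d50c_ag.Z.IfaceA
import Pool.Agent.P.MP_12d50c_ag.TM3
import Pool.Agent.P.MP_638e8a_ag.ChA3
import Pool.Agent.P.MP_638e8a_ag.ChA4
import Pool.Agent.P.MP_638e8a_ag.ChA2b

/-!
Proofs of the steps DG, DG0, EXL, FIBC, FINL, GS.
-/

section

/-! Step DG. -/

open MvPolynomial Function WithZero IsLocalRing
open Pool.Agent.P.MP_6f117a_ag (Place FF Model Reg)
open scoped IntermediateField Polynomial

namespace Pool.Agent.P.MP_12d50c_ag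

namespace ZDG

variable {k : Type} [Field k]

theorem iso (hEMB : S_EMB) {τ : Type} {w : τ → ℕ} {L M : Type} [Field L] [Field M] [Algebra k L]
    [Algebra k M] {ξ : τ → L} {η : τ → M} {i : τ} (h1 : Gen k w ξ) (h2 : Gen k w η) (hi : w i = 1)
    (e1 : ξ i = 1) (e2 : η i = 1) (e : vanw k w ξ = vanw k w η) :
    ∃ ψ : L ≃ₐ[k] M, ∀ j, ψ (ξ j) = η j := by
  obtain ⟨ψ, hψ⟩ := hEMB k τ w L M ξ η i h1 hi e1 e2 e
  refine ⟨AlgEquiv.ofBijective ψ ⟨ψ.toRingHom.injective, fun u => ?_⟩, hψ⟩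
  obtain ⟨d, g, h, -, -, h3, h4⟩ := h2 u
  refine ⟨aeval ξ g / aeval ξ h, ?_⟩
  rw [map_div₀, map_aeval', map_aeval', funext hψ, eq_div_of_mul_eq h3 h4]

theorem ext {τ : Type} {w : τ → ℕ} {L M : Type} [Field L] [Field M] [Algebra k L]
    [Algebra k M] {ξ : τ → L} (h1 : Gen k w ξ) (F G : L →ₐ[k] M) (e : ∀ j, F (ξ j) = G (ξ j))
    (u : L) : F u = G u := by
  obtain ⟨d, g, h, -, -, h3, h4⟩ := h1 u
  rw [eq_div_of_mul_eq h3 h4, map_div₀, map_div₀, map_aeval' F, map_aeval' F, map_aeval' G,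
    map_aeval' G, funext e]

variable {N n : ℕ} {Q : Ideal (RR k (N + 1 + N) n)} {E L E' L' : Type} [Field E] [Field L]
  [Algebra k E] [Algebra k L] [Algebra E L] [IsScalarTower k E L] [Field E'] [Field L']
  [Algebra k E'] [Algebra k L'] [Algebra E' L'] [IsScalarTower k E' L'] {ξ : Ix N n → E}
  {ξ' : Ix N n → E'} {u v : L} {u' v' : L'}

theorem core (hEMB : S_EMB) (hDG0 : Z_DG0) (h : LD Q ξ u v) (h' : LD Q ξ' u' v') {i : Fin (N + 1)}
    (e : ξ (.inl i) = 1) (e' : ξ' (.inl i) = 1) (hu : (u = 1 ∧ u' = 1) ∨ (v = 1 ∧ v' = 1)) :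
    Module.finrank E L = Module.finrank E' L' := by
  obtain ⟨p1, g1, -⟩ := hDG0 k N n Q E L ξ u v h
  obtain ⟨p2, g2, -⟩ := hDG0 k N n Q E' L' ξ' u' v' h'
  obtain ⟨ψ, hψ⟩ := iso hEMB h.gen h'.gen (i := .inl i) rfl e e' (p1.symm.trans p2)
  obtain ⟨Ψ, hΨ⟩ : ∃ Ψ : L ≃ₐ[k] L', ∀ j, Ψ (algebraMap E L (ξ j)) = algebraMap E' L' (ξ' j) := by
    rcases hu with ⟨rfl, rfl⟩ | ⟨rfl, rfl⟩
    · obtain ⟨Ψ, hΨ⟩ := iso hEMB g1 g2 (i := .inl (il i)) rfl (by simp [e]) (by simp [e'])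
        (h.eq.trans h'.eq.symm)
      refine ⟨Ψ, fun j => ?_⟩
      rcases j with j | j
      · simpa using hΨ (.inl (il j))
      · simpa using hΨ (.inr j)
    · obtain ⟨Ψ, hΨ⟩ := iso hEMB g1 g2 (i := .inl (ir i)) rfl (by simp [e]) (by simp [e'])
        (h.eq.trans h'.eq.symm)
      refine ⟨Ψ, fun j => ?_⟩
      rcases j with j | j
      · simpa using hΨ (.inl (ir j))
      · simpa using hΨ (.inr j)
  refine Algebra.finrank_eq_of_equiv_equiv ψ.toRingEquiv Ψ.toRingEquiv (RingHom.ext fun a => ?_)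
  exact ext h.gen ((IsScalarTower.toAlgHom k E' L').comp ψ.toAlgHom)
    (Ψ.toAlgHom.comp (IsScalarTower.toAlgHom k E L)) (fun j => by simp [hψ, hΨ]) a

omit [IsScalarTower k E L] in
theorem memX (h : LD Q ξ u v) (c : Ix (N + 1 + N) n) :
    X c ∈ Q ↔ lf (fun a => algebraMap E L (ξ a)) u v c = 0 := by
  rw [← h.eq, mem_vanw_of_hom (isWeightedHomogeneous_X k _ c), aeval_X]

theorem eq1 (hEMB : S_EMB) (hDG0 : Z_DG0) (h : LD Q ξ u v) (h' : LD Q ξ' u' v') {i : Fin (N + 1)}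
    (e : ξ (.inl i) = 1) (e' : ξ' (.inl i) = 1) :
    Module.finrank E L = Module.finrank E' L' := by
  have s1 := (hDG0 k N n Q E L ξ u v h).2.2.2.1
  have s2 := (hDG0 k N n Q E' L' ξ' u' v' h').2.2.2.1
  rcases h.ne with hu | hv
  · have hu' : u' ≠ 0 := fun h0 => hu (by
      simpa [e] using (memX h (.inl (il i))).1 ((memX h' _).2 (by simp [h0])))
    exact core hEMB hDG0 (s1 _ (inv_ne_zero hu)) (s2 _ (inv_ne_zero hu')) e e'
      (.inl ⟨inv_mul_cancel₀ hu, inv_mul_cancel₀ hu'⟩)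
  · have hv' : v' ≠ 0 := fun h0 => hv (by
      simpa [e] using (memX h (.inl (ir i))).1 ((memX h' _).2 (by simp [h0])))
    exact core hEMB hDG0 (s1 _ (inv_ne_zero hv)) (s2 _ (inv_ne_zero hv')) e e'
      (.inr ⟨inv_mul_cancel₀ hv, inv_mul_cancel₀ hv'⟩)

theorem eq2 (hEMB : S_EMB) (hDG0 : Z_DG0) (h : LD Q ξ u v) (h' : LD Q ξ' u' v') :
    Module.finrank E L = Module.finrank E' L' := by
  obtain ⟨i, e⟩ := h.one
  have p1 := (hDG0 k N n Q E L ξ u v h).1
  obtain ⟨p2, -, -, -, s2⟩ := hDG0 k N n Q E' L' ξ' u' v' h'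
  have hi : ξ' (.inl i) ≠ 0 := fun h0 => by
    have h1 : (X (.inl i) : RR k N n) ∈ vanw k (wt N n) ξ' := by
      rw [mem_vanw_of_hom (isWeightedHomogeneous_X k _ _), aeval_X, h0]
    rw [← p2, p1, mem_vanw_of_hom (isWeightedHomogeneous_X k _ _), aeval_X, e] at h1
    exact one_ne_zero h1
  exact eq1 hEMB hDG0 h (s2 i hi) e (by simp [wt, hi])

end ZDG

theorem z_DG (hEMB : S_EMB) (hDG0 : Z_DG0) :
    Z_DG := by
  intro k _ N n Q E L _ _ _ _ _ _ ξ u v h
  have hm := Nat.sInf_mem (s := {r | ∃ (E L : Type) (_ : Field E) (_ : Field L) (_ : Algebra k E)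
    (_ : Algebra k L) (_ : Algebra E L) (_ : IsScalarTower k E L) (ξ : Ix N n → E) (u v : L),
    LD Q ξ u v ∧ Module.finrank E L = r})
    ⟨_, E, L, _, _, _, _, _, inferInstance, ξ, u, v, h, rfl⟩
  obtain ⟨E', L', _, _, _, _, _, _, ξ', u', v', h', e⟩ := hm
  exact e.symm.trans (ZDG.eq2 hEMB hDG0 h' h)

end Pool.Agent.P.MP_12d50c_ag

end

section

/-! Step DG0. -/

open MvPolynomial Function WithZero IsLocalRing
open Pool.Agent.P.MP_6f117a_ag (Place FF Model Reg)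
open scoped IntermediateField Polynomial

namespace Pool.Agent.P.MP_12d50c_ag

namespace ZDG0

variable {k : Type} [Field k] {N n : ℕ} {E L : Type} [Field E] [Field L] [Algebra k E] [Algebra k L]
  [Algebra E L] [IsScalarTower k E L]

theorem comap_rh (η : Ix N n → L) (u v : L) (a b : k) :
    (vanw k (wt (N + 1 + N) n) (lf η u v)).comap (rh a b) = vanw k (wt N n)
      fun c => (algebraMap k L a * u + algebraMap k L b * v) ^ wt N n c * η c := by
  ext f
  have e : (fun i => Polynomial.C (lf η u v i) * Polynomial.X ^ wt (N + 1 + N) n i) =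
      lf (fun c => Polynomial.C (η c) * Polynomial.X ^ wt N n c) (Polynomial.C u)
        (Polynomial.C v) :=
    lf_ext (fun i => by simp [wt, mul_assoc]) (fun i => by simp [wt, mul_assoc]) fun j => by
      simp [wt]
  rw [Ideal.mem_comap, vanw, vanw, RingHom.mem_ker, RingHom.mem_ker, e, aeval_rh]
  simp only [map_mul, map_pow, map_add, Polynomial.algebraMap_apply, mul_assoc]

theorem le_scale {τ : Type} {w : τ → ℕ} (η : τ → L) (c : L) :
    vanw k w η ≤ vanw k w fun a => c ^ w a * η a :=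
  (wHom_vanw η).le_of_hom fun f d hf h => by
    rw [mem_vanw_of_hom hf] at h ⊢
    rw [aeval_scale hf, h, mul_zero]

theorem top {ξ : Ix N n → E} (hg : Gen k (wt N n) ξ) {i : Fin (N + 1)} (hi : ξ (.inl i) = 1)
    {x : L} (hx : E⟮x⟯ = ⊤) (K : IntermediateField k L) (h1 : ∀ a, algebraMap E L (ξ a) ∈ K)
    (h2 : x ∈ K) : K = ⊤ := by
  have h3 : ∀ e, algebraMap E L e ∈ K := fun e => by
    have : IntermediateField.adjoin k (Set.range ξ) ≤ K.comap (IsScalarTower.toAlgHom k E L) :=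
      IntermediateField.adjoin_le_iff.2 (by rintro _ ⟨a, rfl⟩; exact h1 a)
    exact this (((gen_iff (i := .inl i) rfl hi).1 hg).ge IntermediateField.mem_top)
  have h4 : E⟮x⟯ ≤ K.toSubfield.toIntermediateField h3 :=
    IntermediateField.adjoin_simple_le_iff.2 h2
  exact top_unique fun y _ => h4 (hx.ge IntermediateField.mem_top)

end ZDG0

theorem z_DG0 :
    Z_DG0 := by
  intro k _ N n Q E L _ _ _ _ _ _ ξ u v h
  obtain ⟨i, hi⟩ := h.one
  have hm : (vanw k (wt N n) fun a => algebraMap E L (ξ a)) = vanw k (wt N n) ξ :=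
    vanw_map (IsScalarTower.toAlgHom k E L) (algebraMap E L).injective ξ
  have h1 : ∀ a b : k, algebraMap k L a * u + algebraMap k L b * v ≠ 0 →
      Q.comap (rh a b) = vanw k (wt N n) ξ := fun a b c => by
    rw [← h.eq, ZDG0.comap_rh, vanw_scale c.isUnit, hm]
  have h2 : ∀ a b : k, vanw k (wt N n) ξ ≤ Q.comap (rh a b) := fun a b => by
    rw [← h.eq, ZDG0.comap_rh, ← hm]
    exact ZDG0.le_scale _ _
  have h3 : prj Q = vanw k (wt N n) ξ := by
    refine le_antisymm ?_ (le_inf (h2 _ _) (h2 _ _))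
    rcases h.ne with c | c
    · exact inf_le_left.trans (h1 1 0 (by simpa using c)).le
    · exact inf_le_right.trans (h1 0 1 (by simpa using c)).le
  have h4 : ∀ c : L, c ≠ 0 → LD Q ξ (c * u) (c * v) := fun c hc =>
    ⟨h.gen, h.one, h.ne.imp (mul_ne_zero hc) (mul_ne_zero hc),
      by rw [mul_div_mul_left _ _ hc, h.top], by rw [lf_scale, vanw_scale hc.isUnit, h.eq]⟩
  refine ⟨h3, ?_, fun a b c => (h1 a b c).trans h3.symm, h4, fun j hj => ?_⟩
  · have m : ∀ (s t : L) a, lf (fun a => algebraMap E L (ξ a)) s t a ∈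
        IntermediateField.adjoin k (Set.range (lf (fun a => algebraMap E L (ξ a)) s t)) :=
      fun s t a => IntermediateField.subset_adjoin _ _ ⟨a, rfl⟩
    rcases h.ne with c | c
    · have e : lf (fun a => algebraMap E L (ξ a)) u v =
          lf (fun a => algebraMap E L (ξ a)) (u * 1) (u * (v / u)) := by
        rw [mul_one, mul_div_cancel₀ _ c]
      rw [e, lf_scale]
      refine Gen.scale ((gen_iff (i := .inl (il i)) rfl (by simp [hi])).2
        (ZDG0.top h.gen hi h.top _ (fun a => ?_) ?_)) c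
      · rcases a with a | a
        · simpa using m 1 (v / u) (.inl (il a))
        · exact m 1 (v / u) (.inr a)
      · simpa [hi] using inv_mem (m 1 (v / u) (.inl (ir i)))
    · have e : lf (fun a => algebraMap E L (ξ a)) u v =
          lf (fun a => algebraMap E L (ξ a)) (v * (u / v)) (v * 1) := by
        rw [mul_one, mul_div_cancel₀ _ c]
      rw [e, lf_scale]
      refine Gen.scale ((gen_iff (i := .inl (ir i)) rfl (by simp [hi])).2
        (ZDG0.top h.gen hi h.top _ (fun a => ?_) ?_)) c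
      · rcases a with a | a
        · simpa using m (u / v) 1 (.inl (ir a))
        · exact m (u / v) 1 (.inr a)
      · simpa [hi] using m (u / v) 1 (.inl (il i))
  · refine ⟨h.gen.scale (inv_ne_zero hj), ⟨j, by simp [wt, hj]⟩, h.ne, h.top, ?_⟩
    simp only [map_mul, map_pow]
    rw [lf_scale']
    exact (h4 _ ((map_ne_zero _).2 (inv_ne_zero hj))).eq

end Pool.Agent.P.MP_12d50c_ag

end

section

/-! Step EXL. -/

open MvPolynomial Function WithZero IsLocalRing
open Pool.Agent.P.MP_6f117a_ag (Place FF Model Reg)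
open scoped IntermediateField Polynomial

namespace Pool.Agent.P.MP_12d50c_ag

namespace ZEXL

variable {k : Type} [Field k] {N n : ℕ}

theorem X_notMem {T : Type} [CommRing T] [Algebra k T] (η : Ix N n → T) (a : Ix N n) :
    X a ∉ vanw k (wt N n) η ↔ η a ≠ 0 := by
  rw [mem_vanw_of_hom (isWeightedHomogeneous_X k _ a), aeval_X]

theorem adm_iff (hVP0 : S_VP0) {I : Ideal (PP k N)} (hI : Hom I) {T : Type} [Field T]
    [Algebra k T] (η : Ix N n → T) : Adm I (vanw k (wt N n) η) ↔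
      On I (fun i => η (.inl i)) ∧ ∑ j, η (.inr j) = 1 ∧ ∃ i, η (.inl i) ≠ 0 := by
  have h1 : cyl I n ≤ vanw k (wt N n) η ↔ On I (fun i => η (.inl i)) ∧ ∑ j, η (.inr j) = 1 := by
    rw [((hVP0 k N n).2.2.2.1 I hI).le_vanw]
    change cyl I n ≤ RingHom.ker (aeval η : RR k N n →ₐ[k] T) ↔ _
    rw [cyl, sup_le_iff, Ideal.map_le_iff_le_comap, Ideal.span_singleton_le_iff_mem,
      RingHom.mem_ker]
    refine and_congr (forall₂_congr fun f _ => ?_) (by simp [sub_eq_zero])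
    rw [Ideal.mem_comap, RingHom.mem_ker, aeval_rename]
    rfl
  refine ⟨fun h => ⟨(h1.1 h.le).1, (h1.1 h.le).2, h.rel.imp fun i => (X_notMem η _).1⟩, fun h =>
    ⟨inferInstance, wHom_vanw η, h1.2 ⟨h.1, h.2.1⟩, h.2.2.imp fun i => (X_notMem η _).2⟩⟩

theorem top {L : Type} [Field L] [Algebra k L] (ξ : Ix N n → L) (u v : L)
    (a : Fin (N + 1 + N + 1)) (h1 : lf ξ u v (.inl a) = 1)
    (h2 : IntermediateField.adjoin k (Set.range (lf ξ u v)) = ⊤) :
    (IntermediateField.adjoin k (Set.range ξ))⟮u / v⟯ = ⊤ := by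
  set F := (IntermediateField.adjoin k (Set.range ξ))⟮u / v⟯
  have h3 : ∀ j, ξ j ∈ F := fun j =>
    F.algebraMap_mem ⟨ξ j, IntermediateField.subset_adjoin k _ ⟨j, rfl⟩⟩
  have h4 : u / v ∈ F := IntermediateField.mem_adjoin_simple_self _ _
  have h5 : u ∈ F ∧ v ∈ F := by
    rcases il_or_ir a with ⟨j, rfl⟩ | ⟨j, rfl⟩
    · rw [lf_il] at h1
      have h6 : u ∈ F := eq_inv_of_mul_eq_one_left h1 ▸ inv_mem (h3 _)
      exact ⟨h6, div_div_cancel₀ (b := v) (left_ne_zero_of_mul_eq_one h1) ▸ div_mem h6 h4⟩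
    · rw [lf_ir] at h1
      have h6 : v ∈ F := eq_inv_of_mul_eq_one_left h1 ▸ inv_mem (h3 _)
      exact ⟨div_mul_cancel₀ u (left_ne_zero_of_mul_eq_one h1) ▸ mul_mem h4 h6, h6⟩
  refine top_unique fun z _ => ?_
  have h6 : IntermediateField.adjoin k (Set.range (lf ξ u v)) ≤ F.restrictScalars k := by
    rw [IntermediateField.adjoin_le_iff]
    rintro _ ⟨c | j, rfl⟩
    · rcases il_or_ir c with ⟨j, rfl⟩ | ⟨j, rfl⟩
      · rw [lf_il]
        exact mul_mem h5.1 (h3 _)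
      · rw [lf_ir]
        exact mul_mem h5.2 (h3 _)
    · exact h3 _
  exact h6 (h2.ge IntermediateField.mem_top)

end ZEXL

open ZEXL in
theorem z_EXL (hEX : S_EX) (hVP0 : S_VP0) (hSP : Z_SP) (hDG0 : Z_DG0) :
    Z_EXL := by
  intro k _ N n I Q hI
  obtain ⟨hS, -, hpt, -⟩ := (hSP k N I).2.2.2.2.1 hI
  refine ⟨fun hQ => ?_, fun E L _ _ _ _ _ _ ξ u v h hA => ?_⟩
  · obtain ⟨a, ha⟩ := hQ.rel
    have := hQ.prime
    obtain ⟨L, _, _, η, rfl, h1, hG⟩ := hEX k _ _ Q (.inl a) hQ.hom rfl ha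
    obtain ⟨h2, h3, -⟩ := (adm_iff hVP0 hS η).1 hQ
    obtain ⟨x, u, v, ⟨i, hi⟩, h4, h5, h6⟩ := hpt L _ (fun h => by
      simpa [h1] using congrFun h a) h2
    obtain ⟨ξ, hξ, h7, rfl⟩ : ∃ ξ : Ix N n → L, ξ (.inl i) = 1 ∧ On I (fun i => ξ (.inl i)) ∧
        η = lf ξ u v := ⟨Sum.elim x fun j => η (.inr j), hi, h4, funext fun c => by
      rcases c with c | j
      exacts [congrFun h6 c, rfl]⟩
    let E := IntermediateField.adjoin k (Set.range ξ)
    let ξ' : Ix N n → E := fun j => ⟨ξ j, IntermediateField.subset_adjoin k _ ⟨j, rfl⟩⟩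
    have hL : LD (vanw k (wt (N + 1 + N) n) (lf ξ u v)) ξ' u v :=
      ⟨gen_adjoin (i := .inl i) rfl hξ, ⟨i, Subtype.ext hξ⟩, h5,
        top ξ u v a h1 ((gen_iff (i := .inl a) rfl h1).1 hG), rfl⟩
    obtain ⟨h8, -, -, -, h9⟩ := hDG0 k N n _ E L ξ' u v hL
    rw [h8]
    refine ⟨?_, fun j hj => ?_⟩
    · rw [← vanw_map E.val Subtype.val_injective]
      exact (adm_iff hVP0 hI ξ).2 ⟨h7, h3, i, hξ ▸ one_ne_zero⟩
    · have h10 := (X_notMem ξ' _).1 hj
      exact ⟨E, L, _, _, _, _, _, inferInstance, _, u, v, h9 j h10, by simp [wt, h10]⟩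
  · obtain ⟨h1, h2, -⟩ := (adm_iff hVP0 hI ξ).1 hA
    obtain ⟨i, hi⟩ := h.one
    rw [← h.eq]
    refine (adm_iff hVP0 hS _).2 ⟨(hSP k N I).2.2.2.1 L
      (fun i => algebraMap E L (ξ (.inl i))) u v fun f hf => ?_, ?_, ?_⟩
    · have h3 := map_aeval' (IsScalarTower.toAlgHom k E L) (fun i => ξ (.inl i)) f
      rw [h1 f hf, map_zero] at h3
      exact h3.symm
    · simp only [lf_inr, ← map_sum, h2, map_one]
    · rcases h.ne with h3 | h3
      · exact ⟨il i, by simpa [hi] using h3⟩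
      · exact ⟨ir i, by simpa [hi] using h3⟩

end Pool.Agent.P.MP_12d50c_ag

end

section

/-! Step FIBC. -/

open MvPolynomial Function WithZero IsLocalRing
open Pool.Agent.P.MP_6f117a_ag (Place FF Model Reg)
open scoped IntermediateField Polynomial

namespace Pool.Agent.P.MP_12d50c_ag

theorem z_FIBC (hPT0 : S_PT0) (hCL : S_CL) (hSUB : Z_SUB) (hPT : Z_PT) (hLINE : Z_LINE)
    (hSP : Z_SP) (hSIS : Z_SIS) (hPU1 : Z_PU1) :
    Z_FIBC := by
  intro k _ _ N I φ χ y hI hK hy hF z hz z' hz'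
  have hH : Hom (van k y.1) := wHom_vanw _
  have hon : On (van k y.1) y.1 := hH.on_iff.2 le_rfl
  obtain ⟨-, -, -, hs4, hs5, -⟩ := hSP k N (van k y.1)
  have hF0 : Fac (SI (van k y.1)) 0 χ := by
    intro Q hQ hP
    rw [← hF Q hQ hP, ph]
    by_cases h : dg Q.asIdeal = 0
    · simp [h]
    · obtain ⟨V, hV, h1, -⟩ := (hPU1 k N 1 _ hH).1 Q hQ h
      obtain ⟨V', hV', h2, -⟩ := (hCL k N (van k y.1)).2.1 1 y hon hH
      have h3 : V'.asIdeal = V.asIdeal := M3.eq_of_dim (h2 ▸ hV.1.le) hV'.2 hV.2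
      rw [← h1, ← h3, h2, hPT0 k N I φ y hI hK hy]
      simp
  have hpt : ∀ x : NP k (N + 1 + N), On (SI (van k y.1)) x.1 →
      ∃ u v : k, (u ≠ 0 ∨ v ≠ 0) ∧ x.1 = sg y.1 u v := by
    intro x hx
    obtain ⟨x0, u, v, h1, h2, h3⟩ := (hs5 hH).2.2.2 x hx
    rw [← NP.eq_of_van_le (hH.on_iff.1 h1)] at h3
    exact ⟨u, v, h2, h3⟩
  have key : ∀ w ∈ Cv (SI (van k y.1)) 0, ∃ (y1 : NP k (N + 1 + N)) (g : PP k (N + 1 + N)),
      g.IsHomogeneous 1 ∧ g ∉ SI (van k y.1) ∧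
      (∀ x : NP k (N + 1 + N), On (SI (van k y.1)) x.1 → aeval x.1 g = 0 → x = y1) ∧
      w.asIdeal = cyl (van k y1.1) 0 := by
    intro w hw
    obtain ⟨y1, h1, h2⟩ := ((hPT k (N + 1 + N)).2.2 _).2.2 inferInstance w hw
    obtain ⟨u, v, h3, h4⟩ := hpt y1 h1
    refine ⟨y1, C v * X (il y.piv) - C u * X (ir y.piv),
      (isHomogeneous_C_mul_X _ _).sub (isHomogeneous_C_mul_X _ _), fun h => ?_,
      fun x hx h => ?_, h2⟩
    · have h5 := hs4 k y.1 1 0 hon _ h
      have h6 := hs4 k y.1 0 1 hon _ h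
      simp [y.piv_eq] at h5 h6
      exact h3.elim (fun h => h h6) fun h => h h5
    · obtain ⟨u', v', -, h5⟩ := hpt x hx
      rw [h5] at h
      simp only [map_sub, map_mul, aeval_C, aeval_X, sg_il, sg_ir, y.piv_eq, mul_one,
        Algebra.algebraMap_self, RingHom.id_apply] at h
      refine NP.eq_of_minors fun a b => ?_
      rw [h4, h5]
      rcases il_or_ir a with ⟨i, rfl⟩ | ⟨i, rfl⟩ <;> rcases il_or_ir b with ⟨j, rfl⟩ | ⟨j, rfl⟩ <;>
        simp only [sg_il, sg_ir]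
      · ring
      · linear_combination (y.1 i * y.1 j) * h
      · linear_combination (-(y.1 i * y.1 j)) * h
      · ring
  obtain ⟨y1, g, h1, h2, h3, h4⟩ := key z hz
  obtain ⟨y2, g', h1', h2', h3', h4'⟩ := key z' hz'
  exact hLINE k _ _ χ y1 y2 g g' z z' ((hSIS k N).1 0 _ ((hSIS k N).2 y)) hF0 h1 h1' h2 h2' h3 h3'
    h4 h4'

end Pool.Agent.P.MP_12d50c_ag

end

section

/-! Step FINL. -/

open MvPolynomial Function WithZero IsLocalRing
open Pool.Agent.P.MP_6f117a_ag (Place FF Model Reg)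
open scoped IntermediateField Polynomial

namespace Pool.Agent.P.MP_12d50c_ag

namespace ZFINL

open Pool.Agent.P.MP_638e8a_ag.Cyc
open scoped Pointwise

/-- The multiplicity symbol of a nonzero element on a domain is a length. -/
theorem emult_one {A B : Type} [CommRing A] [CommRing B] [Algebra A B] [IsDomain B] (τ : A)
    (hτ : algebraMap A B τ ≠ 0) :
    emult [τ] B = emult ([] : List A) (B ⧸ Ideal.span {algebraMap A B τ}) := by
  have h0 : Submodule.torsionBy A B τ = ⊥ := by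
    rw [eq_bot_iff]
    intro b hb
    rw [Submodule.mem_torsionBy_iff, Algebra.smul_def] at hb
    exact (Submodule.mem_bot A).2 ((mul_eq_zero.1 hb).resolve_left hτ)
  have : Subsingleton (Submodule.torsionBy A B τ) := by
    rw [h0]; infer_instance
  have h1 : τ • (⊤ : Submodule A B) =
      Submodule.restrictScalars A (Ideal.span {algebraMap A B τ}) := by
    ext b
    rw [Submodule.restrictScalars_mem, Ideal.mem_span_singleton',
      Submodule.mem_smul_pointwise_iff_exists]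
    constructor
    · rintro ⟨c, -, rfl⟩
      exact ⟨c, by rw [Algebra.smul_def, mul_comm]⟩
    · rintro ⟨c, rfl⟩
      exact ⟨c, trivial, by rw [Algebra.smul_def, mul_comm]⟩
  rw [emult_cons, emult_of_subsingleton (M := Submodule.torsionBy A B τ), sub_zero]
  exact emult_congr ((Submodule.quotEquivOfEq _ _ h1).trans
    (Submodule.Quotient.restrictScalarsEquiv A (Ideal.span {algebraMap A B τ}))) []

/-- A finite algebra over a local ring has finitely many maximal ideals. -/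
theorem finite_max (A B : Type) [CommRing A] [IsLocalRing A] [CommRing B] [Algebra A B]
    [Module.Finite A B] : Finite (MaximalSpectrum B) := by
  have hf := Algebra.QuasiFinite.finite_primesOver (S := B) (maximalIdeal A)
  have : Finite (Ideal.primesOver (maximalIdeal A) B) := hf.to_subtype
  refine Finite.of_injective
    (fun a : MaximalSpectrum B => (⟨a.asIdeal, a.isMaximal.isPrime, ⟨?_⟩⟩ :
      Ideal.primesOver (maximalIdeal A) B)) ?_
  · have := a.isMaximal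
    exact (eq_maximalIdeal
      (Ideal.isMaximal_comap_of_isIntegral_of_isMaximal (R := A) a.asIdeal)).symm
  · intro a b h
    exact MaximalSpectrum.ext (congrArg Subtype.val h)

end ZFINL

open Pool.Agent.P.MP_638e8a_ag.Cyc in
theorem z_FINL :
    Z_FINL := by
  intro A B K L _ _ _ _ _ _ _ _ _ φ β τ hφ hφ' hβ hβ' hc hd hτ
  have : IsDomain A := hφ.isDomain φ
  have : IsDomain B := hβ.isDomain β
  have hfin := ZFINL.finite_max A B
  refine ⟨hfin, ?_⟩
  have : Fintype (MaximalSpectrum B) := Fintype.ofFinite _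
  have : Ring.KrullDimLE 1 A := Ring.krullDimLE_iff.2 (by exact_mod_cast hd)
  have hk : RingHom.ker φ = ⊥ := (RingHom.injective_iff_ker_eq_bot φ).1 hφ
  have hτ' : algebraMap A B τ ≠ 0 := by
    intro h
    have h1 := hc τ
    rw [h, map_zero, map_eq_zero_iff _ (algebraMap K L).injective, map_eq_zero_iff _ hφ] at h1
    exact hτ h1
  have hmax : ∀ Q : Ideal A, Q.IsPrime → τ ∈ Q → Q.IsMaximal := fun Q hQ h =>
    hQ.isMaximal_of_ne_bot fun h0 => hτ (by rwa [h0] at h)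
  have h1 := emult_rank φ hφ' β hβ hβ' hc [τ]
    (ms_quot_iff.2 fun Q hQ _ h => hmax Q hQ (h (Ideal.subset_span (by simp))))
    (by
      rw [hk, ringKrullDim_eq_of_ringEquiv (RingEquiv.quotientBot A)]
      exact_mod_cast hd)
  rw [emult_congr (Submodule.quotEquivOfEqBot _ hk), ZFINL.emult_one τ hτ',
    ZFINL.emult_one (B := A) τ hτ] at h1
  have hms : MS ([] : List A) (B ⧸ Ideal.span {algebraMap A B τ}) := by
    intro P hP _
    refine hmax _ P.isPrime (Module.annihilator_le_of_mem_support hP ?_)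
    refine Module.mem_annihilator.2 fun b => ?_
    rw [Algebra.smul_def]
    have : algebraMap A (B ⧸ Ideal.span {algebraMap A B τ}) τ = 0 :=
      Ideal.Quotient.eq_zero_iff_mem.2 (Ideal.mem_span_singleton_self _)
    rw [this, zero_mul]
  have h2 := emult_finite (R := A) (fun a : MaximalSpectrum B => a.asIdeal)
    (fun a b h => MaximalSpectrum.ext h) (fun m hm => ⟨⟨m, hm⟩, rfl⟩)
    (fun a => Localization.AtPrime a.asIdeal) (Ideal.span {algebraMap A B τ}) [] hms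
  rw [h2] at h1
  rw [finsum_eq_sum_of_fintype]
  simp only [List.map_nil, emult_nil] at h1
  exact_mod_cast h1

end Pool.Agent.P.MP_12d50c_ag

end

section

/-! Step GS. -/

open MvPolynomial Function WithZero IsLocalRing
open Pool.Agent.P.MP_6f117a_ag (Place FF Model Reg)
open scoped IntermediateField Polynomial

namespace Pool.Agent.P.MP_12d50c_ag

namespace ZGS

variable {k E : Type} [Field k] [Field E] [Algebra k E]

theorem val (P : Place k E) {a : E} {c : k} (h : P.v (a - algebraMap k E c) < 1) :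
    P.v a ≤ 1 ∧ (P.v a < 1 ↔ c = 0) := by
  have h1 : P.v a ≤ 1 := by
    rw [← sub_add_cancel a (algebraMap k E c)]
    exact P.v.map_add_le h.le (P.triv c)
  refine ⟨h1, fun h2 => by_contra fun h3 => ?_, fun h2 => by simpa [h2] using h⟩
  have h4 := P.v.map_sub_lt h2 h
  rw [sub_sub_cancel, P.v_const h3] at h4
  exact lt_irrefl _ h4

end ZGS

theorem z_GS (hNSP : S_NSP) (hPLACE : S_PLACE) (hCUF : Z_CUF) (hCTR : Z_CTR) (hNRM : Z_NRM) :
    Z_GS := by
  intro k _ _ N E _ _ ξ hξ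
  have := ((hCUF k N).1 E ξ hξ).1
  obtain ⟨-, c1, c2⟩ := hCTR k N E ξ hξ
  have loc : ∀ y : NP k N, ∀ u ∈ locw 1 ξ (van k y.1), ∃ (g : PP k N) (e : ℕ),
      g.IsHomogeneous e ∧ ∀ P : Place k E, Ctr P ξ y → P.v (aeval ξ g / ξ y.piv ^ e) = P.v u ∧
        P.v u ≤ 1 ∧ (P.v u < 1 ↔ aeval y.1 g = 0) := by
    rintro y u ⟨d, g, h, h1, h2, h3, h4⟩
    refine ⟨g, d, h1, fun P hP => ?_⟩
    have h5 := ZGS.val P ((c1 P y hP).2.2.2.2 h d h2)
    have h6 : P.v (aeval ξ g / ξ y.piv ^ d) = P.v u := by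
      rw [← h4, mul_div_assoc, map_mul, le_antisymm h5.1 (not_lt.1 fun e =>
        h3 ((mem_van_of_hom h2).2 (h5.2.1 e))), mul_one]
    exact ⟨h6, h6 ▸ ZGS.val P ((c1 P y hP).2.2.2.2 g d h1)⟩
  have key : ∀ i, ∃ (a : PP k N) (e : ℕ), a.IsHomogeneous e ∧ a ∉ van k ξ ∧
      ∀ y : NP k N, On (van k ξ) y.1 → y.piv = i → aeval y.1 a ≠ 0 → Un ξ y := fun i => by
    by_cases hi : ξ i = 0
    · refine ⟨1, 0, isHomogeneous_one _ _, (Ideal.ne_top_iff_one _).1 Ideal.IsPrime.ne_top',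
        fun y hy e _ => ?_⟩
      obtain ⟨P, hP⟩ := (c2 y hy).1
      exact absurd (e ▸ hi) (c1 P y hP).1
    obtain ⟨g, e, g1, g2, -⟩ := hNRM k N E ξ i hξ hi
    obtain ⟨t, ht⟩ : ∃ t, aeval ξ g / ξ i ^ e = t := ⟨_, rfl⟩
    rw [ht] at g2
    have M := (hPLACE k E).1 t g2
    obtain ⟨b, hb⟩ := M.basis
    choose d G H b1 b2 b3 b4 using fun l => hξ.gen (b l)
    refine ⟨∏ l, H l, ∑ l, d l, IsHomogeneous.prod _ _ _ fun l _ => b2 l, fun h => ?_,
      fun y hy hy' ha => ?_⟩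
    · have := aeval_eq_zero_of_mem_vanw h
      rw [map_prod] at this
      exact Finset.prod_ne_zero_iff.2 (fun l _ => b3 l) this
    subst hy'
    have t1 : t ∈ locw 1 ξ (van k y.1) := ⟨e, g, X y.piv ^ e, g1,
      isHomogeneous_X_pow y.piv e,
      fun h => y.X_piv_notMem (Ideal.IsPrime.mem_of_pow_mem inferInstance _ h), by
        simp [← ht, hi]⟩
    have t2 : ∀ u, Reg k t u → u ∈ locw 1 ξ (van k y.1) := fun u hu => by
      obtain ⟨p, rfl⟩ := (hb u).1 hu
      refine sum_mem fun l _ => mul_mem ?_ ⟨d l, G l, H l, b1 l, b2 l, fun h => ha ?_, b4 l⟩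
      · exact (Algebra.adjoin_le (S := locw 1 ξ (van k y.1)) (Set.singleton_subset_iff.2 t1))
          (Polynomial.aeval_mem_adjoin_singleton k t)
      · rw [map_prod]
        exact Finset.prod_eq_zero (Finset.mem_univ l) (aeval_eq_zero_of_mem_vanw h)
    obtain ⟨_, _, -, t3⟩ := loc y t t1
    obtain ⟨P, hP⟩ := (c2 y hy).1
    refine ⟨P, hP, fun P' hP' => by_contra fun h => ?_, ?_⟩
    · obtain ⟨u, u1, u2, u3⟩ := M.sep P' P (t3 P' hP').2.1 (t3 P hP).2.1 h
      obtain ⟨_, _, -, u4⟩ := loc y u (t2 u u1)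
      exact u2.not_lt ((u4 P' hP').2.2.2 ((u4 P hP).2.2.1 u3))
    · obtain ⟨x, hx⟩ := P.surj (exp (-1))
      obtain ⟨u, z, u1, -, u2, u3⟩ := M.frac P (t3 P hP).2.1 x
        (by rw [hx, ← exp_zero, exp_le_exp]; norm_num)
      obtain ⟨G', e', u4, u5⟩ := loc y u (t2 u u1)
      exact ⟨G', e', u4, by rw [(u5 P hP).1, ← u3, map_mul, u2, hx, mul_one]⟩
  choose a e a1 a2 a3 using key
  obtain ⟨i, hi⟩ := hξ.one
  refine (Set.finite_iUnion fun j => ((hNSP k N).2 (van k ξ) inferInstance (wHom_vanw ξ)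
    ⟨i, fun h => by simpa [hi] using aeval_eq_zero_of_mem_vanw h⟩).2.2.2.2 hξ.dim.le (a j) (e j)
      (a1 j) (a2 j)).subset fun y hy => Set.mem_iUnion.2 ⟨y.piv, hy.1, ?_⟩
  exact by_contra fun h => hy.2 (a3 _ y hy.1 rfl h)

end Pool.Agent.P.MP_12d50c_ag

end
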