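import Pool.Agent.P.MP_12d50c_ag.Z.IfaceB

/-!
Proofs of the steps LB0, LB1, LB2, LB3, LC, LF.
-/

section

/-! Step LB0. -/

open MvPolynomial Function WithZero IsLocalRing
open Pool.Agent.P.MP_6f117a_ag (Place FF Model Reg)
open scoped IntermediateField Polynomial

namespace Pool.Agent.P.MP_12d50c_ag

theorem z_LB0 :
    Z_LB0 := by
  intro k _ N n I W q hq A B E L _ _ _ _ _ _ _ _ _ _ _ _ φ β x i c s H
  have p0 : β (1 - algebraMap k B c * s) = 1 - algebraMap k L c * β s := by simp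
  have p1 : ∀ a, β (et x c s a) =
      lf (fun a => algebraMap E L (φ (x a))) (1 - algebraMap k L c * β s) (β s) a := fun a => by
    simp only [H.comm, ← p0]
    exact congrFun (map_lf β _ _ _) a
  have p2 : ∀ f, aeval (et x c s) (rh 1 c f) = algebraMap A B (aeval x f) := fun f => by
    rw [et, aeval_rh, map_one, one_mul, sub_add_cancel]
    simp only [one_pow, one_mul]
    exact (map_aeval' (IsScalarTower.toAlgHom k A B) x f).symm
  have p3 : ∀ b : B, ∃ (G : RR k (N + 1 + N) n) (h : RR k N n) (d : ℕ),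
      IsWeightedHomogeneous (wt (N + 1 + N) n) G d ∧ IsWeightedHomogeneous (wt N n) h d ∧ h ∉ q ∧
        b * algebraMap A B (aeval x h) = aeval (et x c s) G := by
    intro b
    have hb : b ∈ Algebra.adjoin A {s} := H.gen.ge Algebra.mem_top
    induction hb using Algebra.adjoin_induction with
    | mem b hb =>
      obtain rfl : b = s := hb
      have h1 := isWeightedHomogeneous_X k (wt N n) (.inl i)
      refine ⟨X (.inl (ir i)), X (.inl i), _, isWeightedHomogeneous_X k _ _, h1,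
        (H.unit _ _ h1).1 (by rw [aeval_X, H.one]; exact isUnit_one), ?_⟩
      rw [aeval_X, aeval_X, et, lf_ir]
    | algebraMap a =>
      obtain ⟨d, g, h, h1, h2, h3, h4⟩ := H.frac a
      exact ⟨rh 1 c g, h, d, whom_rh _ _ h1, h2, h3, by rw [p2, ← map_mul, h4]⟩
    | add b b' _ _ ih ih' =>
      obtain ⟨G, h, d, h1, h2, h3, h4⟩ := ih
      obtain ⟨G', h', d', h1', h2', h3', h4'⟩ := ih'
      refine ⟨G * rh 1 c h' + rh 1 c h * G', h * h', d + d', (h1.mul (whom_rh _ _ h2')).add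
        ((whom_rh _ _ h2).mul h1'), h2.mul h2', fun e => (hq.mem_or_mem e).elim h3 h3', ?_⟩
      simp only [map_add, map_mul, p2, ← h4, ← h4']
      ring
    | mul b b' _ _ ih ih' =>
      obtain ⟨G, h, d, h1, h2, h3, h4⟩ := ih
      obtain ⟨G', h', d', h1', h2', h3', h4'⟩ := ih'
      refine ⟨G * G', h * h', d + d', h1.mul h1', h2.mul h2',
        fun e => (hq.mem_or_mem e).elim h3 h3', ?_⟩
      simp only [map_mul, ← h4, ← h4']
      ring
  have p5 : ∀ (a : Ideal B) G d, IsWeightedHomogeneous (wt (N + 1 + N) n) G d →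
      (G ∈ eB x c s a ↔ aeval (et x c s) G ∈ a) := fun a G d hG => by
    rw [eB, mem_vanw_of_hom hG, ← Ideal.Quotient.eq_zero_iff_mem]
    exact Eq.congr_left (map_aeval' (Ideal.Quotient.mkₐ k a) _ G).symm
  have p7 : ∀ y : E, ∃ a a' : A, φ a' ≠ 0 ∧ φ a = y * φ a' := fun y => by
    obtain ⟨d, g, h, -, -, h3, h4⟩ := H.ld.gen y
    exact ⟨aeval x g, aeval x h, by rwa [map_aeval'], by rw [map_aeval', map_aeval', h4]⟩
  refine ⟨p1, p2, p3, fun G d hG => ?_, p5, fun a a' e => Ideal.ext fun b => ?_, p7, fun y => ?_⟩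
  · rw [← H.ld.eq, mem_vanw_of_hom hG, ← funext p1, ← map_aeval', map_eq_zero_iff _ H.injB]
  · obtain ⟨G, h, d, h1, h2, h3, h4⟩ := p3 b
    have hu := ((H.unit h d h2).2 h3).map (algebraMap A B)
    rw [← a.mul_unit_mem_iff_mem hu, ← a'.mul_unit_mem_iff_mem hu, h4, ← p5 a G d h1,
      ← p5 a' G d h1, e]
  · have hy := H.ld.top.ge (IntermediateField.mem_top (x := y))
    have z : ∃ b b' : B, β b' ≠ 0 ∧ β b = 0 * β b' := ⟨0, 1, by simp, by simp⟩
    induction hy using IntermediateField.adjoin_induction with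
    | mem y hy =>
      obtain rfl : y = _ := hy
      by_cases h : β s = 0
      · rwa [h, div_zero]
      · exact ⟨_, s, h, by rw [p0, div_mul_cancel₀ _ h]⟩
    | algebraMap y =>
      obtain ⟨a, a', h1, h2⟩ := p7 y
      refine ⟨algebraMap A B a, algebraMap A B a', ?_, ?_⟩
      · rwa [← H.comm, map_ne_zero]
      · rw [← H.comm, ← H.comm, h2, map_mul]
    | add y y' _ _ ih ih' =>
      obtain ⟨b, d, h1, h2⟩ := ih
      obtain ⟨b', d', h1', h2'⟩ := ih'
      exact ⟨b * d' + b' * d, d * d', by rw [map_mul]; exact mul_ne_zero h1 h1', by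
        simp only [map_add, map_mul, h2, h2']; ring⟩
    | inv y _ ih =>
      obtain ⟨b, d, h1, h2⟩ := ih
      by_cases h : y = 0
      · rwa [h, inv_zero]
      · exact ⟨d, b, h2 ▸ mul_ne_zero h h1, by rw [h2, inv_mul_cancel_left₀ h]⟩
    | mul y y' _ _ ih ih' =>
      obtain ⟨b, d, h1, h2⟩ := ih
      obtain ⟨b', d', h1', h2'⟩ := ih'
      exact ⟨b * b', d * d', by rw [map_mul]; exact mul_ne_zero h1 h1', by
        simp only [map_mul, h2, h2']; ring⟩

end Pool.Agent.P.MP_12d50c_ag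

end

section

/-! Step LB1. -/

open MvPolynomial Function WithZero IsLocalRing
open Pool.Agent.P.MP_6f117a_ag (Place FF Model Reg)
open scoped IntermediateField Polynomial

namespace Pool.Agent.P.MP_12d50c_ag

namespace ZLB1

theorem top {E L : Type} [Field E] [Field L] [Algebra E L] (c : E) (v : L)
    (h : Algebra.adjoin E {v} = ⊤) : E⟮(1 - algebraMap E L c * v) / v⟯ = ⊤ := by
  have h1 : v ∈ E⟮(1 - algebraMap E L c * v) / v⟯ := by
    by_cases hv : v = 0
    · rw [hv]; exact zero_mem _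
    · have h2 := inv_mem (add_mem (IntermediateField.mem_adjoin_simple_self E
        ((1 - algebraMap E L c * v) / v)) (IntermediateField.algebraMap_mem _ c))
      rwa [div_add' _ _ _ hv, sub_add_cancel, one_div, inv_inv] at h2
  refine top_unique fun y _ => ?_
  exact (Algebra.adjoin_le (S := E⟮(1 - algebraMap E L c * v) / v⟯.toSubalgebra)
    (Set.singleton_subset_iff.2 h1)) (h.ge Algebra.mem_top)

end ZLB1

theorem z_LB1 (hDG0 : Z_DG0) (hDG : Z_DG) (hEXL : Z_EXL) (hLB0 : Z_LB0) :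
    Z_LB1 := by
  intro k _ N n I W q _ A B E L _ _ _ _ _ _ _ _ _ _ _ _ φ β x i c s H a ha
  have := H.loc
  have := H.fin
  obtain ⟨-, -, -, h4, h5, -⟩ := hLB0 k N n I W q A B E L φ β x i c s H
  let m : Ideal A := a.comap (algebraMap A B)
  have hm : m.IsMaximal := Ideal.isMaximal_comap_of_isIntegral_of_isMaximal a
  have hm' : ∀ y, Ideal.Quotient.mk m y = 0 ↔ ¬ IsUnit y := fun y => by
    rw [Ideal.Quotient.eq_zero_iff_mem, eq_maximalIdeal hm, mem_maximalIdeal, mem_nonunits_iff]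
  let := Ideal.Quotient.field m
  let := Ideal.Quotient.field a
  have : IsScalarTower A (A ⧸ m) (B ⧸ a) := .of_algebraMap_eq fun _ => rfl
  have : IsScalarTower k (A ⧸ m) (B ⧸ a) := .of_algebraMap_eq fun y =>
    congrArg (Ideal.Quotient.mk a) (IsScalarTower.algebraMap_apply k A B y)
  have he : ∀ f : RR k N n, aeval (fun j => Ideal.Quotient.mk m (x j)) f =
      Ideal.Quotient.mk m (aeval x f) := fun f => (map_aeval' (Ideal.Quotient.mkₐ k m) x f).symm
  have hv : ∀ f d, IsWeightedHomogeneous (wt N n) f d →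
      (aeval (fun j => Ideal.Quotient.mk m (x j)) f = 0 ↔ f ∈ q) := fun f d hf => by
    rw [he, hm', H.unit f d hf, not_not]
  have hq : vanw k (wt N n) (fun j => Ideal.Quotient.mk m (x j)) = q :=
    le_antisymm ((wHom_vanw _).le_of_hom fun f d hf h => (hv f d hf).1 ((mem_vanw_of_hom hf).1 h))
      (H.adm.hom.le_of_hom fun f d hf h => (mem_vanw_of_hom hf).2 ((hv f d hf).2 h))
  have hld : LD (eB x c s a) (fun j => Ideal.Quotient.mk m (x j))
      (1 - algebraMap k (B ⧸ a) c * Ideal.Quotient.mk a s) (Ideal.Quotient.mk a s) := by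
    refine ⟨fun u => ?_, ⟨i, by rw [H.one, map_one]⟩, ?_, ?_, ?_⟩
    · obtain ⟨u, rfl⟩ := Ideal.Quotient.mk_surjective u
      obtain ⟨d, g, h, a1, a2, a3, a4⟩ := H.frac u
      exact ⟨d, g, h, a1, a2, fun h0 => a3 ((hv h d a2).1 h0), by rw [he, he, ← map_mul, a4]⟩
    · by_cases h0 : Ideal.Quotient.mk a s = 0
      · left; rw [h0, mul_zero, sub_zero]; exact one_ne_zero
      · exact .inr h0
    · rw [IsScalarTower.algebraMap_apply k (A ⧸ m) (B ⧸ a)]
      refine ZLB1.top _ _ (top_unique fun y _ => ?_)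
      obtain ⟨y, rfl⟩ := Ideal.Quotient.mk_surjective y
      have hy : y ∈ Algebra.adjoin A {s} := H.gen.ge Algebra.mem_top
      induction hy using Algebra.adjoin_induction with
      | mem y hy => exact Algebra.subset_adjoin (congrArg (Ideal.Quotient.mk a) hy)
      | algebraMap r => exact Subalgebra.algebraMap_mem _ (Ideal.Quotient.mk m r)
      | add y z _ _ h1 h2 => rw [map_add]; exact add_mem (h1 trivial) (h2 trivial)
      | mul y z _ _ h1 h2 => rw [map_mul]; exact mul_mem (h1 trivial) (h2 trivial)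
    · rw [eB, et, map_lf, map_sub, map_mul, map_one]
      rfl
  refine ⟨(hEXL k N n I _ H.hom).2 _ _ _ _ _ hld (hq ▸ H.adm), ?_,
    (hDG0 k N n _ _ _ _ _ _ hld).1.trans hq, ?_⟩
  · have hW : WHom (wt (N + 1 + N) n) W := H.ld.eq ▸ wHom_vanw _
    exact hW.le_of_hom fun G d hG h => (h5 a G d hG).2 (by rw [(h4 G d hG).1 h]; exact zero_mem _)
  · have : Module.Finite (A ⧸ m) (B ⧸ a) := .of_restrictScalars_finite A _ _
    rw [hDG k N n _ _ _ _ _ _ hld, Module.length_eq_of_surjective (R := A ⧸ m) (S := A)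
      Ideal.Quotient.mk_surjective, Module.length_eq_finrank]

end Pool.Agent.P.MP_12d50c_ag

end

section

/-! Step LB2. -/

open MvPolynomial Function WithZero IsLocalRing
open Pool.Agent.P.MP_6f117a_ag (Place FF Model Reg)
open scoped IntermediateField Polynomial

namespace Pool.Agent.P.MP_12d50c_ag

theorem z_LB2 (hDG0 : Z_DG0) (hEXL : Z_EXL) (hLB0 : Z_LB0) :
    Z_LB2 := by
  intro k _ N n I W q hqp A B E L _ _ _ _ _ _ _ _ _ _ _ _ φ β x i c s H Q hQ hW hq
  obtain ⟨-, h2, h3, h4, h5, -⟩ := hLB0 k N n I W q A B E L φ β x i c s H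
  have hX : IsWeightedHomogeneous (wt N n) (X (.inl i) : RR k N n) 1 :=
    isWeightedHomogeneous_X k _ _
  have hXd : ∀ d, IsWeightedHomogeneous (wt N n) ((X (.inl i) : RR k N n) ^ d) d := fun d => by
    simpa using hX.pow d
  have hXq : (X (.inl i) : RR k N n) ∉ q := (H.unit _ 1 hX).1 (by
    rw [aeval_X, H.one]
    exact isUnit_one)
  have hc : Q.comap (rh 1 c) = q := by
    obtain ⟨E', L', _, _, _, _, _, _, ξ, u, v, hLD, -⟩ :=
      ((hEXL k N n I Q H.hom).1 hQ).2 i (by rw [hq]; exact hXq)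
    rw [← hq]
    refine (hDG0 k N n Q E' L' ξ u v hLD).2.2.1 1 c fun h0 => H.nz Q hQ hW hq ?_
    rw [← hLD.eq, mem_vanw_of_hom (whom_rh 1 c hX), aeval_rh, aeval_X, h0]
    simp [wt]
  have hc' : ∀ f, rh 1 c f ∈ Q ↔ f ∈ q := fun f => by rw [← hc, Ideal.mem_comap]
  let a : Ideal B :=
    { carrier := {b | ∃ (G : RR k (N + 1 + N) n) (h : RR k N n) (d : ℕ),
        IsWeightedHomogeneous (wt (N + 1 + N) n) G d ∧ IsWeightedHomogeneous (wt N n) h d ∧
          h ∉ q ∧ G ∈ Q ∧ b * algebraMap A B (aeval x h) = aeval (et x c s) G}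
      zero_mem' := ⟨0, 1, 0, isWeightedHomogeneous_zero _ _ _, isWeightedHomogeneous_one _ _,
        (Ideal.ne_top_iff_one q).1 hqp.ne_top, Q.zero_mem, by simp⟩
      add_mem' := by
        rintro b b' ⟨G, h, d, g1, g2, g3, g4, g5⟩ ⟨G', h', d', f1, f2, f3, f4, f5⟩
        refine ⟨G * rh 1 c h' + rh 1 c h * G', h * h', d + d',
          (g1.mul (whom_rh 1 c f2)).add ((whom_rh 1 c g2).mul f1), g2.mul f2,
          fun h0 => (hqp.mem_or_mem h0).elim g3 f3,
          Q.add_mem (Q.mul_mem_right _ g4) (Q.mul_mem_left _ f4), ?_⟩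
        rw [map_add, map_mul, map_mul, map_mul, map_mul, h2, h2, ← g5, ← f5]
        ring
      smul_mem' := by
        rintro r b ⟨G, h, d, g1, g2, g3, g4, g5⟩
        obtain ⟨G', h', d', f1, f2, f3, f5⟩ := h3 r
        refine ⟨G' * G, h' * h, d' + d, f1.mul g1, f2.mul g2,
          fun h0 => (hqp.mem_or_mem h0).elim f3 g3, Q.mul_mem_left _ g4, ?_⟩
        rw [map_mul, map_mul, map_mul, ← g5, ← f5, smul_eq_mul]
        ring }
  have key : ∀ G d, IsWeightedHomogeneous (wt (N + 1 + N) n) G d →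
      (aeval (et x c s) G ∈ a ↔ G ∈ Q) := fun G d hG => by
    constructor
    · rintro ⟨G', h, d', g1, g2, g3, g4, g5⟩
      have e1 : IsWeightedHomogeneous (wt (N + 1 + N) n)
          (G * rh 1 c h - rh 1 c (X (.inl i) ^ d) * G') (d + d') :=
        (weightedHomogeneousSubmodule k _ _).sub_mem (hG.mul (whom_rh 1 c g2))
          ((whom_rh 1 c (hXd d)).mul g1)
      have e2 := hW ((h4 _ _ e1).2 (by
        rw [map_sub, map_mul, map_mul, h2, h2, g5, map_pow, aeval_X, H.one]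
        simp))
      have e3 := Q.add_mem e2 (Q.mul_mem_left (rh 1 c (X (.inl i) ^ d)) g4)
      rw [sub_add_cancel] at e3
      exact (hQ.prime.mem_or_mem e3).resolve_right fun h0 => g3 ((hc' _).1 h0)
    · intro hGQ
      refine ⟨G, _, d, hG, hXd d, fun h0 => hXq (hqp.mem_of_pow_mem d h0), hGQ, ?_⟩
      rw [map_pow, aeval_X, H.one]
      simp
  have hne : a ≠ ⊤ := fun h0 => hQ.prime.ne_top ((Ideal.eq_top_iff_one Q).2
    ((key 1 0 (isWeightedHomogeneous_one _ _)).1 (h0 ▸ Submodule.mem_top)))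
  have hp : a.IsPrime := ⟨hne, fun {b b'} hb => by
    obtain ⟨G, h, d, g1, g2, g3, g5⟩ := h3 b
    obtain ⟨G', h', d', f1, f2, f3, f5⟩ := h3 b'
    have e1 : aeval (et x c s) (G * G') ∈ a := by
      rw [map_mul, ← g5, ← f5, mul_mul_mul_comm]
      exact a.mul_mem_right _ hb
    exact (hQ.prime.mem_or_mem ((key _ _ (g1.mul f1)).1 e1)).imp
      (fun h0 => ⟨G, h, d, g1, g2, g3, h0, g5⟩) fun h0 => ⟨G', h', d', f1, f2, f3, h0, f5⟩⟩
  refine ⟨a, ?_, le_antisymm ((wHom_vanw _).le_of_hom fun G d hG h0 =>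
    (key G d hG).1 ((h5 a G d hG).1 h0))
    (hQ.hom.le_of_hom fun G d hG h0 => (h5 a G d hG).2 ((key G d hG).2 h0))⟩
  have := H.loc
  have := H.fin
  have hm : maximalIdeal A ≤ a.comap (algebraMap A B) := fun r hr => by
    obtain ⟨d, g, h, g1, g2, g3, g4⟩ := H.frac r
    have e1 : g ∈ q := by
      by_contra h0
      have e2 := (H.unit g d g1).2 h0
      rw [← g4] at e2
      exact hr (isUnit_of_mul_isUnit_left e2)
    exact ⟨rh 1 c g, h, d, whom_rh 1 c g1, g2, g3, (hc' g).2 e1, by rw [h2, ← g4, map_mul]⟩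
  refine Ideal.isMaximal_of_isIntegral_of_isMaximal_comap (R := A) a ?_
  rw [← (maximalIdeal.isMaximal A).eq_of_le (Ideal.comap_ne_top _ hne) hm]
  exact maximalIdeal.isMaximal A

end Pool.Agent.P.MP_12d50c_ag

end

section

/-! Step LB3. -/

open MvPolynomial Function WithZero IsLocalRing
open Pool.Agent.P.MP_6f117a_ag (Place FF Model Reg)
open scoped IntermediateField Polynomial

namespace Pool.Agent.P.MP_12d50c_ag

namespace ZLB3

theorem lq_comap {A B : Type} [CommRing A] [CommRing B] (φ : A →+* B) (hφ : Surjective φ)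
    (K : Ideal B) : lq (K.comap φ) = lq K := by
  let := φ.toAlgebra
  exact (LinearEquiv.ofBijective (Ideal.quotientMapₐ K (Algebra.ofId A B) le_rfl).toLinearMap
    ⟨Ideal.quotientMap_injective, Ideal.quotientMap_surjective (H := le_rfl) hφ⟩).length_eq.trans
    (Module.length_eq_of_surjective (R := B) (S := A) (M := B ⧸ K) hφ)

theorem lq_loc {B C : Type} [CommRing B] [CommRing C] [Algebra B C] (a : Ideal B) [a.IsPrime]
    [IsLocalization.AtPrime C a] (J : Ideal B) : lq (J.map (algebraMap B C)) = len J a := by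
  let e := IsLocalization.algEquiv a.primeCompl (Localization.AtPrime a) C
  have h : J.map (algebraMap B C) =
      (J.map (algebraMap B (Localization.AtPrime a))).map (e : Localization.AtPrime a →+* C) := by
    rw [Ideal.map_map]
    congr 1
    ext b
    exact (e.commutes b).symm
  rw [← lq_comap (e : Localization.AtPrime a →+* C) e.surjective, h,
    Ideal.comap_map_of_bijective (e : Localization.AtPrime a →+* C) e.bijective]
  rfl

end ZLB3

theorem z_LB3 (hLOC : S_LOC) (hFL : S_FL) (hLB0 : Z_LB0) :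
    Z_LB3 := by
  intro k _ N n I W q _ A B E L _ _ _ _ _ _ _ _ _ _ _ _ φ β x i c s h a ha j
  obtain ⟨h1, h2, h3, h4, h5, -⟩ := hLB0 k N n I W q A B E L φ β x i c s h
  let η : Ix (N + 1 + N) n → L := fun b => β (et x c s b)
  have hW : vanw k (wt (N + 1 + N) n) η = W := by
    rw [← h.ld.eq]
    congr 1
    exact funext h1
  have hη : ∀ G : RR k (N + 1 + N) n, aeval η G = β (aeval (et x c s) G) :=
    fun G => (map_aeval' β _ G).symm
  have hle : vanw k (wt (N + 1 + N) n) η ≤ eB x c s a :=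
    (wHom_vanw η).le_of_hom fun G d hG hm => (h5 a G d hG).2 (by
      rw [(h4 G d hG).1 (hW ▸ hm)]
      exact a.zero_mem)
  obtain ⟨i', hi'⟩ : ∃ i', (X (.inl i') : RR k (N + 1 + N) n) ∉ eB x c s a := by
    by_contra hc
    push Not at hc
    have e1 := (h5 a _ _ (isWeightedHomogeneous_X k _ _)).1 (hc (il i))
    have e2 := (h5 a _ _ (isWeightedHomogeneous_X k _ _)).1 (hc (ir i))
    rw [aeval_X, et, lf_il, h.one, map_one, mul_one] at e1
    rw [aeval_X, et, lf_ir, h.one, map_one, mul_one] at e2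
    have e3 := a.add_mem e1 (a.mul_mem_left (algebraMap k B c) e2)
    rw [sub_add_cancel] at e3
    exact ha.ne_top ((Ideal.eq_top_iff_one _).2 e3)
  have h' : Ch (wt (N + 1 + N) n) η (eB x c s a) (.inl i') := ⟨hle, rfl, hi'⟩
  have hu : ∀ (f : RR k N n) d, IsWeightedHomogeneous (wt N n) f d → f ∉ q →
      algebraMap A B (aeval x f) ∉ a := fun f d hf hq hm =>
    ha.ne_top (a.eq_top_of_isUnit_mem hm (((h.unit f d hf).2 hq).map _))
  have hmem : ∀ b, β b ∈ locw (wt (N + 1 + N) n) η (eB x c s a) := fun b => by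
    obtain ⟨G, f, d, hG, hf, hq, e⟩ := h3 b
    refine ⟨d, G, rh 1 c f, hG, whom_rh 1 c hf, fun hm => hu f d hf hq ?_, ?_⟩
    · rw [← h2]
      exact (h5 a _ d (whom_rh 1 c hf)).1 hm
    · rw [hη, hη, h2, ← e, map_mul]
  let ψ : B →ₐ[k] locw (wt (N + 1 + N) n) η (eB x c s a) := β.codRestrict _ hmem
  let := ψ.toRingHom.toAlgebra
  have hψ : ∀ b, ((algebraMap B (locw (wt (N + 1 + N) n) η (eB x c s a)) b : _) : L) = β b :=
    fun _ => rfl
  have : IsLocalization.AtPrime (locw (wt (N + 1 + N) n) η (eB x c s a)) a := by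
    refine (isLocalization_iff _ _).2 ⟨fun ⟨y, hy⟩ => ?_, fun z => ?_, fun {y z} e => ⟨1, ?_⟩⟩
    · obtain ⟨G, f, d, hG, hf, hq, e⟩ := h3 y
      have hy0 : β y ≠ 0 := fun h0 => hy (by
        rw [h.injB (h0.trans (map_zero β).symm)]
        exact a.zero_mem)
      refine IsUnit.of_mul_eq_one (⟨(β y)⁻¹, d, rh 1 c f, G, whom_rh 1 c hf, hG, fun hm => ?_,
        ?_⟩ : locw (wt (N + 1 + N) n) η (eB x c s a)) (Subtype.ext (mul_inv_cancel₀ hy0))
      · have e1 := (h5 a G d hG).1 hm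
        rw [← e] at e1
        exact (ha.mem_or_mem e1).elim hy (hu f d hf hq)
      · rw [hη, hη, h2, ← e, map_mul, inv_mul_cancel_left₀ hy0]
    · obtain ⟨u, d, g, g', hg, hg', hq, e⟩ := z
      refine ⟨(aeval (et x c s) g, ⟨aeval (et x c s) g', fun hm => hq ((h5 a g' d hg').2 hm)⟩),
        Subtype.ext ?_⟩
      rw [hη, hη] at e
      exact e
    · rw [h.injB (congrArg Subtype.val e)]
  have hJ : WHom (wt (N + 1 + N) n) (Ideal.span {(X (.inr j) : RR k (N + 1 + N) n)}) :=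
    wHom_span fun f hf => ⟨_, hf ▸ isWeightedHomogeneous_X k _ _⟩
  have e := (hFL k _ _ L η (eB x c s a) _ h' (wHom_vanw _)).2 _ hJ
  rw [hW] at e
  rw [← e, ← ZLB3.lq_loc (C := locw (wt (N + 1 + N) n) η (eB x c s a)) a, Ideal.map_span,
    Ideal.map_span, Set.image_singleton, Set.image_singleton]
  congr 3
  refine Subtype.ext ?_
  rw [coe_germ, aeval_X, hψ]
  simp [wt, η, et]

end Pool.Agent.P.MP_12d50c_ag

end

section

/-! Step LC. -/

open MvPolynomial Function WithZero IsLocalRing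
open Pool.Agent.P.MP_6f117a_ag (Place FF Model Reg)
open scoped IntermediateField Polynomial

namespace Pool.Agent.P.MP_12d50c_ag

theorem ZLC.top {k τ A : Type} [Field k] [CommRing A] [Algebra k A] {w : τ → ℕ} {g : τ → A[X]}
    {y : τ → A} (h : ∀ c, (g c).natDegree ≤ w c ∧ (g c).coeff (w c) = y c) {G : MvPolynomial τ k}
    {d : ℕ} (hG : IsWeightedHomogeneous w G d) :
    (aeval g G).natDegree ≤ d ∧ (aeval g G).coeff d = aeval y G := by
  classical
  have key : ∀ (s : τ →₀ ℕ) (t : Finset τ), (∏ i ∈ t, g i ^ s i).natDegree ≤ ∑ i ∈ t, s i * w i ∧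
      (∏ i ∈ t, g i ^ s i).coeff (∑ i ∈ t, s i * w i) = ∏ i ∈ t, y i ^ s i := by
    intro s t
    induction t using Finset.induction_on with
    | empty => simp
    | insert i t hi ih =>
      have h1 := Polynomial.natDegree_pow_le_of_le (s i) (h i).1
      rw [Finset.prod_insert hi, Finset.sum_insert hi, Finset.prod_insert hi,
        Polynomial.coeff_mul_add_eq_of_natDegree_le h1 ih.1,
        Polynomial.coeff_pow_of_natDegree_le (h i).1, (h i).2, ih.2]
      exact ⟨Polynomial.natDegree_mul_le_of_le h1 ih.1, rfl⟩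
  have k2 : ∀ s ∈ G.support, (aeval g (monomial s (coeff s G))).natDegree ≤ d ∧
      (aeval g (monomial s (coeff s G))).coeff d = aeval y (monomial s (coeff s G)) := by
    intro s hs
    rw [aeval_monomial, aeval_monomial, ← hG (mem_support_iff.1 hs), Finsupp.weight_apply,
      Polynomial.algebraMap_apply, Polynomial.coeff_C_mul]
    exact ⟨(Polynomial.natDegree_C_mul_le _ _).trans (key s _).1, congrArg _ (key s _).2⟩
  rw [G.as_sum, map_sum, map_sum, Polynomial.finset_sum_coeff]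
  exact ⟨Polynomial.natDegree_sum_le_of_forall_le _ _ fun s hs => (k2 s hs).1,
    Finset.sum_congr rfl fun s hs => (k2 s hs).2⟩

theorem z_LC :
    Z_LC := by
  intro k _ N n d A _ _ ξ a b G hG
  refine ZLC.top (fun c => ?_) hG
  rcases c with c | j
  · rcases il_or_ir c with ⟨i, rfl⟩ | ⟨i, rfl⟩
    · rw [lf_il, lf_il]
      exact ⟨show _ ≤ 1 by compute_degree, by simp [wt, Polynomial.coeff_one]⟩
    · rw [lf_ir, lf_ir]
      exact ⟨show _ ≤ 1 by compute_degree, by simp [wt]⟩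
  · simp [wt]

end Pool.Agent.P.MP_12d50c_ag

end

section

/-! Step LF. -/

open MvPolynomial Function WithZero IsLocalRing
open Pool.Agent.P.MP_6f117a_ag (Place FF Model Reg)
open scoped IntermediateField Polynomial

namespace Pool.Agent.P.MP_12d50c_ag

namespace ZLF

theorem pick {α β γ : Type} [Nonempty β] (R : α → β → Set γ → Prop) (S : Finset α)
    (h : ∀ p ∈ S, ∀ B : Set γ, B.Finite → ∃ b B', B'.Finite ∧ Disjoint B B' ∧ R p b B') :
    ∃ (L : α → β) (F : α → Set γ), (∀ p ∈ S, (F p).Finite ∧ R p (L p) (F p)) ∧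
      ∀ p ∈ S, ∀ q ∈ S, p ≠ q → Disjoint (F p) (F q) := by
  classical
  induction S using Finset.induction_on with
  | empty => exact ⟨fun _ => Classical.arbitrary β, fun _ => ∅, by simp, by simp⟩
  | insert a S ha ih =>
    obtain ⟨L, F, h1, h2⟩ := ih fun p hp => h p (Finset.mem_insert_of_mem hp)
    obtain ⟨b, B', h3, h4, h5⟩ := h a (Finset.mem_insert_self a S) (⋃ p ∈ S, F p)
      (S.finite_toSet.biUnion fun p hp => (h1 p hp).1)
    have hne : ∀ p ∈ S, p ≠ a := fun p hp e => ha (e ▸ hp)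
    have hd : ∀ p ∈ S, Disjoint (F p) B' := fun p hp =>
      h4.mono_left (Set.subset_biUnion_of_mem (u := F) (Finset.mem_coe.2 hp))
    refine ⟨update L a b, update F a B', fun p hp => ?_, fun p hp q hq hpq => ?_⟩
    · rcases Finset.mem_insert.1 hp with rfl | hp
      · rw [update_self, update_self]; exact ⟨h3, h5⟩
      · rw [update_of_ne (hne p hp), update_of_ne (hne p hp)]; exact h1 p hp
    · rcases Finset.mem_insert.1 hp with rfl | hp' <;> rcases Finset.mem_insert.1 hq with rfl | hq'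
      · exact (hpq rfl).elim
      · rw [update_self, update_of_ne (hne q hq')]; exact (hd q hq').symm
      · rw [update_self, update_of_ne (hne p hp')]; exact hd p hp'
      · rw [update_of_ne (hne p hp'), update_of_ne (hne q hq')]; exact h2 p hp' q hq' hpq

end ZLF

theorem z_LF (hNSP : S_NSP) (hFINC : S_FINC) (hSP : Z_SP) (hCUF : Z_CUF) (hCT2 : Z_CT2)
    (hLF1 : Z_LF1) (hLQ : Z_LQ) :
    Z_LF := by
  intro k _ _ N I S hS
  have hfin : ∀ p ∈ S, ∀ q ∈ S, p ≠ q →
      {y : NP k N | On p.asIdeal y.1 ∧ On q.asIdeal y.1}.Finite := by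
    intro p hp q hq hpq
    have h1 : ¬ q.asIdeal ≤ p.asIdeal := fun h =>
      hpq (((hFINC k N I).1 q (hS q hq)).2.2.2.1 p (hS p hp) h).symm
    obtain ⟨g, e, hg, hgq, hgp⟩ : ∃ g e, IsWeightedHomogeneous 1 g e ∧ g ∈ q.asIdeal ∧
        g ∉ p.asIdeal := by
      by_contra hc
      push Not at hc
      exact h1 ((hS q hq).1.le_of_hom hc)
    exact (((hNSP k N).2 p.asIdeal p.isPrime (hS p hp).1 ((hFINC k N I).1 p (hS p hp)).1).2.2.2.2
      (hS p hp).2.2.le g e hg hgp).subset fun y hy => ⟨hy.1, hy.2 g hgq⟩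
  let Z : Set (NP k N) := {y | ∃ p ∈ S, ∃ q ∈ S, p ≠ q ∧ On p.asIdeal y.1 ∧ On q.asIdeal y.1}
  have hZ : Z.Finite := by
    refine (S.finite_toSet.biUnion fun p hp => S.finite_toSet.biUnion fun q hq =>
      Set.finite_iUnion_of_subsingleton.2 fun h : p ≠ q => hfin p hp q hq h).subset ?_
    rintro y ⟨p, hp, q, hq, h1, h2⟩
    simp only [Set.mem_iUnion]
    exact ⟨p, hp, q, hq, h1, h2⟩
  have : Nonempty (PrimeSpectrum (PP k (N + 1 + N))) := ⟨⟨⊥, Ideal.isPrime_bot⟩⟩
  obtain ⟨L, F, h1, h2⟩ := ZLF.pick (fun (p : PrimeSpectrum (PP k N))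
      (b : PrimeSpectrum (PP k (N + 1 + N))) (B : Set k) =>
      (b ∈ Cu (SI I) ∧ (∀ y : NP k (N + 1 + N), On b.asIdeal y.1 →
        Module.finrank k (Tan b.asIdeal y.1) ≤ 2) ∧
      ∀ Q ∈ Cv I 1, Q.asIdeal.comap (inc 1) = p.asIdeal →
        ∃ Q' ∈ Cv b.asIdeal 1, prj Q'.asIdeal = Q.asIdeal ∧ dg Q'.asIdeal = 1) ∧
      SI p.asIdeal ≤ b.asIdeal ∧ ∀ (y' : NP k (N + 1 + N)) (u v : k), ∀ y ∈ Z,
        y'.1 = sg y.1 u v → On b.asIdeal y'.1 → v ∈ B) S (by
    intro p hp B hB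
    obtain ⟨E, _, _, ξ, hξ, e⟩ := (hCUF k N).2 I p (hS p hp)
    obtain ⟨t, B', h1, h2, h3, h4⟩ := hLF1 k N E ξ Z B hξ hZ hB
    have hle : SI p.asIdeal ≤ van k (sg ξ 1 t) :=
      ((hSP k N p.asIdeal).2.2.2.2.1 (hS p hp).1).1.on_iff.1
        ((hSP k N p.asIdeal).2.2.2.1 E ξ 1 t ((hS p hp).1.on_iff.2 e.ge))
    exact ⟨⟨van k (sg ξ 1 t), inferInstance⟩, B', h1, h2, ⟨⟨wHom_vanw _,
      ((hSP k N I).2.1 _ (hS p hp).2.1).trans hle, (hCT2 k N E ξ t hξ).1.dim⟩, h3,
      fun Q hQ hQp => hLQ k N I E ξ t hξ Q hQ (hQp.trans e.symm)⟩, hle,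
      fun y' u v y hy e1 e2 => (h4 y' u v y hy e1 e2).2⟩)
  refine ⟨L, fun p hp => (h1 p hp).2.1, fun p hp q hq y hyp hyq => ?_⟩
  by_contra hpq
  obtain ⟨x, u, v, hx, huv, e⟩ := ((hSP k N p.asIdeal).2.2.2.2.1 (hS p hp).1).2.2.2 y
    fun f hf => hyp f ((h1 p hp).2.2.1 hf)
  obtain ⟨x', u', v', hx', -, e'⟩ := ((hSP k N q.asIdeal).2.2.2.2.1 (hS q hq).1).2.2.2 y
    fun f hf => hyq f ((h1 q hq).2.2.1 hf)
  have hxx : x = x' := by
    refine (hSP k N I).2.2.2.2.2 x x' u v huv ?_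
    rw [← e, e']
    exact (hSP k N _).2.2.2.1 k x'.1 u' v' fun f hf => aeval_eq_zero_of_mem_vanw hf
  subst hxx
  have hxZ : x ∈ Z := ⟨p, hp, q, hq, hpq, hx, hx'⟩
  exact Set.disjoint_left.1 (h2 p hp q hq hpq) ((h1 p hp).2.2.2 y u v x hxZ e hyp)
    ((h1 q hq).2.2.2 y u v x hxZ e hyq)

end Pool.Agent.P.MP_12d50c_ag

end
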