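import Pool.Agent.P.MP_12d50c_ag.Z.IfaceB
import Pool.Agent.P.MP_12d50c_ag.Z.IfaceA

/-!
Proofs of the steps LF1, LQ, NRM, P0, PF, PL, PS.
-/

section

/-! Step LF1. -/

open MvPolynomial Function WithZero IsLocalRing
open Pool.Agent.P.MP_6f117a_ag (Place FF Model Reg)
open scoped IntermediateField Polynomial

namespace Pool.Agent.P.MP_12d50c_ag

theorem z_LF1 (hSP : Z_SP) (hCUF : Z_CUF) (hCTR : Z_CTR) (hGS : Z_GS) (hSML : Z_SML)
    (hWA : Z_WA) (hCT2 : Z_CT2) :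
    Z_LF1 := by
  intro k _ _ N E _ _ ξ Z B hξ hZ hB
  obtain ⟨hF, h1⟩ := (hCUF k N).1 E ξ hξ
  obtain ⟨i, hi⟩ := hξ.one
  obtain ⟨j, hj⟩ := h1 i (hi ▸ one_ne_zero)
  obtain ⟨-, c2, c3⟩ := hCTR k N E ξ hξ
  have hZ1 := hZ.union (hGS k N E ξ hξ)
  set Z1 := Z ∪ {y : NP k N | On (van k ξ) y.1 ∧ ¬ Un ξ y} with eZ
  have hS : {P : Place k E | ∃ y ∈ Z1, Ctr P ξ y}.Finite := by
    refine ((hZ1.subset (Set.sep_subset Z1 fun y => On (van k ξ) y.1)).biUnion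
      fun y hy => (c3 y hy.2).2).subset ?_
    rintro P ⟨y, a, b⟩
    exact Set.mem_biUnion (x := y) ⟨a, (c2 P y b).2.1⟩ b
  obtain ⟨c, k1, k2⟩ := hS.exists_injOn_of_encard_le (t := Bᶜ)
    (by rw [hB.infinite_compl.encard_eq]; exact le_top)
  obtain ⟨t, ht⟩ := hWA k E _ c _ hS hj
  obtain ⟨g1, g2⟩ := hCT2 k N E ξ t hξ
  have key : ∀ (y' : NP k (N + 1 + N)) (u v : k), ∀ y ∈ Z1, y'.1 = sg y.1 u v →
      ∀ P, Ctr P (sg ξ 1 t) y' → (∃ y ∈ Z1, Ctr P ξ y) ∧ u = 1 ∧ c P = v := by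
    intro y' u v y hy e P hP
    obtain ⟨a1, a2⟩ := (g2 y' y u v e).1 P hP
    have a3 : P.v (t - algebraMap k E (c P)) < 1 := by
      rw [ht P ⟨y, hy, a1⟩, ← exp_zero, exp_lt_exp]; omega
    obtain ⟨a4, a5⟩ := a2 (by
      simpa using P.v.map_add_le a3.le (P.triv (c P)))
    refine ⟨⟨y, hy, a1⟩, a4, by_contra fun n => ?_⟩
    have := P.v.map_sub_lt a5 a3
    rw [sub_sub_sub_cancel_left, ← map_sub, P.v_const (sub_ne_zero.2 n)] at this
    exact lt_irrefl _ this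
  have c4 := (hCTR k _ E _ g1).2.2
  refine ⟨t, c '' {P : Place k E | ∃ y ∈ Z1, Ctr P ξ y}, hS.image c,
    Set.disjoint_right.2 ?_, fun y' hy' => ?_, fun y' u v y hy e hy' => ?_⟩
  · rintro _ ⟨P, hP, rfl⟩
    exact k1 hP
  · obtain ⟨-, -, -, s1, s2, -⟩ := hSP k N (van k ξ)
    obtain ⟨s3, -, -, s4⟩ := s2 (wHom_vanw ξ)
    have s5 := s3.on_iff.1 (s1 E ξ 1 t fun f hf => aeval_eq_zero_of_mem_vanw hf)
    obtain ⟨y, u, v, y1, -, e⟩ := s4 y' fun f hf => hy' f (s5 hf)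
    refine hSML k _ E _ y' g1 ?_
    by_cases hy : y ∈ Z1
    · obtain ⟨P, hP⟩ := (c4 y' hy').1
      obtain ⟨a1, -, a2⟩ := key y' u v y hy e P hP
      refine (g2 y' y u v e).2.2 P (c P) hP (fun P' hP' => ?_) (ht P a1)
      obtain ⟨b1, -, b2⟩ := key y' u v y hy e P' hP'
      exact k2 b1 a1 (b2.trans a2.symm)
    · exact (g2 y' y u v e).2.1 hy' (by_contra fun n => hy (Or.inr ⟨y1, n⟩))
  · obtain ⟨P, hP⟩ := (c4 y' hy').1
    obtain ⟨a1, a2, a3⟩ := key y' u v y (Or.inl hy) e P hP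
    exact ⟨a2, P, a1, a3⟩

end Pool.Agent.P.MP_12d50c_ag

end

section

/-! Step LQ. -/

open MvPolynomial Function WithZero IsLocalRing
open Pool.Agent.P.MP_6f117a_ag (Place FF Model Reg)
open scoped IntermediateField Polynomial

namespace Pool.Agent.P.MP_12d50c_ag

namespace ZLQ

theorem comap_inc {k : Type} [Field k] {N n : ℕ} {L : Type} [CommRing L] [Algebra k L]
    (η : Ix N n → L) : (vanw k (wt N n) η).comap (inc n) = van k fun i => η (.inl i) := by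
  ext f
  rw [Ideal.mem_comap, van, vanw, vanw, RingHom.mem_ker, RingHom.mem_ker, inc, aeval_rename]
  rfl

theorem whom_sum {k : Type} [Field k] (N n : ℕ) :
    IsWeightedHomogeneous (wt N n) (∑ j, X (Sum.inr j) - 1 : RR k N n) 0 :=
  (IsWeightedHomogeneous.sum _ _ _ fun j _ => isWeightedHomogeneous_X k _ (Sum.inr j)).sub
    (isWeightedHomogeneous_one k _)

end ZLQ

theorem z_LQ (hEX : S_EX) (hDM : S_DM) (hEMB : S_EMB) (hDG0 : Z_DG0) (hDG : Z_DG) :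
    Z_LQ := by
  intro k _ N I E _ _ ξ t hξ Q hQ hc
  obtain ⟨i, hi⟩ := hξ.one
  have hX : X (.inl i) ∉ Q.asIdeal := fun h => by
    have h1 : X i ∈ Q.asIdeal.comap (inc 1) := by rwa [Ideal.mem_comap, inc, rename_X]
    rw [hc, mem_van_of_hom (isHomogeneous_X k i), aeval_X, hi] at h1
    exact one_ne_zero h1
  obtain ⟨L, _, _, η, h1, h2, h3⟩ := hEX k _ (wt N 1) Q.asIdeal (.inl i) hQ.1.hom rfl hX
  rw [← h1, ZLQ.comap_inc] at hc
  obtain ⟨ψ, hψ⟩ := hEMB k _ 1 E L ξ (fun j => η (.inl j)) i hξ.gen rfl hi h2 hc.symm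
  have hld : LD (vanw k (wt (N + 1 + N) 1) (lf η 1 (ψ t))) η (1 : L) (ψ t) :=
    ⟨h3, ⟨i, h2⟩, .inl one_ne_zero,
      top_unique fun y _ => IntermediateField.algebraMap_mem _ y, rfl⟩
  obtain ⟨a1, a2, -⟩ := hDG0 k N 1 _ L L η 1 (ψ t) hld
  have hn : lf η 1 (ψ t) (.inl (il i)) ≠ 0 := by rw [lf_il, h2, one_mul]; exact one_ne_zero
  refine ⟨⟨vanw k (wt (N + 1 + N) 1) (lf η 1 (ψ t)), inferInstance⟩,
    ⟨⟨inferInstance, wHom_vanw _, sup_le ?_ ?_, il i, fun h => hn ?_⟩, ?_⟩, a1.trans h1, ?_⟩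
  · rw [Ideal.map_le_iff_le_comap, ZLQ.comap_inc]
    refine (vanw_le_map ψ _).trans (le_of_eq ?_)
    rw [map_sg, map_one, funext hψ]
    rfl
  · rw [Ideal.span_singleton_le_iff_mem, mem_vanw_of_hom (ZLQ.whom_sum _ _)]
    have h4 : (∑ j, X (Sum.inr j) - 1 : RR k N 1) ∈ vanw k (wt N 1) η :=
      h1 ▸ hQ.1.le (Ideal.mem_sup_right (Ideal.mem_span_singleton_self _))
    simpa using aeval_eq_zero_of_mem_vanw h4
  · simpa using aeval_eq_zero_of_mem_vanw h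
  · obtain ⟨r, b1, b2⟩ := hDM k _ (wt N 1) L η (.inl i) h3 rfl (h2 ▸ one_ne_zero)
    obtain ⟨r', c1, c2⟩ := hDM k _ (wt (N + 1 + N) 1) L (lf η 1 (ψ t)) (.inl (il i)) a2 rfl hn
    obtain rfl : r = r' := by exact_mod_cast b1.symm.trans c1
    rw [h1] at b2
    exact c2.trans (b2.symm.trans hQ.2)
  · exact (hDG k N 1 _ L L η 1 (ψ t) hld).trans (Module.finrank_self L)

end Pool.Agent.P.MP_12d50c_ag

end

section

/-! Step NRM. -/

open MvPolynomial Function WithZero IsLocalRing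
open Pool.Agent.P.MP_6f117a_ag (Place FF Model Reg)
open scoped IntermediateField Polynomial

namespace Pool.Agent.P.MP_12d50c_ag

namespace ZNRM

theorem noe {k E τ : Type} [Field k] [Field E] [Algebra k E] [Finite τ] (η : τ → E) :
    ∃ (s : ℕ) (y : Fin s → E), AlgebraicIndependent k y ∧
      (∀ a, ∃ f : MvPolynomial τ k, y a = aeval η f) ∧
      ∀ j, IsIntegral (Algebra.adjoin k (Set.range y)) (η j) := by
  have : Algebra.FiniteType k (Algebra.adjoin k (Set.range η)) :=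
    Algebra.FiniteType.adjoin_of_finite (Set.finite_range η)
  obtain ⟨s, g, h1, h2⟩ := exists_integral_inj_algHom_of_fg k (Algebra.adjoin k (Set.range η))
  set G := (Algebra.adjoin k (Set.range η)).val.comp g with hG
  have e : G = aeval fun a => G (X a) := aeval_unique G
  refine ⟨s, fun a => G (X a), ?_, fun a => ?_, fun j => ?_⟩
  · rw [AlgebraicIndependent, ← e]
    exact Subtype.val_injective.comp h1
  · have h3 : G (X a) ∈ (aeval η : MvPolynomial τ k →ₐ[k] E).range := by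
      rw [← Algebra.adjoin_range_eq_range_aeval]
      exact (g (X a)).2
    obtain ⟨f, hf⟩ := h3
    exact ⟨f, hf.symm⟩
  · rw [Algebra.adjoin_range_eq_range_aeval, ← e]
    obtain ⟨p, hp, h3⟩ := h2 ⟨η j, Algebra.subset_adjoin ⟨j, rfl⟩⟩
    refine ⟨p.map G.rangeRestrict.toRingHom, hp.map _, ?_⟩
    rw [Polynomial.eval₂_map]
    have h4 := congrArg (Algebra.adjoin k (Set.range η)).val.toRingHom h3
    rw [Polynomial.hom_eval₂, map_zero] at h4
    exact h4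

end ZNRM

theorem z_NRM (hDM : S_DM) (hPLACE : S_PLACE) (hCUF : Z_CUF) :
    Z_NRM := by
  intro k _ _ N E _ _ ξ i hξ hi
  obtain ⟨hF, hT⟩ := (hCUF k N).1 E ξ hξ
  obtain ⟨j, hj⟩ := hT i hi
  obtain ⟨n, h1, h2⟩ := hDM k _ 1 E ξ i hξ.gen rfl hi
  have hn : n = 1 := by
    have h3 : ((n + 1 : ℕ) : WithBot ℕ∞) = (2 : ℕ) := h2.symm.trans hξ.dim
    have h4 : n + 1 = 2 := by exact_mod_cast h3
    omega
  obtain ⟨s, y, a1, a2, a3⟩ := ZNRM.noe (k := k) fun j => ξ j / ξ i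
  have hs : s ≤ 1 := by
    have := a1.cardinalMk_le_trdeg
    rw [h1, hn, Cardinal.mk_fin] at this
    exact_mod_cast this
  rcases Nat.le_one_iff_eq_zero_or_eq_one.1 hs with rfl | rfl
  · have := a3 j
    rw [Set.range_eq_empty, Algebra.adjoin_empty] at this
    exact absurd (Subalgebra.isAlgebraic_of_isAlgebraic_bot this.isAlgebraic) hj
  · obtain ⟨f, hf⟩ := a2 0
    obtain ⟨d, g, b1, b2⟩ := exists_homog (w := 1) (i := i) rfl f
    have e : aeval ξ g / ξ i ^ d = y 0 := by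
      rw [hf, ← b2 E _ (div_self hi), div_eq_inv_mul, ← inv_pow, ← aeval_smul b1]
      simp only [div_eq_inv_mul]
    have ht : Transcendental k (y 0) := a1.transcendental 0
    refine ⟨g, d, b1, e ▸ ht, fun l => ?_⟩
    rw [e, (hPLACE k E).2.2.2.2.2.1 _ _ ht]
    have := a3 l
    rwa [Set.range_unique] at this

end Pool.Agent.P.MP_12d50c_ag

end

section

/-! Step P0. -/

open MvPolynomial Function WithZero IsLocalRing
open Pool.Agent.P.MP_6f117a_ag (Place FF Model Reg)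
open scoped IntermediateField Polynomial

namespace Pool.Agent.P.MP_12d50c_ag

theorem z_P0 (hVP : S_VP) (hPT : Z_PT) (hSP : Z_SP) (hDG0 : Z_DG0) (hDG : Z_DG)
    (hEXL : Z_EXL) :
    Z_P0 := by
  intro k _ hk N I hI
  have h1 : ∀ (M : ℕ) (x : Fin (M + 1) → k),
      vanw k (wt M 0) (Sum.elim x fun _ => 1) = cyl (van k x) 0 := fun M x =>
    ((hVP k M 0).2 k k x (fun _ => 1) (by simp)).1 algebraicIndependent_empty_type
  have key : ∀ z ∈ Cv (SI I) 0, ∃ (y : NP k N) (u v : k), On I y.1 ∧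
      z.asIdeal = cyl (van k (sg y.1 u v)) 0 ∧ dg z.asIdeal = 1 ∧
      prj z.asIdeal = cyl (van k y.1) 0 := by
    intro z hz
    obtain ⟨y', h2, h3⟩ := ((hPT k _).2.2 _).2.2 hk z hz
    obtain ⟨y, u, v, h4, h5, h6⟩ := ((hSP k N I).2.2.2.2.1 hI).2.2.2 y' h2
    rw [h6] at h3
    have h7 : LD z.asIdeal (E := k) (L := k) (Sum.elim y.1 fun _ => 1) u v := by
      refine ⟨fun a => ⟨0, C a, 1, isWeightedHomogeneous_C _ a, isWeightedHomogeneous_one _ _,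
        by simp, by simp⟩, ⟨y.piv, y.piv_eq⟩, h5, Subsingleton.elim _ _, ?_⟩
      rw [h3, ← h1]
      rfl
    exact ⟨y, u, v, h4, h3, (hDG k N 0 _ k k _ u v h7).trans (Module.finrank_self k),
      (hDG0 k N 0 _ k k _ u v h7).1.trans (h1 N y.1)⟩
  intro z hz
  obtain ⟨y, u, v, h2, -, h3, h4⟩ := key z hz
  refine ⟨h3, y, h2, h4, fun z' hz' h5 => ?_⟩
  obtain ⟨y', u', v', -, h6, -, h7⟩ := key z' hz'
  have h8 : van k y'.1 = van k y.1 := by
    rw [← (hPT k N).1 (van k y'.1), ← h7, h5, h4, (hPT k N).1]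
  obtain rfl := NP.eq_of_van_le h8.le
  have h9 : Hom (van k y'.1) := wHom_vanw _
  refine ⟨⟨hz'.1.prime, hz'.1.hom, ?_, hz'.1.rel⟩, hz'.2⟩
  rw [h6]
  exact sup_le_sup_right (Ideal.map_mono (((hSP k N _).2.2.2.2.1 h9).1.on_iff.1
    ((hSP k N _).2.2.2.1 k y'.1 u' v' (h9.on_iff.2 le_rfl)))) _

end Pool.Agent.P.MP_12d50c_ag

end

section

/-! Step PF. -/

open MvPolynomial Function WithZero IsLocalRing
open Pool.Agent.P.MP_6f117a_ag (Place FF Model Reg)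
open scoped IntermediateField Polynomial

namespace Pool.Agent.P.MP_12d50c_ag

namespace ZPF

variable {k : Type} [Field k] {N m n : ℕ} {T : Type} [CommRing T]

/-- The image of a point under a simplicial map. -/
def pu (g : Fin (m + 1) → Fin (n + 1)) (ξ : Ix N m → T) : Ix N n → T :=
  Sum.elim (fun i => ξ (.inl i)) fun j => ∑ i with g i = j, ξ (.inr i)

theorem vanw_pu [Algebra k T] (g : Fin (m + 1) → Fin (n + 1)) (ξ : Ix N m → T) :
    vanw k (wt N n) (pu g ξ) = (vanw k (wt N m) ξ).comap (smap g) := by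
  ext f
  rw [Ideal.mem_comap, vanw, vanw, RingHom.mem_ker, RingHom.mem_ker, smap, map_aeval']
  refine Eq.to_iff (congrArg (fun η => aeval η f = 0) (funext fun c => ?_))
  rcases c with i | j
  · simp [pu, wt]
  · simp [pu, wt]

theorem range_pu {g : Fin (m + 1) → Fin (n + 1)} (hg : Injective g) (ξ : Ix N m → T) :
    Set.range ξ ⊆ Set.range (pu g ξ) := by
  rintro _ ⟨i | i, rfl⟩
  · exact ⟨.inl i, rfl⟩
  · refine ⟨.inr (g i), ?_⟩
    simp [pu, hg.eq_iff, Finset.filter_eq']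

theorem smap_rh (g : Fin (m + 1) → Fin (n + 1)) (a b : k) (f : RR k N n) :
    smap g (rh a b f) = rh a b (smap g f) := by
  have h : (smap g).comp (rh a b : RR k N n →ₐ[k] _) = (rh a b).comp (smap g) := by
    refine MvPolynomial.algHom_ext fun c => ?_
    rcases c with i | j
    · simp [smap]
    · simp [smap]
  exact DFunLike.congr_fun h f

end ZPF

theorem z_PF (hVP0 : S_VP0) (hDG : Z_DG) (hEXL : Z_EXL) :
    Z_PF := by
  intro k _ N n
  have _ := hVP0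
  refine ⟨fun Q Q' h => inf_le_inf (Ideal.comap_mono h) (Ideal.comap_mono h), fun Q j => ?_,
    fun m g Q => ⟨?_, fun I hI hg hQ => ?_⟩⟩
  · simp [prj, Ideal.mem_comap]
  · ext f
    simp only [prj, Ideal.mem_inf, Ideal.mem_comap, ZPF.smap_rh]
  · obtain ⟨h1, h2⟩ := (hEXL k N m I Q hI).1 hQ
    obtain ⟨i, hi⟩ := h1.rel
    obtain ⟨E, L, _, _, _, _, _, _, ξ, u, v, h3, h4⟩ := h2 i hi
    rw [hDG k N m Q E L ξ u v h3]
    refine hDG k N n _ E L (ZPF.pu g ξ) u v ⟨?_, ⟨i, h4⟩, h3.ne, h3.top, ?_⟩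
    · refine (gen_iff (i := .inl i) rfl h4).2 (top_unique ?_)
      rw [← (gen_iff (i := .inl i) rfl h4).1 h3.gen]
      exact IntermediateField.adjoin.mono _ _ _ (ZPF.range_pu hg ξ)
    · rw [← h3.eq, ← ZPF.vanw_pu]
      congr 1
      exact lf_ext (fun i => by simp [ZPF.pu]) (fun i => by simp [ZPF.pu]) fun j => by
        simp [ZPF.pu]

end Pool.Agent.P.MP_12d50c_ag

end

section

/-! Step PL. -/

open MvPolynomial Function WithZero IsLocalRing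
open Pool.Agent.P.MP_6f117a_ag (Place FF Model Reg)
open scoped IntermediateField Polynomial

namespace Pool.Agent.P.MP_12d50c_ag

theorem z_PL (hDG0 : Z_DG0) (hDG : Z_DG) (hPF : Z_PF) (hCHA : Z_CHA) (hCHB : Z_CHB)
    (hLB0 : Z_LB0) (hLB1 : Z_LB1) (hLB2 : Z_LB2) (hLB3 : Z_LB3) (hFINL : Z_FINL) :
    Z_PL := by
  intro k _ _ N n r I W q j hI hW hq hdW hdq hj hnc
  by_cases hle : prj W ≤ q.asIdeal
  swap
  · have h1 : {Q : PrimeSpectrum (RR k (N + 1 + N) n) |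
        Adm (SI I) Q.asIdeal ∧ W ≤ Q.asIdeal ∧ prj Q.asIdeal = q.asIdeal} = ∅ :=
      Set.eq_empty_of_forall_notMem fun Q hQ => hle (hQ.2.2 ▸ (hPF k N n).1 _ _ hQ.2.1)
    rw [h1, finsum_mem_empty, len_eq_zero_iff.2 fun h => hle (le_sup_left.trans h)]
    simp
  rcases hCHA k N n I W q.asIdeal hI hW hq with ⟨Q, h1, h2, h3, h4⟩ | ⟨c, G, d, h1, h2, h3⟩
  · exact (hnc Q h1 h2 h3 h4).elim
  obtain ⟨A, B, E, L, _, _, _, _, _, _, _, _, _, _, _, _, φ, β, x, i, s, H⟩ :=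
    hCHB k N n I W q.asIdeal c G d hI hW hq hle h1 h2 h3
  obtain ⟨-, -, -, -, -, b6, b7, b8⟩ := hLB0 k N n I W q.asIdeal A B E L φ β x i c s H
  have := H.loc
  have := H.noeth
  have := H.fin
  have e0 := (hDG0 k N n W E L _ _ _ H.ld).1
  have : (prj W).IsPrime := e0 ▸ inferInstance
  have hd : ringKrullDim A ≤ 1 := by
    have h4 := dim_LQ k hle
    rw [hdW, hdq, ← H.dim, Nat.cast_add, add_comm (r : WithBot ℕ∞)] at h4
    generalize ringKrullDim A = a at h4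
    induction a using WithBot.recBotCoe with
    | bot => exact bot_le
    | coe a =>
      have h5 : a + (r : ℕ∞) = 1 + r := by exact_mod_cast h4
      exact_mod_cast (WithTop.add_right_cancel (ENat.natCast_ne_top r) h5).le
  have hτ : x (.inr j) ≠ 0 := fun h0 => hj (((hPF k N n).2.1 W j).1 (by
    rw [e0, mem_vanw_of_hom (isWeightedHomogeneous_X k _ _), aeval_X, h0, map_zero]))
  obtain ⟨hfin, hsum⟩ := hFINL A B E L φ β (x (.inr j)) H.injA b7 H.injB b8 H.comm hd hτ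
  let e : MaximalSpectrum B → PrimeSpectrum (RR k (N + 1 + N) n) := fun a =>
    ⟨eB x c s a.asIdeal, inferInstance⟩
  have he : Injective e := fun a a' h =>
    MaximalSpectrum.ext (b6 _ _ (congrArg PrimeSpectrum.asIdeal h))
  have hr : {Q : PrimeSpectrum (RR k (N + 1 + N) n) |
      Adm (SI I) Q.asIdeal ∧ W ≤ Q.asIdeal ∧ prj Q.asIdeal = q.asIdeal} = Set.range e := by
    ext Q
    refine ⟨fun hQ => ?_, ?_⟩
    · obtain ⟨a, h4, h5⟩ := hLB2 k N n I W q.asIdeal A B E L φ β x i c s H _ hQ.1 hQ.2.1 hQ.2.2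
      exact ⟨⟨a, h4⟩, PrimeSpectrum.ext h5⟩
    · rintro ⟨a, rfl⟩
      obtain ⟨h4, h5, h6, -⟩ := hLB1 k N n I W q.asIdeal A B E L φ β x i c s H _ a.isMaximal
      exact ⟨h4, h5, h6⟩
  rw [hr, finsum_mem_range he, hDG k N n W E L _ _ _ H.ld, ← H.len, ← hsum]
  refine ⟨Set.finite_range e, finsum_congr fun a => ?_⟩
  rw [← (hLB1 k N n I W q.asIdeal A B E L φ β x i c s H _ a.isMaximal).2.2.2, ENat.toNat_natCast,
    ← hLB3 k N n I W q.asIdeal A B E L φ β x i c s H a.asIdeal j]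

end Pool.Agent.P.MP_12d50c_ag

end

section

/-! Step PS. -/

open MvPolynomial Function WithZero IsLocalRing
open Pool.Agent.P.MP_6f117a_ag (Place FF Model Reg)
open scoped IntermediateField Polynomial

namespace Pool.Agent.P.MP_12d50c_ag

namespace ZPS

theorem comb {α β γ J : Type} [Fintype J] (S : Set α) (T : Set β) (a : J → α → ℕ) (b : J → β → ℕ)
    (d : α → ℕ) (D : ℕ) (π : α → γ) (e : β → γ) (he : Injective e) (ψ : γ → ℚ) (s : J → ℚ)
    (fa : ∀ j, {Q ∈ S | a j Q ≠ 0}.Finite) (fb : ∀ j, {q ∈ T | b j q ≠ 0}.Finite)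
    (img : ∀ Q ∈ S, d Q ≠ 0 → ∃ q ∈ T, e q = π Q)
    (h : ∀ j, ∀ q ∈ T, ∑ᶠ Q ∈ {Q ∈ S | π Q = e q}, d Q * a j Q = D * b j q) :
    ∑ᶠ Q ∈ S, d Q * ψ (π Q) * ∑ j, s j * a j Q = D * ∑ᶠ q ∈ T, ψ (e q) * ∑ j, s j * b j q := by
  classical
  have hA : {Q ∈ S | d Q ≠ 0 ∧ ∃ j, a j Q ≠ 0}.Finite :=
    (Set.finite_iUnion fa).subset fun Q ⟨h1, _, j, h2⟩ => Set.mem_iUnion.2 ⟨j, h1, h2⟩
  have hB : {q ∈ T | (∃ j, b j q ≠ 0) ∨ ∃ Q ∈ hA.toFinset, π Q = e q}.Finite := by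
    refine ((Set.finite_iUnion fb).union
      ((hA.toFinset.finite_toSet.image π).preimage he.injOn)).subset ?_
    rintro q ⟨h1, ⟨j, h2⟩ | ⟨Q, h2, h3⟩⟩
    · exact Or.inl (Set.mem_iUnion.2 ⟨j, h1, h2⟩)
    · exact Or.inr ⟨Q, h2, h3⟩
  set A := hA.toFinset with hAdef
  set B := hB.toFinset with hBdef
  have mA : ∀ Q, Q ∈ A ↔ Q ∈ S ∧ d Q ≠ 0 ∧ ∃ j, a j Q ≠ 0 := fun Q => hA.mem_toFinset
  have mB : ∀ q, q ∈ B ↔ q ∈ T ∧ ((∃ j, b j q ≠ 0) ∨ ∃ Q ∈ A, π Q = e q) :=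
    fun q => hB.mem_toFinset
  have h1 : ∑ᶠ Q ∈ S, d Q * ψ (π Q) * ∑ j, s j * a j Q =
      ∑ Q ∈ A, d Q * ψ (π Q) * ∑ j, s j * a j Q := by
    refine finsum_mem_eq_sum_of_inter_support_eq _ (Set.ext fun Q => ⟨fun hQ => ⟨?_, hQ.2⟩,
      fun hQ => ⟨((mA Q).1 hQ.1).1, hQ.2⟩⟩)
    refine (mA Q).2 ⟨hQ.1, fun h0 => hQ.2 (by simp [h0]), ?_⟩
    by_contra h0
    push Not at h0
    exact hQ.2 (by simp [h0])
  have h2 : ∑ᶠ q ∈ T, ψ (e q) * ∑ j, s j * b j q = ∑ q ∈ B, ψ (e q) * ∑ j, s j * b j q := by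
    refine finsum_mem_eq_sum_of_inter_support_eq _ (Set.ext fun q => ⟨fun hq => ⟨?_, hq.2⟩,
      fun hq => ⟨((mB q).1 hq.1).1, hq.2⟩⟩)
    refine (mB q).2 ⟨hq.1, Or.inl ?_⟩
    by_contra h0
    push Not at h0
    exact hq.2 (by simp [h0])
  have h3 : ∀ j, ∀ q ∈ B, ∑ Q ∈ A with π Q = e q, (d Q * a j Q : ℚ) = D * b j q := by
    intro j q hq
    have h4 := h j q ((mB q).1 hq).1
    rw [finsum_mem_eq_sum_of_inter_support_eq _ (t := A.filter fun Q => π Q = e q)] at h4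
    · exact_mod_cast h4
    · refine Set.ext fun Q => ⟨fun hQ => ⟨?_, hQ.2⟩, fun hQ => ⟨?_, hQ.2⟩⟩
      · have h5 := mul_ne_zero_iff.1 hQ.2
        exact Finset.mem_filter.2 ⟨(mA Q).2 ⟨hQ.1.1, h5.1, j, h5.2⟩, hQ.1.2⟩
      · have h5 := Finset.mem_filter.1 hQ.1
        exact ⟨((mA Q).1 h5.1).1, h5.2⟩
  have h4 : ∀ F : α → ℚ, ∑ Q ∈ A, F Q = ∑ q ∈ B, ∑ Q ∈ A with π Q = e q, F Q := by
    intro F
    simp only [Finset.sum_filter]
    rw [Finset.sum_comm]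
    refine Finset.sum_congr rfl fun Q hQ => ?_
    obtain ⟨q, hq, h5⟩ := img Q ((mA Q).1 hQ).1 ((mA Q).1 hQ).2.1
    rw [Finset.sum_eq_single q, if_pos h5.symm]
    · intro q' _ h6
      exact if_neg fun h7 => h6 (he (h7.symm.trans h5.symm))
    · exact fun h6 => (h6 ((mB q).2 ⟨hq, Or.inr ⟨Q, hQ, h5.symm⟩⟩)).elim
  rw [h1, h2, h4, Finset.mul_sum]
  refine Finset.sum_congr rfl fun q hq => ?_
  have h5 : ∀ Q ∈ A.filter fun Q => π Q = e q, d Q * ψ (π Q) * ∑ j, s j * a j Q =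
      ∑ j, ψ (e q) * s j * (d Q * a j Q) := by
    intro Q hQ
    rw [(Finset.mem_filter.1 hQ).2, Finset.mul_sum]
    exact Finset.sum_congr rfl fun j _ => by ring
  rw [Finset.sum_congr rfl h5, Finset.sum_comm, Finset.mul_sum, Finset.mul_sum]
  refine Finset.sum_congr rfl fun j _ => ?_
  rw [← Finset.mul_sum, h3 j q hq]
  ring

variable {k : Type} [Field k] {N n : ℕ}

theorem cast_bdA (W : Ideal (RR k N (n + 1))) (Q : PrimeSpectrum (RR k N n)) :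
    (bdA W Q : ℚ) = ∑ j : Fin (n + 2), (-1 : ℚ) ^ (j : ℕ) *
      ((len (W.map (smap j.succAbove)) Q.asIdeal).toNat : ℚ) := by
  simp [bdA]

theorem fin_len {I : Ideal (PP k N)} {J : Ideal (RR k N n)}
    (h : {Q ∈ Cv I n | J ≤ Q.asIdeal}.Finite) :
    {Q ∈ Cv I n | (len J Q.asIdeal).toNat ≠ 0}.Finite := by
  refine h.subset fun Q hQ => ⟨hQ.1, ?_⟩
  by_contra h0
  exact hQ.2 (by rw [len_eq_zero_iff.2 h0]; rfl)

end ZPS

theorem z_PS (hFINB : S_FINB) (hPU1 : Z_PU1) (hPU2 : Z_PU2) :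
    Z_PS := by
  intro k _ _ N n I ψ hI W hW hP
  by_cases h0 : dg W.asIdeal = 0
  · rw [h0, Nat.cast_zero, zero_mul]
    refine finsum_mem_eq_zero_of_forall_eq_zero fun Q hQ => ?_
    by_cases h1 : bdA W.asIdeal Q = 0
    · simp [h1]
    · simp [(hPU1 k N n I hI).2 W hW hP h0 Q hQ h1]
  obtain ⟨V, hV, h1, h2⟩ := (hPU1 k N (n + 1) I hI).1 W hW h0
  simp only [ZPS.cast_bdA]
  refine ZPS.comb (Cv (SI I) n) (Cv I n)
    (fun j Q => (len (W.asIdeal.map (smap (Fin.succAbove j))) Q.asIdeal).toNat)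
    (fun j q => (len ((prj W.asIdeal).map (smap (Fin.succAbove j))) q.asIdeal).toNat)
    (fun Q => dg Q.asIdeal) (dg W.asIdeal) (fun Q => prj Q.asIdeal) (fun q => q.asIdeal)
    (fun _ _ h => PrimeSpectrum.ext h) ψ (fun j => (-1 : ℚ) ^ (j : ℕ))
    (fun j => ZPS.fin_len ((hFINB k _ n _ W hW hP).1 j)) (fun j => ZPS.fin_len ?_)
    (fun Q hQ hd => ?_) (fun j q hq => hPU2 k N n I j hI W hW hP h0 q hq)
  · rw [← h1]
    exact (hFINB k N n I V hV (h2 hP)).1 j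
  · obtain ⟨q, h3, h4, -⟩ := (hPU1 k N n I hI).1 Q hQ hd
    exact ⟨q, h3, h4⟩

end Pool.Agent.P.MP_12d50c_ag

end
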