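import Pool.Agent.P.MP_12d50c_ag.Z.IfaceB
import Pool.Agent.P.MP_12d50c_ag.Z.IfaceA

/-!
Proofs of the steps SML, SP, TAL, TJ, TQ, WA.
-/

section

/-! Step SML. -/

open MvPolynomial Function WithZero IsLocalRing
open Pool.Agent.P.MP_6f117a_ag (Place FF Model Reg)
open scoped IntermediateField Polynomial

namespace Pool.Agent.P.MP_12d50c_ag

namespace ZSML

theorem le_of_lt_one {x : ℤᵐ⁰} (h : x < 1) : x ≤ exp (-1) := by
  by_cases h0 : x = 0
  · simp [h0]
  rw [← exp_log h0] at h ⊢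
  rw [← exp_zero, exp_lt_exp] at h
  exact exp_le_exp.2 (by omega)

end ZSML

theorem z_SML (hLOC : S_LOC) (hFL : S_FL) (hPLACE : S_PLACE) (hTD : Z_TD) (hCUF : Z_CUF)
    (hCTR : Z_CTR) (hSM1 : Z_SM1) :
    Z_SML := by
  intro k _ _ N E _ _ ξ y hξ ⟨P, hP, hU, g, e, hg, hv⟩
  have := ((hCUF k N).1 E ξ hξ).1
  obtain ⟨-, hon, -⟩ := (hCTR k N E ξ hξ).2.1 P y hP
  have h : Ch 1 ξ (van k y.1) y.piv :=
    ⟨(Hom.on_iff (wHom_vanw ξ)).1 hon, rfl, y.X_piv_notMem⟩
  obtain ⟨_, _, -⟩ := hLOC k _ 1 E ξ (van k y.1) y.piv h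
  obtain ⟨S, hS⟩ := hSM1 k N E ξ P y hξ hP hU
  have res := (hPLACE k E).2.2.2.2.2.2.1 P
  set A := locw 1 ξ (van k y.1) with hA
  set O : Submodule A E := Submodule.span A (S : Set E) with hO
  have h1 : (1 : E) ∈ O := (hS 1).1 (by simp)
  have hAO : ∀ a : A, P.v a ≤ 1 := fun a => (hS _).2 (by
    have := O.smul_mem a h1
    rwa [Algebra.smul_def, mul_one] at this)
  set τ : A := germ h g with hτ
  have vτ : P.v τ = exp (-1) := by rw [hτ, coe_germ_of_hom h hg, hv]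
  have τ0 : (τ : E) ≠ 0 := fun e => by simp [e] at vτ; exact exp_ne_zero vτ.symm
  have div : ∀ w : E, P.v w < 1 → w / τ ∈ O := fun w hw => (hS _).1 (by
    rw [map_div₀, vτ]
    exact div_le_one_of_le₀ (ZSML.le_of_lt_one hw) zero_le)
  have unit : ∀ a : A, IsUnit a → P.v a = 1 := by
    intro a ha
    obtain ⟨b, hb⟩ := ha.exists_right_inv
    have h2 : P.v a * P.v b = 1 := by
      rw [← map_mul, ← MulMemClass.coe_mul, hb]; simp
    exact le_antisymm (hAO a) (h2 ▸ mul_le_of_le_one_right' (hAO b))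
  have τm : τ ∈ maximalIdeal A := fun hu => by
    have := unit τ hu
    rw [vτ, ← exp_zero, exp_inj] at this
    omega
  have key : O ≤ LinearMap.range (Algebra.linearMap A E) := by
    refine Submodule.le_of_le_smul_of_le_jacobson_bot (I := Ideal.span {τ})
      (Submodule.fg_span S.finite_toSet) ?_ ?_
    · rw [jacobson_eq_maximalIdeal _ bot_ne_top]
      exact (Ideal.span_singleton_le_iff_mem _).2 τm
    · intro u hu
      obtain ⟨c, hc⟩ := res u ((hS u).2 hu)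
      have : u = algebraMap k E c + τ • ((u - algebraMap k E c) / τ) := by
        rw [Algebra.smul_def]
        change u = _ + (τ : E) * _
        field_simp
        ring
      rw [this]
      exact Submodule.add_mem_sup ⟨algebraMap k A c, rfl⟩
        (Submodule.smul_mem_smul (Ideal.mem_span_singleton_self τ) (div _ hc))
  have hm : Ideal.span {τ} = maximalIdeal A := by
    refine le_antisymm ((Ideal.span_singleton_le_iff_mem _).2 τm) fun a ha => ?_
    have lt : P.v a < 1 := by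
      refine lt_of_le_of_ne (hAO a) fun e => ha ?_
      have a0 : (a : E) ≠ 0 := fun e' => by simp [e'] at e
      obtain ⟨b, hb⟩ := key ((hS (a : E)⁻¹).1 (by rw [map_inv₀, e]; simp))
      refine IsUnit.of_mul_eq_one b (Subtype.ext ?_)
      change (b : E) = _ at hb
      rw [MulMemClass.coe_mul, hb, mul_inv_cancel₀ a0]; rfl
    obtain ⟨b, hb⟩ := key (div _ lt)
    refine Ideal.mem_span_singleton'.2 ⟨b, Subtype.ext ?_⟩
    change (b : E) = _ at hb
    rw [MulMemClass.coe_mul, hb, div_mul_cancel₀ _ τ0]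
  refine hTD k N (van k ξ) y g e (wHom_vanw ξ) hg ?_
  have h3 := (hFL k _ 1 E ξ (van k y.1) y.piv h (wHom_vanw _)).2 (Ideal.span {g})
    (wHom_span fun f hf => ⟨e, hf ▸ hg⟩)
  rw [ordI, ← h3, Ideal.map_span, Set.image_singleton, hm, lq, Module.length_eq_one_iff]
  exact isSimpleModule_iff_isCoatom.2 (Ideal.isMaximal_def.1 inferInstance)

end Pool.Agent.P.MP_12d50c_ag

end

section

/-! Step SP. -/

open MvPolynomial Function WithZero IsLocalRing
open Pool.Agent.P.MP_6f117a_ag (Place FF Model Reg)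
open scoped IntermediateField Polynomial

namespace Pool.Agent.P.MP_12d50c_ag

namespace ZSP

variable {k : Type} [Field k] {N : ℕ} {I : Ideal (PP k N)}

theorem mem_SI {f : PP k (N + 1 + N)} :
    f ∈ SI I ↔ sgm f ∈ I.map (C : PP k N →+* MvPolynomial (Fin 2) (PP k N)) := Ideal.mem_comap

theorem prime (hI : I.IsPrime) : (SI I).IsPrime := by
  have h : (I.map (C : PP k N →+* MvPolynomial (Fin 2) (PP k N))).IsPrime := by
    have e := MvPolynomial.ker_map (σ := Fin 2) (Ideal.Quotient.mk I)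
    rw [Ideal.mk_ker] at e
    rw [← e]
    exact RingHom.ker_isPrime _
  exact Ideal.comap_isPrime _ _

theorem minor (i j : Fin (N + 1)) : X (il i) * X (ir j) - X (il j) * X (ir i) ∈ SI I := by
  have : sgm (X (il i) * X (ir j) - X (il j) * X (ir i) : PP k (N + 1 + N)) = 0 := by
    simp only [sgm, map_sub, map_mul, aeval_X, sg_il, sg_ir]
    ring
  rw [mem_SI, this]
  exact zero_mem _

theorem on_sg {T : Type} [CommRing T] [Algebra k T] (x : Fin (N + 1) → T) (u v : T)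
    (hx : On I x) : On (SI I) (sg x u v) := by
  intro f hf
  let ψ : MvPolynomial (Fin 2) (PP k N) →ₐ[k] T := aevalTower (aeval x) ![u, v]
  have e : ψ (sgm f) = aeval (sg x u v) f := by
    rw [sgm, map_aeval', map_sg]
    simp [ψ]
  have hle : I.map (C : PP k N →+* MvPolynomial (Fin 2) (PP k N)) ≤ RingHom.ker ψ := by
    rw [Ideal.map_le_iff_le_comap]
    intro g hg
    simpa [ψ] using hx g hg
  rw [← e]
  exact hle (mem_SI.1 hf)

theorem sgm_hom {f : PP k (N + 1 + N)} {d : ℕ} (hf : f.IsHomogeneous d) :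
    (sgm f).IsHomogeneous d := by
  have := hf.aeval (sg (fun i => (C (X i) : MvPolynomial (Fin 2) (PP k N))) (X 0) (X 1)) (n := 1)
    (fun c => by
      rcases il_or_ir c with ⟨i, rfl⟩ | ⟨i, rfl⟩
      · rw [sg_il]
        exact (isHomogeneous_X _ _).mul (isHomogeneous_C _ _)
      · rw [sg_ir]
        exact (isHomogeneous_X _ _).mul (isHomogeneous_C _ _))
  rwa [one_mul] at this

theorem hom_SI : Hom (SI I) := by
  classical
  intro f hf d
  have e : sgm (weightedHomogeneousComponent 1 d f) = weightedHomogeneousComponent 1 d (sgm f) := by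
    obtain ⟨n, h1, h0⟩ := exists_sum_comp 1 f
    conv_rhs => rw [h1, map_sum, map_sum]
    rw [Finset.sum_congr rfl fun e _ => weightedHomogeneousComponent_of_mem
      (sgm_hom (weightedHomogeneousComponent_isWeightedHomogeneous e f)), Finset.sum_ite_eq]
    split_ifs with h
    · rfl
    · rw [h0 d (by simpa using h), map_zero]
  rw [mem_SI, e, MvPolynomial.mem_map_C_iff]
  intro m
  rw [coeff_weightedHomogeneousComponent]
  split_ifs
  · exact MvPolynomial.mem_map_C_iff.1 (mem_SI.1 hf) m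
  · exact zero_mem _

theorem ren (hI : Hom I) (ι : Fin (N + 1) → Fin (N + 1 + N + 1)) (t : Fin 2)
    (h : ∀ i, sg (fun i => (C (X i) : MvPolynomial (Fin 2) (PP k N))) (X 0) (X 1) (ι i) =
      X t * C (X i)) : ∀ f ∈ I, rename ι f ∈ SI I := by
  refine WHom.le_of_hom hI (J' := (SI I).comap (rename ι : PP k N →ₐ[k] _)) fun f d hf hfI => ?_
  have e : aeval (fun i => (C (X i) : MvPolynomial (Fin 2) (PP k N))) f = C f := by
    have := map_aeval' (IsScalarTower.toAlgHom k (PP k N) (MvPolynomial (Fin 2) (PP k N))) X f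
    simpa using this.symm
  rw [Ideal.mem_comap, mem_SI, sgm, aeval_rename, show (sg (fun i =>
    (C (X i) : MvPolynomial (Fin 2) (PP k N))) (X 0) (X 1) ∘ ι) = fun i => X t * C (X i) from
      funext h, aeval_smul hf, e]
  exact Ideal.mul_mem_left _ _ (Ideal.mem_map_of_mem _ hfI)

theorem ren2 (hI : Hom I) (f : PP k N) (hf : f ∈ I) : rename il f ∈ SI I ∧ rename ir f ∈ SI I :=
  ⟨ren hI il 0 (fun i => sg_il _ _ _ i) f hf, ren hI ir 1 (fun i => sg_ir _ _ _ i) f hf⟩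

theorem pts (hI : Hom I) {Ω : Type} [Field Ω] [Algebra k Ω] (y : Fin (N + 1 + N + 1) → Ω)
    (hy : y ≠ 0) (h : On (SI I) y) : ∃ (x : Fin (N + 1) → Ω) (u v : Ω), (∃ i, x i = 1) ∧
      On I x ∧ (u ≠ 0 ∨ v ≠ 0) ∧ y = sg x u v := by
  have hm : ∀ i j, y (il i) * y (ir j) = y (il j) * y (ir i) := fun i j => by
    simpa [sub_eq_zero] using h _ (minor i j)
  obtain ⟨c, hc⟩ : ∃ c, y c ≠ 0 := Function.ne_iff.1 hy
  rcases il_or_ir c with ⟨i, rfl⟩ | ⟨i, rfl⟩
  · refine ⟨fun j => (y (il i))⁻¹ * y (il j), y (il i), y (ir i), ⟨i, inv_mul_cancel₀ hc⟩,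
      (on_scale hI (inv_ne_zero hc)).2 fun f hf => ?_, .inl hc, sg_ext (fun j => ?_) fun j => ?_⟩
    · have := h _ (ren2 hI f hf).1
      rwa [aeval_rename] at this
    · rw [sg_il, mul_inv_cancel_left₀ hc]
    · rw [sg_ir]
      field_simp
      linear_combination hm i j
  · refine ⟨fun j => (y (ir i))⁻¹ * y (ir j), y (il i), y (ir i), ⟨i, inv_mul_cancel₀ hc⟩,
      (on_scale hI (inv_ne_zero hc)).2 fun f hf => ?_, .inr hc, sg_ext (fun j => ?_) fun j => ?_⟩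
    · have := h _ (ren2 hI f hf).2
      rwa [aeval_rename] at this
    · rw [sg_il]
      field_simp
      linear_combination hm j i
    · rw [sg_ir, mul_inv_cancel_left₀ hc]

end ZSP

open ZSP in
theorem z_SP :
    Z_SP := by
  intro k _ N I
  refine ⟨prime, fun J h => Ideal.comap_mono (Ideal.map_mono h), minor,
    fun T _ _ x u v => on_sg x u v, fun hI => ⟨hom_SI, ren2 hI, fun Ω _ _ => pts hI,
      fun y hy => ?_⟩, fun x x' u v huv h => NP.eq_of_minors fun i j => ?_⟩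
  · obtain ⟨x, u, v, ⟨i, hi⟩, h1, h2, h3⟩ := pts hI y.1 y.ne_zero hy
    obtain ⟨x', c, hc, rfl⟩ := NP.exists_smul (x := x) fun h => by simp [h] at hi
    refine ⟨x', u * c, v * c, (on_scale hI hc).1 h1,
      h2.imp (mul_ne_zero · hc) (mul_ne_zero · hc), ?_⟩
    rw [h3]
    exact sg_ext (fun j => by simp [mul_assoc]) fun j => by simp [mul_assoc]
  · have h1 : (C (x'.1 i) * X j - C (x'.1 j) * X i : PP k N).IsHomogeneous 1 :=
      (isHomogeneous_C_mul_X _ _).sub (isHomogeneous_C_mul_X _ _)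
    obtain ⟨a, b⟩ := ren2 (wHom_vanw x'.1) _ ((mem_van_of_hom (x := x'.1) h1).2
      (by simp [mul_comm]))
    have a' := h _ a
    have b' := h _ b
    simp only [map_sub, map_mul, rename_C, rename_X, aeval_C, aeval_X, sg_il, sg_ir,
      Algebra.algebraMap_self, RingHom.id_apply] at a' b'
    rcases huv with hu | hv
    · exact mul_left_cancel₀ hu (by linear_combination -a')
    · exact mul_left_cancel₀ hv (by linear_combination -b')

end Pool.Agent.P.MP_12d50c_ag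

end

section

/-! Step TAL. -/

open MvPolynomial Function WithZero IsLocalRing
open Pool.Agent.P.MP_6f117a_ag (Place FF Model Reg)
open scoped IntermediateField Polynomial

namespace Pool.Agent.P.MP_12d50c_ag

theorem z_TAL (hVP0 : S_VP0) (hCL : S_CL) (hFINB : S_FINB) (hPT0 : S_PT0) (hSUB : Z_SUB)
    (hFACT : Z_FACT) (hPT : Z_PT) (hIND : Z_IND) (hSIS : Z_SIS) (hPU1 : Z_PU1) (hPS : Z_PS)
    (hTJ : Z_TJ) (hP0 : Z_P0) (hFIBC : Z_FIBC) (hTQ : Z_TQ) :
    Z_TAL := by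
  intro k _ _ p _ _ N d I hk hI
  classical
  refine (hFACT k N I).2 fun φ hφ S hS => ?_
  have vert : ∀ (ψ : Ideal (RR k N 0) → ℚ) (Q : PrimeSpectrum (RR k N 1)) (y : NP k N), On I y.1 →
      Q.asIdeal = cyl (van k y.1) 1 →
      φ Q.asIdeal = ∑ᶠ z ∈ Cv I 0, ψ z.asIdeal * bdA Q.asIdeal z := fun ψ Q y hy e => by
    have h1 : ∀ z, bdA Q.asIdeal z = 0 := fun z => by
      rw [e, bdA, Fin.sum_univ_two, ((hVP0 k N 1).1 0 _).1, ((hVP0 k N 1).1 0 _).1]
      simp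
    rw [e, hPT0 k N I φ y hI.hom hφ hy, ← e]
    simp [h1]
  rcases Nat.eq_zero_or_pos d with rfl | hd
  · refine ⟨0, fun Q hQ => ?_⟩
    rcases (hCL k N I).2.2 inferInstance Q (hS Q hQ).1 with ⟨q, hq, -⟩ | ⟨y, hy, e⟩
    · have h1 := ringKrullDim_le_of_surjective _ (Ideal.Quotient.factor_surjective hq.2.1)
      rw [hq.2.2, hI.dim] at h1
      exact absurd h1 (by decide)
    · exact vert _ Q y hy e
  have hK : Kills (SI I) (ph φ) := fun W hW hP => by
    have h1 := hPS k N 1 I φ hI.hom W hW hP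
    simp only [ph]
    rw [h1]
    by_cases h0 : dg W.asIdeal = 0
    · simp [h0]
    · obtain ⟨V, h2, h3, h4⟩ := (hPU1 k N 2 I hI.hom).1 W hW h0
      rw [← h3, hφ V h2 (h4 hP), mul_zero]
  let C : Set (PrimeSpectrum (PP k N)) :=
    {q | q ∈ Cu I ∧ ∃ Q ∈ S, q.asIdeal = Q.asIdeal.comap (inc 1)}
  have hC : C.Finite :=
    (S.finite_toSet.image fun Q : PrimeSpectrum (RR k N 1) =>
      (⟨Q.asIdeal.comap (inc 1), inferInstance⟩ : PrimeSpectrum (PP k N))).subset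
      fun q ⟨_, Q, h1, h2⟩ => ⟨Q, h1, PrimeSpectrum.ext h2.symm⟩
  let Z : Set (NP k N) := {y | On I y.1 ∧ ∃ Q ∈ S, ∃ j : Fin 2,
    Q.asIdeal.map (smap j.succAbove) ≤ cyl (van k y.1) 0}
  have hZ : Z.Finite := by
    have h1 : (⋃ Q ∈ S, ⋃ j : Fin 2,
        {z ∈ Cv I 0 | Q.asIdeal.map (smap j.succAbove) ≤ z.asIdeal}).Finite :=
      S.finite_toSet.biUnion fun Q hQ => Set.finite_iUnion
        (hFINB k N 0 I Q (hS Q hQ).1 (hS Q hQ).2).1
    refine Set.Finite.of_finite_image (f := fun y => cyl (van k y.1) 0)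
      ((h1.image PrimeSpectrum.asIdeal).subset ?_) fun y _ y' _ e => ?_
    · rintro _ ⟨y, ⟨hy, Q, hQ, j, h2⟩, rfl⟩
      obtain ⟨z, h3, h4, -⟩ := (hCL k N I).2.1 0 y hy hI.hom
      exact ⟨z, Set.mem_iUnion₂.2 ⟨Q, hQ, Set.mem_iUnion.2 ⟨j, h3, h4 ▸ h2⟩⟩, h4⟩
    · have h2 := congrArg (Ideal.comap (inc 0)) e
      simp only [(hPT k N).1] at h2
      exact (NP.eq_of_van_le h2.le)
  obtain ⟨J, h1, h2, h3, h4⟩ := hTJ k N I C Z hC hZ (fun _ h => h.1) (fun _ h => h.1) hI.hom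
  obtain ⟨χ, hχ⟩ := hIND k p _ (d + 1) (SI I) J (ph φ) hk (by omega) ((hSIS k N).1 d I hI) h2 h1 hK
  let ψ : Ideal (RR k N 0) → ℚ := fun q =>
    if h : ∃ z ∈ Cv (SI I) 0, prj z.asIdeal = q then χ h.choose else 0
  refine ⟨ψ, fun Q hQ => ?_⟩
  obtain ⟨h5, h6⟩ := hS Q hQ
  rcases (hCL k N I).2.2 inferInstance Q h5 with ⟨q, hq, e⟩ | ⟨y, hy, e⟩
  · obtain ⟨Q', h7, h8, h9⟩ := h4 q ⟨hq, Q, hQ, e⟩ Q h5 e.symm
    refine hTQ k N I J φ χ ψ hI.hom h2 hχ Q h5 h6 Q' h7 h8 h9 fun z hz ⟨j, hj⟩ => ?_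
    obtain ⟨-, y, hy, e1, h10⟩ := hP0 k N I hI.hom z hz
    have h11 : ∃ z' ∈ Cv (SI I) 0, prj z'.asIdeal = prj z.asIdeal := ⟨z, hz, rfl⟩
    simp only [ψ, dif_pos h11]
    exact hFIBC k N I φ χ y hI.hom hφ hy
      (((hSUB k _ J _).2 (h3 y ⟨hy, Q, hQ, j, e1 ▸ hj⟩)).2.2.2 _ _ hχ) _ (h10 z hz rfl) _
      (h10 _ h11.choose_spec.1 h11.choose_spec.2)
  · exact vert _ Q y hy e

end Pool.Agent.P.MP_12d50c_ag

end

section

/-! Step TJ. -/

open MvPolynomial Function WithZero IsLocalRing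
open Pool.Agent.P.MP_6f117a_ag (Place FF Model Reg)
open scoped IntermediateField Polynomial

namespace Pool.Agent.P.MP_12d50c_ag

theorem z_TJ (hUNI : Z_UNI) (hSUB : Z_SUB) (hSP : Z_SP) (hSIS : Z_SIS) (hLF : Z_LF) :
    Z_TJ := by
  classical
  intro k _ _ N I S Z hS hZ h1 h2 hI
  obtain ⟨L, hL, hL'⟩ := hLF k N I hS.toFinset fun p hp => h1 p (hS.mem_toFinset.1 hp)
  have hs : ∀ y : NP k N, IsSm (0 + 1) (SI (van k y.1)) := fun y =>
    (hSIS k N).1 0 _ ((hSIS k N).2 y)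
  let F : NP k N → PrimeSpectrum (PP k (N + 1 + N)) := fun y => ⟨SI (van k y.1), (hs y).prime⟩
  have hF : ∀ y y' : NP k N, ∀ z : NP k (N + 1 + N), On (F y).asIdeal z.1 →
      On (F y').asIdeal z.1 → F y = F y' := fun y y' z a b => by
    obtain ⟨x, u, v, -, h4, h5⟩ :=
      ((hSP k N (van k y.1)).2.2.2.2.1 (wHom_vanw _)).2.2.2 z a
    have e := (hSP k N I).2.2.2.2.2
    rw [← e x y u v h4 (h5 ▸ a), ← e x y' u v h4 (h5 ▸ b)]
  let C := hS.toFinset.image L ∪ hZ.toFinset.image F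
  have hC : ∀ p ∈ C, (∃ q ∈ hS.toFinset, L q = p) ∨ ∃ y ∈ Z, F y = p := fun p hp => by
    simpa only [C, Finset.mem_union, Finset.mem_image, hZ.mem_toFinset] using hp
  refine ⟨C.inf fun p => p.asIdeal, hUNI k _ C (fun p hp => ?_) fun y p hp q hq r hr a b c => ?_,
    Finset.le_inf fun p hp => ?_, fun y hy => ?_, fun p hp Q hQ e => ?_⟩
  · rcases hC p hp with ⟨q, hq, rfl⟩ | ⟨y, -, rfl⟩
    · exact ⟨⟨(hL q hq).1.1, bot_le, (hL q hq).1.2.2⟩, (hL q hq).2.1⟩
    · exact ⟨⟨(hs y).hom, bot_le, (hs y).dim⟩, fun z hz => (hs y).le k z.1 z.ne_zero hz⟩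
  · have hp := hC p hp
    have hq := hC q hq
    have hr := hC r hr
    rcases hp with ⟨p, hp', rfl⟩ | ⟨p, -, rfl⟩ <;> rcases hq with ⟨q, hq', rfl⟩ | ⟨q, -, rfl⟩ <;>
      rcases hr with ⟨r, hr', rfl⟩ | ⟨r, -, rfl⟩
    · exact .inl (congrArg L (hL' p hp' q hq' y a b))
    · exact .inl (congrArg L (hL' p hp' q hq' y a b))
    · exact .inr (.inr (congrArg L (hL' p hp' r hr' y a c)))
    · exact .inr (.inl (hF q r y b c))
    · exact .inr (.inl (congrArg L (hL' q hq' r hr' y b c)))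
    · exact .inr (.inr (hF p r y a c))
    · exact .inl (hF p q y a b)
    · exact .inl (hF p q y a b)
  · rcases hC p hp with ⟨q, hq, rfl⟩ | ⟨y, hy, rfl⟩
    · exact (hL q hq).1.2.1
    · exact (hSP k N I).2.1 _ (hI.on_iff.1 (h2 y hy))
  · exact Finset.inf_le (f := fun p : PrimeSpectrum _ => p.asIdeal) (b := F y)
      (Finset.mem_union_right _ (Finset.mem_image_of_mem F (hZ.mem_toFinset.2 hy)))
  · have hp' := hS.mem_toFinset.2 hp
    obtain ⟨Q', a, b⟩ := (hL p hp').2.2 Q hQ e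
    exact ⟨Q', ((hSUB k _ _ _).2 (Finset.inf_le (f := fun p : PrimeSpectrum _ => p.asIdeal)
      (Finset.mem_union_left _ (Finset.mem_image_of_mem L hp')))).1 1 a, b⟩

end Pool.Agent.P.MP_12d50c_ag

end

section

/-! Step TQ. -/

open MvPolynomial Function WithZero IsLocalRing
open Pool.Agent.P.MP_6f117a_ag (Place FF Model Reg)
open scoped IntermediateField Polynomial

namespace Pool.Agent.P.MP_12d50c_ag

theorem z_TQ (hVP0 : S_VP0) (hSUB : Z_SUB) (hPRP : Z_PRP) (hPF : Z_PF) (hPS : Z_PS)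
    (hP0 : Z_P0) :
    Z_TQ := by
  intro k _ _ N I J φ χ ψ hI hle hχ Q hQ hP Q' hQ' e hd h
  have h1 : ∀ j, X (.inr j) ∉ Q'.asIdeal := fun j h0 =>
    (hPRP k N I).1 0 Q hQ hP j (e ▸ ((hPF k N 1).2.1 _ j).2 h0)
  have h2 : Q' ∈ Cv (SI I) 1 := ((hSUB k _ _ J).2 hle).1 1 hQ'
  have h3 := hχ Q' hQ' ((hPRP k _ J).2 Q' hQ' h1)
  have h4 := hPS k N 0 I ψ hI Q' h2 ((hPRP k _ _).2 Q' h2 h1)
  rw [ph, hd, e, Nat.cast_one, one_mul] at h3
  rw [hd, e, Nat.cast_one, one_mul] at h4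
  rw [h3, ← h4]
  have h5 : ∀ z ∈ Cv (SI I) 0,
      dg z.asIdeal * ψ (prj z.asIdeal) * bdA Q'.asIdeal z = χ z * bdA Q'.asIdeal z := fun z hz => by
    by_cases h0 : bdA Q'.asIdeal z = 0
    · simp [h0]
    obtain ⟨j, hj⟩ := ((hSUB k _ ⊥ ⊥).1 0 _ z h0).1
    rw [(hP0 k N I hI z hz).1, Nat.cast_one, one_mul, h z hz ⟨j, ?_⟩]
    rw [Ideal.map_le_iff_le_comap, ← ((hPF k N 1).2.2 0 _ _).1, ← e]
    exact (hPF k N 1).1 _ _ (Ideal.map_le_iff_le_comap.1 hj)
  rw [finsum_mem_congr rfl h5]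
  exact finsum_mem_inter_support_eq' _ _ _ fun z hz =>
    ⟨((hSUB k _ ⊥ (SI I)).1 0 _ z fun h0 => hz (by simp [h0])).2 h2.1.le,
      fun h6 => ((hSUB k _ ⊥ (SI I)).2 bot_le).1 0 h6⟩

end Pool.Agent.P.MP_12d50c_ag

end

section

/-! Step WA. -/

open MvPolynomial Function WithZero IsLocalRing
open Pool.Agent.P.MP_6f117a_ag (Place FF Model Reg)
open scoped IntermediateField Polynomial

namespace Pool.Agent.P.MP_12d50c_ag

namespace ZWA

theorem le_of_lt_one {x : ℤᵐ⁰} (h : x < 1) : x ≤ exp (-1) := by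
  rw [← lt_mul_exp_iff_le exp_ne_zero, ← exp_add]
  simpa using h

theorem sq_lt {x : ℤᵐ⁰} (h : x < 1) : x ^ 2 < exp (-1) := by
  have h1 := le_of_lt_one h
  calc x ^ 2 ≤ exp (-1) ^ 2 := pow_le_pow_left₀ zero_le h1 2
    _ < exp (-1) := by rw [← exp_nsmul, exp_lt_exp]; norm_num

variable {k E : Type} [Field k] [Field E] [Algebra k E]

/-- an element that is a unit at one place and small at the others -/
theorem sep_all {t : E} (M : Model k t) (S : Finset (Place k E)) (hS : ∀ P ∈ S, P.v t ≤ 1)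
    (P : Place k E) (hP : P.v t ≤ 1) :
    ∃ e : E, P.v e = 1 ∧ ∀ P' ∈ S, P' ≠ P → P'.v e < 1 := by
  classical
  have h : ∀ P' : Place k E, ∃ y, Reg k t y ∧ P.v y = 1 ∧ (P' ∈ S → P' ≠ P → P'.v y < 1) := by
    intro P'
    by_cases h' : P' ∈ S ∧ P' ≠ P
    · obtain ⟨y, h1, h2, h3⟩ := M.sep P P' hP (hS P' h'.1) h'.2.symm
      exact ⟨y, h1, h2, fun _ _ => h3⟩
    · exact ⟨1, fun Q _ => by simp, by simp, fun a b => absurd ⟨a, b⟩ h'⟩
  choose y h1 h2 h3 using h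
  refine ⟨∏ Q ∈ S, y Q, by simp [map_prod, h2], fun P' hP' hne => ?_⟩
  rw [← Finset.mul_prod_erase S y hP', map_mul]
  refine lt_of_le_of_lt (mul_le_of_le_one_right' ?_) (h3 P' hP' hne)
  rw [map_prod]
  exact Finset.prod_le_one' fun Q _ => h1 Q P' (hS P' hP')

/-- approximate idempotents -/
theorem idem {t : E} (M : Model k t) (S : Finset (Place k E)) (hS : ∀ P ∈ S, P.v t ≤ 1)
    (P : Place k E) (hP : P.v t ≤ 1) :
    ∃ e : E, P.v (e - 1) < exp (-1) ∧ ∀ P' ∈ S, P' ≠ P → P'.v e < exp (-1) := by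
  obtain ⟨e, h1, h2⟩ := sep_all M S hS P hP
  obtain ⟨r, hr⟩ := M.res P hP e h1.le
  have hr0 : r ≠ 0 := by
    rintro rfl
    rw [map_zero, sub_zero, h1] at hr
    exact lt_irrefl _ hr
  have hr1 : algebraMap k E r ≠ 0 := (map_ne_zero _).2 hr0
  set f := e / algebraMap k E r with hf
  have hf1 : P.v (f - 1) < 1 := by
    have : f - 1 = (e - algebraMap k E r) / algebraMap k E r := by rw [hf]; field_simp
    rw [this, map_div₀, P.v_const hr0, div_one]; exact hr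
  have hf0 : ∀ Q : Place k E, Q.v f = Q.v e := fun Q => by
    rw [hf, map_div₀, Q.v_const hr0, div_one]
  have two : ∀ (Q : Place k E) (x : E), Q.v x ≤ 1 → Q.v (1 + 1 + 1 - (x + x)) ≤ 1 ∧
      Q.v (1 + (x + x)) ≤ 1 := fun Q x hx =>
    ⟨Q.v.map_sub_le (Q.v.map_add_le (Q.v.map_add_le (by simp) (by simp)) (by simp))
      (Q.v.map_add_le hx hx), Q.v.map_add_le (by simp) (Q.v.map_add_le hx hx)⟩
  refine ⟨f ^ 2 * (1 + 1 + 1 - (f + f)), ?_, fun P' hP' hne => ?_⟩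
  · have : f ^ 2 * (1 + 1 + 1 - (f + f)) - 1 = -((f - 1) ^ 2 * (1 + (f + f))) := by ring
    rw [this, Valuation.map_neg, map_mul, map_pow]
    exact lt_of_le_of_lt (mul_le_of_le_one_right' (two P f (by rw [hf0, h1])).2) (sq_lt hf1)
  · have h3 : P'.v f < 1 := by rw [hf0]; exact h2 P' hP' hne
    rw [map_mul, map_pow]
    exact lt_of_le_of_lt (mul_le_of_le_one_right' (two P' f h3.le).1) (sq_lt h3)

end ZWA

theorem z_WA (hPLACE : S_PLACE) :
    Z_WA := by
  classical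
  intro k E _ _ _ _ _ S c s hS hs
  obtain ⟨hM, -, -, -, -, -, hres, -⟩ := hPLACE k E
  lift S to Finset (Place k E) using hS
  have h1 : ∀ P : Place k E, ∃ r : k, P.v s ≤ 1 → P.v (s - algebraMap k E r) < 1 := fun P => by
    by_cases h : P.v s ≤ 1
    · obtain ⟨r, hr⟩ := hres P s h
      exact ⟨r, fun _ => hr⟩
    · exact ⟨0, fun h' => absurd h' h⟩
  choose r hr using h1
  obtain ⟨a, ha⟩ := Infinite.exists_notMem_finset (S.image r)
  have M := hM _ (MP_6f117a_ag.trans_inv (MP_6f117a_ag.trans_sub hs a))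
  have ht : ∀ P ∈ S, P.v (s - algebraMap k E a)⁻¹ ≤ 1 := by
    intro P hP
    rw [map_inv₀]
    refine inv_le_one_of_one_le₀ ?_
    by_cases h : P.v s ≤ 1
    · have hne : r P - a ≠ 0 := sub_ne_zero.2 fun e => ha (Finset.mem_image.2 ⟨P, hP, e⟩)
      have e : s - algebraMap k E a = algebraMap k E (r P - a) + (s - algebraMap k E (r P)) := by
        rw [map_sub]; ring
      rw [e, Valuation.map_add_eq_of_lt_left _ (by rw [P.v_const hne]; exact hr P h),
        P.v_const hne]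
    · rw [Valuation.map_sub_eq_of_lt_left _ ((P.triv a).trans_lt (not_le.1 h))]
      exact (not_le.1 h).le
  have h2 : ∀ P ∈ S, ∃ y : E, P.v y = exp (-1) ∧ ∀ Q ∈ S, Q.v y ≤ 1 := fun P hP => by
    obtain ⟨x, hx⟩ := P.surj (exp (-1))
    obtain ⟨y, z, hy, -, hz, e⟩ := M.frac P (ht P hP) x (by rw [hx, ← exp_zero, exp_le_exp]; norm_num)
    exact ⟨y, by rw [← e, map_mul, hz, mul_one, hx], fun Q hQ => hy Q (ht Q hQ)⟩
  choose! y hy1 hy2 using h2
  choose! e he1 he2 using fun P hP => ZWA.idem M S ht P (ht P hP)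
  refine ⟨∑ Q ∈ S, e Q * (algebraMap k E (c Q) + y Q), fun P hP => ?_⟩
  have hP' : P ∈ S := hP
  have hb : ∀ Q ∈ S, P.v (algebraMap k E (c Q) + y Q) ≤ 1 := fun Q hQ =>
    P.v.map_add_le (P.triv _) (hy2 Q hQ P hP')
  have e1 : ∑ Q ∈ S, e Q * (algebraMap k E (c Q) + y Q) - algebraMap k E (c P) =
      y P + ((e P - 1) * (algebraMap k E (c P) + y P) +
        ∑ Q ∈ S.erase P, e Q * (algebraMap k E (c Q) + y Q)) := by
    rw [← Finset.add_sum_erase S _ hP']; ring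
  rw [e1, Valuation.map_add_eq_of_lt_left, hy1 P hP']
  rw [hy1 P hP']
  refine P.v.map_add_lt ?_ (P.v.map_sum_lt exp_ne_zero fun Q hQ => ?_)
  · rw [map_mul]
    exact lt_of_le_of_lt (mul_le_of_le_one_right' (hb P hP')) (he1 P hP')
  · obtain ⟨h3, h4⟩ := Finset.mem_erase.1 hQ
    rw [map_mul]
    exact lt_of_le_of_lt (mul_le_of_le_one_right' (hb Q h4)) (he2 Q h4 P hP' h3.symm)

end Pool.Agent.P.MP_12d50c_ag

end
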