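import Pool.Agent.P.MP_12d50c_ag.Z.IfaceC
import Pool.Agent.P.MP_12d50c_ag.TBRM
import Pool.Agent.P.MP_12d50c_ag.Z.IfaceA
import Pool.Agent.P.MP_12d50c_ag.TINTD
import Pool.Agent.P.MP_12d50c_ag.TTOP
import Pool.Agent.P.MP_12d50c_ag.TSURF

/-!
Proofs of the steps BRD, OPB, OPM, OPN, RK, SMX, TOPU, TP1, TP2.
-/

section

/-! Step BRD. -/

open CategoryTheory AlgebraicGeometry IsLocalRing MvPolynomial Limits
open Pool.Agent.P.MP_638e8a_ag.Cyc (St Rf ev stm primeOf)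
open Pool.Agent.P.MP_90138e_ag (projSpace IsProjective)
open scoped TensorProduct

namespace Pool.Agent.P.MP_12d50c_ag

open Pool.Agent.P.MP_638e8a_ag.Cyc (le_gen stm_mem_max) in
theorem z_BRD (hVP0 : S_VP0) (hVP : S_VP) (hPTS1 : S_PTS1) (hPTS3 : S_PTS3) (hINTD : S_INTD) :
    Z_BRD := by
  intro F _ d Y _ κ N I c hc hp hh hr hd
  have hint : ∀ n, IsIntegral (XD Y n) := hINTD Y
  have adm : ∀ n y, Adm I ((c n).pt y) := fun n y => by
    obtain ⟨h1, h2, ⟨i | j, h3, h4⟩, -⟩ := (hPTS1 F _ _ _ _ _ (c n)).1 y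
    · exact ⟨inferInstance, h1, h2, i, h4⟩
    · exact absurd h3 zero_ne_one
  have surj : ∀ n q, Adm I q → ∃ y, (c n).pt y = q := fun n q hq =>
    (hPTS1 F _ _ _ _ _ (c n)).2.2 q hq.prime hq.hom hq.le
      (hq.rel.elim fun i hi => ⟨Sum.inl i, rfl, hi⟩)
  have gen : ∀ n, (c n).pt (genericPoint (XD Y n)) = cyl I n := fun n => by
    obtain ⟨i, hi⟩ := hr
    obtain ⟨y, hy⟩ := surj n (cyl I n) ⟨((hVP F N n).1 I hp).1, (hVP0 F N n).2.2.2.1 I hh, le_rfl, i,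
      fun h => hi (by
        have h1 := Ideal.mem_map_of_mem (vtx (0 : Fin (n + 1))) h
        rw [(((hVP0 F N n).2.2.2.2 0).2.2 I).1] at h1
        simpa [vtx] using h1)⟩
    exact le_antisymm ((((hPTS1 F _ _ _ _ _ (c n)).2.1 _ _).1 (le_gen y)).trans hy.le) (adm n _).le
  refine ⟨adm, fun n y h => (adm n y).prime.ne_top (top_le_iff.1 (le_trans
    (by simp [cyl, Ideal.map_top]) h)), fun n => (hPTS1 F _ _ _ _ _ (c n)).2.1,
    fun n q hq _ => surj n q hq, fun m n g z => ?_, fun n y => ?_,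
    fun m n g w z => ?_⟩
  · obtain ⟨i, hi⟩ := BRM.chart (c := c) n (face Y g z)
    have hz := BRM.unit_face hc g z hi
    have key : ∀ f d, IsWeightedHomogeneous (wt N n) f d →
        (f ∈ (c n).pt (face Y g z) ↔ f ∈ ((c m).pt z).comap (smap g)) := fun f d hf => by
      rw [Ideal.mem_comap, BRM.mem_pt _ _ hi hf,
        BRM.mem_pt _ _ hz (((hVP0 F N n).1 m g).2.1 f d hf), ← stm_mem_max]
      exact (DFunLike.congr_fun (BRM.comm hc g z hi hz) f) ▸ Iff.rfl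
    exact le_antisymm ((adm n _).hom.le_of_hom fun f d hf => (key f d hf).1)
      ((((hVP0 F N n).1 m g).2.2.2.1 I _ (adm m z)).hom.le_of_hom fun f d hf => (key f d hf).2)
  · obtain ⟨i, hi⟩ := BRM.chart (c := c) n y
    have h1 := (hPTS3 F _ _ _ _ _ (c n) y _ hi rfl).2.2.2.2
    rw [gen, ((hVP F N n).1 I hp).2, hd, ringKrullDim_stalk_eq_coheight] at h1
    rw [h1]
    norm_cast
  · obtain ⟨i, hi⟩ := BRM.chart (c := c) n (face Y g z)
    have hz := BRM.unit_face hc g z hi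
    have h1 := (hPTS3 F _ _ _ _ _ (c m) z _ hz rfl).2.2.2.1 _
      (((hVP0 F N n).1 m g).2.2.1 _ (adm n w).hom)
    have h2 : cyl I m ≤ ((c n).pt w).map (smap g) :=
      ((hVP0 F N n).1 m g).1 I ▸ Ideal.map_mono (adm n w).le
    rw [gen, sup_eq_right.2 h2] at h1
    have h3 : (idealOf (face Y g z) w).map (stm (face Y g) z) =
        (((c n).pt w).map (smap g)).map ((c m).th z hz) := by
      rw [idealOf_eq, (hPTS3 F _ _ _ _ _ (c n) _ _ hi rfl).2.2.1 w, Ideal.map_map,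
        BRM.comm hc g z hi hz, ← Ideal.map_map]
      rfl
    unfold mult
    rw [← h1, ← h3]

end Pool.Agent.P.MP_12d50c_ag

end

section

/-! Step OPB. -/

open CategoryTheory AlgebraicGeometry IsLocalRing MvPolynomial Limits
open Pool.Agent.P.MP_638e8a_ag.Cyc (St Rf ev stm primeOf)
open Pool.Agent.P.MP_90138e_ag (projSpace IsProjective)
open scoped TensorProduct

namespace Pool.Agent.P.MP_12d50c_ag

namespace ZOPB

variable {F : Type} [Field F] {N : ℕ}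

theorem mono {p p' : Ideal (PP F N)} (h : p ≤ p') (n : ℕ) : cyl p n ≤ cyl p' n :=
  sup_le_sup_right (Ideal.map_mono h) _

theorem cyl_le {I p : Ideal (PP F N)} {n : ℕ} {P : Ideal (RR F N n)} (h : Adm I P) :
    cyl p n ≤ P ↔ p ≤ P.comap (inc n) :=
  ⟨fun h' => Ideal.map_le_iff_le_comap.1 (le_sup_left.trans h'),
    fun h' => sup_le (Ideal.map_le_iff_le_comap.2 h') (le_sup_right.trans h.le)⟩

theorem zero (hPT : Z_PT) {d : ℕ} {Y : Scheme.{0}} {I : Ideal (PP F N)}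
    {pt : ∀ n, XD Y n → PrimeSpectrum (RR F N n)} (hB : BrU d Y I ⊤ pt)
    (hN : TopologicalSpace.NoetherianSpace (XD Y 0)) {Z : Set (XD Y 0)} (hZ : IsClosed Z)
    (w : XD Y 0) :
    cyl (⨅ v : Z, (pt 0 v.1).asIdeal.comap (inc 0)) 0 ≤ (pt 0 w).asIdeal ↔ w ∈ Z := by
  rw [cyl_le (hB.adm 0 w)]
  refine ⟨fun h => ?_, fun h => iInf_le (fun v : Z => (pt 0 v.1).asIdeal.comap (inc 0)) ⟨w, h⟩⟩
  obtain ⟨S, hS, h1, h2, h3⟩ :=
    TopologicalSpace.NoetherianSpace.exists_finite_set_isClosed_irreducible hZ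
  have h4 : ∀ t : S, ∃ η : XD Y 0, IsGenericPoint η t.1 := fun t =>
    ⟨_, (h2 t.1 t.2).isGenericPoint_genericPoint (h1 t.1 t.2)⟩
  choose η hη using h4
  have : Fintype S := hS.fintype
  have h5 : (Finset.univ : Finset S).inf (fun t => (pt 0 (η t)).asIdeal.comap (inc 0)) ≤
      (pt 0 w).asIdeal.comap (inc 0) := by
    refine le_trans (le_iInf fun v => ?_) h
    obtain ⟨t, ht, hv⟩ := Set.mem_sUnion.1 (h3 ▸ v.2 : v.1 ∈ ⋃₀ S)
    refine (Finset.inf_le (Finset.mem_univ (⟨t, ht⟩ : S))).trans (Ideal.comap_mono ?_)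
    exact (hB.le 0 _ _).1 ((hη ⟨t, ht⟩).specializes hv)
  obtain ⟨t, -, ht⟩ := (Ideal.IsPrime.inf_le' inferInstance).1 h5
  have h6 : (pt 0 (η t)).asIdeal ≤ (pt 0 w).asIdeal := by
    rw [← (hPT F N).2.1 _ ((mono bot_le 0).trans (hB.adm 0 (η t)).le)]
    exact (cyl_le (hB.adm 0 w)).2 ht
  rw [h3]
  exact ⟨t.1, t.2, (hη t).specializes_iff_mem.1 ((hB.le 0 _ _).2 h6)⟩

end ZOPB

theorem z_OPB (hVP0 : S_VP0) (hPT : Z_PT) (hOPN : Z_OPN) (hOPM : Z_OPM) :
    Z_OPB := by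
  intro F _ d Y N I pt U hN hB
  obtain ⟨h1, h2, h3⟩ := hOPN Y U
  have hO : ∀ n, IsOpenImmersion (opn U n) := fun n => (h1 n).1
  have hZ : IsClosed (Set.range (opn U 0))ᶜ :=
    (opn U 0).isOpenEmbedding.isOpen_range.isClosed_compl
  have h0 := ZOPB.zero hPT hB (h3 hN) hZ
  generalize hJ : (⨅ v : ↥(Set.range (opn U 0))ᶜ, (pt 0 v.1).asIdeal.comap (inc 0)) = J at h0
  have key : ∀ n (w : XD Y n), cyl J n ≤ (pt n w).asIdeal ↔ w ∉ Set.range (opn U n) := by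
    intro n w
    rw [(h1 n).2 w, ← Set.mem_compl_iff, ← h0, hB.face,
      ← (((hVP0 F N 0).1 n fun _ => 0).1 J), Ideal.map_le_iff_le_comap]
  refine ⟨J, ?_, ?_, ?_⟩
  · rw [← hJ]
    intro f hf e
    exact Ideal.mem_iInf.2 fun v =>
      (hVP0 F N 0).2.2.1 _ (hB.adm 0 v.1).hom f (Ideal.mem_iInf.1 hf v) e
  · rw [← hJ]
    exact le_iInf fun v => (ZOPB.cyl_le (hB.adm 0 v.1)).1 (hB.adm 0 v.1).le
  · refine ⟨fun n y => hB.adm n _, fun n y h => (key n _).1 h ⟨y, rfl⟩, fun n y y' => ?_,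
      fun n q hq h => ?_, fun m n g z => ?_, fun n y => ?_, fun m n g w z => ?_⟩
    · exact ((hOPM.1 _ _ (opn U n)).1 y y').trans (hB.le n _ _)
    · obtain ⟨y, rfl⟩ := hB.surj n q hq fun h' => h ((ZOPB.mono le_top n).trans h')
      obtain ⟨y', rfl⟩ : y ∈ Set.range (opn U n) := by
        by_contra h'
        exact h ((key n y).2 h')
      exact ⟨y', rfl⟩
    · rw [← hB.face, ← Scheme.Hom.comp_apply, h2, Scheme.Hom.comp_apply]
    · rw [← (hOPM.1 _ _ (opn U n)).2 y]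
      exact hB.dim n _
    · rw [hOPM.2 _ _ _ _ (opn U m) (opn U n) (face U g) (face Y g) (h2 m n g)]
      exact hB.mult m n g _ _

end Pool.Agent.P.MP_12d50c_ag

end

section

/-! Step OPM. -/

open CategoryTheory AlgebraicGeometry IsLocalRing MvPolynomial Limits
open Pool.Agent.P.MP_638e8a_ag.Cyc (St Rf ev stm primeOf)
open Pool.Agent.P.MP_90138e_ag (projSpace IsProjective)
open scoped TensorProduct

namespace Pool.Agent.P.MP_12d50c_ag

namespace ZOPM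

open Pool.Agent.P.MP_638e8a_ag.Cyc

theorem le_iff {Y Y' : Scheme.{0}} (f : Y ⟶ Y') [IsOpenImmersion f] (y y' : Y) :
    y ≤ y' ↔ f y ≤ f y' :=
  f.isOpenEmbedding.isInducing.specializes_iff.symm

theorem bij {Y Y' : Scheme.{0}} (f : Y ⟶ Y') [IsOpenImmersion f] (y : Y) :
    Function.Bijective (stm f y) :=
  ConcreteCategory.bijective_of_isIso (f.stalkMap y)

theorem len_map {R S : Type} [CommRing R] [CommRing S] (e : R →+* S) (he : Function.Bijective e)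
    (J : Ideal R) : Module.length S (S ⧸ J.map e) = Module.length R (R ⧸ J) := by
  rw [Module.length_quotient, Module.length_quotient,
    ← Ideal.coheight_comap_of_surjective e he.2 (J.map e), Ideal.comap_map_of_bijective e he]

theorem map_prime {Z Z' : Scheme.{0}} (g : Z ⟶ Z') [IsOpenImmersion g] (x w : Z) :
    (primeOf (g x) (g w)).map (stm g x) = primeOf x w := by
  by_cases h : x ≤ w
  · rw [primeOf_map g h, Ideal.map_comap_of_surjective _ (bij g x).2]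
  · rw [primeOf_eq_top h, primeOf_eq_top fun h' => h ((le_iff g x w).2 h'), Ideal.map_top]

theorem map_comp {Y Z Z' : Scheme.{0}} (a : Y ⟶ Z) (g : Z ⟶ Z') (z : Y)
    (J : Ideal (St (g (a z)))) :
    Ideal.map (stm (a ≫ g) z) J = (J.map (stm g (a z))).map (stm a z) := by
  rw [Ideal.map_map]
  congr 1
  exact RingHom.ext (stm_comp a g z)

theorem right {Y Z Z' : Scheme.{0}} (a : Y ⟶ Z) (g : Z ⟶ Z') [IsOpenImmersion g] (w : Z) (z : Y) :
    mult (a ≫ g) (g w) z = mult a w z := by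
  have h : Ideal.map (stm (a ≫ g) z) (primeOf (g (a z)) (g w)) =
      (primeOf (a z) w).map (stm a z) := by
    rw [map_comp, map_prime]
  exact congrArg (fun J : Ideal (St z) => (Module.length (St z) (St z ⧸ J)).toNat) h

theorem left {Y Y' Z' : Scheme.{0}} (f : Y ⟶ Y') [IsOpenImmersion f] (a : Y' ⟶ Z') (v : Z')
    (z : Y) : mult (f ≫ a) v z = mult a v (f z) := by
  have h := map_comp f a z (primeOf (a (f z)) v)
  refine (congrArg (fun J : Ideal (St z) => (Module.length (St z) (St z ⧸ J)).toNat) h).trans ?_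
  exact congrArg ENat.toNat (len_map _ (bij f z) _)

end ZOPM

theorem z_OPM :
    Z_OPM := by
  refine ⟨fun Y Y' f _ => ⟨ZOPM.le_iff f, fun y => coheight_eq_of_isOpenImmersion f⟩, ?_⟩
  intro Y Y' Z Z' f g _ _ a a' h w z
  rw [← ZOPM.right a g, h, ZOPM.left]

end Pool.Agent.P.MP_12d50c_ag

end

section

/-! Step OPN. -/

open CategoryTheory AlgebraicGeometry IsLocalRing MvPolynomial Limits
open Pool.Agent.P.MP_638e8a_ag.Cyc (St Rf ev stm primeOf)
open Pool.Agent.P.MP_90138e_ag (projSpace IsProjective)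
open scoped TensorProduct

namespace Pool.Agent.P.MP_12d50c_ag

namespace ZOPN

/-- The projection to the first factor. -/
noncomputable def xfst (Y : Scheme.{0}) (n : ℕ) : XD Y n ⟶ Y := prod.fst

theorem pb {Y : Scheme.{0}} (U : Y.Opens) (n : ℕ) :
    IsPullback (xfst U n) (opn U n) U.ι (xfst Y n) :=
  IsPullback.of_prod_fst_with_id U.ι _

theorem mem_iff {Y : Scheme.{0}} (U : Y.Opens) (n : ℕ) (w : XD Y n) :
    w ∈ Set.range (opn U n) ↔ xfst Y n w ∈ Set.range U.ι := by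
  constructor
  · rintro ⟨x, rfl⟩
    exact ⟨xfst U n x, by rw [← Scheme.Hom.comp_apply, (pb U n).w, Scheme.Hom.comp_apply]⟩
  · rintro ⟨x, hx⟩
    obtain ⟨p, -, h⟩ := Scheme.exists_preimage_of_isPullback (pb U n) x w hx
    exact ⟨p, h⟩

theorem face_pr (Y : Scheme.{0}) {m n : ℕ} (g : Fin (m + 1) → Fin (n + 1)) :
    face Y g ≫ xfst Y n = xfst Y m :=
  (prod.map_fst _ _).trans (Category.comp_id _)

/-- The simplex of dimension zero is a point. -/
noncomputable def term : IsTerminal (Spec (CommRingCat.of (SimplexRing 0))) :=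
  specULiftZIsTerminal.{0}.ofIso (Scheme.Spec.mapIso
    ((INTD.eqv 0).trans (isEmptyRingEquiv (ULift.{0} ℤ) (Fin 0))).toCommRingCatIso.op)

theorem iso_pr (Y : Scheme.{0}) : IsIso (xfst Y 0) :=
  (BinaryFan.isLimit_iff_isIso_fst term (BinaryFan.mk prod.fst prod.snd)).1 ⟨prodIsProd _ _⟩

end ZOPN

open ZOPN in
theorem z_OPN :
    Z_OPN := by
  intro Y U
  refine ⟨fun n => ⟨?_, fun w => ?_⟩, fun m n g => ?_, fun h => ?_⟩
  · exact MorphismProperty.of_isPullback (P := @IsOpenImmersion) (pb U n) inferInstance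
  · rw [mem_iff, mem_iff, ← Scheme.Hom.comp_apply, face_pr]
  · exact (prod.map_map _ _ _ _).trans
      ((by rw [Category.id_comp, Category.comp_id, Category.id_comp, Category.comp_id] :
        prod.map _ _ = prod.map _ _).trans (prod.map_map _ _ _ _).symm)
  · have := iso_pr Y
    exact (xfst Y 0).isOpenEmbedding.isInducing.noetherianSpace

end Pool.Agent.P.MP_12d50c_ag

end

section

/-! Step RK. -/

open CategoryTheory AlgebraicGeometry IsLocalRing MvPolynomial Limits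
open Pool.Agent.P.MP_638e8a_ag.Cyc (St Rf ev stm primeOf)
open Pool.Agent.P.MP_90138e_ag (projSpace IsProjective)
open scoped TensorProduct

namespace Pool.Agent.P.MP_12d50c_ag

namespace ZRK

theorem ext_fun {A : Type} [AddCommGroup A] (C B : AddSubgroup A)
    (f : (C ⧸ B.addSubgroupOf C) →+ ℚ) :
    ∃ ψ : A →+ ℚ, (∀ b ∈ B, ψ b = 0) ∧ ∀ c : C, ψ c = f (c : C ⧸ B.addSubgroupOf C) := by
  let j : (C ⧸ B.addSubgroupOf C) →+ A ⧸ B :=
    QuotientAddGroup.map (B.addSubgroupOf C) B C.subtype (fun _ h => h)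
  have hj : ∀ c : C, j (c : C ⧸ B.addSubgroupOf C) = ((c : A) : A ⧸ B) := fun c => rfl
  have hi : Function.Injective j := by
    rw [injective_iff_map_eq_zero]
    intro x e
    obtain ⟨c, rfl⟩ := QuotientAddGroup.mk_surjective x
    rw [hj] at e
    exact (QuotientAddGroup.eq_zero_iff c).2 ((QuotientAddGroup.eq_zero_iff (c : A)).1 e)
  obtain ⟨g, hg⟩ := (Module.Baer.of_divisible ℚ).extension_property_addMonoidHom j hi f
  refine ⟨g.comp (QuotientAddGroup.mk' B), fun b hb => ?_, fun c => ?_⟩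
  · rw [AddMonoidHom.comp_apply, QuotientAddGroup.mk'_apply,
      (QuotientAddGroup.eq_zero_iff b).2 hb, map_zero]
  · rw [← hg]
    rfl

theorem dual_zero {Q : Type} [AddCommGroup Q] (l : Module.Dual ℚ (ℚ ⊗[ℤ] Q))
    (h : ∀ x : Q, l (1 ⊗ₜ[ℤ] x) = 0) : l = 0 := by
  refine LinearMap.ext fun x => ?_
  induction x using TensorProduct.induction_on with
  | zero => rw [map_zero, map_zero]
  | add x y hx hy => rw [map_add, map_add, hx, hy]
  | tmul q x =>
    have h1 : q ⊗ₜ[ℤ] x = q • ((1 : ℚ) ⊗ₜ[ℤ] x) := by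
      rw [TensorProduct.smul_tmul', smul_eq_mul, mul_one]
    rw [h1, map_smul, h, smul_zero, LinearMap.zero_apply]

theorem rank_le_dual (V : Type) [AddCommGroup V] [Module ℚ V] :
    Module.rank ℚ V ≤ Module.rank ℚ (Module.Dual ℚ V) := by
  classical
  exact LinearMap.rank_le_of_injective _ (Module.Basis.ofVectorSpace ℚ V).toDual_injective

end ZRK

theorem z_RK :
    Z_RK := by
  intro A _ C B T _ S h1 h2
  refine (ZRK.rank_le_dual _).trans (rank_le fun s hs => ?_)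
  have key : ∀ l : Module.Dual ℚ (ℚ ⊗[ℤ] (C ⧸ B.addSubgroupOf C)), ∃ (ψ : A →+ ℚ) (χ : T → ℚ),
      (ψ, χ) ∈ S ∧ ∀ c : C, ψ c = l (1 ⊗ₜ[ℤ] (c : C ⧸ B.addSubgroupOf C)) := by
    intro l
    obtain ⟨ψ, hB, hC⟩ := ZRK.ext_fun C B (l.toAddMonoidHom.comp
      (TensorProduct.mk ℤ ℚ (C ⧸ B.addSubgroupOf C) 1).toAddMonoidHom)
    obtain ⟨χ, hχ⟩ := h1 ψ hB
    exact ⟨ψ, χ, hχ, hC⟩
  choose ψ χ hS hC using key
  have hli : LinearIndependent ℚ fun i : s => χ i.1 := by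
    rw [Fintype.linearIndependent_iff] at hs ⊢
    intro a ha
    refine hs a (ZRK.dual_zero _ fun x => ?_)
    obtain ⟨c, rfl⟩ := QuotientAddGroup.mk_surjective x
    have h3 : (∑ i : s, a i • (ψ i.1, χ i.1)) ∈ S :=
      S.sum_mem fun i _ => S.smul_mem _ (hS i.1)
    have h4 : (∑ i : s, a i • (ψ i.1, χ i.1)) = (∑ i : s, a i • ψ i.1, 0) := by
      rw [← ha]
      exact Prod.ext (by simp [Prod.fst_sum]) (by simp [Prod.snd_sum])
    rw [h4] at h3
    have h5 := h2 _ h3 c c.2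
    rw [AddMonoidHom.finsetSum_apply] at h5
    rw [LinearMap.sum_apply, ← h5]
    refine Finset.sum_congr rfl fun i _ => ?_
    rw [LinearMap.smul_apply, AddMonoidHom.smul_apply, hC]
  have h6 := hli.fintype_card_le_finrank
  rwa [Module.finrank_fintype_fun_eq_card, Fintype.card_coe] at h6

end Pool.Agent.P.MP_12d50c_ag

end

section

/-! Step SMX. -/

open CategoryTheory AlgebraicGeometry IsLocalRing MvPolynomial Limits
open Pool.Agent.P.MP_638e8a_ag.Cyc (St Rf ev stm primeOf)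
open Pool.Agent.P.MP_90138e_ag (projSpace IsProjective)
open scoped TensorProduct

namespace Pool.Agent.P.MP_12d50c_ag

namespace ZSMX

theorem tan3 (h3 : S_PTS3) (s1 : S_SMO1) (s2 : S_SMO2) {F : Type} [Field F] {Y : Scheme.{0}}
    [IsIntegral Y] (κ : Y ⟶ Spec (.of F)) {d : ℕ} [SmoothOfRelativeDimension d κ] {N : ℕ}
    {I : Ideal (PP F N)} (c : CS κ 1 I) (hI : c.pt (genericPoint Y) = I) {Ω : Type} [Field Ω]
    [Algebra F Ω] {y : Fin (N + 1) → Ω} (hy : y ≠ 0) (hon : On I y) :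
    Module.finrank Ω (Tan I y) = d + 1 := by
  obtain ⟨i, hi0⟩ := Function.ne_iff.1 hy
  obtain ⟨x, ψ, e, hl, hψ, hs⟩ := c.ex' (algebraMap F Ω) y ⟨i, rfl, Ne.isUnit hi0⟩ hon
  simp only [Pi.one_apply, pow_one] at hs
  have hi : IsUnit (c.s x i) := by
    refine isUnit_of_map_unit ψ _ ?_
    rw [hs]
    exact e.isUnit.mul (Ne.isUnit hi0)
  let := algS κ x
  let θ : PP F N →ₐ[F] St x := { c.th x hi with commutes' := fun r => eval₂Hom_C _ _ r }
  let ψ' : St x →ₐ[F] Ω := { ψ with commutes' := fun r => RingHom.congr_fun hψ r }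
  have hθ : ∀ j, θ (X j) = c.s x j * ↑(hi.unit⁻¹) := fun j =>
    (eval₂Hom_X' _ _ j).trans (by rw [Pi.one_apply, pow_one])
  have h1 : θ (X i) = 1 := by rw [hθ, hi.mul_val_inv]
  obtain ⟨p1, p2, -⟩ := h3 F Y κ _ 1 I c x i hi rfl
  obtain ⟨q1, q2, q3⟩ := s1 F Y κ d x
  have h := s2 F N d I (St x) Ω θ ψ' i c.hom h1 (fun f e hf => hI ▸ p1 f e hf) p2 q1 q2 q3
  have e1 : (fun j => ψ' (θ (X j))) = fun j => (y i)⁻¹ * y j := funext fun j => by
    have h2 := congrArg ψ' h1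
    rw [hθ, map_mul, map_one] at h2
    rw [hθ, map_mul]
    change ψ _ * _ = _ at h2 ⊢
    rw [hs] at h2 ⊢
    rw [eq_inv_mul_iff_mul_eq₀ hi0]
    linear_combination y j * h2
  rwa [e1, Tan_scale c.hom hon (inv_ne_zero hi0)] at h

end ZSMX

open Pool.Agent.P.MP_90138e_ag (SmProj) in
theorem z_SMX (hDM : S_DM) (hRD1 : S_RD1) (hPTS1 : S_PTS1) (hPTS2 : S_PTS2) (hPTS3 : S_PTS3)
    (hSMO1 : S_SMO1) (hSMO2 : S_SMO2) (hGI1 : S_GI1) (hGI2 : S_GI2) :
    Z_SMX := by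
  intro F k _ _ _ _ d X _ _ _ N I c hX hI
  let := algR X.hom (genericPoint X.left)
  have hp : I.IsPrime := hI ▸ inferInstance
  obtain ⟨i, -, hi⟩ := ((hPTS1 F _ X.hom _ 1 I c).1 (genericPoint X.left)).2.2.1
  have hd : ringKrullDim (PP F N ⧸ I) = (d + 1 : ℕ) := by
    obtain ⟨n, a, b⟩ := hDM F _ 1 _ (c.co (genericPoint X.left)) i (SURF.gen hPTS2 X.hom c _) rfl
      fun h => hi ((mem_van_of_hom (isHomogeneous_X F i)).2 (by rwa [aeval_X]))
    let S : SmProj F := ⟨X, d, inferInstance, inferInstance, hX⟩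
    have e := MP_638e8a_ag.Cyc.trdeg_eq_dm (S := S) S.gen
    rw [MP_638e8a_ag.Cyc.dm_gen] at e
    obtain rfl : n = d := by exact_mod_cast a.symm.trans e
    rw [← hI]
    exact b
  have hp' : (I.map (ext F k _)).IsPrime := hI ▸ hGI2 F k _ N (c.co (genericPoint X.left))
    (hGI1 F k _ X.hom)
  have hc : (I.map (ext F k _)).comap (ext F k _) = I := by
    obtain ⟨P, hP⟩ := ((hRD1 F k _).1 ⟨I, hp⟩).2.1
    have e : P.asIdeal.comap (ext F k _) = I := congrArg PrimeSpectrum.asIdeal hP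
    exact le_antisymm ((Ideal.comap_mono (Ideal.map_le_iff_le_comap.2 e.ge)).trans e.le)
      Ideal.le_comap_map
  have ht : ∀ (Ω : Type) [Field Ω] [Algebra k Ω] (y : Fin (N + 1) → Ω), y ≠ 0 →
      On (I.map (ext F k _)) y → Module.finrank Ω (Tan (I.map (ext F k _)) y) = d + 1 := by
    intro Ω _ _ y hy hon
    let : Algebra F Ω := ((algebraMap k Ω).comp (algebraMap F k)).toAlgebra
    have : IsScalarTower F k Ω := .of_algebraMap_eq fun _ => rfl
    rw [SURF.tan_map hon]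
    exact ZSMX.tan3 hPTS3 hSMO1 hSMO2 X.hom c hI hy (SURF.on_map hon)
  refine ⟨hp, ⟨i, hI ▸ hi⟩, hd, ⟨hp', SURF.hom_map c.hom, ?_, fun Ω _ _ y a b => (ht Ω y a b).le⟩,
    ?_⟩
  · have e := ((hRD1 F k _).2 ⟨_, hp'⟩).1
    dsimp only at e
    rw [e, hc, hd]
  · exact SmProj.noetherianSpace ⟨X, d, inferInstance, inferInstance, hX⟩

end Pool.Agent.P.MP_12d50c_ag

end

section

/-! Step TOPU. -/

open CategoryTheory AlgebraicGeometry IsLocalRing MvPolynomial Limits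
open Pool.Agent.P.MP_638e8a_ag.Cyc (St Rf ev stm primeOf)
open Pool.Agent.P.MP_90138e_ag (projSpace IsProjective)
open scoped TensorProduct

namespace Pool.Agent.P.MP_12d50c_ag

namespace ZTOPU

variable {F : Type} [Field F] {Y : Scheme.{0}} {N : ℕ}
  (pt : ∀ n, XD Y n → PrimeSpectrum (RR F N n))

theorem exz_add (ψ ψ' : (XD Y 1 →₀ ℤ) →+ ℚ) (Q : Ideal (RR F N 1)) :
    exz pt (ψ + ψ') Q = exz pt ψ Q + exz pt ψ' Q := by
  classical
  simp only [exz, Function.extend_def]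
  split_ifs <;> simp

theorem exz_smul (c : ℚ) (ψ : (XD Y 1 →₀ ℤ) →+ ℚ) (Q : Ideal (RR F N 1)) :
    exz pt (c • ψ) Q = c * exz pt ψ Q := by
  classical
  simp only [exz, Function.extend_def]
  split_ifs <;> simp

theorem exz_zero (Q : Ideal (RR F N 1)) : exz pt 0 Q = 0 := by
  classical
  simp only [exz, Function.extend_def]
  split_ifs <;> simp

end ZTOPU

open ZTOPU in
theorem z_TOPU (hFINB : S_FINB) (hSUB : Z_SUB) (hFACT : Z_FACT) (hRK : Z_RK) (hTP1 : Z_TP1)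
    (hTP2 : Z_TP2) :
    Z_TOPU := by
  intro F _ d Y N I J pt T hB hIJ hTA hT
  have hfin : ∀ Q ∈ Cv I 1, Prp I Q.asIdeal → ∀ χ : PrimeSpectrum (RR F N 0) → ℚ,
      (Cv (⊥ : Ideal (PP F N)) 0 ∩ Function.support fun z => χ z * bdA Q.asIdeal z).Finite := by
    intro Q hQ hP χ
    refine (hFINB F N 0 I Q hQ hP).2.subset fun z hz => ?_
    have h1 : bdA Q.asIdeal z ≠ 0 := fun h => hz.2 (by simp [h])
    exact ⟨((hSUB F N ⊥ I).1 0 _ z h1).2 hQ.1.le hz.1, h1⟩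
  let S : Submodule ℚ (((XD Y 1 →₀ ℤ) →+ ℚ) × (T → ℚ)) :=
    { carrier := {p | ∃ χ, Fac I (exz pt p.1) χ ∧ p.2 = fun t => χ t.1}
      add_mem' := by
        rintro p p' ⟨χ, h1, h2⟩ ⟨χ', h1', h2'⟩
        refine ⟨χ + χ', fun Q hQ hP => ?_, by rw [Prod.snd_add, h2, h2']; rfl⟩
        rw [Prod.fst_add, exz_add, h1 Q hQ hP, h1' Q hQ hP,
          ← finsum_mem_add_distrib' (hfin Q hQ hP χ) (hfin Q hQ hP χ')]
        simp only [Pi.add_apply, add_mul]
      zero_mem' := ⟨0, fun Q _ _ => by simp [exz_zero], rfl⟩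
      smul_mem' := by
        rintro c p ⟨χ, h1, h2⟩
        refine ⟨c • χ, fun Q hQ hP => ?_, by rw [Prod.smul_snd, h2]; rfl⟩
        rw [Prod.smul_fst, exz_smul, h1 Q hQ hP, mul_finsum_mem]
        simp only [Pi.smul_apply, smul_eq_mul, mul_assoc] }
  have h := hRK (XD Y 1 →₀ ℤ) (cycles Y d 1) (boundaries Y d 1) T S (fun ψ hψ => ?_) ?_
  · rwa [Fintype.card_coe] at h
  · obtain ⟨χ, hχ⟩ := (hFACT F N I).1 hTA _ (hTP1 F d Y N I J pt ψ hB hψ)
    exact ⟨_, χ, hχ, rfl⟩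
  · rintro ψ ⟨χ, h1, h2⟩
    obtain ⟨h3, h4⟩ := hTP2 F d Y N I J pt ψ χ hB hIJ h1
    exact h4 (hT χ h3 fun z hz => (congrFun h2 ⟨z, hz⟩).symm)

end Pool.Agent.P.MP_12d50c_ag

end

section

/-! Step TP1. -/

open CategoryTheory AlgebraicGeometry IsLocalRing MvPolynomial Limits
open Pool.Agent.P.MP_638e8a_ag.Cyc (St Rf ev stm primeOf)
open Pool.Agent.P.MP_90138e_ag (projSpace IsProjective)
open scoped TensorProduct

namespace Pool.Agent.P.MP_12d50c_ag

namespace ZTP1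

open Order

theorem dims {a : ℕ∞} {D : WithBot ℕ∞} {d n : ℕ} (h : (a : WithBot ℕ∞) + D = (d + 1 + n : ℕ)) :
    (a = d ↔ D = (n + 1 : ℕ)) ∧ ((d : ℕ∞) ≤ a ↔ D ≤ (n + 1 : ℕ)) := by
  induction D using WithBot.recBotCoe with
  | bot => exact absurd h.symm (by rw [WithBot.add_bot]; exact WithBot.coe_ne_bot)
  | coe b =>
    have h1 : a + b = (d + 1 + n : ℕ) := WithBot.coe_injective h
    have h2 : a + b ≠ ⊤ := h1 ▸ ENat.natCast_ne_top _
    lift a to ℕ using (WithTop.add_ne_top.1 h2).1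
    lift b to ℕ using (WithTop.add_ne_top.1 h2).2
    have h3 : a + b = d + 1 + n := by exact_mod_cast h1
    have e1 : (((b : ℕ∞) : WithBot ℕ∞) = (n + 1 : ℕ)) ↔ b = n + 1 :=
      (WithBot.coe_inj (b := ((n + 1 : ℕ) : ℕ∞))).trans ENat.natCast_inj
    have e2 : (((b : ℕ∞) : WithBot ℕ∞) ≤ (n + 1 : ℕ)) ↔ b ≤ n + 1 :=
      (WithBot.coe_le_coe (b := ((n + 1 : ℕ) : ℕ∞))).trans ENat.natCast_le_natCast
    rw [e1, e2, ENat.natCast_inj, ENat.natCast_le_natCast]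
    omega

variable {F : Type} [Field F] {d : ℕ} {Y : Scheme.{0}} {N : ℕ} {I J : Ideal (PP F N)}
  {pt : ∀ n, XD Y n → PrimeSpectrum (RR F N n)}

theorem inj (h : BrU d Y I J pt) (n : ℕ) : Function.Injective fun y => (pt n y).asIdeal :=
  fun _ _ e => Pool.Agent.P.MP_638e8a_ag.Cyc.eq_of_le_of_le ((h.le n _ _).2 e.ge)
    ((h.le n _ _).2 e.le)

theorem cv (h : BrU d Y I J pt) {n : ℕ} {z : XD Y n} : pt n z ∈ Cv I n ↔ coheight z = d :=
  (and_iff_right (h.adm n z)).trans (dims (h.dim n z)).1.symm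

theorem adm (h : BrU d Y I J pt) {n : ℕ} {w : XD Y n} (h1 : pt n w ∈ Cv I n)
    (a : Prp I (pt n w).asIdeal) : Admissible Y d n w := by
  refine ⟨(cv h).1 h1, fun m g z hz => ?_⟩
  refine (dims (h.dim m z)).2.2 (a m g _ (h.adm m z) (Ideal.map_le_iff_le_comap.2 ?_))
  rw [← h.face]
  exact (h.le n _ _).1 hz

open Classical in
theorem bd_eq (h : BrU d Y I J pt) {n : ℕ} (w : XD Y (n + 1)) (z : XD Y n) :
    bd Y d n (Finsupp.single w 1) z =
      if coheight z = d then bdA (pt (n + 1) w).asIdeal (pt n z) else 0 := by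
  rw [bd, Finsupp.linearCombination_single, one_smul]
  simp only [h.mult, bdA]

end ZTP1

open ZTP1 Order in
theorem z_TP1 (hVP0 : S_VP0) (hFINB : S_FINB) (hSUB : Z_SUB) :
    Z_TP1 := by
  intro F _ d Y N I J pt ψ h hψ W hW hP
  have _ := hVP0
  have hφ : ∀ y, exz pt ψ (pt 1 y).asIdeal = ψ (Finsupp.single y 1) :=
    fun y => (inj h 1).extend_apply _ _ y
  have hr : ∀ Q : PrimeSpectrum (RR F N 1), exz pt ψ Q.asIdeal ≠ 0 → ∃ y, pt 1 y = Q := by
    intro Q hQ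
    by_contra hc
    exact hQ (Function.extend_apply' _ _ _ fun ⟨y, e⟩ => hc ⟨y, PrimeSpectrum.ext e⟩)
  by_cases hJ : cyl J 2 ≤ W.asIdeal
  · refine finsum_mem_of_eqOn_zero fun Q hQ => ?_
    by_contra hc
    obtain ⟨h1, h2⟩ := mul_ne_zero_iff.1 hc
    obtain ⟨y, rfl⟩ := hr Q h1
    exact h.out 1 y (((hSUB F N I J).1 1 _ _ (Int.cast_ne_zero.1 h2)).2 hJ hQ).1.le
  obtain ⟨w, e⟩ := h.surj 2 _ hW.1 hJ
  obtain rfl : pt 2 w = W := PrimeSpectrum.ext e
  have hi := Function.Injective.of_comp (f := PrimeSpectrum.asIdeal) (inj h 1)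
  have e : ∀ z, bd Y d 1 (Finsupp.single w 1) z ≠ 0 → coheight z = d := fun z hz => by
    by_contra a
    exact hz (by rw [bd_eq h, if_neg a])
  have e' : ∀ z, coheight z = d →
      bd Y d 1 (Finsupp.single w 1) z = bdA (pt 2 w).asIdeal (pt 1 z) := fun z hz => by
    rw [bd_eq h, if_pos hz]
  have hf : (Function.support (bd Y d 1 (Finsupp.single w 1))).Finite :=
    ((hFINB F N 1 I _ hW hP).2.preimage hi.injOn).subset
      fun z hz => ⟨(cv h).2 (e z hz), e' z (e z hz) ▸ hz⟩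
  have hb : Finsupp.ofSupportFinite _ hf ∈ boundaries Y d 1 :=
    ⟨Finsupp.single w 1, Finsupp.single_mem_supported ℤ 1 (adm h hW hP), rfl⟩
  rw [finsum_mem_inter_support_eq' _ _ (pt 1 '' {z | coheight z = d}), finsum_mem_image hi.injOn,
    ← hψ _ hb, TOP.map_eq, Finsupp.sum, ← finsum_mem_eq_sum_of_inter_support_eq
    (s := {z | coheight z = d})]
  · refine finsum_mem_congr rfl fun z hz => ?_
    rw [hφ, mul_comm, ← e' z hz]
    rfl
  · ext z
    refine and_congr_left fun hz => ?_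
    have h1 : Finsupp.ofSupportFinite _ hf z ≠ 0 := fun a => hz (by simp only [a]; simp)
    exact iff_of_true (e z h1) (Finsupp.mem_support_iff.2 h1)
  · intro Q hQ
    obtain ⟨y, rfl⟩ := hr Q (left_ne_zero_of_mul hQ)
    rw [hi.mem_set_image]
    exact cv h

end Pool.Agent.P.MP_12d50c_ag

end

section

/-! Step TP2. -/

open CategoryTheory AlgebraicGeometry IsLocalRing MvPolynomial Limits
open Pool.Agent.P.MP_638e8a_ag.Cyc (St Rf ev stm primeOf)
open Pool.Agent.P.MP_90138e_ag (projSpace IsProjective)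
open scoped TensorProduct

namespace Pool.Agent.P.MP_12d50c_ag

namespace ZTP2

theorem dims {a : ℕ∞} {D : WithBot ℕ∞} {d n : ℕ}
    (h : (a : WithBot ℕ∞) + D = (d + 1 + n : ℕ)) :
    (a = d ↔ D = (n + 1 : ℕ)) ∧ ((d : ℕ∞) ≤ a ↔ D ≤ (n + 1 : ℕ)) := by
  induction D using WithBot.recBotCoe with
  | bot => exact absurd h.symm (by rw [WithBot.add_bot]; exact WithBot.coe_ne_bot)
  | coe b =>
    have h1 : a + b = (d + 1 + n : ℕ) := WithBot.coe_injective h
    have h2 : a + b ≠ ⊤ := h1 ▸ ENat.natCast_ne_top _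
    lift a to ℕ using (WithTop.add_ne_top.1 h2).1
    lift b to ℕ using (WithTop.add_ne_top.1 h2).2
    have h3 : a + b = d + 1 + n := by exact_mod_cast h1
    have e1 : (((b : ℕ∞) : WithBot ℕ∞) = (n + 1 : ℕ)) ↔ b = n + 1 :=
      (WithBot.coe_inj (b := ((n + 1 : ℕ) : ℕ∞))).trans ENat.natCast_inj
    have e2 : (((b : ℕ∞) : WithBot ℕ∞) ≤ (n + 1 : ℕ)) ↔ b ≤ n + 1 :=
      (WithBot.coe_le_coe (b := ((n + 1 : ℕ) : ℕ∞))).trans ENat.natCast_le_natCast
    rw [e1, e2, ENat.natCast_inj, ENat.natCast_le_natCast]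
    omega

end ZTP2

theorem z_TP2 (hVP0 : S_VP0) (hFINB : S_FINB) (hFC : Z_FC) (hSUB : Z_SUB) (hPRP : Z_PRP) :
    Z_TP2 := by
  classical
  intro F _ d Y N I J pt ψ χ h hIJ hF
  obtain ⟨s1, s2, -⟩ := (hSUB F N I J).2 hIJ
  refine ⟨fun Q hQ hP => ?_, fun hχ c hc => ?_⟩
  · rw [← hF Q (s1 1 hQ) ((s2 1 _ hQ.1.le).2 hP), exz, Function.extend_apply']
    rintro ⟨y, e⟩
    exact h.out 1 y (e ▸ hQ.1.le)
  have inj : Function.Injective fun y => (pt 1 y).asIdeal :=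
    fun _ _ e => Pool.Agent.P.MP_638e8a_ag.Cyc.eq_of_le_of_le ((h.le 1 _ _).2 e.ge)
      ((h.le 1 _ _).2 e.le)
  have hw : ∀ w ∈ c.support, pt 1 w ∈ Cv I 1 ∧ Prp I (pt 1 w).asIdeal := fun w hw => by
    have ha : Admissible Y d 1 w := hc.1 hw
    have h1 : pt 1 w ∈ Cv I 1 := ⟨h.adm 1 w, (ZTP2.dims (h.dim 1 w)).1.1 ha.1⟩
    refine ⟨h1, (hPRP F N I).2 _ h1 fun j hj => ?_⟩
    obtain ⟨f1, f2⟩ := (hFC F N).1 0 1 j.succAbove Fin.succAbove_right_injective
    obtain ⟨Q, hQ, e⟩ := f2 I _ h1.1 fun j' hj' => by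
      rw [Fin.range_succAbove, Set.notMem_compl_iff, Set.mem_singleton_iff] at hj'
      rwa [hj']
    obtain ⟨z, rfl⟩ := h.surj 0 Q hQ fun a => h.out 1 w (by
      rw [← e, ← Ideal.map_le_iff_le_comap, ((hVP0 F N 1).1 0 j.succAbove).1]
      exact a)
    have h2 := (ZTP2.dims (h.dim 0 z)).2.1 (ha.2 0 j.succAboveOrderEmb z ((h.le 1 _ _).2 (by
      rw [h.face]
      exact e.ge)))
    rw [← (f1 _).2.1, e, h1.2] at h2
    norm_cast at h2
  obtain ⟨t1, t2, -⟩ := (hSUB F N ⊥ I).2 bot_le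
  have hf : (⋃ w ∈ c.support, {z ∈ Cv (⊥ : Ideal (PP F N)) 0 |
      bdA (pt 1 w).asIdeal z ≠ 0}).Finite :=
    c.support.finite_toSet.biUnion fun w hw' => (hFINB F N 0 ⊥ _ (t1 1 (hw w hw').1)
      ((t2 1 _ (h.adm 1 w).le).2 (hw w hw').2)).2
  have e1 : ∀ w ∈ c.support, ψ (Finsupp.single w 1) =
      ∑ z ∈ hf.toFinset, χ z * bdA (pt 1 w).asIdeal z := fun w hw' => by
    rw [← inj.extend_apply (fun y => ψ (Finsupp.single y 1)) 0 w]
    refine (hF _ (hw w hw').1 (hw w hw').2).trans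
      (finsum_mem_eq_sum_of_inter_support_eq _ (Set.ext fun z => and_congr_left fun hz => ?_))
    rw [Set.Finite.coe_toFinset, Set.mem_iUnion₂]
    refine ⟨fun a => ⟨w, hw', a, fun b => hz ?_⟩, fun ⟨_, _, a⟩ => a.1⟩
    simp only [b, Int.cast_zero, mul_zero]
  rw [TOP.map_eq, Finsupp.sum, Finset.sum_congr rfl fun w hw' => by rw [e1 w hw', Finset.mul_sum],
    Finset.sum_comm]
  refine Finset.sum_eq_zero fun z hz => ?_
  obtain ⟨w, -, a, b⟩ := Set.mem_iUnion₂.1 (hf.mem_toFinset.1 hz)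
  have h1 : z ∈ Cv I 0 := ((hSUB F N ⊥ I).1 0 _ z b).2 (h.adm 1 w).le a
  by_cases hJ : cyl J 0 ≤ z.asIdeal
  · simp [hχ z ⟨⟨h1.1.prime, h1.1.hom, hJ, h1.1.rel⟩, h1.2⟩]
  obtain ⟨y, e⟩ := h.surj 0 _ h1.1 hJ
  obtain rfl : pt 0 y = z := PrimeSpectrum.ext e
  have h2 : bd Y d 0 c y = 0 := congrFun hc.2 y
  rw [bd, Finsupp.linearCombination_apply, Finsupp.sum, Finset.sum_apply] at h2
  simp only [Pi.smul_apply, smul_eq_mul, h.mult,
    if_pos ((ZTP2.dims (h.dim 0 y)).1.2 h1.2)] at h2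
  have h3 := congrArg (Int.cast : ℤ → ℚ) h2
  simp only [mul_left_comm _ (χ _), ← Finset.mul_sum]
  rw [Int.cast_sum] at h3
  simp only [Int.cast_mul, Int.cast_zero] at h3
  exact mul_eq_zero_of_right _ h3

end Pool.Agent.P.MP_12d50c_ag

end
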