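import Pool.Agent.P.MP_12d50c_ag.Z.Main
import Pool.Agent.P.MP_12d50c_ag.Z.UA1
import Pool.Agent.P.MP_12d50c_ag.Z.UA2
import Pool.Agent.P.MP_12d50c_ag.Z.UA3
import Pool.Agent.P.MP_12d50c_ag.Z.UA4
import Pool.Agent.P.MP_12d50c_ag.Z.UB1
import Pool.Agent.P.MP_12d50c_ag.Z.UB2
import Pool.Agent.P.MP_12d50c_ag.Z.UB3
import Pool.Agent.P.MP_12d50c_ag.Z.UB4
import Pool.Agent.P.MP_12d50c_ag.Z.UB5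
import Pool.Agent.P.MP_12d50c_ag.Z.UB6
import Pool.Agent.P.MP_12d50c_ag.Z.UC1

/-!
Assembly of all steps.
-/

namespace Pool.Agent.P.MP_12d50c_ag

theorem b_SEMI : Z_SEMI :=
  z_SEMI a_LIN
theorem b_RG : Z_RG :=
  z_RG a_LIN
theorem b_GEQ : Z_GEQ :=
  z_GEQ a_NS0 a_NSP b_SEMI b_RG
theorem b_TD : Z_TD :=
  z_TD
theorem b_TU : Z_TU :=
  z_TU b_RG
theorem b_UNI : Z_UNI :=
  z_UNI a_NSP a_FINC b_TU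
theorem b_GT : Z_GT :=
  z_GT a_NS0 a_NSP a_TR b_SEMI
theorem b_BG : Z_BG :=
  z_BG a_TR b_GEQ b_GT
theorem b_BER : Z_BER :=
  z_BER a_LIN a_UG b_BG
theorem b_COMP : Z_COMP :=
  z_COMP a_NS0 a_NSP b_RG b_GEQ
theorem b_FC : Z_FC :=
  z_FC a_VP0 a_LS
theorem b_SUB : Z_SUB :=
  z_SUB a_VP0
theorem b_PRP : Z_PRP :=
  z_PRP a_VP0 b_FC
theorem b_FACT : Z_FACT :=
  z_FACT a_FINB b_SUB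
theorem b_PT : Z_PT :=
  z_PT a_NS0 a_NSP a_VP0 a_VP a_CL
theorem b_IND : Z_IND :=
  z_IND a_TK a_CL b_GEQ b_BER b_COMP b_SUB b_FACT b_PT
theorem b_MF : Z_MF :=
  z_MF a_LS a_AS a_VP0 a_VP a_CL b_PRP b_PT
theorem b_DV : Z_DV :=
  z_DV a_G12 b_MF
theorem b_LINE : Z_LINE :=
  z_LINE a_NS0 a_CURVE b_PT b_DV
theorem b_CA0 : Z_CA0 :=
  z_CA0
theorem b_CA1 : Z_CA1 :=
  z_CA1
theorem b_CA : Z_CA :=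
  z_CA b_CA0 b_CA1
theorem b_CG : Z_CG :=
  z_CG a_EX a_DM b_CA
theorem b_CUR : Z_CUR :=
  z_CUR
theorem b_C1 : Z_C1 :=
  z_C1 b_SUB b_PT b_DV b_CG b_CUR
theorem b_C0 : Z_C0 :=
  z_C0 b_SUB b_PT b_C1
theorem b_SP : Z_SP :=
  z_SP
theorem b_SD : Z_SD :=
  z_SD a_EX a_DM a_TR b_SP
theorem b_SIS : Z_SIS :=
  z_SIS a_NS0 b_SP b_SD
theorem b_DG0 : Z_DG0 :=
  z_DG0
theorem b_DG : Z_DG :=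
  z_DG a_EMB b_DG0
theorem b_EXL : Z_EXL :=
  z_EXL a_EX a_VP0 b_SP b_DG0
theorem b_DD : Z_DD :=
  z_DD a_DM b_DG0 b_DG b_EXL
theorem b_PF : Z_PF :=
  z_PF a_VP0 b_DG b_EXL
theorem b_CHA : Z_CHA :=
  z_CHA a_EX b_DG0 b_DG b_EXL
theorem b_LC : Z_LC :=
  z_LC
theorem b_CHI : Z_CHI :=
  z_CHI b_DG0 b_EXL b_LC
theorem b_CHB : Z_CHB :=
  z_CHB a_LOC a_FL b_DG0 b_EXL b_CHI
theorem b_LB0 : Z_LB0 :=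
  z_LB0
theorem b_LB1 : Z_LB1 :=
  z_LB1 b_DG0 b_DG b_EXL b_LB0
theorem b_LB2 : Z_LB2 :=
  z_LB2 b_DG0 b_EXL b_LB0
theorem b_LB3 : Z_LB3 :=
  z_LB3 a_LOC a_FL b_LB0
theorem b_FINL : Z_FINL :=
  z_FINL
theorem b_PL : Z_PL :=
  z_PL b_DG0 b_DG b_PF b_CHA b_CHB b_LB0 b_LB1 b_LB2 b_LB3 b_FINL
theorem b_PU1 : Z_PU1 :=
  z_PU1 a_VP0 b_FC b_PRP b_EXL b_DD b_PF b_CHA b_CHB b_LB1 b_SUB
theorem b_PU2 : Z_PU2 :=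
  z_PU2 a_VP0 b_FC b_PRP b_DD b_PF b_PL
theorem b_PS : Z_PS :=
  z_PS a_FINB b_PU1 b_PU2
theorem b_CUF : Z_CUF :=
  z_CUF a_EX a_DM
theorem b_CTR : Z_CTR :=
  z_CTR a_PLACE b_CUF
theorem b_NRM : Z_NRM :=
  z_NRM a_DM a_PLACE b_CUF
theorem b_GS : Z_GS :=
  z_GS a_NSP a_PLACE b_CUF b_CTR b_NRM
theorem b_SM1 : Z_SM1 :=
  z_SM1 a_AVOID a_PLACE b_CUF b_CTR b_NRM
theorem b_SML : Z_SML :=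
  z_SML a_LOC a_FL a_PLACE b_TD b_CUF b_CTR b_SM1
theorem b_WA : Z_WA :=
  z_WA a_PLACE
theorem b_CT2 : Z_CT2 :=
  z_CT2 a_DM b_CTR
theorem b_LF1 : Z_LF1 :=
  z_LF1 b_SP b_CUF b_CTR b_GS b_SML b_WA b_CT2
theorem b_LQ : Z_LQ :=
  z_LQ a_EX a_DM a_EMB b_DG0 b_DG
theorem b_LF : Z_LF :=
  z_LF a_NSP a_FINC b_SP b_CUF b_CT2 b_LF1 b_LQ
theorem b_TJ : Z_TJ :=
  z_TJ b_UNI b_SUB b_SP b_SIS b_LF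
theorem b_P0 : Z_P0 :=
  z_P0 a_VP b_PT b_SP b_DG0 b_DG b_EXL
theorem b_FIBC : Z_FIBC :=
  z_FIBC a_PT0 a_CL b_SUB b_PT b_LINE b_SP b_SIS b_PU1
theorem b_TQ : Z_TQ :=
  z_TQ a_VP0 b_SUB b_PRP b_PF b_PS b_P0
theorem b_TAL : Z_TAL :=
  z_TAL a_VP0 a_CL a_FINB a_PT0 b_SUB b_FACT b_PT b_IND b_SIS b_PU1 b_PS b_TJ b_P0 b_FIBC b_TQ
theorem b_SMX : Z_SMX :=
  z_SMX a_DM a_RD1 a_PTS1 a_PTS2 a_PTS3 a_SMO1 a_SMO2 a_GI1 a_GI2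
theorem b_BRD : Z_BRD :=
  z_BRD a_VP0 a_VP a_PTS1 a_PTS3 a_INTD
theorem b_OPN : Z_OPN :=
  z_OPN
theorem b_OPM : Z_OPM :=
  z_OPM
theorem b_OPB : Z_OPB :=
  z_OPB a_VP0 b_PT b_OPN b_OPM
theorem b_RK : Z_RK :=
  z_RK
theorem b_TP1 : Z_TP1 :=
  z_TP1 a_VP0 a_FINB b_SUB
theorem b_TP2 : Z_TP2 :=
  z_TP2 a_VP0 a_FINB b_FC b_SUB b_PRP
theorem b_TOPU : Z_TOPU :=
  z_TOPU a_FINB b_SUB b_FACT b_RK b_TP1 b_TP2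

end Pool.Agent.P.MP_12d50c_ag
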