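import Pool.Agent.P.MP_12d50c_ag.If4

/-!
Definitions for the extension to all dimensions: good ideals, the Segre variety, the projection.
-/

open MvPolynomial Function WithZero
open Pool.Agent.P.MP_6f117a_ag (Place FF Model Reg)
open scoped IntermediateField Polynomial

namespace Pool.Agent.P.MP_12d50c_ag

section W

variable {k : Type} [Field k] {τ : Type} {w : τ → ℕ}

/-- Denominators can be chosen homogeneous. -/
theorem exists_hom_mul {J q : Ideal (MvPolynomial τ k)} (hJ : WHom w J) {f s : MvPolynomial τ k}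
    {e : ℕ} (hf : IsWeightedHomogeneous w f e) (hs : s ∉ q) (h : s * f ∈ J) :
    ∃ s' d, IsWeightedHomogeneous w s' d ∧ s' ∉ q ∧ s' * f ∈ J := by
  classical
  obtain ⟨n, h1, h0⟩ := exists_sum_comp w s
  obtain ⟨d, hd, h2⟩ : ∃ d ∈ Finset.range n, weightedHomogeneousComponent w d s ∉ q := by
    by_contra h3
    push Not at h3
    exact hs (h1 ▸ q.sum_mem h3)
  refine ⟨_, d, weightedHomogeneousComponent_isWeightedHomogeneous _ _, h2, ?_⟩
  have h3 := hJ _ h (d + e)
  rw [h1, Finset.sum_mul, map_sum, Finset.sum_eq_single d] at h3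
  · rwa [weightedHomogeneousComponent_of_mem
      ((weightedHomogeneousComponent_isWeightedHomogeneous d s).mul hf), if_pos rfl] at h3
  · intro b _ hb
    rw [weightedHomogeneousComponent_of_mem
      ((weightedHomogeneousComponent_isWeightedHomogeneous b s).mul hf), if_neg (by omega)]
  · exact fun h4 => (h4 hd).elim

theorem WHom.inf {J J' : Ideal (MvPolynomial τ k)} (h : WHom w J) (h' : WHom w J') :
    WHom w (J ⊓ J') := fun f hf d => ⟨h f hf.1 d, h' f hf.2 d⟩

variable {L : Type} [Field L] [Algebra k L] {ξ : τ → L}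

theorem Gen.scale (h : Gen k w ξ) {u : L} (hu : u ≠ 0) : Gen k w fun i => u ^ w i * ξ i := by
  intro a
  obtain ⟨d, g, g', h1, h2, h3, h4⟩ := h a
  refine ⟨d, g, g', h1, h2, ?_, ?_⟩
  · rw [aeval_scale h2]
    exact mul_ne_zero (pow_ne_zero _ hu) h3
  · rw [aeval_scale h2, aeval_scale h1, ← h4, mul_left_comm]

/-- Normalized coordinates are generic when they generate the field. -/
theorem gen_iff {i : τ} (hi : w i = 1) (h1 : ξ i = 1) :
    Gen k w ξ ↔ IntermediateField.adjoin k (Set.range ξ) = ⊤ := by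
  have key : ∀ f : MvPolynomial τ k, aeval ξ f ∈ IntermediateField.adjoin k (Set.range ξ) :=
    fun f => IntermediateField.algebra_adjoin_le_adjoin k _
      (by rw [Algebra.adjoin_range_eq_range_aeval]; exact ⟨f, rfl⟩)
  refine ⟨fun h => top_unique fun u _ => ?_, fun h u => ?_⟩
  · obtain ⟨d, g, g', -, -, h3, h4⟩ := h u
    rw [eq_div_of_mul_eq h3 h4]
    exact div_mem (key g) (key g')
  · obtain ⟨d, g, g', h2, h3, h4, h5⟩ := gen_adjoin hi h1 ⟨u, h.ge IntermediateField.mem_top⟩
    have e := fun f => map_aeval' (IntermediateField.adjoin k (Set.range ξ)).val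
      (fun j => ⟨ξ j, IntermediateField.subset_adjoin k _ ⟨j, rfl⟩⟩) f
    refine ⟨d, g, g', h2, h3, fun h6 => h4 (Subtype.ext ((e g').trans h6)), ?_⟩
    have h6 := congrArg (IntermediateField.adjoin k (Set.range ξ)).val h5
    rwa [map_mul, e, e] at h6

end W

section

variable {k : Type} [Field k] {N m n : ℕ}

/-- `V(J)` has dimension at most one and embedding dimension at most two, and is smooth outside
a finite set. -/
structure Gd (J : Ideal (PP k N)) : Prop where
  hom : Hom J
  dim : ∀ P : Ideal (PP k N), P.IsPrime → J ≤ P → ringKrullDim (PP k N ⧸ P) ≤ 2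
  three : ∀ y : NP k N, On J y.1 → Module.finrank k (Tan J y.1) ≤ 3
  two : {y : NP k N | On J y.1 ∧ 2 < Module.finrank k (Tan J y.1)}.Finite

theorem Gd.mono {J J' : Ideal (PP k N)} (h : Gd J) (hle : J ≤ J') (h' : Hom J') : Gd J' :=
  ⟨h', fun P hP h1 => h.dim P hP (hle.trans h1), fun y hy =>
    (Submodule.finrank_mono (Tan_anti hle)).trans (h.three y fun f hf => hy f (hle hf)),
    h.two.subset fun _ hy => ⟨fun f hf => hy.1 f (hle hf),
      hy.2.trans_le (Submodule.finrank_mono (Tan_anti hle))⟩⟩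

/-- On curves over `V(J)` the functional `φ` factors through the boundary. -/
def Fac (J : Ideal (PP k N)) (φ : Ideal (RR k N 1) → ℚ) (χ : PrimeSpectrum (RR k N 0) → ℚ) :
    Prop :=
  ∀ Q ∈ Cv J 1, Prp J Q.asIdeal →
    φ Q.asIdeal = ∑ᶠ z ∈ Cv (⊥ : Ideal (PP k N)) 0, χ z * bdA Q.asIdeal z

/-- The first block of Segre coordinates. -/
def il (i : Fin (N + 1)) : Fin (N + 1 + N + 1) := Fin.castAdd (N + 1) i

/-- The second block of Segre coordinates. -/
def ir (i : Fin (N + 1)) : Fin (N + 1 + N + 1) := Fin.natAdd (N + 1) i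

theorem il_or_ir (a : Fin (N + 1 + N + 1)) : (∃ i, a = il i) ∨ ∃ i, a = ir i :=
  Fin.addCases (m := N + 1) (n := N + 1) (motive := fun a => (∃ i, a = il i) ∨ ∃ i, a = ir i)
    (fun i => .inl ⟨i, rfl⟩) (fun i => .inr ⟨i, rfl⟩) a

theorem il_lt_il {i j : Fin (N + 1)} : il i < il j ↔ i < j := Iff.rfl

theorem ir_lt_ir {i j : Fin (N + 1)} : ir i < ir j ↔ i < j := Nat.add_lt_add_iff_left

theorem il_lt_ir (i j : Fin (N + 1)) : il i < ir j := Nat.lt_add_right _ i.2

section

variable {T T' : Type} [CommRing T] [CommRing T']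

/-- The Segre map. -/
def sg (x : Fin (N + 1) → T) (u v : T) : Fin (N + 1 + N + 1) → T :=
  Fin.append (m := N + 1) (n := N + 1) (fun i => u * x i) fun i => v * x i

@[simp] theorem sg_il (x : Fin (N + 1) → T) (u v : T) (i : Fin (N + 1)) :
    sg x u v (il i) = u * x i := Fin.append_left _ _ i

@[simp] theorem sg_ir (x : Fin (N + 1) → T) (u v : T) (i : Fin (N + 1)) :
    sg x u v (ir i) = v * x i := Fin.append_right _ _ i

theorem sg_ext {α : Type} {a b : Fin (N + 1 + N + 1) → α} (h1 : ∀ i, a (il i) = b (il i))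
    (h2 : ∀ i, a (ir i) = b (ir i)) : a = b := funext fun c => by
  rcases il_or_ir c with ⟨i, rfl⟩ | ⟨i, rfl⟩
  exacts [h1 i, h2 i]

theorem map_sg {G : Type} [FunLike G T T'] [MulHomClass G T T'] (φ : G) (x : Fin (N + 1) → T)
    (u v : T) : (fun a => φ (sg x u v a)) = sg (fun i => φ (x i)) (φ u) (φ v) :=
  sg_ext (fun i => by simp) fun i => by simp

/-- The Segre map on the product with a simplex. -/
def lf (ξ : Ix N n → T) (u v : T) : Ix (N + 1 + N) n → T :=
  Sum.elim (sg (fun i => ξ (.inl i)) u v) fun j => ξ (.inr j)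

@[simp] theorem lf_il (ξ : Ix N n → T) (u v : T) (i : Fin (N + 1)) :
    lf ξ u v (.inl (il i)) = u * ξ (.inl i) := sg_il (fun i => ξ (.inl i)) u v i

@[simp] theorem lf_ir (ξ : Ix N n → T) (u v : T) (i : Fin (N + 1)) :
    lf ξ u v (.inl (ir i)) = v * ξ (.inl i) := sg_ir (fun i => ξ (.inl i)) u v i

@[simp] theorem lf_inr (ξ : Ix N n → T) (u v : T) (j : Fin (n + 1)) :
    lf ξ u v (.inr j) = ξ (.inr j) := rfl

theorem lf_ext {α : Type} {a b : Ix (N + 1 + N) n → α}
    (h1 : ∀ i, a (.inl (il i)) = b (.inl (il i))) (h2 : ∀ i, a (.inl (ir i)) = b (.inl (ir i)))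
    (h3 : ∀ j, a (.inr j) = b (.inr j)) : a = b := funext fun c => by
  rcases c with c | j
  · exact congrFun (sg_ext (a := fun c => a (.inl c)) (b := fun c => b (.inl c)) h1 h2) c
  · exact h3 j

theorem map_lf {G : Type} [FunLike G T T'] [MulHomClass G T T'] (φ : G) (ξ : Ix N n → T)
    (u v : T) : (fun a => φ (lf ξ u v a)) = lf (fun a => φ (ξ a)) (φ u) (φ v) :=
  lf_ext (fun i => by simp) (fun i => by simp) fun j => rfl

theorem lf_scale (ξ : Ix N n → T) (c u v : T) :
    lf ξ (c * u) (c * v) = fun a => c ^ wt (N + 1 + N) n a * lf ξ u v a :=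
  lf_ext (fun i => by simp [wt, mul_assoc]) (fun i => by simp [wt, mul_assoc]) fun j => by
    simp [wt]

theorem lf_scale' (ξ : Ix N n → T) (c u v : T) :
    lf (fun a => c ^ wt N n a * ξ a) u v = lf ξ (c * u) (c * v) :=
  lf_ext (fun i => by simp [wt]; ring) (fun i => by simp [wt]; ring) fun j => by simp [wt]

end

/-- The parametrization of the Segre variety. -/
noncomputable def sgm : PP k (N + 1 + N) →ₐ[k] MvPolynomial (Fin 2) (PP k N) :=
  aeval (sg (fun i => C (X i)) (X 0) (X 1))

/-- The ideal of `V(I) × P^1` in the Segre embedding. -/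
noncomputable def SI (I : Ideal (PP k N)) : Ideal (PP k (N + 1 + N)) :=
  (I.map (C : PP k N →+* MvPolynomial (Fin 2) (PP k N))).comap sgm

/-- The linear projections `x ↦ a z + b z'`. -/
noncomputable def rh (a b : k) : RR k N n →ₐ[k] RR k (N + 1 + N) n :=
  aeval (Sum.elim (fun i => C a * X (.inl (il i)) + C b * X (.inl (ir i))) fun j => X (.inr j))

/-- The sections `z ↦ a x`, `z' ↦ b x`. -/
noncomputable def sb (a b : k) : RR k (N + 1 + N) n →ₐ[k] RR k N n := aeval (lf X (C a) (C b))

@[simp] theorem rh_inl (a b : k) (i : Fin (N + 1)) : rh a b (X (.inl i) : RR k N n) =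
    C a * X (.inl (il i)) + C b * X (.inl (ir i)) := aeval_X _ _

@[simp] theorem rh_inr (a b : k) (j : Fin (n + 1)) : rh a b (X (.inr j) : RR k N n) =
    X (.inr j) := aeval_X _ _

theorem aeval_rh {T : Type} [CommRing T] [Algebra k T] (ξ : Ix N n → T) (u v : T) (a b : k)
    (f : RR k N n) : aeval (lf ξ u v) (rh a b f) =
      aeval (fun c => (algebraMap k T a * u + algebraMap k T b * v) ^ wt N n c * ξ c) f := by
  rw [rh, map_aeval']
  congr 2
  funext c
  rcases c with i | j
  · simp [wt]; ring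
  · simp [wt]

theorem aeval_sb {T : Type} [CommRing T] [Algebra k T] (ξ : Ix N n → T) (a b : k)
    (f : RR k (N + 1 + N) n) :
    aeval ξ (sb a b f) = aeval (lf ξ (algebraMap k T a) (algebraMap k T b)) f := by
  rw [sb, map_aeval', map_lf]
  simp

theorem whom_aeval {τ τ' : Type} {w : τ → ℕ} {w' : τ' → ℕ} {g : τ → MvPolynomial τ' k}
    (hg : ∀ i, IsWeightedHomogeneous w' (g i) (w i)) {f : MvPolynomial τ k} {d : ℕ}
    (hf : IsWeightedHomogeneous w f d) : IsWeightedHomogeneous w' (aeval g f) d := by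
  classical
  rw [f.as_sum, map_sum]
  refine IsWeightedHomogeneous.sum _ _ _ fun s hs => ?_
  rw [aeval_monomial, ← hf (mem_support_iff.1 hs), Finsupp.weight_apply]
  have h1 := (isWeightedHomogeneous_C w' (coeff s f)).mul (IsWeightedHomogeneous.prod s.support
    (fun i => g i ^ s i) (fun i => s i • w i) fun i _ => (hg i).pow (s i))
  rwa [zero_add] at h1

theorem whom_rh (a b : k) {f : RR k N n} {d : ℕ} (hf : IsWeightedHomogeneous (wt N n) f d) :
    IsWeightedHomogeneous (wt (N + 1 + N) n) (rh a b f) d := by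
  refine whom_aeval (fun c => ?_) hf
  rcases c with i | j
  · exact ((isWeightedHomogeneous_C _ a).mul (isWeightedHomogeneous_X k _ _)).add
      ((isWeightedHomogeneous_C _ b).mul (isWeightedHomogeneous_X k _ _))
  · exact isWeightedHomogeneous_X k _ _

theorem whom_sb (a b : k) {f : RR k (N + 1 + N) n} {d : ℕ}
    (hf : IsWeightedHomogeneous (wt (N + 1 + N) n) f d) :
    IsWeightedHomogeneous (wt N n) (sb a b f) d := by
  refine whom_aeval (fun c => ?_) hf
  rcases c with c | j
  · rcases il_or_ir c with ⟨i, rfl⟩ | ⟨i, rfl⟩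
    · rw [lf_il]
      exact (isWeightedHomogeneous_C _ a).mul (isWeightedHomogeneous_X k _ _)
    · rw [lf_ir]
      exact (isWeightedHomogeneous_C _ b).mul (isWeightedHomogeneous_X k _ _)
  · exact isWeightedHomogeneous_X k _ _

/-- The image under the projection that forgets the factor `P^1`. -/
noncomputable def prj (Q : Ideal (RR k (N + 1 + N) n)) : Ideal (RR k N n) :=
  Q.comap (rh 1 0) ⊓ Q.comap (rh 0 1)

/-- `Q` has the generic point `(ξ, u : v)`. -/
structure LD (Q : Ideal (RR k (N + 1 + N) n)) {E L : Type} [Field E] [Field L] [Algebra k E]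
    [Algebra k L] [Algebra E L] (ξ : Ix N n → E) (u v : L) : Prop where
  gen : Gen k (wt N n) ξ
  one : ∃ i, ξ (.inl i) = 1
  ne : u ≠ 0 ∨ v ≠ 0
  top : E⟮u / v⟯ = ⊤
  eq : vanw k (wt (N + 1 + N) n) (lf (fun a => algebraMap E L (ξ a)) u v) = Q

/-- The degree over the image (zero if the dimension drops). -/
noncomputable def dg (Q : Ideal (RR k (N + 1 + N) n)) : ℕ :=
  sInf {r | ∃ (E L : Type) (_ : Field E) (_ : Field L) (_ : Algebra k E) (_ : Algebra k L)
    (_ : Algebra E L) (_ : IsScalarTower k E L) (ξ : Ix N n → E) (u v : L),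
    LD Q ξ u v ∧ Module.finrank E L = r}

/-- The functional composed with the push-forward. -/
noncomputable def ph (φ : Ideal (RR k N 1) → ℚ) (Q : Ideal (RR k (N + 1 + N) 1)) : ℚ :=
  dg Q * φ (prj Q)

section

variable {A B E L : Type} [CommRing A] [CommRing B] [Field E] [Field L] [Algebra k A] [Algebra k B]
  [Algebra k E] [Algebra k L] [Algebra A B] [Algebra E L]

/-- An affine chart in which `W` is finite over the local ring `A` of its image at `q`. -/
structure CD (I : Ideal (PP k N)) (W : Ideal (RR k (N + 1 + N) n)) (q : Ideal (RR k N n))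
    [q.IsPrime] (φ : A →ₐ[k] E) (β : B →ₐ[k] L) (x : Ix N n → A) (i : Fin (N + 1)) (c : k)
    (s : B) : Prop where
  hom : Hom I
  adm : Adm I q
  le : prj W ≤ q
  ld : LD W (fun a => φ (x a)) (1 - algebraMap k L c * β s) (β s)
  one : x (.inl i) = 1
  injA : Injective φ
  injB : Injective β
  comm : ∀ a, algebraMap E L (φ a) = β (algebraMap A B a)
  loc : IsLocalRing A
  noeth : IsNoetherianRing A
  unit : ∀ (f : RR k N n) (d : ℕ), IsWeightedHomogeneous (wt N n) f d → (IsUnit (aeval x f) ↔ f ∉ q)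
  frac : ∀ a : A, ∃ (d : ℕ) (g h : RR k N n), IsWeightedHomogeneous (wt N n) g d ∧
    IsWeightedHomogeneous (wt N n) h d ∧ h ∉ q ∧ a * aeval x h = aeval x g
  dim : ringKrullDim A = ringKrullDim (LQ (prj W) q)
  len : ∀ j, lq (Ideal.span {x (.inr j)}) = len (prj W ⊔ Ideal.span {X (.inr j)}) q
  gen : Algebra.adjoin A {s} = ⊤
  fin : Module.Finite A B
  nz : ∀ Q, Adm (SI I) Q → W ≤ Q → prj Q = q → rh 1 c (X (.inl i)) ∉ Q

/-- The coordinates in the finite algebra. -/
noncomputable def et (x : Ix N n → A) (c : k) (s : B) : Ix (N + 1 + N) n → B :=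
  lf (fun a => algebraMap A B (x a)) (1 - algebraMap k B c * s) s

/-- The prime attached to a prime of the finite algebra. -/
noncomputable def eB (x : Ix N n → A) (c : k) (s : B) (a : Ideal B) :
    Ideal (RR k (N + 1 + N) n) :=
  vanw k (wt (N + 1 + N) n) fun b => Ideal.Quotient.mk a (et x c s b)

instance (x : Ix N n → A) (c : k) (s : B) (a : Ideal B) [a.IsPrime] : (eB x c s a).IsPrime :=
  inferInstanceAs (vanw k _ _).IsPrime

end

section

variable {E : Type} [Field E] [Algebra k E]

/-- The place `P` is centred at `y`. -/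
def Ctr (P : Place k E) (ξ : Fin (N + 1) → E) (y : NP k N) : Prop :=
  ∀ j, P.v (ξ j / ξ y.piv - algebraMap k E (y.1 j)) < 1

/-- There is only one place centred at `y`, and a form vanishes to order one there. -/
def Un (ξ : Fin (N + 1) → E) (y : NP k N) : Prop :=
  ∃ P : Place k E, Ctr P ξ y ∧ (∀ P', Ctr P' ξ y → P' = P) ∧
    ∃ (g : PP k N) (e : ℕ), g.IsHomogeneous e ∧ P.v (aeval ξ g / ξ y.piv ^ e) = exp (-1)

end

end

end Pool.Agent.P.MP_12d50c_ag
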