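import Pool.Agent.P.MP_12d50c_ag.Z.IfaceA

/-!
Statements, part B: the product with the projective line, push-forward, lifting of curves.
-/

open MvPolynomial Function WithZero IsLocalRing
open Pool.Agent.P.MP_6f117a_ag (Place FF Model Reg)
open scoped IntermediateField Polynomial

namespace Pool.Agent.P.MP_12d50c_ag

-- deps:
/-- Points of the Segre variety. -/
def Z_SP : Prop := ∀ (k : Type) [Field k] (N : ℕ) (I : Ideal (PP k N)),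
  (I.IsPrime → (SI I).IsPrime) ∧ (∀ J, I ≤ J → SI I ≤ SI J) ∧
  (∀ i j, X (il i) * X (ir j) - X (il j) * X (ir i) ∈ SI I) ∧
  (∀ (T : Type) [CommRing T] [Algebra k T] (x : Fin (N + 1) → T) (u v : T), On I x →
    On (SI I) (sg x u v)) ∧
  (Hom I → Hom (SI I) ∧ (∀ f ∈ I, rename il f ∈ SI I ∧ rename ir f ∈ SI I) ∧
    (∀ (Ω : Type) [Field Ω] [Algebra k Ω] (y : Fin (N + 1 + N + 1) → Ω), y ≠ 0 → On (SI I) y →
      ∃ (x : Fin (N + 1) → Ω) (u v : Ω), (∃ i, x i = 1) ∧ On I x ∧ (u ≠ 0 ∨ v ≠ 0) ∧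
        y = sg x u v) ∧
    ∀ y : NP k (N + 1 + N), On (SI I) y.1 →
      ∃ (x : NP k N) (u v : k), On I x.1 ∧ (u ≠ 0 ∨ v ≠ 0) ∧ y.1 = sg x.1 u v) ∧
  ∀ (x x' : NP k N) (u v : k), (u ≠ 0 ∨ v ≠ 0) → On (SI (van k x'.1)) (sg x.1 u v) → x = x'

-- deps: S_EX S_DM S_TR Z_SP
/-- The dimension of the Segre variety. -/
def Z_SD : Prop := ∀ (k : Type) [Field k] (N d : ℕ) (I : Ideal (PP k N)), I.IsPrime → Hom I →
  ringKrullDim (PP k N ⧸ I) = (d + 1 : ℕ) →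
  ringKrullDim (PP k (N + 1 + N) ⧸ SI I) = (d + 1 + 1 : ℕ)

-- deps: S_NS0 Z_SP Z_SD
/-- The Segre variety is smooth. -/
def Z_SIS : Prop := ∀ (k : Type) [Field k] (N : ℕ),
  (∀ (d : ℕ) (I : Ideal (PP k N)), IsSm d I → IsSm (d + 1) (SI I)) ∧
  ∀ y : NP k N, IsSm 0 (van k y.1)

-- deps:
/-- The image and the function field of a generic point. -/
def Z_DG0 : Prop := ∀ (k : Type) [Field k] (N n : ℕ) (Q : Ideal (RR k (N + 1 + N) n)) (E L : Type)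
  [Field E] [Field L] [Algebra k E] [Algebra k L] [Algebra E L] [IsScalarTower k E L]
  (ξ : Ix N n → E) (u v : L), LD Q ξ u v →
  prj Q = vanw k (wt N n) ξ ∧
  Gen k (wt (N + 1 + N) n) (lf (fun a => algebraMap E L (ξ a)) u v) ∧
  (∀ a b : k, algebraMap k L a * u + algebraMap k L b * v ≠ 0 → Q.comap (rh a b) = prj Q) ∧
  (∀ c : L, c ≠ 0 → LD Q ξ (c * u) (c * v)) ∧
  ∀ i, ξ (.inl i) ≠ 0 → LD Q (fun a => (ξ (.inl i))⁻¹ ^ wt N n a * ξ a) u v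

-- deps: S_EMB Z_DG0
/-- The degree is well defined. -/
def Z_DG : Prop := ∀ (k : Type) [Field k] (N n : ℕ) (Q : Ideal (RR k (N + 1 + N) n)) (E L : Type)
  [Field E] [Field L] [Algebra k E] [Algebra k L] [Algebra E L] [IsScalarTower k E L]
  (ξ : Ix N n → E) (u v : L), LD Q ξ u v → dg Q = Module.finrank E L

-- deps: S_EX S_VP0 Z_SP Z_DG0
/-- Existence of generic points. -/
def Z_EXL : Prop := ∀ (k : Type) [Field k] (N n : ℕ) (I : Ideal (PP k N))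
  (Q : Ideal (RR k (N + 1 + N) n)), Hom I →
  (Adm (SI I) Q → Adm I (prj Q) ∧ ∀ i, X (.inl i) ∉ prj Q →
    ∃ (E L : Type) (_ : Field E) (_ : Field L) (_ : Algebra k E) (_ : Algebra k L)
      (_ : Algebra E L) (_ : IsScalarTower k E L) (ξ : Ix N n → E) (u v : L),
      LD Q ξ u v ∧ ξ (.inl i) = 1) ∧
  ∀ (E L : Type) [Field E] [Field L] [Algebra k E] [Algebra k L] [Algebra E L]
    [IsScalarTower k E L] (ξ : Ix N n → E) (u v : L), LD Q ξ u v → Adm I (vanw k (wt N n) ξ) →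
    Adm (SI I) Q

-- deps: S_DM Z_DG0 Z_DG Z_EXL
/-- Dimensions of images. -/
def Z_DD : Prop := ∀ (k : Type) [Field k] (N n : ℕ) (I : Ideal (PP k N))
  (Q : Ideal (RR k (N + 1 + N) n)), Hom I → Adm (SI I) Q →
  ∃ r : ℕ, ringKrullDim (RR k N n ⧸ prj Q) = (r + 1 : ℕ) ∧
    (dg Q ≠ 0 → ringKrullDim (RR k (N + 1 + N) n ⧸ Q) = (r + 1 : ℕ)) ∧
    (dg Q = 0 → ringKrullDim (RR k (N + 1 + N) n ⧸ Q) = (r + 1 + 1 : ℕ))

-- deps: S_VP0 Z_DG Z_EXL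
/-- The projection and the faces. -/
def Z_PF : Prop := ∀ (k : Type) [Field k] (N n : ℕ),
  (∀ Q Q' : Ideal (RR k (N + 1 + N) n), Q ≤ Q' → prj Q ≤ prj Q') ∧
  (∀ (Q : Ideal (RR k (N + 1 + N) n)) (j : Fin (n + 1)), X (.inr j) ∈ prj Q ↔ X (.inr j) ∈ Q) ∧
  ∀ (m : ℕ) (g : Fin (m + 1) → Fin (n + 1)) (Q : Ideal (RR k (N + 1 + N) m)),
    prj (Q.comap (smap g)) = (prj Q).comap (smap g) ∧
    ∀ I : Ideal (PP k N), Hom I → Injective g → Adm (SI I) Q → dg (Q.comap (smap g)) = dg Q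

-- deps: S_EX Z_DG0 Z_DG Z_EXL
/-- Either the whole fibre lies on `W`, or some constant section misses `W`. -/
def Z_CHA : Prop := ∀ (k : Type) [Field k] [Infinite k] (N n : ℕ) (I : Ideal (PP k N))
  (W : Ideal (RR k (N + 1 + N) n)) (q : Ideal (RR k N n)), Hom I → Adm (SI I) W → Adm I q →
  (∃ Q, Adm (SI I) Q ∧ W ≤ Q ∧ prj Q = q ∧ dg Q = 0) ∨
    ∃ (c : k) (G : RR k (N + 1 + N) n) (d : ℕ), IsWeightedHomogeneous (wt (N + 1 + N) n) G d ∧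
      G ∈ W ∧ sb (-c) 1 G ∉ q

-- deps:
/-- The leading coefficient on a line. -/
def Z_LC : Prop := ∀ (k : Type) [Field k] (N n d : ℕ) (A : Type) [CommRing A] [Algebra k A]
  (ξ : Ix N n → A) (a b : A) (G : RR k (N + 1 + N) n),
  IsWeightedHomogeneous (wt (N + 1 + N) n) G d →
  (aeval (lf (fun c => Polynomial.C (ξ c)) (1 + Polynomial.C a * Polynomial.X)
      (Polynomial.C b * Polynomial.X)) G).natDegree ≤ d ∧
    (aeval (lf (fun c => Polynomial.C (ξ c)) (1 + Polynomial.C a * Polynomial.X)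
      (Polynomial.C b * Polynomial.X)) G).coeff d = aeval (lf ξ a b) G

-- deps: Z_DG0 Z_EXL Z_LC
/-- A section that misses `W` gives an integral equation. -/
def Z_CHI : Prop := ∀ (k : Type) [Field k] (N n d : ℕ) (G : RR k (N + 1 + N) n) (c : k),
  IsWeightedHomogeneous (wt (N + 1 + N) n) G d →
  (∀ (A L : Type) [CommRing A] [CommRing L] [Algebra k A] [Algebra k L] [Algebra A L]
    [IsScalarTower k A L] (x : Ix N n → A) (s : L), IsUnit (aeval x (sb (-c) 1 G)) →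
    aeval (lf (fun a => algebraMap A L (x a)) (1 - algebraMap k L c * s) s) G = 0 →
    IsIntegral A s) ∧
  (∀ (Q : Ideal (RR k (N + 1 + N) n)) (E L : Type) [Field E] [Field L] [Algebra k E] [Algebra k L]
    [Algebra E L] [IsScalarTower k E L] (ξ : Ix N n → E) (u v : L), LD Q ξ u v → G ∈ Q →
    sb (-c) 1 G ∉ prj Q → u + algebraMap k L c * v ≠ 0) ∧
  ∀ (I : Ideal (PP k N)) (Q : Ideal (RR k (N + 1 + N) n)) (i : Fin (N + 1)), Hom I →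
    Adm (SI I) Q → G ∈ Q → sb (-c) 1 G ∉ prj Q → X (.inl i) ∉ prj Q → rh 1 c (X (.inl i)) ∉ Q

-- deps: S_LOC S_FL Z_DG0 Z_EXL Z_CHI
/-- The finite chart. -/
def Z_CHB : Prop := ∀ (k : Type) [Field k] (N n : ℕ) (I : Ideal (PP k N))
  (W : Ideal (RR k (N + 1 + N) n)) (q : Ideal (RR k N n)) [q.IsPrime] (c : k)
  (G : RR k (N + 1 + N) n) (d : ℕ), Hom I → Adm (SI I) W → Adm I q → prj W ≤ q →
  IsWeightedHomogeneous (wt (N + 1 + N) n) G d → G ∈ W → sb (-c) 1 G ∉ q →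
  ∃ (A B E L : Type) (_ : CommRing A) (_ : CommRing B) (_ : Field E) (_ : Field L)
    (_ : Algebra k A) (_ : Algebra k B) (_ : Algebra k E) (_ : Algebra k L) (_ : Algebra A B)
    (_ : Algebra E L) (_ : IsScalarTower k A B) (_ : IsScalarTower k E L) (φ : A →ₐ[k] E)
    (β : B →ₐ[k] L) (x : Ix N n → A) (i : Fin (N + 1)) (s : B), CD I W q φ β x i c s

-- deps:
/-- The elements of the finite algebra. -/
def Z_LB0 : Prop := ∀ (k : Type) [Field k] (N n : ℕ) (I : Ideal (PP k N))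
  (W : Ideal (RR k (N + 1 + N) n)) (q : Ideal (RR k N n)) [q.IsPrime] (A B E L : Type) [CommRing A]
  [CommRing B] [Field E] [Field L] [Algebra k A] [Algebra k B] [Algebra k E] [Algebra k L]
  [Algebra A B] [Algebra E L] [IsScalarTower k A B] [IsScalarTower k E L] (φ : A →ₐ[k] E)
  (β : B →ₐ[k] L) (x : Ix N n → A) (i : Fin (N + 1)) (c : k) (s : B), CD I W q φ β x i c s →
  (∀ a, β (et x c s a) =
    lf (fun a => algebraMap E L (φ (x a))) (1 - algebraMap k L c * β s) (β s) a) ∧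
  (∀ f, aeval (et x c s) (rh 1 c f) = algebraMap A B (aeval x f)) ∧
  (∀ b : B, ∃ (G : RR k (N + 1 + N) n) (h : RR k N n) (d : ℕ),
    IsWeightedHomogeneous (wt (N + 1 + N) n) G d ∧ IsWeightedHomogeneous (wt N n) h d ∧ h ∉ q ∧
      b * algebraMap A B (aeval x h) = aeval (et x c s) G) ∧
  (∀ G d, IsWeightedHomogeneous (wt (N + 1 + N) n) G d → (G ∈ W ↔ aeval (et x c s) G = 0)) ∧
  (∀ (a : Ideal B) G d, IsWeightedHomogeneous (wt (N + 1 + N) n) G d →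
    (G ∈ eB x c s a ↔ aeval (et x c s) G ∈ a)) ∧
  (∀ a a' : Ideal B, eB x c s a = eB x c s a' → a = a') ∧
  (∀ y : E, ∃ a a' : A, φ a' ≠ 0 ∧ φ a = y * φ a') ∧
  ∀ y : L, ∃ b b' : B, β b' ≠ 0 ∧ β b = y * β b'

-- deps: Z_DG0 Z_DG Z_EXL Z_LB0
/-- Maximal ideals give primes in the fibre. -/
def Z_LB1 : Prop := ∀ (k : Type) [Field k] (N n : ℕ) (I : Ideal (PP k N))
  (W : Ideal (RR k (N + 1 + N) n)) (q : Ideal (RR k N n)) [q.IsPrime] (A B E L : Type) [CommRing A]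
  [CommRing B] [Field E] [Field L] [Algebra k A] [Algebra k B] [Algebra k E] [Algebra k L]
  [Algebra A B] [Algebra E L] [IsScalarTower k A B] [IsScalarTower k E L] (φ : A →ₐ[k] E)
  (β : B →ₐ[k] L) (x : Ix N n → A) (i : Fin (N + 1)) (c : k) (s : B), CD I W q φ β x i c s →
  ∀ a : Ideal B, a.IsMaximal →
  Adm (SI I) (eB x c s a) ∧ W ≤ eB x c s a ∧ prj (eB x c s a) = q ∧
    (dg (eB x c s a) : ℕ∞) = Module.length A (B ⧸ a)

-- deps: Z_DG0 Z_EXL Z_LB0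
/-- Primes in the fibre come from maximal ideals. -/
def Z_LB2 : Prop := ∀ (k : Type) [Field k] (N n : ℕ) (I : Ideal (PP k N))
  (W : Ideal (RR k (N + 1 + N) n)) (q : Ideal (RR k N n)) [q.IsPrime] (A B E L : Type) [CommRing A]
  [CommRing B] [Field E] [Field L] [Algebra k A] [Algebra k B] [Algebra k E] [Algebra k L]
  [Algebra A B] [Algebra E L] [IsScalarTower k A B] [IsScalarTower k E L] (φ : A →ₐ[k] E)
  (β : B →ₐ[k] L) (x : Ix N n → A) (i : Fin (N + 1)) (c : k) (s : B), CD I W q φ β x i c s →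
  ∀ Q, Adm (SI I) Q → W ≤ Q → prj Q = q → ∃ a : Ideal B, a.IsMaximal ∧ eB x c s a = Q

-- deps: S_LOC S_FL Z_LB0
/-- Comparison of lengths. -/
def Z_LB3 : Prop := ∀ (k : Type) [Field k] (N n : ℕ) (I : Ideal (PP k N))
  (W : Ideal (RR k (N + 1 + N) n)) (q : Ideal (RR k N n)) [q.IsPrime] (A B E L : Type) [CommRing A]
  [CommRing B] [Field E] [Field L] [Algebra k A] [Algebra k B] [Algebra k E] [Algebra k L]
  [Algebra A B] [Algebra E L] [IsScalarTower k A B] [IsScalarTower k E L] (φ : A →ₐ[k] E)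
  (β : B →ₐ[k] L) (x : Ix N n → A) (i : Fin (N + 1)) (c : k) (s : B), CD I W q φ β x i c s →
  ∀ (a : Ideal B) [a.IsPrime] (j : Fin (n + 1)),
    len (W ⊔ Ideal.span {X (.inr j)}) (eB x c s a) =
      len (Ideal.span {algebraMap A B (x (.inr j))}) a

-- deps:
-- imports: Pool.Agent.P.MP_638e8a_ag.ChA3 Pool.Agent.P.MP_638e8a_ag.ChA4 Pool.Agent.P.MP_638e8a_ag.ChA2b
/-- Orders in finite extensions of one-dimensional domains. -/
def Z_FINL : Prop := ∀ (A B K L : Type) [CommRing A] [IsLocalRing A] [IsNoetherianRing A]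
  [CommRing B] [Algebra A B] [Module.Finite A B] [Field K] [Field L] [Algebra K L]
  (φ : A →+* K) (β : B →+* L) (τ : A), Injective φ →
  (∀ x : K, ∃ a a', φ a' ≠ 0 ∧ φ a = x * φ a') → Injective β →
  (∀ x : L, ∃ b b', β b' ≠ 0 ∧ β b = x * β b') →
  (∀ r, algebraMap K L (φ r) = β (algebraMap A B r)) → ringKrullDim A ≤ 1 → τ ≠ 0 →
  Finite (MaximalSpectrum B) ∧
  ∑ᶠ a : MaximalSpectrum B, (Module.length A (B ⧸ a.asIdeal)).toNat *
      (len (Ideal.span {algebraMap A B τ}) a.asIdeal).toNat =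
    Module.finrank K L * (lq (Ideal.span {τ})).toNat

-- deps: Z_DG0 Z_DG Z_PF Z_CHA Z_CHB Z_LB0 Z_LB1 Z_LB2 Z_LB3 Z_FINL
/-- Push-forward of divisors of the coordinates. -/
def Z_PL : Prop := ∀ (k : Type) [Field k] [Infinite k] (N n r : ℕ) (I : Ideal (PP k N))
  (W : Ideal (RR k (N + 1 + N) n)) (q : PrimeSpectrum (RR k N n)) (j : Fin (n + 1)), Hom I →
  Adm (SI I) W → Adm I q.asIdeal → ringKrullDim (RR k N n ⧸ prj W) = (r + 1 : ℕ) →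
  ringKrullDim (RR k N n ⧸ q.asIdeal) = (r : ℕ) → X (.inr j) ∉ W →
  (∀ Q, Adm (SI I) Q → W ≤ Q → prj Q = q.asIdeal → dg Q ≠ 0) →
  {Q : PrimeSpectrum (RR k (N + 1 + N) n) |
    Adm (SI I) Q.asIdeal ∧ W ≤ Q.asIdeal ∧ prj Q.asIdeal = q.asIdeal}.Finite ∧
  ∑ᶠ Q ∈ {Q : PrimeSpectrum (RR k (N + 1 + N) n) |
      Adm (SI I) Q.asIdeal ∧ W ≤ Q.asIdeal ∧ prj Q.asIdeal = q.asIdeal},
      dg Q.asIdeal * (len (W ⊔ Ideal.span {X (.inr j)}) Q.asIdeal).toNat =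
    dg W * (len (prj W ⊔ Ideal.span {X (.inr j)}) q.asIdeal).toNat

-- deps: S_VP0 Z_FC Z_PRP Z_EXL Z_DD Z_PF Z_CHA Z_CHB Z_LB1 Z_SUB
-- imports: Pool.Agent.P.MP_12d50c_ag.TM3
/-- Images of admissible subvarieties. -/
def Z_PU1 : Prop := ∀ (k : Type) [Field k] [Infinite k] (N n : ℕ) (I : Ideal (PP k N)), Hom I →
  (∀ W ∈ Cv (SI I) n, dg W.asIdeal ≠ 0 → ∃ V ∈ Cv I n, V.asIdeal = prj W.asIdeal ∧
    (Prp (SI I) W.asIdeal → Prp I V.asIdeal)) ∧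
  ∀ W ∈ Cv (SI I) (n + 1), Prp (SI I) W.asIdeal → dg W.asIdeal = 0 →
    ∀ Q ∈ Cv (SI I) n, bdA W.asIdeal Q ≠ 0 → dg Q.asIdeal = 0

-- deps: S_VP0 Z_FC Z_PRP Z_DD Z_PF Z_PL
-- imports: Pool.Agent.P.MP_12d50c_ag.TM3
/-- Push-forward commutes with the restriction to a face. -/
def Z_PU2 : Prop := ∀ (k : Type) [Field k] [Infinite k] (N n : ℕ) (I : Ideal (PP k N))
  (j : Fin (n + 2)), Hom I → ∀ W ∈ Cv (SI I) (n + 1), Prp (SI I) W.asIdeal → dg W.asIdeal ≠ 0 →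
  ∀ q ∈ Cv I n, ∑ᶠ Q ∈ {Q ∈ Cv (SI I) n | prj Q.asIdeal = q.asIdeal},
      dg Q.asIdeal * (len (W.asIdeal.map (smap j.succAbove)) Q.asIdeal).toNat =
    dg W.asIdeal * (len ((prj W.asIdeal).map (smap j.succAbove)) q.asIdeal).toNat

-- deps: S_FINB Z_PU1 Z_PU2
/-- Push-forward commutes with the boundary. -/
def Z_PS : Prop := ∀ (k : Type) [Field k] [Infinite k] (N n : ℕ) (I : Ideal (PP k N))
  (ψ : Ideal (RR k N n) → ℚ), Hom I → ∀ W ∈ Cv (SI I) (n + 1), Prp (SI I) W.asIdeal →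
  ∑ᶠ Q ∈ Cv (SI I) n, dg Q.asIdeal * ψ (prj Q.asIdeal) * bdA W.asIdeal Q =
    dg W.asIdeal * ∑ᶠ q ∈ Cv I n, ψ q.asIdeal * bdA (prj W.asIdeal) q

-- deps: S_EX S_DM
/-- Function fields of curves. -/
def Z_CUF : Prop := ∀ (k : Type) [Field k] (N : ℕ),
  (∀ (E : Type) [Field E] [Algebra k E] (ξ : Fin (N + 1) → E), CvD k ξ →
    FF k E ∧ ∀ i, ξ i ≠ 0 → ∃ j, Transcendental k (ξ j / ξ i)) ∧
  ∀ I : Ideal (PP k N), ∀ p ∈ Cu I, ∃ (E : Type) (_ : Field E) (_ : Algebra k E)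
    (ξ : Fin (N + 1) → E), CvD k ξ ∧ van k ξ = p.asIdeal

-- deps: S_PLACE Z_CUF
/-- Centres of places. -/
def Z_CTR : Prop := ∀ (k : Type) [Field k] [IsAlgClosed k] (N : ℕ) (E : Type) [Field E]
  [Algebra k E] (ξ : Fin (N + 1) → E), CvD k ξ → (∀ P : Place k E, ∃ y, Ctr P ξ y) ∧
  (∀ (P : Place k E) (y : NP k N), Ctr P ξ y → ξ y.piv ≠ 0 ∧ On (van k ξ) y.1 ∧
    (∀ y', Ctr P ξ y' → y' = y) ∧ (∀ j, P.v (ξ j / ξ y.piv) ≤ 1) ∧
    ∀ (g : PP k N) (e : ℕ), g.IsHomogeneous e →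
      P.v (aeval ξ g / ξ y.piv ^ e - algebraMap k E (aeval y.1 g)) < 1) ∧
  ∀ y : NP k N, On (van k ξ) y.1 →
    (∃ P : Place k E, Ctr P ξ y) ∧ {P : Place k E | Ctr P ξ y}.Finite

-- deps: S_DM S_PLACE Z_CUF
/-- Noether normalization of an affine chart of a curve. -/
def Z_NRM : Prop := ∀ (k : Type) [Field k] [IsAlgClosed k] (N : ℕ) (E : Type) [Field E]
  [Algebra k E] (ξ : Fin (N + 1) → E) (i : Fin (N + 1)), CvD k ξ → ξ i ≠ 0 →
  ∃ (g : PP k N) (e : ℕ), g.IsHomogeneous e ∧ Transcendental k (aeval ξ g / ξ i ^ e) ∧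
    ∀ j, Reg k (aeval ξ g / ξ i ^ e) (ξ j / ξ i)

-- deps: S_NSP S_PLACE Z_CUF Z_CTR Z_NRM
/-- Almost all points of a curve are smooth. -/
def Z_GS : Prop := ∀ (k : Type) [Field k] [IsAlgClosed k] (N : ℕ) (E : Type) [Field E]
  [Algebra k E] (ξ : Fin (N + 1) → E), CvD k ξ →
  {y : NP k N | On (van k ξ) y.1 ∧ ¬ Un ξ y}.Finite

-- deps: S_AVOID S_PLACE Z_CUF Z_CTR Z_NRM
/-- At a unibranch point the valuation ring is finite over the local ring. -/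
def Z_SM1 : Prop := ∀ (k : Type) [Field k] [IsAlgClosed k] (N : ℕ) (E : Type) [Field E]
  [Algebra k E] (ξ : Fin (N + 1) → E) (P : Place k E) (y : NP k N), CvD k ξ → Ctr P ξ y →
  (∀ P', Ctr P' ξ y → P' = P) → ∃ S : Finset E, ∀ u, P.v u ≤ 1 ↔
    u ∈ Submodule.span (locw 1 ξ (van k y.1)) (S : Set E)

-- deps: S_LOC S_FL S_PLACE Z_TD Z_CUF Z_CTR Z_SM1
/-- A criterion for smoothness. -/
def Z_SML : Prop := ∀ (k : Type) [Field k] [IsAlgClosed k] (N : ℕ) (E : Type) [Field E]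
  [Algebra k E] (ξ : Fin (N + 1) → E) (y : NP k N), CvD k ξ → Un ξ y →
  Module.finrank k (Tan (van k ξ) y.1) ≤ 2

-- deps: S_PLACE
/-- Approximation. -/
def Z_WA : Prop := ∀ (k E : Type) [Field k] [IsAlgClosed k] [Field E] [Algebra k E] [FF k E]
  (S : Set (Place k E)) (c : Place k E → k) (s : E), S.Finite → Transcendental k s →
  ∃ t : E, ∀ P ∈ S, P.v (t - algebraMap k E (c P)) = exp (-1)

-- deps: S_DM Z_CTR
/-- The graph of a function on a curve. -/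
def Z_CT2 : Prop := ∀ (k : Type) [Field k] [IsAlgClosed k] (N : ℕ) (E : Type) [Field E]
  [Algebra k E] (ξ : Fin (N + 1) → E) (t : E), CvD k ξ → CvD k (sg ξ 1 t) ∧
  ∀ (y' : NP k (N + 1 + N)) (y : NP k N) (u v : k), y'.1 = sg y.1 u v →
    (∀ P : Place k E, Ctr P (sg ξ 1 t) y' → Ctr P ξ y ∧
      (P.v t ≤ 1 → u = 1 ∧ P.v (t - algebraMap k E v) < 1)) ∧
    (On (van k (sg ξ 1 t)) y'.1 → Un ξ y → Un (sg ξ 1 t) y') ∧
    ∀ (P : Place k E) (c : k), Ctr P (sg ξ 1 t) y' → (∀ P', Ctr P' (sg ξ 1 t) y' → P' = P) →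
      P.v (t - algebraMap k E c) = exp (-1) → Un (sg ξ 1 t) y'

-- deps: Z_SP Z_CUF Z_CTR Z_GS Z_SML Z_WA Z_CT2
/-- A smooth lift of one curve. -/
def Z_LF1 : Prop := ∀ (k : Type) [Field k] [IsAlgClosed k] (N : ℕ) (E : Type) [Field E]
  [Algebra k E] (ξ : Fin (N + 1) → E) (Z : Set (NP k N)) (B : Set k), CvD k ξ → Z.Finite →
  B.Finite → ∃ (t : E) (B' : Set k), B'.Finite ∧ Disjoint B B' ∧
    (∀ y' : NP k (N + 1 + N), On (van k (sg ξ 1 t)) y'.1 →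
      Module.finrank k (Tan (van k (sg ξ 1 t)) y'.1) ≤ 2) ∧
    ∀ (y' : NP k (N + 1 + N)) (u v : k), ∀ y ∈ Z, y'.1 = sg y.1 u v →
      On (van k (sg ξ 1 t)) y'.1 → u = 1 ∧ v ∈ B'

-- deps: S_EX S_DM S_EMB Z_DG0 Z_DG
/-- Lifting curves in the product with the simplex. -/
def Z_LQ : Prop := ∀ (k : Type) [Field k] (N : ℕ) (I : Ideal (PP k N)) (E : Type) [Field E]
  [Algebra k E] (ξ : Fin (N + 1) → E) (t : E), CvD k ξ → ∀ Q ∈ Cv I 1,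
  Q.asIdeal.comap (inc 1) = van k ξ →
  ∃ Q' ∈ Cv (van k (sg ξ 1 t)) 1, prj Q'.asIdeal = Q.asIdeal ∧ dg Q'.asIdeal = 1

-- deps: S_NSP S_FINC Z_SP Z_CUF Z_CT2 Z_LF1 Z_LQ
/-- Disjoint smooth lifts of finitely many curves. -/
def Z_LF : Prop := ∀ (k : Type) [Field k] [IsAlgClosed k] (N : ℕ) (I : Ideal (PP k N))
  (S : Finset (PrimeSpectrum (PP k N))), (∀ p ∈ S, p ∈ Cu I) →
  ∃ L : PrimeSpectrum (PP k N) → PrimeSpectrum (PP k (N + 1 + N)),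
    (∀ p ∈ S, L p ∈ Cu (SI I) ∧ (∀ y : NP k (N + 1 + N), On (L p).asIdeal y.1 →
        Module.finrank k (Tan (L p).asIdeal y.1) ≤ 2) ∧
      ∀ Q ∈ Cv I 1, Q.asIdeal.comap (inc 1) = p.asIdeal →
        ∃ Q' ∈ Cv (L p).asIdeal 1, prj Q'.asIdeal = Q.asIdeal ∧ dg Q'.asIdeal = 1) ∧
    ∀ p ∈ S, ∀ q ∈ S, ∀ y : NP k (N + 1 + N), On (L p).asIdeal y.1 → On (L q).asIdeal y.1 → p = q

-- deps: Z_UNI Z_SUB Z_SP Z_SIS Z_LF
/-- A good ideal that contains lifts of given curves and given fibres. -/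
def Z_TJ : Prop := ∀ (k : Type) [Field k] [IsAlgClosed k] (N : ℕ) (I : Ideal (PP k N))
  (S : Set (PrimeSpectrum (PP k N))) (Z : Set (NP k N)), S.Finite → Z.Finite →
  (∀ p ∈ S, p ∈ Cu I) → (∀ y ∈ Z, On I y.1) → Hom I →
  ∃ J : Ideal (PP k (N + 1 + N)), Gd J ∧ SI I ≤ J ∧ (∀ y ∈ Z, J ≤ SI (van k y.1)) ∧
    ∀ p ∈ S, ∀ Q ∈ Cv I 1, Q.asIdeal.comap (inc 1) = p.asIdeal →
      ∃ Q' ∈ Cv J 1, prj Q'.asIdeal = Q.asIdeal ∧ dg Q'.asIdeal = 1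

-- deps: S_VP Z_PT Z_SP Z_DG0 Z_DG Z_EXL
/-- Closed points of the product. -/
def Z_P0 : Prop := ∀ (k : Type) [Field k] [IsAlgClosed k] (N : ℕ) (I : Ideal (PP k N)), Hom I →
  ∀ z ∈ Cv (SI I) 0, dg z.asIdeal = 1 ∧ ∃ y : NP k N, On I y.1 ∧
    prj z.asIdeal = cyl (van k y.1) 0 ∧ ∀ z' ∈ Cv (SI I) 0, prj z'.asIdeal = prj z.asIdeal →
      z' ∈ Cv (SI (van k y.1)) 0

-- deps: S_PT0 S_CL Z_SUB Z_PT Z_LINE Z_SP Z_SIS Z_PU1
-- imports: Pool.Agent.P.MP_12d50c_ag.TM3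
/-- The factorization is constant on fibres. -/
def Z_FIBC : Prop := ∀ (k : Type) [Field k] [IsAlgClosed k] (N : ℕ) (I : Ideal (PP k N))
  (φ : Ideal (RR k N 1) → ℚ) (χ : PrimeSpectrum (RR k (N + 1 + N) 0) → ℚ) (y : NP k N),
  Hom I → Kills I φ → On I y.1 → Fac (SI (van k y.1)) (ph φ) χ →
  ∀ z ∈ Cv (SI (van k y.1)) 0, ∀ z' ∈ Cv (SI (van k y.1)) 0, χ z = χ z'

-- deps: S_VP0 Z_SUB Z_PRP Z_PF Z_PS Z_P0
/-- Transfer of the factorization to one curve. -/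
def Z_TQ : Prop := ∀ (k : Type) [Field k] [IsAlgClosed k] (N : ℕ) (I : Ideal (PP k N))
  (J : Ideal (PP k (N + 1 + N))) (φ : Ideal (RR k N 1) → ℚ)
  (χ : PrimeSpectrum (RR k (N + 1 + N) 0) → ℚ) (ψ : Ideal (RR k N 0) → ℚ), Hom I → SI I ≤ J →
  Fac J (ph φ) χ → ∀ Q ∈ Cv I 1, Prp I Q.asIdeal → ∀ Q' ∈ Cv J 1, prj Q'.asIdeal = Q.asIdeal →
  dg Q'.asIdeal = 1 → (∀ z ∈ Cv (SI I) 0,
    (∃ j : Fin 2, Q.asIdeal.map (smap j.succAbove) ≤ prj z.asIdeal) → χ z = ψ (prj z.asIdeal)) →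
  φ Q.asIdeal = ∑ᶠ z ∈ Cv I 0, ψ z.asIdeal * bdA Q.asIdeal z

-- deps: S_VP0 S_CL S_FINB S_PT0 Z_SUB Z_FACT Z_PT Z_IND Z_SIS Z_PU1 Z_PS Z_TJ Z_P0 Z_FIBC Z_TQ
/-- The theorem over the algebraic closure, in all dimensions. -/
def Z_TAL : Prop := ∀ (k : Type) [Field k] [IsAlgClosed k] (p : ℕ) [Fact p.Prime] [CharP k p]
  (N d : ℕ) (I : Ideal (PP k N)), LocFin k p → IsSm d I → TA I

end Pool.Agent.P.MP_12d50c_ag
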