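import Pool.Agent.P.MP_12d50c_ag.Z.IfaceB
import Pool.Agent.P.MP_12d50c_ag.If5

/-!
Statements, part C: from schemes to coordinates.
-/

open CategoryTheory AlgebraicGeometry IsLocalRing MvPolynomial Limits
open Pool.Agent.P.MP_638e8a_ag.Cyc (St Rf ev stm primeOf)
open Pool.Agent.P.MP_90138e_ag (projSpace IsProjective)
open scoped TensorProduct

namespace Pool.Agent.P.MP_12d50c_ag

/-- The dictionary between points of `Y × Δ^n` and admissible primes, for `Y = V(I) - V(J)`. -/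
structure BrU {F : Type} [Field F] (d : ℕ) (Y : Scheme.{0}) {N : ℕ} (I J : Ideal (PP F N))
    (pt : ∀ n, XD Y n → PrimeSpectrum (RR F N n)) : Prop where
  adm : ∀ n y, Adm I (pt n y).asIdeal
  out : ∀ n y, ¬ cyl J n ≤ (pt n y).asIdeal
  le : ∀ n y y', y ≤ y' ↔ (pt n y').asIdeal ≤ (pt n y).asIdeal
  surj : ∀ n q, Adm I q → ¬ cyl J n ≤ q → ∃ y, (pt n y).asIdeal = q
  face : ∀ m n (g : Fin (m + 1) → Fin (n + 1)) z,
    (pt n (face Y g z)).asIdeal = (pt m z).asIdeal.comap (smap g)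
  dim : ∀ n y, ((Order.coheight y : ℕ∞) : WithBot ℕ∞) +
    ringKrullDim (RR F N n ⧸ (pt n y).asIdeal) = (d + 1 + n : ℕ)
  mult : ∀ m n (g : Fin (m + 1) → Fin (n + 1)) w z,
    mult (Pool.Agent.P.MP_12d50c_ag.face Y g) w z =
      (len ((pt n w).asIdeal.map (smap g)) (pt m z).asIdeal).toNat

/-- The functional on admissible primes, extended by zero. -/
noncomputable def exz {F : Type} [Field F] {Y : Scheme.{0}} {N : ℕ}
    (pt : ∀ n, XD Y n → PrimeSpectrum (RR F N n)) (ψ : (XD Y 1 →₀ ℤ) →+ ℚ) :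
    Ideal (RR F N 1) → ℚ :=
  Function.extend (fun y => (pt 1 y).asIdeal) (fun y => ψ (Finsupp.single y 1)) 0

/-- The map induced by the inclusion of an open subscheme. -/
noncomputable def opn {Y : Scheme.{0}} (U : Y.Opens) (n : ℕ) : XD U n ⟶ XD Y n :=
  prod.map U.ι (𝟙 _)

-- deps: S_DM S_RD1 S_PTS1 S_PTS2 S_PTS3 S_SMO1 S_SMO2 S_GI1 S_GI2
-- imports: Pool.Agent.P.MP_12d50c_ag.TSURF
/-- The variety in coordinates. -/
def Z_SMX : Prop := ∀ (F k : Type) [Field F] [Field k] [Algebra F k] [IsGalois F k] (d : ℕ)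
  (X : Over (Spec (.of F))) [SmoothOfRelativeDimension d X.hom] [GeometricallyIntegral X.hom]
  [IsIntegral X.left] (N : ℕ) (I : Ideal (PP F N)) (c : CS (Y := X.left) X.hom 1 I),
  IsProjective X → c.pt (genericPoint X.left) = I →
  I.IsPrime ∧ Rel I ∧ ringKrullDim (PP F N ⧸ I) = (d + 1 : ℕ) ∧ IsSm d (I.map (ext F k _)) ∧
    TopologicalSpace.NoetherianSpace X.left

-- deps: S_VP0 S_VP S_PTS1 S_PTS3 S_INTD
-- imports: Pool.Agent.P.MP_12d50c_ag.TBRM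
def Z_BRD : Prop := ∀ (F : Type) [Field F] (d : ℕ) (Y : Scheme.{0}) [IsIntegral Y]
  (κ : Y ⟶ Spec (.of F)) (N : ℕ) (I : Ideal (PP F N))
  (c : ∀ n, CS (kap κ n) (wt N n) (cyl I n)), Compat c → I.IsPrime → Hom I → Rel I →
  ringKrullDim (PP F N ⧸ I) = (d + 1 : ℕ) →
  BrU d Y I ⊤ fun n y => ⟨(c n).pt y, inferInstance⟩

-- deps:
-- imports: Pool.Agent.P.MP_12d50c_ag.TINTD
/-- Open subschemes. -/
def Z_OPN : Prop := ∀ (Y : Scheme.{0}) (U : Y.Opens),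
  (∀ n, IsOpenImmersion (opn U n) ∧
    (∀ w : XD Y n, w ∈ Set.range (opn U n) ↔ face Y (fun _ => (0 : Fin 1)) w ∈ Set.range (opn U 0))) ∧
  (∀ (m n : ℕ) (g : Fin (m + 1) → Fin (n + 1)), face U g ≫ opn U n = opn U m ≫ face Y g) ∧
  (TopologicalSpace.NoetherianSpace Y → TopologicalSpace.NoetherianSpace (XD Y 0))

-- deps:
/-- Open immersions preserve the order, codimensions and multiplicities. -/
def Z_OPM : Prop :=
  (∀ (Y Y' : Scheme.{0}) (f : Y ⟶ Y') [IsOpenImmersion f],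
    (∀ y y' : Y, y ≤ y' ↔ f y ≤ f y') ∧ ∀ y : Y, Order.coheight (f y) = Order.coheight y) ∧
  ∀ (Y Y' Z Z' : Scheme.{0}) (f : Y ⟶ Y') (g : Z ⟶ Z') [IsOpenImmersion f] [IsOpenImmersion g]
    (a : Y ⟶ Z) (a' : Y' ⟶ Z'), a ≫ g = f ≫ a' → ∀ w z, mult a w z = mult a' (g w) (f z)

-- deps: S_VP0 Z_PT Z_OPN Z_OPM
/-- The dictionary for open subschemes. -/
def Z_OPB : Prop := ∀ (F : Type) [Field F] (d : ℕ) (Y : Scheme.{0}) (N : ℕ) (I : Ideal (PP F N))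
  (pt : ∀ n, XD Y n → PrimeSpectrum (RR F N n)) (U : Y.Opens),
  TopologicalSpace.NoetherianSpace Y → BrU d Y I ⊤ pt →
  ∃ J : Ideal (PP F N), Hom J ∧ I ≤ J ∧ BrU d U I J fun n z => pt n (opn U n z)

-- deps:
-- imports: Pool.Agent.P.MP_12d50c_ag.TTOP
/-- A bound for the rank by duality. -/
def Z_RK : Prop := ∀ (A : Type) [AddCommGroup A] (C B : AddSubgroup A) (T : Type) [Fintype T]
  (S : Submodule ℚ ((A →+ ℚ) × (T → ℚ))),
  (∀ ψ : A →+ ℚ, (∀ b ∈ B, ψ b = 0) → ∃ χ, (ψ, χ) ∈ S) →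
  (∀ ψ : A →+ ℚ, (ψ, 0) ∈ S → ∀ c ∈ C, ψ c = 0) →
  Module.rank ℚ (ℚ ⊗[ℤ] (C ⧸ B.addSubgroupOf C)) ≤ Fintype.card T

-- deps: S_VP0 S_FINB Z_SUB
-- imports: Pool.Agent.P.MP_12d50c_ag.TTOP
/-- Functionals that vanish on boundaries. -/
def Z_TP1 : Prop := ∀ (F : Type) [Field F] (d : ℕ) (Y : Scheme.{0}) (N : ℕ)
  (I J : Ideal (PP F N)) (pt : ∀ n, XD Y n → PrimeSpectrum (RR F N n))
  (ψ : (XD Y 1 →₀ ℤ) →+ ℚ), BrU d Y I J pt → (∀ b ∈ boundaries Y d 1, ψ b = 0) →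
  Kills I (exz pt ψ)

-- deps: S_VP0 S_FINB Z_FC Z_SUB Z_PRP
-- imports: Pool.Agent.P.MP_12d50c_ag.TTOP
/-- Functionals that factor through the boundary. -/
def Z_TP2 : Prop := ∀ (F : Type) [Field F] (d : ℕ) (Y : Scheme.{0}) (N : ℕ)
  (I J : Ideal (PP F N)) (pt : ∀ n, XD Y n → PrimeSpectrum (RR F N n))
  (ψ : (XD Y 1 →₀ ℤ) →+ ℚ) (χ : PrimeSpectrum (RR F N 0) → ℚ), BrU d Y I J pt → I ≤ J →
  Fac I (exz pt ψ) χ → Fac J 0 χ ∧ ((∀ z ∈ Cv J 0, χ z = 0) → ∀ c ∈ cycles Y d 1, ψ c = 0)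

-- deps: S_FINB Z_SUB Z_FACT Z_RK Z_TP1 Z_TP2
-- imports: Pool.Agent.P.MP_12d50c_ag.TTOP
/-- Duality. -/
def Z_TOPU : Prop := ∀ (F : Type) [Field F] (d : ℕ) (Y : Scheme.{0}) (N : ℕ)
  (I J : Ideal (PP F N)) (pt : ∀ n, XD Y n → PrimeSpectrum (RR F N n))
  (T : Finset (PrimeSpectrum (RR F N 0))), BrU d Y I J pt → I ≤ J → TA I →
  (∀ χ, Fac J 0 χ → (∀ z ∈ T, χ z = 0) → ∀ z ∈ Cv J 0, χ z = 0) →
  Module.rank ℚ (ℚ ⊗[ℤ] CH Y d 1) ≤ T.card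

end Pool.Agent.P.MP_12d50c_ag
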