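import Pool.Agent.P.MP_12d50c_ag.All
import Pool.Agent.P.MP_12d50c_ag.Z.IfaceC

/-!
The theorem in terms of the main steps.
-/

open CategoryTheory AlgebraicGeometry TensorProduct
open Pool.Agent.P.MP_90138e_ag

namespace Pool.Agent.P.MP_12d50c_ag

theorem setup (hTAL : Z_TAL) (hSMX : Z_SMX) (hBRD : Z_BRD) (F : Type) [Field F] [Finite F] (d : ℕ)
    (X : Over (Spec (.of F))) [SmoothOfRelativeDimension d X.hom] [GeometricallyIntegral X.hom]
    (h : IsProjective X) : ∃ (N : ℕ) (I : Ideal (PP F N))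
      (pt : ∀ n, XD X.left n → PrimeSpectrum (RR F N n)),
      TopologicalSpace.NoetherianSpace X.left ∧ BrU d X.left I ⊤ pt ∧ TA I := by
  have : IsIntegral X.left := GeometricallyIntegral.isIntegral_of_subsingleton X.hom
  obtain ⟨p, hp⟩ := CharP.exists F
  have : Fact p.Prime := ⟨CharP.char_is_prime F p⟩
  have : IsGalois F (AlgebraicClosure F) := ⟨⟩
  obtain ⟨N, I, c, hc⟩ := a_CX F X h
  obtain ⟨h1, h2, h3, h4, h5⟩ := hSMX F (AlgebraicClosure F) d X N I c h hc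
  obtain ⟨c', hc'⟩ := a_CXD F X.left X.hom N I c
  exact ⟨N, I, _, h5, hBRD F d X.left X.hom N I c' hc' h1 c.hom h2 h3,
    a_RD F (AlgebraicClosure F) N I (hTAL _ p N d _ (locFin F p) h4)⟩

theorem main_zero (hTAL : Z_TAL) (hSMX : Z_SMX) (hBRD : Z_BRD) (hTOPU : Z_TOPU) (F : Type)
    [Field F] [Finite F] (d : ℕ) (X : Over (Spec (.of F))) [SmoothOfRelativeDimension d X.hom]
    [GeometricallyIntegral X.hom] (h : IsProjective X) :
    Module.rank ℚ (ℚ ⊗[ℤ] CH X.left d 1) = 0 := by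
  obtain ⟨N, I, pt, -, h1, h2⟩ := setup hTAL hSMX hBRD F d X h
  have h3 := hTOPU F d X.left N I ⊤ pt ∅ h1 le_top h2 fun χ _ _ z hz =>
    (z.isPrime.ne_top (top_le_iff.1 (le_trans (by simp [cyl, Ideal.map_top]) hz.1.le))).elim
  simpa using h3

theorem main_fin (hTAL : Z_TAL) (hSMX : Z_SMX) (hBRD : Z_BRD) (hTOPU : Z_TOPU) (hOPB : Z_OPB)
    (hC0 : Z_C0) (F : Type) [Field F] [Finite F] (d : ℕ) (X : Over (Spec (.of F)))
    [SmoothOfRelativeDimension d X.hom] [GeometricallyIntegral X.hom] (h : IsProjective X)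
    (U : X.left.Opens) : Module.rank ℚ (ℚ ⊗[ℤ] CH U d 1) < Cardinal.aleph0 := by
  obtain ⟨N, I, pt, h0, h1, h2⟩ := setup hTAL hSMX hBRD F d X h
  obtain ⟨J, h3, h4, h5⟩ := hOPB F d X.left N I pt U h0 h1
  obtain ⟨T, hT⟩ := hC0 F N J h3
  exact (hTOPU F d U N I J _ T h5 h4 h2 hT).trans_lt Cardinal.natCast_lt_aleph0

end Pool.Agent.P.MP_12d50c_ag
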