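import Pool.Agent.P.MP_12d50c_ag.Z.IfaceB
import Pool.Agent.P.MP_12d50c_ag.Z.IfaceA
import Pool.Agent.P.MP_12d50c_ag.TM3

/-!
Proofs of the steps PU1, PU2, SD, SIS, SM1.
-/

section

/-! Step PU1. -/

open MvPolynomial Function WithZero IsLocalRing
open Pool.Agent.P.MP_6f117a_ag (Place FF Model Reg)
open scoped IntermediateField Polynomial

namespace Pool.Agent.P.MP_12d50c_ag

namespace ZPU1

variable {k : Type} [Field k] {N n : ℕ} {I : Ideal (PP k N)}

theorem lo [Infinite k] (hCHA : Z_CHA) (hCHB : Z_CHB) (hLB1 : Z_LB1) (hI : Hom I)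
    {W : Ideal (RR k (N + 1 + N) n)} {q : Ideal (RR k N n)} (hW : Adm (SI I) W) (hq : Adm I q)
    (h : prj W ≤ q) : ∃ Q, Adm (SI I) Q ∧ W ≤ Q ∧ prj Q = q := by
  rcases hCHA k N n I W q hI hW hq with ⟨Q, h1, h2, h3, -⟩ | ⟨c, G, d, h1, h2, h3⟩
  · exact ⟨Q, h1, h2, h3⟩
  have := hq.prime
  obtain ⟨A, B, E, L, _, _, _, _, _, _, _, _, _, _, _, _, φ, β, x, i, s, hC⟩ :=
    hCHB k N n I W q c G d hI hW hq h h1 h2 h3
  have : Nontrivial B := β.toRingHom.domain_nontrivial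
  obtain ⟨a, ha⟩ := Ideal.exists_maximal B
  obtain ⟨h4, h5, h6, -⟩ := hLB1 k N n I W q A B E L φ β x i c s hC a ha
  exact ⟨_, h4, h5, h6⟩

theorem dle (hDD : Z_DD) (hI : Hom I) {Q : Ideal (RR k (N + 1 + N) n)} (hQ : Adm (SI I) Q) :
    ringKrullDim (RR k N n ⧸ prj Q) ≤ ringKrullDim (RR k (N + 1 + N) n ⧸ Q) := by
  obtain ⟨r, h1, h2, h3⟩ := hDD k N n I Q hI hQ
  by_cases h : dg Q = 0
  · rw [h1, h3 h]
    exact_mod_cast Nat.le_succ _
  · rw [h1, h2 h]

end ZPU1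

theorem z_PU1 (hVP0 : S_VP0) (hFC : Z_FC) (hPRP : Z_PRP) (hEXL : Z_EXL) (hDD : Z_DD)
    (hPF : Z_PF) (hCHA : Z_CHA) (hCHB : Z_CHB) (hLB1 : Z_LB1) (hSUB : Z_SUB) :
    Z_PU1 := by
  intro k _ _ N n I hI
  refine ⟨fun W hW hd => ?_, fun W hW hP hd Q hQ hb => ?_⟩
  · have hV := ((hEXL k N n I W.asIdeal hI).1 hW.1).1
    obtain ⟨r, h1, h2, -⟩ := hDD k N n I W.asIdeal hI hW.1
    refine ⟨⟨prj W.asIdeal, hV.prime⟩, ⟨hV, h1.trans ((h2 hd).symm.trans hW.2)⟩, rfl,
      fun hP m g q hq hle => ?_⟩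
    have hq0 := ((hVP0 k N n).1 m g).2.2.2.1 I q hq
    obtain ⟨Q0, a1, a2, a3⟩ := ZPU1.lo hCHA hCHB hLB1 hI hW.1 hq0
      (Ideal.map_le_iff_le_comap.1 hle)
    obtain ⟨b1, b2, -⟩ := ((hFC k N).1 m n g g.injective).1 q
    obtain ⟨c1, c2⟩ := (hFC k (N + 1 + N)).1 m n g g.injective
    obtain ⟨Q, d1, d2⟩ := c2 (SI I) Q0 a1 fun j hj => ((hPF k N n).2.1 Q0 j).1 (a3 ▸ b1 j hj)
    have e1 := hP m g Q d1 (Ideal.map_le_iff_le_comap.2 (a2.trans d2.ge))
    have e2 := ZPU1.dle hDD hI a1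
    rw [a3, b2, ← d2, (c1 Q).2.1] at e2
    exact e2.trans e1
  · by_contra hc
    obtain ⟨j, hj⟩ := ((hSUB k (N + 1 + N) (SI I) (SI I)).1 n W.asIdeal Q hb).1
    have a1 := (hPF k N (n + 1)).1 _ _ (Ideal.map_le_iff_le_comap.1 hj)
    rw [((hPF k N (n + 1)).2.2 n j.succAbove Q.asIdeal).1] at a1
    obtain ⟨b1, b2, -⟩ := ((hFC k N).1 n (n + 1) j.succAbove Fin.succAbove_right_injective).1
      (prj Q.asIdeal)
    obtain ⟨r, c1, -, c2⟩ := hDD k N (n + 1) I W.asIdeal hI hW.1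
    obtain ⟨r', d1, d2, -⟩ := hDD k N n I Q.asIdeal hI hQ.1
    have e1 : r = n := by
      have := (c2 hd).symm.trans hW.2
      norm_cast at this
      omega
    have e2 : r' = n := by
      have := (d2 hc).symm.trans hQ.2
      norm_cast at this
      omega
    have := (((hEXL k N (n + 1) I W.asIdeal hI).1 hW.1).1).prime
    have e3 : prj W.asIdeal = (prj Q.asIdeal).comap (smap j.succAbove) := by
      by_contra hne
      have h4 := M3.dim_lt (lt_of_le_of_ne a1 hne)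
      rw [b2, c1, d1, e1, e2] at h4
      norm_cast at h4
      omega
    refine (hPRP k (N + 1 + N) (SI I)).1 n W hW hP j (((hPF k N (n + 1)).2.1 _ j).1 ?_)
    rw [e3]
    exact b1 j (by simp)

end Pool.Agent.P.MP_12d50c_ag

end

section

/-! Step PU2. -/

open MvPolynomial Function WithZero IsLocalRing
open Pool.Agent.P.MP_6f117a_ag (Place FF Model Reg)
open scoped IntermediateField Polynomial

namespace Pool.Agent.P.MP_12d50c_ag

namespace ZPU2

theorem cast_inj {a b : ℕ} (h : (a : WithBot ℕ∞) = b) : a = b := by exact_mod_cast h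

theorem eq_of_dim {R : Type} [CommRing R] {P P' : Ideal R} [P.IsPrime] (h : P ≤ P') {r : ℕ}
    (h1 : ringKrullDim (R ⧸ P) = r) (h2 : ringKrullDim (R ⧸ P') = r) : P = P' := by
  by_contra h3
  have h4 := M3.dim_lt (lt_of_le_of_ne h h3)
  rw [h1, h2] at h4
  have h5 : r + 1 ≤ r := by exact_mod_cast h4
  omega

end ZPU2

open ZPU2 in
theorem z_PU2 (hVP0 : S_VP0) (hFC : Z_FC) (hPRP : Z_PRP) (hDD : Z_DD) (hPF : Z_PF)
    (hPL : Z_PL) :
    Z_PU2 := by
  intro k _ _ N n I j hI W hW hP hd q hq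
  have hj : Injective j.succAbove := Fin.succAbove_right_injective
  have hjr : ∀ a ∉ Set.range j.succAbove, a = j := fun a ha => by
    by_contra h
    exact ha (Fin.exists_succAbove_eq h)
  have hjn : j ∉ Set.range j.succAbove := fun ⟨a, h⟩ => Fin.succAbove_ne j a h
  obtain ⟨a1, a2⟩ := (hFC k N).1 n (n + 1) _ hj
  obtain ⟨b1, b2⟩ := (hFC k (N + 1 + N)).1 n (n + 1) _ hj
  let q0 : PrimeSpectrum (RR k N (n + 1)) := ⟨q.asIdeal.comap (smap j.succAbove), inferInstance⟩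
  have hq0 : ringKrullDim (RR k N (n + 1) ⧸ q0.asIdeal) = (n + 1 : ℕ) := (a1 _).2.1.trans hq.2
  have hdim : ∀ Q : Ideal (RR k (N + 1 + N) (n + 1)), Adm (SI I) Q → prj Q = q0.asIdeal →
      (dg Q ≠ 0 → ringKrullDim (RR k (N + 1 + N) (n + 1) ⧸ Q) = (n + 1 : ℕ)) ∧
      (dg Q = 0 → ringKrullDim (RR k (N + 1 + N) (n + 1) ⧸ Q) = (n + 1 + 1 : ℕ)) :=
    fun Q h1 h2 => by
      obtain ⟨r, h3, h4⟩ := hDD k N _ I Q hI h1
      rw [h2, hq0] at h3
      obtain rfl : n = r := Nat.add_right_cancel (cast_inj h3)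
      exact h4
  have hnc : ∀ Q, Adm (SI I) Q → W.asIdeal ≤ Q → prj Q = q0.asIdeal → dg Q ≠ 0 :=
    fun Q h1 h2 h3 h4 => hd (eq_of_dim h2 hW.2 ((hdim Q h1 h3).2 h4) ▸ h4)
  have hdW : ringKrullDim (RR k N (n + 1) ⧸ prj W.asIdeal) = (n + 1 + 1 : ℕ) := by
    obtain ⟨r, h3, h4, -⟩ := hDD k N _ I _ hI hW.1
    rw [h3, ← h4 hd, hW.2]
  obtain ⟨-, h1⟩ := hPL k N (n + 1) (n + 1) I W.asIdeal q0 j hI hW.1
    (((hVP0 k N (n + 1)).1 n _).2.2.2.1 I _ hq.1) hdW hq0
    ((hPRP k _ _).1 n W hW hP j) hnc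
  rw [(hFC k N).2 n j, ← h1]
  let e : PrimeSpectrum (RR k (N + 1 + N) n) → PrimeSpectrum (RR k (N + 1 + N) (n + 1)) :=
    fun Q => ⟨Q.asIdeal.comap (smap j.succAbove), inferInstance⟩
  refine (finsum_mem_inter_support_eq' _ _
    {Q | Q ∈ Cv (SI I) n ∧ prj Q.asIdeal = q.asIdeal ∧ W.asIdeal ≤ (e Q).asIdeal}
    fun Q hQ => ⟨fun h => ⟨h.1, h.2, ?_⟩, fun h => And.intro h.1 h.2.1⟩).trans
    (finsum_mem_eq_of_bijOn e ⟨fun Q hQ => ⟨?_, hQ.2.2, ?_⟩, fun Q _ Q' _ h => ?_,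
      fun P hP => ?_⟩ fun Q hQ => ?_)
  · by_contra h2
    refine hQ ?_
    simp only [len_eq_zero_iff.2 fun h3 => h2 (Ideal.map_le_iff_le_comap.1 h3)]
    simp
  · exact ((hVP0 k _ (n + 1)).1 n _).2.2.2.1 _ _ hQ.1.1
  · exact (((hPF k N (n + 1)).2.2 n _ _).1).trans (by rw [hQ.2.1])
  · have h2 := congrArg PrimeSpectrum.asIdeal h
    exact PrimeSpectrum.ext (le_antisymm ((b1 _).2.2 _ h2.le) ((b1 _).2.2 _ h2.ge))
  · obtain ⟨Q, h2, h3⟩ := b2 _ _ hP.1 fun a ha => by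
      rw [hjr a ha, ← (hPF k N (n + 1)).2.1, hP.2.2]
      exact (a1 _).1 j hjn
    have h4 := ((hPF k N (n + 1)).2.2 n j.succAbove Q).1
    rw [h3, hP.2.2] at h4
    refine ⟨⟨Q, h2.prime⟩, ⟨⟨h2, ?_⟩,
      le_antisymm ((a1 _).2.2 _ h4.ge) ((a1 _).2.2 _ h4.le), hP.2.1.trans h3.ge⟩,
      PrimeSpectrum.ext h3⟩
    rw [← (b1 Q).2.1, h3]
    exact (hdim _ hP.1 hP.2.2).1 (hnc _ hP.1 hP.2.1 hP.2.2)
  · rw [(hFC k _).2 n j, ← ((hPF k N (n + 1)).2.2 n j.succAbove _).2 I hI hj hQ.1.1]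

end Pool.Agent.P.MP_12d50c_ag

end

section

/-! Step SD. -/

open MvPolynomial Function WithZero IsLocalRing
open Pool.Agent.P.MP_6f117a_ag (Place FF Model Reg)
open scoped IntermediateField Polynomial

namespace Pool.Agent.P.MP_12d50c_ag

namespace ZSD

theorem rel {k : Type} [Field k] {N d : ℕ} {I : Ideal (PP k N)}
    (h : ringKrullDim (PP k N ⧸ I) = (d + 1 : ℕ)) : Rel I := by
  by_contra h1
  simp only [Rel, not_exists, not_not] at h1
  have h2 : Function.Surjective (algebraMap k (PP k N ⧸ I)) := fun a => by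
    obtain ⟨f, rfl⟩ := Ideal.Quotient.mk_surjective a
    induction f using MvPolynomial.induction_on with
    | C c => exact ⟨c, rfl⟩
    | add f g hf hg =>
      obtain ⟨a, ha⟩ := hf
      obtain ⟨b, hb⟩ := hg
      exact ⟨a + b, by rw [map_add, map_add, ha, hb]⟩
    | mul_X f i _ =>
      exact ⟨0, by rw [map_zero, map_mul, Ideal.Quotient.eq_zero_iff_mem.2 (h1 i), mul_zero]⟩
  have h3 := ringKrullDim_le_of_surjective _ h2
  rw [h, ringKrullDim_eq_zero_of_field] at h3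
  norm_cast at h3

theorem simple {K Ω : Type} [Field K] [Field Ω] [Algebra K Ω] {v : Ω} (h : K⟮v⟯ = ⊤) :
    Algebra.trdeg K Ω ≤ 1 := by
  have : Algebra.IsAlgebraic (Algebra.adjoin K {v}) Ω := by
    rw [← IntermediateField.isAlgebraic_adjoin_iff_top, h, Algebra.isAlgebraic_iff_isIntegral]
    exact Algebra.isIntegral_of_surjective IntermediateField.topEquiv.surjective
  simpa using Algebra.IsAlgebraic.trdeg_le_cardinalMk K ({v} : Set Ω)

theorem top_rat {k E : Type} [Field k] [Field E] [Algebra k E] (K : IntermediateField k (RatFunc E))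
    (h1 : ∀ e, algebraMap E (RatFunc E) e ∈ K) (h2 : RatFunc.X ∈ K) : K = ⊤ := by
  have h3 : ∀ p : E[X], algebraMap E[X] (RatFunc E) p ∈ K := fun p => by
    induction p using Polynomial.induction_on' with
    | add p q hp hq => rw [map_add]; exact add_mem hp hq
    | monomial n a =>
      rw [← Polynomial.C_mul_X_pow_eq_monomial, map_mul, map_pow, RatFunc.algebraMap_X]
      exact mul_mem (h1 a) (pow_mem h2 n)
  refine top_unique fun f _ => ?_
  rw [← RatFunc.num_div_denom f]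
  exact div_mem (h3 _) (h3 _)

end ZSD

theorem z_SD (hEX : S_EX) (hDM : S_DM) (hTR : S_TR) (hSP : Z_SP) :
    Z_SD := by
  intro k _ N d I hI hH hd
  obtain ⟨i, hi⟩ := ZSD.rel hd
  obtain ⟨s1, -, -, s4, s5, -⟩ := hSP k N I
  obtain ⟨s5, -, s6, -⟩ := s5 hH
  have := s1 hI
  obtain ⟨E, _, _, ξ, e1, e2, e3⟩ := hEX k _ 1 I i hH rfl hi
  obtain ⟨n, n1, n2⟩ := hDM k _ 1 E ξ i e3 rfl (by simp [e2])
  obtain rfl : n = d := by
    rw [e1, hd] at n2
    have : d + 1 = n + 1 := by exact_mod_cast n2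
    omega
  let φ := IsScalarTower.toAlgHom k E (RatFunc E)
  let η := sg (fun j => φ (ξ j)) 1 RatFunc.X
  have η1 : η (il i) = 1 := by simp [η, e2]
  have hη : On (SI I) η := s4 _ _ _ _ fun f hf => by
    rw [← map_aeval', aeval_eq_zero_of_mem_vanw (e1.ge hf), map_zero]
  refine le_antisymm ?_ ?_
  · obtain ⟨Ω, _, _, y, y1, y2, y3⟩ := hEX k _ 1 (SI I) (il i) s5 rfl fun h => by
      simpa [η1] using hη _ h
    obtain ⟨m, m1, m2⟩ := hDM k _ 1 Ω y (il i) y3 rfl (by simp [y2])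
    obtain ⟨x, u, v, ⟨j, hj⟩, hx, -, rfl⟩ := s6 Ω y (fun h => by simp [h] at y2)
      fun f hf => aeval_eq_zero_of_mem_vanw (y1.ge hf)
    let K := IntermediateField.adjoin k (Set.range x)
    have t1 : Algebra.trdeg k K ≤ n := hTR.2.2 k Ω N n I x j hH hd.le hx hj
    have t2 : K⟮v⟯ = ⊤ := by
      have hxK : ∀ a, x a ∈ K⟮v⟯ := fun a =>
        IntermediateField.algebraMap_mem _ (⟨x a, IntermediateField.subset_adjoin k _ ⟨a, rfl⟩⟩ : K)
      rw [← IntermediateField.restrictScalars_eq_top_iff (K := k), ← top_le_iff,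
        ← (gen_iff (w := 1) rfl y2).1 y3, IntermediateField.adjoin_le_iff]
      rintro _ ⟨c, rfl⟩
      rcases il_or_ir c with ⟨a, rfl⟩ | ⟨a, rfl⟩
      · rw [sg_il] at y2 ⊢
        rw [eq_inv_of_mul_eq_one_left y2]
        exact mul_mem (s := K⟮v⟯) (inv_mem (hxK i)) (hxK a)
      · rw [sg_ir]
        exact mul_mem (s := K⟮v⟯) (IntermediateField.mem_adjoin_simple_self K v) (hxK a)
    have t3 := add_le_add t1 (ZSD.simple t2)
    rw [trdeg_add_eq, m1] at t3
    rw [← y1, m2]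
    have : m ≤ n + 1 := by exact_mod_cast t3
    exact_mod_cast Nat.succ_le_succ this
  · have g : Gen k 1 η := by
      refine (gen_iff (w := 1) rfl η1).2 (ZSD.top_rat _ (fun e => ?_) ?_)
      · have : IntermediateField.adjoin k (Set.range ξ) ≤
            (IntermediateField.adjoin k (Set.range η)).comap φ := by
          rw [IntermediateField.adjoin_le_iff]
          rintro _ ⟨a, rfl⟩
          exact IntermediateField.subset_adjoin k _ ⟨il a, by simp [η]⟩
        exact this (((gen_iff (w := 1) rfl e2).1 e3).ge IntermediateField.mem_top)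
      · exact IntermediateField.subset_adjoin k _ ⟨ir i, by simp [η, e2]⟩
    obtain ⟨m, m1, m2⟩ := hDM k _ 1 _ η (il i) g rfl (by simp [η1])
    have t1 : (1 : Cardinal) ≤ Algebra.trdeg E (RatFunc E) :=
      Cardinal.one_le_iff_pos.2 (trdeg_pos _ _)
    have t3 := add_le_add n1.ge t1
    rw [trdeg_add_eq, m1] at t3
    have h1 : n + 1 ≤ m := by exact_mod_cast t3
    refine le_trans ?_ (ringKrullDim_le_of_surjective _
      (Ideal.Quotient.factor_surjective (s5.on_iff.1 hη)))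
    rw [m2]
    exact_mod_cast Nat.succ_le_succ h1

end Pool.Agent.P.MP_12d50c_ag

end

section

/-! Step SIS. -/

open MvPolynomial Function WithZero IsLocalRing
open Pool.Agent.P.MP_6f117a_ag (Place FF Model Reg)
open scoped IntermediateField Polynomial

namespace Pool.Agent.P.MP_12d50c_ag

namespace ZSIS

variable {k : Type} [Field k] {N M : ℕ} {Ω : Type} [Field Ω] [Algebra k Ω]

theorem grad_sub (y : Fin (N + 1) → Ω) (f g : PP k N) (δ : Fin (N + 1) → Ω) :
    grad y (f - g) δ = grad y f δ - grad y g δ := by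
  simp [grad, sub_mul, Finset.sum_sub_distrib]

theorem grad_rename (e : Fin (N + 1) → Fin (M + 1)) (y δ : Fin (M + 1) → Ω) (f : PP k N) :
    grad y (rename e f : PP k M) δ = grad (fun i => y (e i)) f fun i => δ (e i) := by
  induction f using MvPolynomial.induction_on with
  | C c => rw [rename_C, grad_C, grad_C]
  | add f g hf hg => rw [map_add, grad_add, grad_add, hf, hg]
  | mul_X f i hf =>
    rw [map_mul, rename_X, grad_mul, grad_mul, hf, grad_X, grad_X, aeval_X, aeval_X, aeval_rename]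
    rfl

theorem key {I : Ideal (PP k N)} {J : Ideal (PP k M)} (hI : Hom I)
    {e e' : Fin (N + 1) → Fin (M + 1)} (he : ∀ a, (∃ i, a = e i) ∨ ∃ i, a = e' i)
    (h1 : ∀ f ∈ I, rename e f ∈ J) (h2 : ∀ i j, X (e i) * X (e' j) - X (e j) * X (e' i) ∈ J)
    {x : Fin (N + 1) → Ω} {y : Fin (M + 1) → Ω} {u : Ω} (hu : u ≠ 0) (hx : On I x)
    {i : Fin (N + 1)} (hi : x i = 1) (hy : ∀ j, y (e j) = u * x j) :
    Module.finrank Ω (Tan J y) ≤ Module.finrank Ω (Tan I x) + 1 := by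
  have m : ∀ δ : Tan J y, (fun j => δ.1 (e j)) ∈ Tan I x := fun δ => by
    rw [← Tan_scale hI hx hu]
    intro f hf
    have := δ.2 _ (h1 f hf)
    rwa [grad_rename, funext hy] at this
  let Φ : Tan J y →ₗ[Ω] Tan I x × Ω :=
    { toFun := fun δ => (⟨_, m δ⟩, δ.1 (e' i))
      map_add' := fun _ _ => rfl
      map_smul' := fun _ _ => rfl }
  have hΦ : Injective Φ := by
    rw [injective_iff_map_eq_zero]
    intro δ h
    have a1 : ∀ j, δ.1 (e j) = 0 := fun j => congrFun (congrArg (fun z => z.1.1) h) j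
    have a2 : δ.1 (e' i) = 0 := congrArg Prod.snd h
    refine Subtype.ext (funext fun a => ?_)
    rcases he a with ⟨j, rfl⟩ | ⟨j, rfl⟩
    · exact a1 j
    · have := δ.2 _ (h2 i j)
      simp only [grad_sub, grad_mul, grad_X, aeval_X, a1, a2, hy, hi, mul_zero, add_zero, sub_zero,
        mul_one] at this
      exact (mul_eq_zero.1 this).resolve_left hu
  have := LinearMap.finrank_le_finrank_of_injective hΦ
  rwa [Module.finrank_prod, Module.finrank_self] at this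

end ZSIS

theorem z_SIS (hNS0 : S_NS0) (hSP : Z_SP) (hSD : Z_SD) :
    Z_SIS := by
  intro k _ N
  refine ⟨fun d I hI => ?_, fun y => ⟨inferInstance, wHom_vanw _, by simpa using hNS0.1 k N y,
    fun Ω _ _ z _ _ => ?_⟩⟩
  · obtain ⟨a1, -, a3, -, a5, -⟩ := hSP k N I
    obtain ⟨b1, b2, b3, -⟩ := a5 hI.hom
    refine ⟨a1 hI.prime, b1, hSD k N d I hI.prime hI.hom hI.dim, fun Ω _ _ y hy hon => ?_⟩
    obtain ⟨x, u, v, ⟨i, hi⟩, hx, huv, rfl⟩ := b3 Ω y hy hon
    have h0 := hI.le Ω x (fun h => one_ne_zero (hi.symm.trans (congrFun h i))) hx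
    refine le_trans ?_ (Nat.add_le_add_right h0 1)
    rcases huv with hu | hv
    · exact ZSIS.key hI.hom il_or_ir (fun f hf => (b2 f hf).1) a3 hu hx hi (sg_il x u v)
    · exact ZSIS.key hI.hom (fun a => (il_or_ir a).symm) (fun f hf => (b2 f hf).2)
        (fun i j => by rw [mul_comm, mul_comm (X (ir j))]; exact a3 j i) hv hx hi (sg_ir x u v)
  · let Φ : Tan (van k y.1) z →ₗ[Ω] Ω :=
      { toFun := fun δ => δ.1 y.piv
        map_add' := fun _ _ => rfl
        map_smul' := fun _ _ => rfl }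
    have hΦ : Injective Φ := by
      rw [injective_iff_map_eq_zero]
      intro δ h
      have a1 : δ.1 y.piv = 0 := h
      refine Subtype.ext (funext fun j => ?_)
      have := δ.2 (X j - C (y.1 j) * X y.piv) ((mem_van_of_hom ((isHomogeneous_X k j).sub
        (isHomogeneous_C_mul_X _ _))).2 (by simp [y.piv_eq]))
      simp only [ZSIS.grad_sub, grad_mul, grad_X, grad_C, a1, mul_zero, add_zero, sub_zero] at this
      exact this
    simpa using LinearMap.finrank_le_finrank_of_injective hΦ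

end Pool.Agent.P.MP_12d50c_ag

end

section

/-! Step SM1. -/

open MvPolynomial Function WithZero IsLocalRing
open Pool.Agent.P.MP_6f117a_ag (Place FF Model Reg)
open scoped IntermediateField Polynomial

namespace Pool.Agent.P.MP_12d50c_ag

namespace ZSM1

variable {k : Type} [Field k] {N : ℕ} {E : Type} [Field E] [Algebra k E] {ξ : Fin (N + 1) → E}

theorem arch {a : ℤᵐ⁰} (ha : a < 1) (b : ℤᵐ⁰) : ∃ n : ℕ, a ^ n * b ≤ 1 := by
  rcases eq_or_ne b 0 with rfl | hb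
  · exact ⟨0, by simp⟩
  obtain ⟨n, hn⟩ := exists_pow_lt₀ ha (Units.mk0 b hb)⁻¹
  refine ⟨n, ?_⟩
  have := mul_le_mul_left hn.le b
  simpa [hb] using this

theorem le_one {P : Place k E} {x : E} {c : k} (h : P.v (x - algebraMap k E c) < 1) :
    P.v x ≤ 1 := by
  have := P.v.map_add_le h.le (P.triv c)
  rwa [sub_add_cancel] at this

theorem eq_one {P : Place k E} {x : E} {c : k} (h : P.v (x - algebraMap k E c) < 1) (hc : c ≠ 0) :
    P.v x = 1 := by
  have := P.v.map_add_eq_of_lt_right (x := x - algebraMap k E c) (y := algebraMap k E c)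
    (by rwa [P.v_const hc])
  rwa [sub_add_cancel, P.v_const hc] at this

theorem pow_notMem (y : NP k N) (e : ℕ) : (X y.piv : PP k N) ^ e ∉ van k y.1 := fun h =>
  y.X_piv_notMem (Ideal.IsPrime.mem_of_pow_mem inferInstance e h)

theorem mem_loc (y : NP k N) (h0 : ξ y.piv ≠ 0) {g : PP k N} {e : ℕ} (hg : g.IsHomogeneous e) :
    aeval ξ g / ξ y.piv ^ e ∈ locw 1 ξ (van k y.1) :=
  ⟨e, g, X y.piv ^ e, hg, isHomogeneous_X_pow _ _, pow_notMem y e, by
    rw [map_pow, aeval_X, div_mul_cancel₀ _ (pow_ne_zero _ h0)]⟩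

theorem inv_mem_loc (y : NP k N) {g : PP k N} {e : ℕ} (hg : g.IsHomogeneous e)
    (h1 : aeval y.1 g ≠ 0) (h2 : aeval ξ g ≠ 0) :
    (aeval ξ g / ξ y.piv ^ e)⁻¹ ∈ locw 1 ξ (van k y.1) :=
  ⟨e, X y.piv ^ e, g, isHomogeneous_X_pow _ _, hg, fun h => h1 ((mem_van_of_hom hg).1 h), by
    rw [map_pow, aeval_X, inv_div, div_mul_cancel₀ _ h2]⟩

end ZSM1

open ZSM1 in
theorem z_SM1 (hAVOID : S_AVOID) (hPLACE : S_PLACE) (hCUF : Z_CUF) (hCTR : Z_CTR)
    (hNRM : Z_NRM) :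
    Z_SM1 := by
  intro k _ _ N E _ _ ξ P y hξ hP huniq
  classical
  have hFF : FF k E := ((hCUF k N).1 E ξ hξ).1
  obtain ⟨hex, hc, -⟩ := hCTR k N E ξ hξ
  obtain ⟨h0, -, -, -, hv⟩ := hc P y hP
  obtain ⟨g, e, hg, ht, hR⟩ := hNRM k N E ξ y.piv hξ h0
  set t := aeval ξ g / ξ y.piv ^ e with htdef
  obtain ⟨hM, hfin, -⟩ := hPLACE k E
  obtain ⟨b, hb⟩ := (hM t ht).basis
  have hPt : P.v t ≤ 1 := le_one (hv g e hg)
  have hA : ∀ a ∈ locw 1 ξ (van k y.1), P.v a ≤ 1 := by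
    rintro a ⟨d, p, q, h1, h2, h3, h4⟩
    have h5 := eq_one (hv q d h2) fun h => h3 ((mem_van_of_hom h2).2 h)
    have h6 := le_one (hv p d h1)
    rwa [← h4, mul_div_assoc, map_mul, h5, mul_one] at h6
  have hle : ∀ (P' : Place k E) (y' : NP k N), P'.v t ≤ 1 → Ctr P' ξ y' → ∀ l : PP k N,
      P'.v (aeval ξ l / ξ y.piv ^ 1) ≤ P'.v (aeval ξ l / ξ y'.piv ^ 1) := fun P' y' h1 h2 l => by
    have h3 : aeval ξ l / ξ y.piv ^ 1 = aeval ξ l / ξ y'.piv ^ 1 * (ξ y'.piv / ξ y.piv) := by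
      have := (hc P' y' h2).1
      field_simp
    rw [h3, map_mul]
    exact mul_le_of_le_one_right' (hR _ P' h1)
  refine ⟨Finset.univ.image b, fun u => ⟨fun hu => ?_, fun hu => ?_⟩⟩
  · rcases eq_or_ne u 0 with rfl | hu0
    · exact zero_mem _
    have key : ∀ Z : Set (Place k E), Z.Finite → ∃ w : E, w ≠ 0 ∧ w⁻¹ ∈ locw 1 ξ (van k y.1) ∧
        Reg k t w ∧ ∀ P' ∈ Z, P'.v t ≤ 1 → P'.v (w * u) ≤ 1 := by
      intro Z hZ
      induction Z, hZ using Set.Finite.induction_on with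
      | empty => exact ⟨1, one_ne_zero, by simp, fun P' _ => by simp, by simp⟩
      | @insert P' Z _ _ ih =>
        obtain ⟨w, h1, h2, h3, h4⟩ := ih
        by_cases h5 : P'.v t ≤ 1 ∧ P' ≠ P
        · obtain ⟨y', hy'⟩ := hex P'
          obtain ⟨l, hl, hl1, hl2⟩ := (hAVOID k N {y} (Set.finite_singleton y)).2 y'
            (fun h => h5.2 (huniq P' (Set.mem_singleton_iff.1 h ▸ hy'))) 1 one_pos
          have h6 := eq_one (hv l 1 hl) (hl2 y rfl)
          have h7 : aeval ξ l / ξ y.piv ^ 1 ≠ 0 := fun h => by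
            rw [h, map_zero] at h6
            exact zero_ne_one h6
          have h8 : Reg k t (aeval ξ l / ξ y.piv ^ 1) := fun Q hQ => by
            obtain ⟨z, hz⟩ := hex Q
            exact (hle Q z hQ hz l).trans (le_one ((hc Q z hz).2.2.2.2 l 1 hl))
          have h9 : P'.v (aeval ξ l / ξ y.piv ^ 1) < 1 := (hle P' y' h5.1 hy' l).trans_lt (by
            simpa [hl1] using (hc P' y' hy').2.2.2.2 l 1 hl)
          obtain ⟨n, hn⟩ := arch h9 (P'.v (w * u))
          refine ⟨(aeval ξ l / ξ y.piv ^ 1) ^ n * w, mul_ne_zero (pow_ne_zero _ h7) h1, ?_,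
            fun Q hQ => ?_, ?_⟩
          · rw [mul_inv, ← inv_pow]
            exact mul_mem (pow_mem (inv_mem_loc y hl (hl2 y rfl) (div_ne_zero_iff.1 h7).1) _) h2
          · rw [map_mul, map_pow]
            exact mul_le_one' (pow_le_one' (h8 Q hQ) _) (h3 Q hQ)
          · rintro Q (rfl | hQ) hQt <;> rw [mul_assoc, map_mul, map_pow]
            · exact hn
            · exact mul_le_one' (pow_le_one' (h8 Q hQt) _) (h4 Q hQ hQt)
        · refine ⟨w, h1, h2, h3, ?_⟩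
          rintro Q (rfl | hQ) hQt
          · obtain rfl : Q = P := by_contra fun h => h5 ⟨hQt, h⟩
            rw [map_mul]
            exact mul_le_one' (h3 Q hQt) hu
          · exact h4 Q hQ hQt
    obtain ⟨w, h1, h2, h3, h4⟩ := key _ (hfin u hu0)
    obtain ⟨p, hp⟩ := (hb (w * u)).1 fun Q hQ => by
      by_cases h5 : Q.v u = 1
      · rw [map_mul, h5, mul_one]
        exact h3 Q hQ
      · exact h4 Q h5 hQ
    have h6 : u = ∑ i, (w⁻¹ * Polynomial.aeval t (p i)) * b i := by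
      simp only [mul_assoc, ← Finset.mul_sum, ← hp, inv_mul_cancel_left₀ h1]
    rw [h6]
    refine Submodule.sum_mem _ fun i _ => ?_
    have h7 : Polynomial.aeval t (p i) ∈ locw 1 ξ (van k y.1) :=
      Algebra.adjoin_le (Set.singleton_subset_iff.2 (mem_loc y h0 hg))
        (Polynomial.aeval_mem_adjoin_singleton k t)
    exact Submodule.smul_mem (Submodule.span (locw 1 ξ (van k y.1)) _) ⟨_, mul_mem h2 h7⟩
      (Submodule.subset_span (by simp))
  · induction hu using Submodule.span_induction with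
    | mem x hx =>
      obtain ⟨i, -, rfl⟩ := Finset.mem_image.1 hx
      refine (hb _).2 ⟨Pi.single i 1, ?_⟩ P hPt
      rw [Finset.sum_eq_single i (fun j _ hj => by simp [hj]) (by simp)]
      simp
    | zero => simp
    | add x z _ _ h1 h2 => exact P.v.map_add_le h1 h2
    | smul a x _ h1 =>
      change P.v (a.1 * x) ≤ 1
      rw [map_mul]
      exact mul_le_one' (hA _ a.2) h1

end Pool.Agent.P.MP_12d50c_ag

end
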